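import Pool.Agent.Lib.H53P.TF10

/-! # H53P, topology, file F13: separation by a triangle -/

open Set

namespace H53P

open SimpleDraw

variable {n : ℕ} (D : SimpleDrawing n)

theorem tf13_one {a b x x' : Fin n} (hab : a ≠ b) (hxa : x ≠ a) (hxb : x ≠ b) (hxx : x ≠ x')
    (h : X D x x' a b = false) {γ : ℝ → ℂ} (hγ : Par γ (D.curve x x') (D.pt x) (D.pt x')) {r : ℝ}
    (hr : r ∈ Ico (0 : ℝ) 1) : γ r ∉ D.curve a b := by
  intro hc
  have hmem : γ r ∈ D.curve x x' := by
    rw [← hγ.image]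
    exact ⟨r, ⟨hr.1, hr.2.le⟩, rfl⟩
  have hne : γ r ≠ D.pt x' := fun h1 => by
    rw [← hγ.one] at h1
    have h2 := hγ.inj ⟨hr.1, hr.2.le⟩ ⟨zero_le_one, le_rfl⟩ h1
    exact hr.2.ne h2
  by_cases ha : x' = a
  · subst ha
    have h2 : γ r ∈ D.curve x' x ∩ D.curve x' b := ⟨by rw [D.curve_symm]; exact hmem, hc⟩
    rw [tf4_adj D hxa.symm hab hxb] at h2
    exact hne h2
  by_cases hb : x' = b
  · subst hb
    have h2 : γ r ∈ D.curve x' x ∩ D.curve x' a :=
      ⟨by rw [D.curve_symm]; exact hmem, by rw [D.curve_symm]; exact hc⟩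
    rw [tf4_adj D hxb.symm hab.symm hxa] at h2
    exact hne h2
  unfold X at h
  rw [decide_eq_false_iff_not] at h
  exact h ⟨hxx, hab, hxa, hxb, ha, hb, γ r, hmem, hc⟩

theorem tf13_side {a b c x x' : Fin n} (hab : a ≠ b) (hbc : b ≠ c) (hca : c ≠ a) (hxa : x ≠ a)
    (hxb : x ≠ b) (hxc : x ≠ c) (hxx : x ≠ x') (h1 : X D x x' a b = false)
    (h2 : X D x x' b c = false) (h3 : X D x x' c a = false) {p : ℂ} (hp : p ∈ D.curve x x')
    (hpx : p ≠ D.pt x') : par (tch D a b c) (D.pt x) = par (tch D a b c) p := by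
  obtain ⟨γ, hγ⟩ := tf1_par D hxx
  have hC : IsPreconnected (γ '' Ico (0 : ℝ) 1) :=
    isPreconnected_Ico.image _ (hγ.cont.mono Ico_subset_Icc_self)
  have hd : Disjoint (γ '' Ico (0 : ℝ) 1) (csupp (tch D a b c)) := by
    rw [disjoint_left]
    rintro _ ⟨r, hr, rfl⟩
    rw [tch, csupp_cons, csupp_cons, csupp_cons, csupp_nil, union_empty]
    rintro (h4 | h4 | h4)
    · exact tf13_one D hab hxa hxb hxx h1 hγ hr h4
    · exact tf13_one D hbc hxb hxc hxx h2 hγ hr h4
    · exact tf13_one D hca hxc hxa hxx h3 hγ hr h4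
  have hx : D.pt x ∈ γ '' Ico (0 : ℝ) 1 := ⟨0, ⟨le_rfl, one_pos⟩, hγ.zero⟩
  have hpm : p ∈ γ '' Ico (0 : ℝ) 1 := by
    rw [← hγ.image] at hp
    obtain ⟨s, hs, rfl⟩ := hp
    exact ⟨s, ⟨hs.1, lt_of_le_of_ne hs.2 fun h5 => hpx (by rw [h5, hγ.one])⟩, rfl⟩
  unfold par
  rw [tc3_const (tf7_path D hab hbc hca) hC hd hx hpm]

/-- (TF13, M) (axiom D3b) edges on different sides of a triangle do not cross.
PROOF.  Suppose `X D x x' y y' = true`: `x, x', y, y'` are distinct and there is a point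
`p ∈ D.curve x x' ∩ D.curve y y'`, which is not a vertex (`tf5_cross`).  Claim: `par` is constant on
`D.curve x x'` minus the vertices of the triangle.  The edge `D.curve x x'` does not meet a triangle
edge independent of it (hypotheses `h1 h2 h3` and the definition of `X`), and it meets the triangle
edges containing `x'` (if `x'` is a vertex of the triangle) only in `D.pt x'`.  With `γ` a
parametrisation of `D.curve x x'` from `D.pt x`, the set `γ '' Ico 0 1` is preconnected and disjoint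
from the support of the triangle; it contains `D.pt x` and `p` (`p ≠ D.pt x'`).  So
`csum (tch D a b c) (D.pt x) = csum (tch D a b c) p` (`tc3_const`), hence the same `par`.  In the
same way `par (D.pt y) = par p`.  But `tf10_law` and `hxy` give `par (D.pt x) ≠ par (D.pt y)`
(`x ≠ y` as `crT = true`). -/
theorem tf13_sep {a b c : Fin n} (hab : a ≠ b) (hbc : b ≠ c) (hca : c ≠ a) (x y x' y' : Fin n)
    (hxa : x ≠ a) (hxb : x ≠ b) (hxc : x ≠ c) (hya : y ≠ a) (hyb : y ≠ b) (hyc : y ≠ c)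
    (h1 : X D x x' a b = false) (h2 : X D x x' b c = false) (h3 : X D x x' c a = false)
    (h4 : X D y y' a b = false) (h5 : X D y y' b c = false) (h6 : X D y y' c a = false)
    (hxy : crT D a b c x y = true) : X D x x' y y' = false := by
  by_contra hX
  rw [Bool.not_eq_false] at hX
  unfold X at hX
  obtain ⟨hxx, hyy, hxy1, hxy2, hxy3, hxy4, p, hpx, hpy⟩ :=
    @of_decide_eq_true _ (Classical.dec _) hX
  obtain ⟨-, hnv⟩ := tf5_cross D hxx hyy hxy1 hxy2 hxy3 hxy4 ⟨hpx, hpy⟩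
  have e1 := tf13_side D hab hbc hca hxa hxb hxc hxx h1 h2 h3 hpx (hnv x')
  have e2 := tf13_side D hab hbc hca hya hyb hyc hyy h4 h5 h6 hpy (hnv y')
  have e3 := tf10_law D hab hbc hca hxy1 hxa hxb hxc hya hyb hyc
  rw [e1, e2, hxy, Bool.xor_self] at e3
  exact Bool.false_ne_true e3

end H53P
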