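import Mathlib

/-! # H53P, combinatorics, file 0: abstract crossing tables

A table records which pairs of independent edges of the complete graph on `V` cross.  The four
axioms (`one`, `rot`, `tri`, `sep`) hold for simple drawings (topological part of H53P). -/

namespace H53P

/-- `c` is strictly between `a` and `b` -/
noncomputable def btw (a b c : ℝ) : Bool := decide (a < c ∧ c < b) || decide (b < c ∧ c < a)

/-- the parity of the number of crossings of `xy` with the triangle `abc` -/
def crTX {V : Type*} (X : V → V → V → V → Bool) (a b c x y : V) : Bool :=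
  (X x y a b ^^ X x y b c) ^^ X x y c a

/-- alternation of `ua, ub` with `uc, ud` in the rotation at `u`, expressed by crossings -/
def altX {V : Type*} (X : V → V → V → V → Bool) (u a b c d : V) : Bool :=
  (((X u a c d ^^ X u b c d) ^^ X a b u c) ^^ X a b u d) ^^ X a b c d

/-- abstract crossing tables -/
structure Table (V : Type*) where
  /-- `X a b c d`: the edges `ab` and `cd` cross -/
  X : V → V → V → V → Bool
  symm1 : ∀ a b c d, X a b c d = X b a c d
  symm2 : ∀ a b c d, X a b c d = X c d a b
  ne : ∀ a b c d, X a b c d = true → a ≠ b ∧ c ≠ d ∧ a ≠ c ∧ a ≠ d ∧ b ≠ c ∧ b ≠ d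
  /-- four vertices span at most one crossing -/
  one : ∀ a b c d, X a b c d = true → X a c b d = false
  /-- the rotation at `u`, cut at `w` -/
  rot : ∀ u w, u ≠ w → ∃ ρ : V → ℝ,
    (∀ x, x ≠ u → x ≠ w → ρ w < ρ x) ∧ (∀ x y, x ≠ u → y ≠ u → ρ x = ρ y → x = y) ∧
    ∀ a b x y, a ≠ u → b ≠ u → x ≠ u → y ≠ u → a ≠ b → a ≠ x → a ≠ y → b ≠ x → b ≠ y → x ≠ y →
      altX X u a b x y = (btw (ρ a) (ρ b) (ρ x) ^^ btw (ρ a) (ρ b) (ρ y))
  /-- the sides of a triangle -/
  tri : ∀ a b c, a ≠ b → b ≠ c → c ≠ a → ∀ x y z, x ≠ a → x ≠ b → x ≠ c → y ≠ a → y ≠ b →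
    y ≠ c → z ≠ a → z ≠ b → z ≠ c →
    ((crTX X a b c x y ^^ crTX X a b c y z) ^^ crTX X a b c z x) = false
  /-- edges on different sides of a triangle do not cross -/
  sep : ∀ a b c, a ≠ b → b ≠ c → c ≠ a → ∀ x y x' y', x ≠ a → x ≠ b → x ≠ c → y ≠ a → y ≠ b →
    y ≠ c → X x x' a b = false → X x x' b c = false → X x x' c a = false →
    X y y' a b = false → X y y' b c = false → X y y' c a = false →
    crTX X a b c x y = true → X x x' y y' = false

variable {V : Type*} (T : Table V)

/-- parity of the number of crossings of `xy` with the triangle `abc` -/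
def Table.crT (a b c x y : V) : Bool := crTX T.X a b c x y

/-- alternation at `u` -/
def Table.alt (u a b c d : V) : Bool := altX T.X u a b c d

/-- the arcs `u x w` and `u y w` cross -/
def Table.adj (u w x y : V) : Bool := T.X u x w y || T.X u y w x

/-- the edges of the polygonal path through the vertices of a list -/
def edges (l : List V) : List (V × V) := l.zip l.tail

/-- no two edges of the list cross -/
def Table.Plane (E : List (V × V)) : Prop :=
  ∀ e ∈ E, ∀ f ∈ E, T.X e.1 e.2 f.1 f.2 = false

/-- there is a plane cycle with at least `k` vertices -/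
def Table.HasCycle (k : ℕ) : Prop :=
  ∃ (v : V) (t : List V), (v :: t).Nodup ∧ k ≤ (v :: t).length ∧ 3 ≤ (v :: t).length ∧
    T.Plane (edges ((v :: t) ++ [v]))

/-- `L` is the list of interior vertices of a plane path from `u` to `w`, all in `S` -/
def Table.PathIn (u w : V) (S : Finset V) (L : List V) : Prop :=
  L.Nodup ∧ (∀ x ∈ L, x ∈ S) ∧ T.Plane (edges (u :: L ++ [w]))

/-- any two arcs `u x w`, `x ∈ S`, cross -/
def Table.Clique (u w : V) (S : Finset V) : Prop :=
  ∀ x ∈ S, ∀ y ∈ S, x ≠ y → T.adj u w x y = true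

/-- no two arcs `u x w`, `x ∈ S`, cross -/
def Table.Indep (u w : V) (S : Finset V) : Prop :=
  ∀ x ∈ S, ∀ y ∈ S, x ≠ y → T.adj u w x y = false

end H53P
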