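import Pool.Agent.Lib.H53P.TF9

/-! # H53P, topology, file F10: parity law for an edge and a triangle -/

open Set

namespace H53P

open SimpleDraw

variable {n : ℕ} (D : SimpleDrawing n)

/-- the times at which an edge meets an independent edge -/
theorem tf10_one {a b x y : Fin n} (hab : a ≠ b) (hxy : x ≠ y)
    (hxa : x ≠ a) (hxb : x ≠ b) (hya : y ≠ a) (hyb : y ≠ b) {γ : ℝ → ℂ}
    (hγ : Par γ (D.curve x y) (D.pt x) (D.pt y)) :
    ∃ F : Finset ℝ, (∀ t ∈ Icc (0 : ℝ) 1, (γ t ∈ D.curve a b ↔ t ∈ F)) ∧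
      (∀ t ∈ F, t ∈ Icc (0 : ℝ) 1) ∧ F.card = (X D x y a b).toNat := by
  have hne : s(x, y) ≠ s(a, b) := by
    intro h
    rw [Sym2.eq_iff] at h
    rcases h with ⟨h, _⟩ | ⟨h, _⟩
    · exact hxa h
    · exact hxb h
  by_cases h : (D.curve x y ∩ D.curve a b).Nonempty
  · obtain ⟨p, hp⟩ := h
    have hp1 : p ∈ γ '' Icc 0 1 := by
      rw [hγ.image]; exact hp.1
    obtain ⟨t, ht, htp⟩ := hp1
    refine ⟨{t}, ?_, ?_, ?_⟩
    · intro s hs
      rw [Finset.mem_singleton]
      constructor
      · intro hsa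
        have h1 : γ s ∈ D.curve x y := by
          rw [← hγ.image]; exact ⟨s, hs, rfl⟩
        have h2 := D.inter x y a b hxy hab hne ⟨h1, hsa⟩ hp
        exact hγ.inj hs ht (h2.trans htp.symm)
      · rintro rfl
        rw [htp]; exact hp.2
    · intro s hs
      rw [Finset.mem_singleton] at hs
      rw [hs]; exact ht
    · have hX : X D x y a b = true := by
        unfold X
        exact (@decide_eq_true_iff _ (Classical.dec _)).2
          ⟨hxy, hab, hxa, hxb, hya, hyb, ⟨p, hp⟩⟩
      rw [hX]; simp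
  · refine ⟨∅, ?_, ?_, ?_⟩
    · intro s hs
      constructor
      · intro hsa
        have h1 : γ s ∈ D.curve x y := by
          rw [← hγ.image]; exact ⟨s, hs, rfl⟩
        exact absurd ⟨γ s, h1, hsa⟩ h
      · intro h'; simp at h'
    · intro s hs; simp at hs
    · have hX : X D x y a b = false := by
        unfold X
        rw [decide_eq_false_iff_not]
        exact fun h' => h h'.2.2.2.2.2.2
      rw [hX]; simp

/-- rotation of the chain of a triangle -/
theorem tf10_rot (a b c : Fin n) (z : ℂ) : csum (tch D a b c) z = csum (tch D b c a) z := by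
  simp only [tch, csum_cons, csum_nil]
  ring

theorem tf10_odd (p q r : Bool) :
    decide (Odd (p.toNat + q.toNat + r.toNat)) = ((p ^^ q) ^^ r) := by
  cases p <;> cases q <;> cases r <;> decide

/-- two edges of a triangle meet an independent edge at different times -/
theorem tf10_disj {a b c x y : Fin n} (hab : a ≠ b) (hbc : b ≠ c) (hca : c ≠ a) (hxy : x ≠ y)
    (hxb : x ≠ b) (hyb : y ≠ b) {γ : ℝ → ℂ}
    (hγ : Par γ (D.curve x y) (D.pt x) (D.pt y)) {t : ℝ} (ht : t ∈ Icc (0 : ℝ) 1)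
    (h1 : γ t ∈ D.curve a b) (h2 : γ t ∈ D.curve b c) : False := by
  have h3 : γ t ∈ D.curve b a ∩ D.curve b c := ⟨by rw [D.curve_symm]; exact h1, h2⟩
  rw [tf4_adj D hab.symm hbc hca.symm, mem_singleton_iff] at h3
  have h4 : γ t ∈ D.curve x y := by
    rw [← hγ.image]; exact ⟨t, ht, rfl⟩
  rw [h3] at h4
  exact D.vertex x y b hxy hxb.symm hyb.symm h4

/-- (TF10, M) Parity law for an edge with both ends outside the triangle.
PROOF.  Let `F` be the set of `t ∈ [0,1]` with `γ t` on the support (the three edges).  Each edge of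
the triangle is independent of `xy` and meets it in at most one point (`D.inter`), the points of
different triangle edges are different (two triangle edges meet only in a vertex of the triangle,
which is not on `D.curve x y` by `D.vertex`), and `X D x y a b = true` iff there is such a point.
So `F` is finite and `decide (Odd F.card) = crT D a b c x y`.  Use `te6_law` with `s₀ = 0`, `s₁ = 1`;
the jumps come from `tf9_jump` for the three rotations of the triangle (`tf8_rot`: `csum` of the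
rotated chains agree by `csum_perm`).  The vertices `D.pt x`, `D.pt y` are not on the support. -/
theorem tf10_law {a b c x y : Fin n} (hab : a ≠ b) (hbc : b ≠ c) (hca : c ≠ a) (hxy : x ≠ y)
    (hxa : x ≠ a) (hxb : x ≠ b) (hxc : x ≠ c) (hya : y ≠ a) (hyb : y ≠ b) (hyc : y ≠ c) :
    (par (tch D a b c) (D.pt x) ^^ par (tch D a b c) (D.pt y)) = crT D a b c x y := by
  classical
  obtain ⟨γ, hγ⟩ := tf1_par D hxy
  obtain ⟨F1, h11, h12, h13⟩ := tf10_one D hab hxy hxa hxb hya hyb hγ
  obtain ⟨F2, h21, h22, h23⟩ := tf10_one D hbc hxy hxb hxc hyb hyc hγ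
  obtain ⟨F3, h31, h32, h33⟩ := tf10_one D hca hxy hxc hxa hyc hya hγ
  have d12 : Disjoint F1 F2 := by
    rw [Finset.disjoint_left]
    intro t ht1 ht2
    have ht := h12 t ht1
    exact tf10_disj D hab hbc hca hxy hxb hyb hγ ht ((h11 t ht).2 ht1) ((h21 t ht).2 ht2)
  have d23 : Disjoint F2 F3 := by
    rw [Finset.disjoint_left]
    intro t ht1 ht2
    have ht := h22 t ht1
    exact tf10_disj D hbc hca hab hxy hxc hyc hγ ht ((h21 t ht).2 ht1) ((h31 t ht).2 ht2)
  have d31 : Disjoint F3 F1 := by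
    rw [Finset.disjoint_left]
    intro t ht1 ht2
    have ht := h32 t ht1
    exact tf10_disj D hca hab hbc hxy hxa hya hγ ht ((h31 t ht).2 ht1) ((h11 t ht).2 ht2)
  have hcard : (F1 ∪ F2 ∪ F3).card = F1.card + F2.card + F3.card := by
    rw [Finset.card_union_of_disjoint, Finset.card_union_of_disjoint d12]
    rw [Finset.disjoint_union_left]
    exact ⟨d31.symm, d23⟩
  have hr2 : ∀ z, csum (tch D a b c) z = csum (tch D b c a) z := tf10_rot D a b c
  have hr3 : ∀ z, csum (tch D a b c) z = csum (tch D c a b) z := fun z =>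
    (tf10_rot D c a b z).symm
  have j1 : ∀ t ∈ F1, t ∈ Ioo (0 : ℝ) 1 ∧ ∃ δ > 0, ∀ s ∈ Ioo (t - δ) t, ∀ s' ∈ Ioo t (t + δ),
      ∃ m : ℤ, csum (tch D a b c) (γ s') - csum (tch D a b c) (γ s) =
        (2 * m + 1) * (2 * Real.pi * Complex.I) := fun t ht =>
    tf9_jump D hab hbc hca hxy hxa hxb hya hyb hγ (h12 t ht) ((h11 t (h12 t ht)).2 ht)
  have j2 : ∀ t ∈ F2, t ∈ Ioo (0 : ℝ) 1 ∧ ∃ δ > 0, ∀ s ∈ Ioo (t - δ) t, ∀ s' ∈ Ioo t (t + δ),
      ∃ m : ℤ, csum (tch D a b c) (γ s') - csum (tch D a b c) (γ s) =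
        (2 * m + 1) * (2 * Real.pi * Complex.I) := by
    intro t ht
    simp only [hr2]
    exact tf9_jump D hbc hca hab hxy hxb hxc hyb hyc hγ (h22 t ht) ((h21 t (h22 t ht)).2 ht)
  have j3 : ∀ t ∈ F3, t ∈ Ioo (0 : ℝ) 1 ∧ ∃ δ > 0, ∀ s ∈ Ioo (t - δ) t, ∀ s' ∈ Ioo t (t + δ),
      ∃ m : ℤ, csum (tch D a b c) (γ s') - csum (tch D a b c) (γ s) =
        (2 * m + 1) * (2 * Real.pi * Complex.I) := by
    intro t ht
    simp only [hr3]
    exact tf9_jump D hca hab hbc hxy hxc hxa hyc hya hγ (h32 t ht) ((h31 t (h32 t ht)).2 ht)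
  have jj : ∀ t ∈ F1 ∪ F2 ∪ F3, t ∈ Ioo (0 : ℝ) 1 ∧ ∃ δ > 0, ∀ s ∈ Ioo (t - δ) t,
      ∀ s' ∈ Ioo t (t + δ),
      ∃ m : ℤ, csum (tch D a b c) (γ s') - csum (tch D a b c) (γ s) =
        (2 * m + 1) * (2 * Real.pi * Complex.I) := by
    intro t ht
    rw [Finset.mem_union, Finset.mem_union] at ht
    rcases ht with (ht | ht) | ht
    · exact j1 t ht
    · exact j2 t ht
    · exact j3 t ht
  have key := te6_law (tf7_path D hab hbc hca) (γ := γ) (s₀ := 0) (s₁ := 1) one_pos hγ.cont
    (F1 ∪ F2 ∪ F3) (fun t ht => (jj t ht).1) (by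
      intro s hs
      simp only [tch, csupp_cons, csupp_nil, mem_union, mem_empty_iff_false, or_false,
        Finset.mem_union, h11 s hs, h21 s hs, h31 s hs]
      tauto) (fun t ht => (jj t ht).2)
  rw [hγ.zero, hγ.one, hcard, h13, h23, h33, tf10_odd] at key
  rw [key]
  rfl

theorem tf10_cr_self (a b c x : Fin n) : crT D a b c x x = false := by
  have h : ∀ p q, X D x x p q = false := by
    intro p q
    unfold X
    rw [decide_eq_false_iff_not]
    exact fun h' => h'.1 rfl
  simp [crT, h]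

theorem tf10_cr_symm (a b c x y : Fin n) : crT D a b c x y = crT D a b c y x := by
  unfold crT
  rw [(tf6_symm D x y a b).1, (tf6_symm D x y b c).1, (tf6_symm D x y c a).1]

/-- (TF12, S) (axiom D3a) disjoint triangles cross an even number of times (also if `x, y, z` are
not distinct).  PROOF.  If `x = y`: `crT D a b c x x = false` (`X D x x _ _ = false`), and
`crT D a b c x z = crT D a b c z x`; similarly for the other coincidences.  For distinct `x, y, z`
use `tf10_law` three times. -/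
theorem tf12_tri {a b c : Fin n} (hab : a ≠ b) (hbc : b ≠ c) (hca : c ≠ a) (x y z : Fin n)
    (hxa : x ≠ a) (hxb : x ≠ b) (hxc : x ≠ c) (hya : y ≠ a) (hyb : y ≠ b) (hyc : y ≠ c)
    (hza : z ≠ a) (hzb : z ≠ b) (hzc : z ≠ c) :
    ((crT D a b c x y ^^ crT D a b c y z) ^^ crT D a b c z x) = false := by
  by_cases h1 : x = y
  · subst h1
    rw [tf10_cr_self, tf10_cr_symm D a b c z x]
    simp
  by_cases h2 : y = z
  · subst h2
    rw [tf10_cr_self, tf10_cr_symm D a b c y x]
    simp
  by_cases h3 : z = x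
  · subst h3
    rw [tf10_cr_self, tf10_cr_symm D a b c y z]
    simp
  rw [← tf10_law D hab hbc hca h1 hxa hxb hxc hya hyb hyc,
    ← tf10_law D hab hbc hca h2 hya hyb hyc hza hzb hzc,
    ← tf10_law D hab hbc hca h3 hza hzb hzc hxa hxb hxc]
  generalize par (tch D a b c) (D.pt x) = p
  generalize par (tch D a b c) (D.pt y) = q
  generalize par (tch D a b c) (D.pt z) = r
  cases p <;> cases q <;> cases r <;> rfl

end H53P
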