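import Pool.Agent.Lib.H53P.TF9

/-! # H53P, topology, file F11: parity law for an edge starting at the triangle -/

open Set

namespace H53P

open SimpleDraw

variable {n : ℕ} (D : SimpleDrawing n)

/-- the times at which an edge meets an independent edge -/
theorem tf11_one {a b x y : Fin n} (hab : a ≠ b) (hxy : x ≠ y)
    (hxa : x ≠ a) (hxb : x ≠ b) (hya : y ≠ a) (hyb : y ≠ b) {γ : ℝ → ℂ}
    (hγ : Par γ (D.curve x y) (D.pt x) (D.pt y)) :
    ((∀ t ∈ Icc (0 : ℝ) 1, γ t ∉ D.curve a b) ∧ X D x y a b = false) ∨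
    (∃ t ∈ Icc (0 : ℝ) 1, (∀ s ∈ Icc (0 : ℝ) 1, (γ s ∈ D.curve a b ↔ s = t)) ∧
      X D x y a b = true) := by
  have hne : s(x, y) ≠ s(a, b) := by
    intro h
    rw [Sym2.eq_iff] at h
    rcases h with ⟨h, _⟩ | ⟨h, _⟩
    · exact hxa h
    · exact hxb h
  by_cases h : (D.curve x y ∩ D.curve a b).Nonempty
  · obtain ⟨p, hp⟩ := h
    have hp1 : p ∈ γ '' Icc 0 1 := by
      rw [hγ.image]; exact hp.1
    obtain ⟨t, ht, htp⟩ := hp1
    refine Or.inr ⟨t, ht, ?_, ?_⟩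
    · intro s hs
      constructor
      · intro hsa
        have h1 : γ s ∈ D.curve x y := by
          rw [← hγ.image]; exact ⟨s, hs, rfl⟩
        have h2 := D.inter x y a b hxy hab hne ⟨h1, hsa⟩ hp
        exact hγ.inj hs ht (h2.trans htp.symm)
      · rintro rfl
        rw [htp]; exact hp.2
    · unfold X
      exact (@decide_eq_true_iff _ (Classical.dec _)).2
        ⟨hxy, hab, hxa, hxb, hya, hyb, ⟨p, hp⟩⟩
  · refine Or.inl ⟨?_, ?_⟩
    · intro s hs hsa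
      have h1 : γ s ∈ D.curve x y := by
        rw [← hγ.image]; exact ⟨s, hs, rfl⟩
      exact absurd ⟨γ s, h1, hsa⟩ h
    · unfold X
      rw [decide_eq_false_iff_not]
      exact fun h' => h h'.2.2.2.2.2.2

/-- rotation of the chain of a triangle -/
theorem tf11_rot (a b c : Fin n) (z : ℂ) : csum (tch D a b c) z = csum (tch D b c a) z := by
  simp only [tch, csum_cons, csum_nil]
  ring

/-- (TF11, M) Parity law for an edge which starts at a vertex `u` of the triangle.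
PROOF.  `γ (0,1]` does not meet `D.curve u a`, `D.curve b u` (`tf4_adj`, injectivity of `γ`), and
meets `D.curve a b` in at most one point, at a time `t ∈ (0,1)` if it exists; `s* = t` or `s* = 1`.
For `0 < s < s*` use `te6_law` on `[s, 1]` with `F = {t}` or `∅` and `tf9_jump` for the rotation
`tch D a b u`. -/
theorem tf11_law {u a b y : Fin n} (hua : u ≠ a) (hab : a ≠ b) (hbu : b ≠ u) (huy : u ≠ y)
    (hya : y ≠ a) (hyb : y ≠ b) {γ : ℝ → ℂ} (hγ : Par γ (D.curve u y) (D.pt u) (D.pt y)) :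
    ∃ s' > 0, s' ≤ 1 ∧ ∀ s ∈ Ioo (0 : ℝ) s', γ s ∉ csupp (tch D u a b) ∧
      (par (tch D u a b) (γ s) ^^ par (tch D u a b) (D.pt y)) = X D u y a b := by
  have h0 : (0 : ℝ) ∈ Icc (0 : ℝ) 1 := ⟨le_rfl, zero_le_one⟩
  have hmem : ∀ s ∈ Icc (0 : ℝ) 1, γ s ∈ D.curve u y := by
    intro s hs
    rw [← hγ.image]; exact ⟨s, hs, rfl⟩
  have hm1 : ∀ s ∈ Ioc (0 : ℝ) 1, γ s ∉ D.curve u a := by
    intro s hs hc
    have h1 : γ s ∈ D.curve u y ∩ D.curve u a := ⟨hmem s ⟨hs.1.le, hs.2⟩, hc⟩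
    rw [tf4_adj D huy hua hya, mem_singleton_iff, ← hγ.zero] at h1
    have h2 := hγ.inj ⟨hs.1.le, hs.2⟩ h0 h1
    exact absurd h2 hs.1.ne'
  have hm2 : ∀ s ∈ Ioc (0 : ℝ) 1, γ s ∉ D.curve b u := by
    intro s hs hc
    rw [D.curve_symm] at hc
    have h1 : γ s ∈ D.curve u y ∩ D.curve u b := ⟨hmem s ⟨hs.1.le, hs.2⟩, hc⟩
    rw [tf4_adj D huy hbu.symm hyb, mem_singleton_iff, ← hγ.zero] at h1
    have h2 := hγ.inj ⟨hs.1.le, hs.2⟩ h0 h1
    exact absurd h2 hs.1.ne'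
  have hsup : ∀ s ∈ Ioc (0 : ℝ) 1, (γ s ∈ csupp (tch D u a b) ↔ γ s ∈ D.curve a b) := by
    intro s hs
    simp only [tch, csupp_cons, csupp_nil, mem_union, mem_empty_iff_false, or_false,
      hm1 s hs, hm2 s hs, false_or]
  rcases tf11_one D hab huy hua hbu.symm hya hyb hγ with ⟨hF, hX⟩ | ⟨t, ht, hF, hX⟩
  · refine ⟨1, one_pos, le_rfl, ?_⟩
    intro s hs
    have hs' : s ∈ Ioc (0 : ℝ) 1 := ⟨hs.1, hs.2.le⟩
    refine ⟨fun h => hF s ⟨hs.1.le, hs.2.le⟩ ((hsup s hs').1 h), ?_⟩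
    have key := te6_law (tf7_path D hua hab hbu) (γ := γ) (s₀ := s) (s₁ := 1) hs.2
      (hγ.cont.mono (Icc_subset_Icc_left hs.1.le)) ∅ (fun t ht => by simp at ht) (by
        intro r hr
        have hr' : r ∈ Ioc (0 : ℝ) 1 := ⟨hs.1.trans_le hr.1, hr.2⟩
        rw [hsup r hr']
        constructor
        · intro h; exact absurd h (hF r ⟨hr'.1.le, hr'.2⟩)
        · intro h; simp at h) (fun t ht => by simp at ht)
    rw [hγ.one] at key
    rw [key, hX]
    simp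
  · have hj := tf9_jump D hab hbu hua huy hua hbu.symm hya hyb hγ ht ((hF t ht).2 rfl)
    obtain ⟨ht1, hj⟩ := hj
    refine ⟨t, ht1.1, ht1.2.le, ?_⟩
    intro s hs
    have hs' : s ∈ Ioc (0 : ℝ) 1 := ⟨hs.1, (hs.2.trans ht1.2).le⟩
    refine ⟨fun h => ?_, ?_⟩
    · have h1 := (hF s ⟨hs'.1.le, hs'.2⟩).1 ((hsup s hs').1 h)
      exact absurd h1 hs.2.ne
    have key := te6_law (tf7_path D hua hab hbu) (γ := γ) (s₀ := s) (s₁ := 1)
      (hs.2.trans ht1.2)
      (hγ.cont.mono (Icc_subset_Icc_left hs.1.le)) {t} (fun r hr => by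
        rw [Finset.mem_singleton] at hr
        rw [hr]; exact ⟨hs.2, ht1.2⟩) (by
        intro r hr
        have hr' : r ∈ Ioc (0 : ℝ) 1 := ⟨hs.1.trans_le hr.1, hr.2⟩
        rw [hsup r hr', hF r ⟨hr'.1.le, hr'.2⟩, Finset.mem_singleton]) (fun r hr => by
        rw [Finset.mem_singleton] at hr
        rw [hr]
        simp only [tf11_rot D u a b]
        exact hj)
    rw [hγ.one] at key
    rw [key, hX]
    simp

end H53P
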