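import Pool.Agent.Lib.H53P.TH7
import Pool.Agent.Lib.H53P.TF10
import Pool.Agent.Lib.H53P.TF11
import Pool.Agent.Lib.H53P.C0

/-! # H53P, topology, file H9: the rotation at a vertex (axiom D2) -/

open Set Filter Topology

namespace H53P

open SimpleDraw

variable {n : ℕ} (D : SimpleDrawing n)

/-- alternation of `ua, ub` with `uc, ud` at `u`, expressed by crossings -/
noncomputable def altD (u a b c d : Fin n) : Bool :=
  (((X D u a c d ^^ X D u b c d) ^^ X D a b u c) ^^ X D a b u d) ^^ X D a b c d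

theorem th9_angle {c P : ℂ} {r : ℝ} (hP : ‖P - c‖ = r) (θ₀ : ℝ) :
    ∃ θ ∈ Ico θ₀ (θ₀ + 2 * Real.pi), P = cpt c r θ := by
  refine ⟨toIcoMod Real.two_pi_pos θ₀ (P - c).arg, toIcoMod_mem_Ico _ _ _, ?_⟩
  have h1 : Complex.exp ((toIcoMod Real.two_pi_pos θ₀ (P - c).arg : ℝ) * Complex.I) =
      Complex.exp ((P - c).arg * Complex.I) := by
    rw [Complex.exp_eq_exp_iff_exists_int]
    refine ⟨-toIcoDiv Real.two_pi_pos θ₀ (P - c).arg, ?_⟩
    have h2 : toIcoMod Real.two_pi_pos θ₀ (P - c).arg =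
        (P - c).arg - toIcoDiv Real.two_pi_pos θ₀ (P - c).arg • (2 * Real.pi) := rfl
    rw [h2, zsmul_eq_mul]
    push_cast
    ring
  rw [cpt, h1, ← hP, Complex.norm_mul_exp_arg_mul_I]
  ring

theorem th9_X (a b c d : Fin n) : X D a b c d = X D b a c d ∧ X D a b c d = X D c d a b ∧
    X D a b c d = X D a b d c := by
  refine ⟨(tf6_symm D a b c d).1, (tf6_symm D a b c d).2, ?_⟩
  rw [(tf6_symm D a b c d).2, (tf6_symm D c d a b).1, (tf6_symm D d c a b).2]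

theorem th9_altD_symm (u a b x y : Fin n) : altD D u a b x y = altD D u b a x y := by
  unfold altD
  rw [(th9_X D b a u x).1, (th9_X D b a u y).1, (th9_X D b a x y).1]
  cases X D u a x y <;> cases X D u b x y <;> rfl

theorem th9_btw (a b c : ℝ) : btw a b c = btw b a c := by
  unfold btw
  rw [Bool.or_comm]

theorem th9_one {u a b x : Fin n} (hua : u ≠ a) (hub : u ≠ b) (hab : a ≠ b) (hxu : x ≠ u)
    (hxa : x ≠ a) (hxb : x ≠ b) {γ : ℝ → ℂ} {r t θ θ₁ θ₂ θ₀ ρ₀ : ℝ} {κ : Bool} (hρ₀ : 0 < ρ₀)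
    (hL : Leaves γ (D.curve u x) (D.pt u) (D.pt x) r t θ)
    (hθ : θ ∈ Ico θ₀ (θ₀ + 2 * Real.pi)) (hn1 : θ ≠ θ₁) (hn2 : θ ≠ θ₂)
    (hκ : ∀ (y : Fin n) (γ₃ : ℝ → ℂ) (t₃ θ₃ : ℝ), y ≠ u → y ≠ a → y ≠ b →
      Leaves γ₃ (D.curve u y) (D.pt u) (D.pt y) r t₃ θ₃ → θ₃ ∈ Ico θ₀ (θ₀ + 2 * Real.pi) →
      θ₃ ≠ θ₁ → θ₃ ≠ θ₂ → ∀ s ∈ Ioo 0 t₃, ‖γ₃ s - D.pt u‖ < ρ₀ →
      par (tch D u a b) (γ₃ s) = (decide (θ₁ < θ₃ ∧ θ₃ < θ₂) ^^ κ)) :
    (decide (θ₁ < θ ∧ θ < θ₂) ^^ κ ^^ par (tch D u a b) (D.pt x)) = X D u x a b := by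
  obtain ⟨s', hs', hs1, hs⟩ := tf11_law D hua hab hub.symm hxu.symm hxa hxb hL.isPar
  have ht := hL.time
  have hc : Tendsto γ (𝓝[>] (0 : ℝ)) (𝓝 (D.pt u)) := by
    have h1 : ContinuousWithinAt γ (Icc 0 1) 0 := hL.isPar.cont 0 ⟨le_rfl, zero_le_one⟩
    have h2 := h1.tendsto
    rw [hL.isPar.zero] at h2
    refine h2.mono_left ?_
    rw [nhdsWithin_le_iff]
    filter_upwards [Ioo_mem_nhdsGT (zero_lt_one' ℝ)] with z hz
    exact ⟨hz.1.le, hz.2.le⟩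
  have hev : ∀ᶠ s in 𝓝[>] (0 : ℝ), ‖γ s - D.pt u‖ < ρ₀ := by
    filter_upwards [hc (Metric.ball_mem_nhds _ hρ₀)] with s hs
    rw [← dist_eq_norm]
    exact hs
  have hmin : 0 < min t s' := lt_min ht.1 hs'
  obtain ⟨s, ⟨h1, h2⟩⟩ := (hev.and (Ioo_mem_nhdsGT hmin)).exists
  have h3 := hκ x γ t θ hxu hxa hxb hL hθ hn1 hn2 s ⟨h2.1, h2.2.trans_le (min_le_left _ _)⟩ h1
  have h4 := (hs s ⟨h2.1, h2.2.trans_le (min_le_right _ _)⟩).2
  rw [h3] at h4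
  exact h4

theorem th9_lt {u a b x y : Fin n} (hua : u ≠ a) (hub : u ≠ b) (hab : a ≠ b) (hxu : x ≠ u)
    (hxa : x ≠ a) (hxb : x ≠ b) (hyu : y ≠ u) (hya : y ≠ a) (hyb : y ≠ b) (hxy : x ≠ y)
    {γa γb γx γy : ℝ → ℂ} {r ta tb tx ty θa θb θx θy θ₀ : ℝ} (hr : 0 < r)
    (ha : Leaves γa (D.curve u a) (D.pt u) (D.pt a) r ta θa)
    (hb : Leaves γb (D.curve u b) (D.pt u) (D.pt b) r tb θb)
    (hx : Leaves γx (D.curve u x) (D.pt u) (D.pt x) r tx θx)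
    (hy : Leaves γy (D.curve u y) (D.pt u) (D.pt y) r ty θy)
    (ia : θa ∈ Ico θ₀ (θ₀ + 2 * Real.pi)) (ib : θb ∈ Ico θ₀ (θ₀ + 2 * Real.pi))
    (ix : θx ∈ Ico θ₀ (θ₀ + 2 * Real.pi)) (iy : θy ∈ Ico θ₀ (θ₀ + 2 * Real.pi))
    (nax : θx ≠ θa) (nbx : θx ≠ θb) (nay : θy ≠ θa) (nby : θy ≠ θb) (hlt : θa < θb)
    (hd : Disjoint (Metric.closedBall (D.pt u) r) (D.curve a b)) :
    altD D u a b x y = (btw θa θb θx ^^ btw θa θb θy) := by
  obtain ⟨κ, ρ₀, hρ₀, hκ⟩ := th7_near D hua hub hab hr ha hb ia ib hlt hd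
  have e1 := th9_one D hua hub hab hxu hxa hxb hρ₀ hx ix nax nbx hκ
  have e2 := th9_one D hua hub hab hyu hya hyb hρ₀ hy iy nay nby hκ
  have e3 := tf10_law D hua hab hub.symm hxy hxu hxa hxb hyu hya hyb
  have hb1 : ∀ θ, btw θa θb θ = decide (θa < θ ∧ θ < θb) := by
    intro θ
    unfold btw
    have h1 : ¬(θb < θ ∧ θ < θa) := fun h => by linarith [h.1, h.2]
    rw [decide_eq_false h1, Bool.or_false]
  have s1 : X D a b u x = X D u x a b := (th9_X D a b u x).2.1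
  have s2 : X D a b u y = X D u y a b := (th9_X D a b u y).2.1
  have s3 : X D u a x y = X D x y u a := (th9_X D u a x y).2.1
  have s4 : X D u b x y = X D x y b u := by
    rw [(th9_X D u b x y).2.1, (th9_X D x y u b).2.2]
  have s5 : X D a b x y = X D x y a b := (th9_X D a b x y).2.1
  unfold crT at e3
  unfold altD
  rw [hb1, hb1, s1, s2, s3, s4, s5, ← e1, ← e2]
  generalize decide (θa < θx ∧ θx < θb) = A at *
  generalize decide (θa < θy ∧ θy < θb) = B at *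
  generalize par (tch D u a b) (D.pt x) = p at *
  generalize par (tch D u a b) (D.pt y) = q at *
  generalize X D x y u a = v1 at *
  generalize X D x y b u = v2 at *
  generalize X D x y a b = v3 at *
  revert e3
  cases A <;> cases B <;> cases κ <;> cases p <;> cases q <;> cases v1 <;> cases v2 <;>
    cases v3 <;> decide

/-- (TH9, M) (axiom D2) The rotation at `u`, cut at `w`.
PROOF.  Take `r` from `th6_radius`; for `x ≠ u` take a parametrisation `γ_x` of `D.curve u x` and its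
exit time `t_x` (`th4_exit`); `γ_x t_x = cpt c r θ_x`, where the angle `θ_w` of `w` is arbitrary and
the others are chosen in `[θ_w, θ_w + 2π)` (`‖γ_x t_x - c‖ = r`; shift the argument by a multiple of
`2π`).  For `x ≠ y` the exit points differ (`tf4_adj`), so the angles differ; `ρ x = θ_x` (and
`ρ u = 0`).  In particular `ρ w < ρ x` for `x ≠ u, w`.  Let `a, b, x, y ≠ u` be distinct.  By
symmetry in `a, b` (`th8_rev`, `btw a b = btw b a`, `crT` symmetric) let `θ_a < θ_b`, `T = tch D u a b`.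
By `th7_near` and `tf11_law` there is a small `s > 0` with
`par T (γ_x s) = btw (ρ a) (ρ b) (ρ x) ^^ κ`, `par T (γ_x s) ^^ par T (D.pt x) = X D u x a b`, and the
same for `y` (`‖γ_x s - c‖ → 0` as `s → 0`).  By `tf10_law`
`par T (D.pt x) ^^ par T (D.pt y) = crT D u a b x y`.  Adding: `altD D u a b x y =
crT D u a b x y ^^ X D u x a b ^^ X D u y a b = btw (ρ a) (ρ b) (ρ x) ^^ btw (ρ a) (ρ b) (ρ y)`
(symmetries of `X`: `tf6_symm`). -/
theorem th9_rot (u w : Fin n) (huw : u ≠ w) : ∃ ρ : Fin n → ℝ,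
    (∀ x, x ≠ u → x ≠ w → ρ w < ρ x) ∧ (∀ x y, x ≠ u → y ≠ u → ρ x = ρ y → x = y) ∧
    ∀ a b x y, a ≠ u → b ≠ u → x ≠ u → y ≠ u → a ≠ b → a ≠ x → a ≠ y → b ≠ x → b ≠ y → x ≠ y →
      altD D u a b x y = (btw (ρ a) (ρ b) (ρ x) ^^ btw (ρ a) (ρ b) (ρ y)) := by
  obtain ⟨r, hr, hrd, hrn⟩ := th6_radius D u
  have hex : ∀ (θ₀ : ℝ) (x : Fin n), x ≠ u → ∃ (γ : ℝ → ℂ) (t θ : ℝ),
      Leaves γ (D.curve u x) (D.pt u) (D.pt x) r t θ ∧ θ ∈ Ico θ₀ (θ₀ + 2 * Real.pi) := by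
    intro θ₀ x hx
    obtain ⟨γ, hγ⟩ := tf1_par D hx.symm
    obtain ⟨t, ht, htr, hb⟩ := th4_exit hγ hr (hrn x hx)
    obtain ⟨θ, hθ, hP⟩ := th9_angle htr θ₀
    exact ⟨γ, t, θ, ⟨hγ, ht, hP, hb⟩, hθ⟩
  obtain ⟨γw, tw, θ₀, hw, -⟩ := hex 0 w huw.symm
  have hex' : ∀ x : Fin n, ∃ (γ : ℝ → ℂ) (t θ : ℝ), x ≠ u →
      Leaves γ (D.curve u x) (D.pt u) (D.pt x) r t θ ∧ θ ∈ Ico θ₀ (θ₀ + 2 * Real.pi) ∧
        (x = w → θ = θ₀) := by
    intro x
    by_cases hx : x = u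
    · exact ⟨γw, tw, θ₀, fun h => absurd hx h⟩
    by_cases hxw : x = w
    · subst hxw
      exact ⟨γw, tw, θ₀, fun _ => ⟨hw, ⟨le_rfl, by linarith [Real.two_pi_pos]⟩, fun _ => rfl⟩⟩
    · obtain ⟨γ, t, θ, h1, h2⟩ := hex θ₀ x hx
      exact ⟨γ, t, θ, fun _ => ⟨h1, h2, fun h => absurd h hxw⟩⟩
  choose γ t θ hL using hex'
  have hinj : ∀ x y, x ≠ u → y ≠ u → θ x = θ y → x = y := by
    intro x y hx hy hxy
    by_contra hne
    have h1 := (hL x hx).1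
    have h2 := (hL y hy).1
    have h3 : γ x (t x) ∈ D.curve u x ∩ D.curve u y := by
      refine ⟨?_, ?_⟩
      · rw [← h1.isPar.image]
        exact ⟨t x, ⟨h1.time.1.le, h1.time.2.le⟩, rfl⟩
      · rw [h1.exit, hxy, ← h2.exit, ← h2.isPar.image]
        exact ⟨t y, ⟨h2.time.1.le, h2.time.2.le⟩, rfl⟩
    rw [tf4_adj D hx.symm hy.symm hne] at h3
    have h4 : γ x (t x) = γ x 0 := by rw [h1.isPar.zero]; exact h3
    have h5 := h1.isPar.inj ⟨h1.time.1.le, h1.time.2.le⟩ ⟨le_rfl, zero_le_one⟩ h4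
    exact h1.time.1.ne' h5
  refine ⟨θ, ?_, hinj, ?_⟩
  · intro x hx hxw
    have h1 : θ w = θ₀ := (hL w huw.symm).2.2 rfl
    have h2 := (hL x hx).2.1.1
    rw [h1]
    refine lt_of_le_of_ne h2 fun h3 => hxw (hinj x w hx huw.symm ?_)
    rw [← h3, h1]
  · intro a b x y hau hbu hxu hyu hab hax hay hbx hby hxy
    have hne : ∀ p q, p ≠ u → q ≠ u → p ≠ q → θ p ≠ θ q := fun p q hp hq hpq h =>
      hpq (hinj p q hp hq h)
    rcases lt_trichotomy (θ a) (θ b) with hlt | heq | hgt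
    · exact th9_lt D hau.symm hbu.symm hab hxu hax.symm hbx.symm hyu hay.symm hby.symm hxy hr
        (hL a hau).1 (hL b hbu).1 (hL x hxu).1 (hL y hyu).1 (hL a hau).2.1 (hL b hbu).2.1
        (hL x hxu).2.1 (hL y hyu).2.1 (hne x a hxu hau hax.symm) (hne x b hxu hbu hbx.symm)
        (hne y a hyu hau hay.symm) (hne y b hyu hbu hby.symm) hlt (hrd a b hab hau hbu)
    · exact absurd heq (hne a b hau hbu hab)
    · rw [th9_altD_symm, th9_btw (θ a), th9_btw (θ a)]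
      exact th9_lt D hbu.symm hau.symm hab.symm hxu hbx.symm hax.symm hyu hby.symm hay.symm hxy hr
        (hL b hbu).1 (hL a hau).1 (hL x hxu).1 (hL y hyu).1 (hL b hbu).2.1 (hL a hau).2.1
        (hL x hxu).2.1 (hL y hyu).2.1 (hne x b hxu hbu hbx.symm) (hne x a hxu hau hax.symm)
        (hne y b hyu hbu hby.symm) (hne y a hyu hau hay.symm) hgt (hrd b a hab.symm hbu hau)

end H53P
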