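import Pool.Agent.Lib.H53P.TG2
import Pool.Agent.Lib.H53P.TH9
import Pool.Agent.Lib.H53P.TF13

/-! # H53P, topology, last file: the crossing table of a simple drawing -/

namespace H53P

open SimpleDraw

/-- (TZ, S) the crossing table of a simple drawing (assembly of the topological part) -/
noncomputable def table {n : ℕ} (D : SimpleDrawing n) : Table (Fin n) where
  X := X D
  symm1 := fun a b c d => (tf6_symm D a b c d).1
  symm2 := fun a b c d => (tf6_symm D a b c d).2
  ne := fun a b c d h => by
    unfold X at h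
    simp only [decide_eq_true_eq] at h
    exact ⟨h.1, h.2.1, h.2.2.1, h.2.2.2.1, h.2.2.2.2.1, h.2.2.2.2.2.1⟩
  one := fun a b c d h => tg2_one D a b c d h
  rot := fun u w h => th9_rot D u w h
  tri := fun a b c hab hbc hca x y z hxa hxb hxc hya hyb hyc hza hzb hzc =>
    tf12_tri D hab hbc hca x y z hxa hxb hxc hya hyb hyc hza hzb hzc
  sep := fun a b c hab hbc hca x y x' y' hxa hxb hxc hya hyb hyc h1 h2 h3 h4 h5 h6 h =>
    tf13_sep D hab hbc hca x y x' y' hxa hxb hxc hya hyb hyc h1 h2 h3 h4 h5 h6 h

theorem table_X {n : ℕ} (D : SimpleDrawing n) : (table D).X = X D := rfl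

end H53P
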