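import Mathlib

/-! # H53P, combinatorics, file A: chains or colourings (pure Mathlib) -/

namespace H53P

/-- (CA1, S/M) Either there is an `R`-chain with `r + 1` elements or `Y` has a colouring with `r`
colours without monochromatic `R`-pairs.
PROOF.  Induction on `r`, for all `Y`.  `r = 0`: if `Y` has an element `y` take `[y]`, otherwise the
second alternative is vacuous.  `r + 1`: let `Y' = {y ∈ Y | ∃ x ∈ Y, R x y}`; no pair of elements of
`Y \ Y'` (indeed no pair with second element in `Y \ Y'`) is related.  Induction hypothesis for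
`Y'` and `r`: if `Y'` has a chain with `r + 1` elements, its first element has an `R`-predecessor in
`Y`, which is put in front: a chain with `r + 2` elements.  If `Y'` has a colouring `f` with values
`< r`, colour `Y \ Y'` with the colour `r`. -/
theorem ca1_chain {V : Type*} (R : V → V → Prop) (Y : Finset V) (r : ℕ) :
    (∃ l : List V, l.length = r + 1 ∧ (∀ x ∈ l, x ∈ Y) ∧ l.IsChain R) ∨
    (∃ f : V → ℕ, (∀ y ∈ Y, f y < r) ∧ ∀ x ∈ Y, ∀ y ∈ Y, R x y → f x ≠ f y) := by
  classical
  induction r generalizing Y with
  | zero =>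
    rcases Y.eq_empty_or_nonempty with rfl | ⟨y, hy⟩
    · right
      exact ⟨fun _ => 0, by simp, by simp⟩
    · left
      exact ⟨[y], rfl, by simpa using hy, List.isChain_singleton y⟩
  | succ r ih =>
    rcases ih (Y.filter fun y => ∃ x ∈ Y, R x y) with ⟨l, hl, hY, hc⟩ | ⟨f, hf, hR⟩
    · left
      obtain ⟨a, l', rfl⟩ : ∃ a l', l = a :: l' := by
        cases l with
        | nil => simp at hl
        | cons a l' => exact ⟨a, l', rfl⟩
      have ha := hY a List.mem_cons_self
      obtain ⟨ha1, x, hx, hxa⟩ := Finset.mem_filter.1 ha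
      refine ⟨x :: a :: l', ?_, ?_, ?_⟩
      · simp only [List.length_cons] at hl ⊢
        omega
      · intro z hz
        rcases List.mem_cons.1 hz with rfl | hz
        · exact hx
        · exact (Finset.mem_filter.1 (hY z hz)).1
      · exact List.isChain_cons_cons.2 ⟨hxa, hc⟩
    · right
      refine ⟨fun y => if y ∈ Y.filter (fun y => ∃ x ∈ Y, R x y) then f y else r, ?_, ?_⟩
      · intro y _
        dsimp only
        split_ifs with h
        · have := hf y h
          omega
        · omega
      · intro x hx y hy hxy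
        have hy' : y ∈ Y.filter (fun y => ∃ x ∈ Y, R x y) := Finset.mem_filter.2 ⟨hy, x, hx, hxy⟩
        dsimp only
        rw [if_pos hy']
        split_ifs with h
        · exact hR x h y hy' hxy
        · exact (hf y hy').ne'

/-- (CA2, S) PROOF.  `ca1_chain` and the pigeonhole principle: the classes
`{y ∈ Y | f y = i}`, `i < r`, cover `Y`, so one of them has at least `Y.card / r` elements
(`Finset.card_eq_sum_card_fiberwise`, `Finset.sum_le_card_nsmul`; if `r = 0` then `Y = ∅`). -/
theorem ca2_chain {V : Type*} (R : V → V → Prop) (Y : Finset V) (r : ℕ) :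
    (∃ l : List V, l.length = r + 1 ∧ (∀ x ∈ l, x ∈ Y) ∧ l.IsChain R) ∨
    (∃ Z : Finset V, Z ⊆ Y ∧ Y.card ≤ r * Z.card ∧ ∀ x ∈ Z, ∀ y ∈ Z, ¬ R x y) := by
  classical
  rcases ca1_chain R Y r with h | ⟨f, hf, hR⟩
  · exact Or.inl h
  · right
    rcases Nat.eq_zero_or_pos r with rfl | hr
    · refine ⟨∅, Finset.empty_subset _, ?_, by simp⟩
      have : Y = ∅ := Finset.eq_empty_of_forall_notMem fun y hy => absurd (hf y hy) (Nat.not_lt_zero _)
      rw [this]
      simp
    · by_contra hcon
      push Not at hcon
      have h1 : ∀ i ∈ Finset.range r, r * (Y.filter fun y => f y = i).card < Y.card := by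
        intro i _
        by_contra h2
        obtain ⟨x, hx, y, hy, hxy⟩ := hcon (Y.filter fun y => f y = i) (Finset.filter_subset _ _) (not_lt.1 h2)
        obtain ⟨hx1, hx2⟩ := Finset.mem_filter.1 hx
        obtain ⟨hy1, hy2⟩ := Finset.mem_filter.1 hy
        exact hR x hx1 y hy1 hxy (hx2.trans hy2.symm)
      have h3 := Finset.sum_lt_sum_of_nonempty (s := Finset.range r) ⟨0, Finset.mem_range.2 hr⟩ h1
      rw [← Finset.mul_sum, ← Finset.card_eq_sum_card_fiberwise (f := f) (fun y hy => by
        simpa using hf y hy), Finset.sum_const, Finset.card_range, smul_eq_mul] at h3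
      exact lt_irrefl _ h3

end H53P
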