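import Pool.Agent.Lib.H53P.C0
import Pool.Agent.Lib.H53P.CA

/-! # H53P, combinatorics: the permutation graph of a pair of vertices -/

namespace H53P

variable {V : Type*} (T : Table V)

/-- (CC1, S) `adj` is an exclusive or, symmetric in `x, y` and in `u, w`.
PROOF.  `X u x w y = true` implies, by `one` for `(u, x, y, w)` and the symmetries,
`X u y x w = false`, i.e. `X u y w x = false`. -/
theorem cc1_adj (u w x y : V) : T.adj u w x y = (T.X u x w y ^^ T.X u y w x) ∧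
    T.adj u w x y = T.adj u w y x ∧ T.adj u w x y = T.adj w u x y ∧
    ¬ (T.X u x w y = true ∧ T.X u y w x = true) := by
  have h1 : ∀ a b c d, T.X a b d c = T.X a b c d := fun a b c d => by
    rw [T.symm2 a b d c, T.symm1 d c a b, T.symm2 c d a b]
  have h2 : ¬ (T.X u x w y = true ∧ T.X u y w x = true) := by
    rintro ⟨h3, h4⟩
    rw [← h1 u x w y] at h3
    have h5 := T.one u x y w h3
    rw [h1 u y w x] at h5
    rw [h5] at h4
    exact Bool.false_ne_true h4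
  refine ⟨?_, ?_, ?_, h2⟩
  · unfold Table.adj
    cases h3 : T.X u x w y <;> cases h4 : T.X u y w x <;> simp_all
  · unfold Table.adj
    exact Bool.or_comm _ _
  · unfold Table.adj
    rw [T.symm2 w x u y, T.symm2 w y u x]
    exact Bool.or_comm _ _

/-- (CC2, S) if the arcs `u x w`, `u y w` cross then `uw` and `xy` do not cross.
PROOF.  `X u x w y = true` gives `X u w x y = false` by `one`; similarly for `X u y w x`. -/
theorem cc2_uw {u w x y : V} (h : T.adj u w x y = true) : T.X u w x y = false := by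
  have h1 : ∀ a b c d, T.X a b d c = T.X a b c d := fun a b c d => by
    rw [T.symm2 a b d c, T.symm1 d c a b, T.symm2 c d a b]
  unfold Table.adj at h
  rw [Bool.or_eq_true] at h
  rcases h with h | h
  · exact T.one u x w y h
  · rw [← h1 u w x y]
    exact T.one u y w x h

theorem cc3_btw {a b c : ℝ} (h1 : a < b) (h2 : a < c) : btw a b c = decide (c < b) := by
  unfold btw
  by_cases h : c < b
  · simp [h, h2]
  · have h3 : ¬ (a < c ∧ c < b) := fun h4 => h h4.2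
    have h4 : ¬ (b < c ∧ c < a) := fun h4 => by linarith [h4.2]
    simp [h]
    intro _
    linarith

theorem cc3_b1 : ∀ a1 a2 a3 b1 b2 c1 c2 : Bool,
    ((((a1 ^^ a2) ^^ b1) ^^ b2) ^^ a3) = (c1 ^^ c2) →
      (a1 ^^ (a2 ^^ a3)) = ((b1 ^^ b2) ^^ (c1 ^^ c2)) := by
  decide

theorem cc3_b2 : ∀ b1 b2 b3 b4 c1 c2 c3 c4 : Bool,
    ((b1 ^^ b2) ^^ (c1 ^^ c2)) = ((b3 ^^ b4) ^^ (c3 ^^ c4)) →
      ((b3 ^^ b1) ^^ (c1 ^^ c3)) = ((b4 ^^ b2) ^^ (c2 ^^ c4)) := by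
  decide

theorem cc3_b3 : ∀ a b d : Bool, (a ^^ (b ^^ d)) = false → (a = false ↔ b = d) := by
  decide

theorem cc3_b4 : ∀ a b d : Bool, (a ^^ (b ^^ !d)) = true → (a = false ↔ b = d) := by
  decide

/-- a symmetric function of two variables, constant in the second one, is constant -/
theorem cc3_const (P : V → Prop) (g : V → V → Bool) (hs : ∀ x y, P x → P y → x ≠ y → g x y = g y x)
    (h : ∀ x y z, P x → P y → P z → x ≠ y → x ≠ z → y ≠ z → g x y = g x z) :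
    ∃ c, ∀ x y, P x → P y → x ≠ y → g x y = c := by
  by_cases hex : ∃ x y, P x ∧ P y ∧ x ≠ y
  · obtain ⟨x₀, y₀, hx₀, hy₀, hne⟩ := hex
    refine ⟨g x₀ y₀, ?_⟩
    have h1 : ∀ y, P y → y ≠ x₀ → g x₀ y = g x₀ y₀ := by
      intro y hy hyx
      by_cases hyy : y = y₀
      · rw [hyy]
      · exact h x₀ y y₀ hx₀ hy hy₀ hyx.symm hne hyy
    intro x y hx hy hxy
    by_cases hxx : x = x₀
    · rw [hxx]
      exact h1 y hy (fun h2 => hxy (by rw [hxx, h2]))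
    · by_cases hyx : y = x₀
      · rw [hs x y hx hy hxy, hyx]
        exact h1 x hx hxx
      · rw [h x y x₀ hx hy hx₀ hxy hxx hyx, hs x x₀ hx hx₀ hxx]
        exact h1 x hx hxx
  · refine ⟨false, fun x y hx hy hxy => absurd ⟨x, y, hx, hy, hxy⟩ hex⟩

theorem cc3_flip {ρ : V → ℝ} {x y : V} (h : ρ x ≠ ρ y) :
    decide (ρ x < ρ y) = !decide (ρ y < ρ x) := by
  rcases lt_or_gt_of_ne h with h1 | h1
  · simp [h1, h1.le]
  · simp [h1, h1.le]

/-- (CC3, M) The permutation representation.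
PROOF.  Let `ρ` be given by `T.rot u w` and `ρ'` by `T.rot w u`.  For distinct `x, y, z ∉ {u, w}`:
`alt u w x y z = [ρ y < ρ x] ^^ [ρ z < ρ x]`, because `ρ w` is smaller than all other values, so
`btw (ρ w) (ρ x) (ρ y) = [ρ y < ρ x]`; similarly `alt w u x y z = [ρ' y < ρ' x] ^^ [ρ' z < ρ' x]`.
From the definition of `altX` and the symmetries of `X`:
`alt u w x y z ^^ alt w u x y z = X w x u y ^^ X w x u z ^^ X u x w y ^^ X u x w z
= adj u w x y ^^ adj u w x z` (`cc1_adj`).  Let `δ x y = [ρ x < ρ y] ^^ [ρ' x < ρ' y]`, symmetric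
for `x ≠ y` (injectivity).  Then `adj u w x y ^^ δ x y = adj u w x z ^^ δ x z`, so
`adj ^^ δ` takes the same value `c` on all pairs (two pairs `{x, y}`, `{x', y'}` are connected by
pairs with a common element).  If `c = false`, `σ = ρ'`, if `c = true`, `σ = -ρ'`. -/
theorem cc3_perm {u w : V} (huw : u ≠ w) : ∃ ρ σ : V → ℝ,
    (∀ x, x ≠ u → x ≠ w → ρ w < ρ x) ∧
    (∀ x y, x ≠ u → y ≠ u → ρ x = ρ y → x = y) ∧
    (∀ x y, x ≠ w → y ≠ w → σ x = σ y → x = y) ∧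
    (∀ a b x y, a ≠ u → b ≠ u → x ≠ u → y ≠ u → a ≠ b → a ≠ x → a ≠ y → b ≠ x → b ≠ y → x ≠ y →
      T.alt u a b x y = (btw (ρ a) (ρ b) (ρ x) ^^ btw (ρ a) (ρ b) (ρ y))) ∧
    ∀ x y, x ≠ u → x ≠ w → y ≠ u → y ≠ w → x ≠ y →
      (T.adj u w x y = false ↔ (ρ x < ρ y ↔ σ x < σ y)) := by
  obtain ⟨ρ, hρ1, hρ2, hρ3⟩ := T.rot u w huw
  obtain ⟨ρ', hρ1', hρ2', hρ3'⟩ := T.rot w u huw.symm
  have hx1 : ∀ a b c d, T.X a b d c = T.X a b c d := fun a b c d => by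
    rw [T.symm2 a b d c, T.symm1 d c a b, T.symm2 c d a b]
  -- the comparison of the two rotations
  have key : ∀ x y z, (x ≠ u ∧ x ≠ w) → (y ≠ u ∧ y ≠ w) → (z ≠ u ∧ z ≠ w) → x ≠ y → x ≠ z →
      y ≠ z → (T.adj u w x y ^^ (decide (ρ y < ρ x) ^^ decide (ρ' y < ρ' x))) =
        (T.adj u w x z ^^ (decide (ρ z < ρ x) ^^ decide (ρ' z < ρ' x))) := by
    intro x y z hx hy hz hxy hxz hyz
    have h1 := hρ3 w x y z huw.symm hx.1 hy.1 hz.1 hx.2.symm hy.2.symm hz.2.symm hxy hxz hyz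
    have h2 := hρ3' u x y z huw hx.2 hy.2 hz.2 hx.1.symm hy.1.symm hz.1.symm hxy hxz hyz
    rw [cc3_btw (hρ1 x hx.1 hx.2) (hρ1 y hy.1 hy.2),
      cc3_btw (hρ1 x hx.1 hx.2) (hρ1 z hz.1 hz.2)] at h1
    rw [cc3_btw (hρ1' x hx.2 hx.1) (hρ1' y hy.2 hy.1),
      cc3_btw (hρ1' x hx.2 hx.1) (hρ1' z hz.2 hz.1)] at h2
    unfold altX at h1 h2
    rw [T.symm1 w u y z, T.symm1 u w y z] at h2
    rw [(cc1_adj T u w x y).1, (cc1_adj T u w x z).1, T.symm2 u y w x, T.symm2 u z w x]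
    rw [T.symm1 w u y z] at h2
    have h3 := cc3_b1 _ _ _ _ _ _ _ h1
    have h4 := cc3_b1 _ _ _ _ _ _ _ h2
    rw [Bool.xor_comm (T.X w x y z)] at h4
    exact cc3_b2 _ _ _ _ _ _ _ _ (h3.symm.trans h4)
  have hne : ∀ x y, (x ≠ u ∧ x ≠ w) → (y ≠ u ∧ y ≠ w) → x ≠ y → ρ x ≠ ρ y ∧ ρ' x ≠ ρ' y :=
    fun x y hx hy hxy => ⟨fun h => hxy (hρ2 x y hx.1 hy.1 h), fun h => hxy (hρ2' x y hx.2 hy.2 h)⟩
  obtain ⟨c, hc⟩ := cc3_const (fun x => x ≠ u ∧ x ≠ w)
    (fun x y => (T.adj u w x y ^^ (decide (ρ y < ρ x) ^^ decide (ρ' y < ρ' x))))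
    (fun x y hx hy hxy => by
      obtain ⟨h1, h2⟩ := hne x y hx hy hxy
      rw [(cc1_adj T u w x y).2.1, cc3_flip h1.symm, cc3_flip h2.symm]
      generalize T.adj u w y x = a
      generalize decide (ρ x < ρ y) = b
      generalize decide (ρ' x < ρ' y) = d
      revert a b d
      decide) key
  cases c
  · refine ⟨ρ, ρ', hρ1, hρ2, hρ2', hρ3, fun x y hxu hxw hyu hyw hxy => ?_⟩
    have h1 := hc y x ⟨hyu, hyw⟩ ⟨hxu, hxw⟩ hxy.symm
    rw [← (cc1_adj T u w x y).2.1] at h1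
    rw [← decide_eq_decide (p := ρ x < ρ y)]
    exact cc3_b3 _ _ _ h1
  · refine ⟨ρ, fun x => -ρ' x, hρ1, hρ2, fun x y hx hy h => hρ2' x y hx hy (neg_injective h), hρ3,
      fun x y hxu hxw hyu hyw hxy => ?_⟩
    have h1 := hc y x ⟨hyu, hyw⟩ ⟨hxu, hxw⟩ hxy.symm
    obtain ⟨-, h4⟩ := hne x y ⟨hxu, hxw⟩ ⟨hyu, hyw⟩ hxy
    rw [← (cc1_adj T u w x y).2.1, cc3_flip h4] at h1
    simp only [neg_lt_neg_iff]
    rw [← decide_eq_decide (p := ρ x < ρ y)]
    exact cc3_b4 _ _ _ h1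

end H53P
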