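import Pool.Agent.Lib.H53P.C0
import Pool.Agent.Lib.H53P.TZ

/-! # H53P, combinatorics: from the table to the drawing -/

namespace H53P

open SimpleDraw

/-- there is a plane cycle with exactly `m` vertices: the subdrawing formed by a cycle through `m`
different vertices is plane -/
def HasPlaneCycle {n : ℕ} (D : SimpleDrawing n) (m : ℕ) : Prop :=
  3 ≤ m ∧ ∃ f : Fin m ↪ Fin n, D.Plane ((SimpleGraph.cycleGraph m).map f)

theorem fin1_edge {α : Type*} (v : α) (t : List α) (i j : ℕ) (hi : i < (v :: t).length)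
    (hj : j < (v :: t).length) (hij : j = (i + 1) % (v :: t).length) :
    ((v :: t)[i], (v :: t)[j]) ∈ edges ((v :: t) ++ [v]) := by
  have hlen : ((v :: t) ++ [v]).length = (v :: t).length + 1 := by simp
  have htl : ((v :: t) ++ [v]).tail.length = (v :: t).length := by simp
  unfold edges
  rw [List.mem_iff_getElem]
  refine ⟨i, ?_, ?_⟩
  · rw [List.length_zip, htl, hlen]
    omega
  · rw [List.getElem_zip, List.getElem_tail]
    have h1 : ((v :: t) ++ [v])[i]'(by omega) = (v :: t)[i] := List.getElem_append_left hi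
    have h2 : ((v :: t) ++ [v])[i + 1]'(by omega) = (v :: t)[j] := by
      by_cases h : i + 1 < (v :: t).length
      · rw [List.getElem_append_left h]
        congr 1
        rw [hij, Nat.mod_eq_of_lt h]
      · have h3 : i + 1 = (v :: t).length := by omega
        have h4 : j = 0 := by
          rw [hij, h3, Nat.mod_self]
        subst h4
        rw [List.getElem_append_right (by omega)]
        simp
    rw [h1, h2]

theorem fin1_adj {n : ℕ} (D : SimpleDrawing n) (v : Fin n) (t : List (Fin n))
    (h3 : 3 ≤ (v :: t).length) (i j : Fin (v :: t).length)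
    (h : (SimpleGraph.cycleGraph (v :: t).length).Adj i j) :
    ((v :: t).get i, (v :: t).get j) ∈ edges ((v :: t) ++ [v]) ∨
      ((v :: t).get j, (v :: t).get i) ∈ edges ((v :: t) ++ [v]) := by
  cases t with
  | nil => simp at h3
  | cons b t =>
    have hadj : i - j = 1 ∨ j - i = 1 := SimpleGraph.cycleGraph_adj.1 h
    have key : ∀ i j : Fin (v :: b :: t).length, j - i = 1 →
        ((v :: b :: t).get i, (v :: b :: t).get j) ∈ edges ((v :: b :: t) ++ [v]) := by
      intro i j hij
      have h4 : j = i + 1 := by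
        rw [← hij]
        exact (add_sub_cancel i j).symm
      have h5 : (j : ℕ) = ((i : ℕ) + 1) % (v :: b :: t).length := by
        rw [h4, Fin.val_add]
        rfl
      exact fin1_edge v (b :: t) i j i.2 j.2 h5
    rcases hadj with h4 | h4
    · exact Or.inr (key j i h4)
    · exact Or.inl (key i j h4)

/-- (FIN1, M) From the table to the drawing.
PROOF.  Let `l = v :: t`, `m = l.length ≥ 3`, `f i = l.get i`, injective.  If `i, j` are adjacent in
`cycleGraph m` then `(f i, f j)` or `(f j, f i)` is in `edges (l ++ [v])` (`edges` of the closed list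
are the pairs `(l[i], l[i+1])` and `(l[m-1], l[0])`).  For two different edges `s(a, b) ≠ s(c, d)` of
the image graph and a point `p` of both curves: if the edges have a common vertex `v`,
`D.inter` and `tf3_mem` give `p = D.pt v`; otherwise `a, b, c, d` are distinct and
`X D a b c d = false` (plane), so the curves do not meet (definition of `X`). -/
theorem fin1_cycle {n : ℕ} (D : SimpleDrawing n) {k : ℕ} (h : (table D).HasCycle k) :
    ∃ m, k ≤ m ∧ HasPlaneCycle D m := by
  obtain ⟨v, t, hnd, hk, h3, hpl⟩ := h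
  refine ⟨(v :: t).length, hk, h3, ⟨(v :: t).get, List.nodup_iff_injective_get.1 hnd⟩, ?_⟩
  intro a b c d hab hcd hne p hp
  have hX : X D a b c d = false := by
    obtain ⟨i, j, hij, rfl, rfl⟩ := SimpleGraph.map_adj _ _ _ _ |>.1 hab
    obtain ⟨k', l', hkl, rfl, rfl⟩ := SimpleGraph.map_adj _ _ _ _ |>.1 hcd
    have s1 := (table D).symm1
    have s2 := (table D).symm2
    rcases fin1_adj D v t h3 i j hij with h4 | h4 <;>
      rcases fin1_adj D v t h3 k' l' hkl with h5 | h5
    · exact hpl _ h4 _ h5
    · have h6 := hpl _ h4 _ h5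
      rw [s2, s1, s2] at h6
      exact h6
    · have h6 := hpl _ h4 _ h5
      rw [s1] at h6
      exact h6
    · have h6 := hpl _ h4 _ h5
      rw [s1, s2, s1, s2] at h6
      exact h6
  have hab' : a ≠ b := hab.ne
  have hcd' : c ≠ d := hcd.ne
  have hsub := D.inter a b c d hab' hcd' hne
  have m1 := tf3_mem D hab'
  have m2 := tf3_mem D hcd'
  by_cases e1 : a = c
  · subst e1
    exact ⟨a, Or.inl rfl, Or.inl rfl, hsub hp ⟨m1.1, m2.1⟩⟩
  by_cases e2 : a = d
  · subst e2
    exact ⟨a, Or.inl rfl, Or.inr rfl, hsub hp ⟨m1.1, m2.2⟩⟩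
  by_cases e3 : b = c
  · subst e3
    exact ⟨b, Or.inr rfl, Or.inl rfl, hsub hp ⟨m1.2, m2.1⟩⟩
  by_cases e4 : b = d
  · subst e4
    exact ⟨b, Or.inr rfl, Or.inr rfl, hsub hp ⟨m1.2, m2.2⟩⟩
  exfalso
  unfold X at hX
  rw [decide_eq_false_iff_not] at hX
  exact hX ⟨hab', hcd', e1, e2, e3, e4, ⟨p, hp⟩⟩

end H53P
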