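import Pool.Agent.Lib.H53P.CE

/-! # H53P, combinatorics: cycles from paths -/

namespace H53P

variable {V : Type*} (T : Table V)

omit T in
theorem ce7_mem {v w : V} {L : List V} {a b : V} (ha : L.head? = some a)
    (hb : L.getLast? = some b) {e : V × V} (he : e ∈ edges (v :: L ++ [w])) :
    e = (v, a) ∨ e = (b, w) ∨ e ∈ edges L := by
  induction L generalizing v a with
  | nil => simp at ha
  | cons c L ih =>
    have hac : c = a := by simpa using ha
    subst hac
    cases L with
    | nil =>
      have hbc : c = b := by simpa using hb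
      subst hbc
      have h2 : edges (v :: [c] ++ [w]) = [(v, c), (c, w)] := rfl
      rw [h2] at he
      rcases List.mem_cons.1 he with he | he
      · exact Or.inl he
      · exact Or.inr (Or.inl (List.mem_singleton.1 he))
    | cons d L =>
      have h2 : edges (v :: (c :: d :: L) ++ [w]) = (v, c) :: edges (c :: (d :: L) ++ [w]) := rfl
      rw [h2] at he
      rcases List.mem_cons.1 he with he | he
      · exact Or.inl he
      · have hb' : (d :: L).getLast? = some b := by
          rw [List.getLast?_cons_cons] at hb
          exact hb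
        rcases ih (v := c) (a := d) rfl hb' he with h3 | h3 | h3
        · refine Or.inr (Or.inr ?_)
          rw [h3, ce1_cons]
          exact List.mem_cons_self
        · exact Or.inr (Or.inl h3)
        · refine Or.inr (Or.inr ?_)
          rw [ce1_cons]
          exact List.mem_cons_of_mem _ h3

/-- (CE8, S/M) A cycle from a path and a pole: as `ce7_fan`, but only the two edges from the pole to
the ends of the path must not cross the path. -/
theorem ce8_pole {v : V} {l : List V} (hn : (v :: l).Nodup) (hl : 2 ≤ l.length)
    (hp : T.Plane (edges l)) {a b : V} (ha : l.head? = some a) (hb : l.getLast? = some b)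
    (h1 : ∀ e ∈ edges l, T.X v a e.1 e.2 = false) (h2 : ∀ e ∈ edges l, T.X v b e.1 e.2 = false) :
    T.HasCycle (l.length + 1) := by
  refine ⟨v, l, hn, by simp, by simpa using hl, ?_⟩
  have hz : ∀ p q r s, (p = r ∨ p = s ∨ q = r ∨ q = s) → T.X p q r s = false := by
    intro p q r s h
    by_contra hc
    rw [Bool.not_eq_false] at hc
    obtain ⟨-, -, h3, h4, h5, h6⟩ := T.ne p q r s hc
    tauto
  intro e he f hf
  rw [List.cons_append, ← List.cons_append] at he hf
  rcases ce7_mem ha hb he with rfl | rfl | he
  · rcases ce7_mem ha hb hf with rfl | rfl | hf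
    · exact hz _ _ _ _ (Or.inl rfl)
    · exact hz _ _ _ _ (Or.inr (Or.inl rfl))
    · exact h1 f hf
  · rcases ce7_mem ha hb hf with rfl | rfl | hf
    · exact hz _ _ _ _ (Or.inr (Or.inr (Or.inl rfl)))
    · exact hz _ _ _ _ (Or.inl rfl)
    · rw [T.symm1]
      exact h2 f hf
  · rcases ce7_mem ha hb hf with rfl | rfl | hf
    · rw [T.symm2]
      exact h1 e he
    · rw [T.symm2, T.symm1]
      exact h2 e he
    · exact hp e he f hf

/-- (CE7, M) Fans.  If the path `l` is plane and its edges do not cross the edges `ux`, `x ∈ l`,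
then `u` and `l` form a plane cycle.
PROOF.  `edges ((u :: l) ++ [u])` consists of `(u, first)`, `edges l` and `(last, u)`
(`ce1_cons`, `ce2_append`); two edges at `u` do not cross (`T.ne`). -/
theorem ce7_fan {u : V} {l : List V} (hn : (u :: l).Nodup) (hl : 2 ≤ l.length)
    (hp : T.Plane (edges l)) (hs : ∀ x ∈ l, ∀ e ∈ edges l, T.X u x e.1 e.2 = false) :
    T.HasCycle (l.length + 1) := by
  have hne : l ≠ [] := by
    rintro rfl
    simp at hl
  exact ce8_pole T hn hl hp (List.head?_eq_some_head hne) (List.getLast?_eq_some_getLast hne)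
    (hs _ (List.head_mem hne)) (hs _ (List.getLast_mem hne))

/-- (CE9, S) A plane path from `u` to `w` closed by the edge `uw`. -/
theorem ce9_close {u w : V} {S : Finset V} {L : List V} (h : T.PathIn u w S L) (huw : u ≠ w)
    (hu : u ∉ S) (hw : w ∉ S) (hL : L ≠ [])
    (h1 : ∀ e ∈ edges (u :: L ++ [w]), T.X u w e.1 e.2 = false) :
    T.HasCycle (L.length + 2) := by
  obtain ⟨h2, h3, h4⟩ := h
  have hz : ∀ p q r s, (p = r ∨ p = s ∨ q = r ∨ q = s) → T.X p q r s = false := by
    intro p q r s h
    by_contra hc
    rw [Bool.not_eq_false] at hc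
    obtain ⟨-, -, h3, h4, h5, h6⟩ := T.ne p q r s hc
    tauto
  have hpos : 0 < L.length := List.length_pos_iff.2 hL
  refine ⟨u, L ++ [w], ?_, by simp, ?_, ?_⟩
  · rw [List.nodup_cons]
    refine ⟨?_, ?_⟩
    · rw [List.mem_append, List.mem_singleton]
      rintro (h5 | h5)
      · exact hu (h3 u h5)
      · exact huw h5
    · rw [List.nodup_append]
      refine ⟨h2, by simp, ?_⟩
      intro a ha b hb hab
      rw [List.mem_singleton] at hb
      exact hw (h3 w (by rw [← hb, ← hab]; exact ha))
  · simp only [List.length_cons, List.length_append, List.length_nil]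
    omega
  · have h5 : (u :: (L ++ [w])) ++ [u] = (u :: L) ++ w :: [u] := by simp
    have h6 : edges [w, u] = [(w, u)] := rfl
    rw [h5, ce2_append, h6]
    refine ce5_plane_append T _ _ h4 ?_ ?_
    · intro e he f hf
      rw [List.mem_singleton] at he hf
      rw [he, hf]
      exact hz _ _ _ _ (Or.inl rfl)
    · intro e he f hf
      rw [List.mem_singleton] at hf
      rw [hf, T.symm2]
      simp only
      rw [T.symm1]
      exact h1 e he

end H53P
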