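import Mathlib

/-! # H53P, combinatorics: random samples (pure Mathlib) -/

namespace H53P

open Finset

theorem cb1_card {V : Type*} [DecidableEq V] (S : Finset V) (m : ℕ) :
    (Fintype.piFinset fun _ : Fin m => S).card = S.card ^ m := by
  rw [Fintype.card_piFinset, prod_const, card_univ, Fintype.card_fin]

theorem cb1_pair {V : Type*} [DecidableEq V] (S : Finset V) (m : ℕ) {i j : Fin m} (hij : i ≠ j) :
    S.card * ((Fintype.piFinset fun _ : Fin m => S).filter fun f => f i = f j).card ≤
      S.card ^ m := by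
  rw [← card_product, ← cb1_card]
  refine card_le_card_of_injOn (fun p => Function.update p.2 j p.1) ?_ ?_
  · intro p hp
    rw [mem_coe, mem_product, mem_filter, Fintype.mem_piFinset] at hp
    rw [mem_coe, Fintype.mem_piFinset]
    intro k
    change Function.update p.2 j p.1 k ∈ S
    by_cases hk : k = j
    · rw [hk, Function.update_self]
      exact hp.1
    · rw [Function.update_of_ne hk]
      exact hp.2.1 k
  · rintro ⟨s, f⟩ hp ⟨t, g⟩ hq h
    rw [mem_coe, mem_product, mem_filter] at hp hq
    simp only at h hp hq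
    have hst : s = t := by
      have := congrFun h j
      rwa [Function.update_self, Function.update_self] at this
    have hk : ∀ k, k ≠ j → f k = g k := fun k hk => by
      have := congrFun h k
      rwa [Function.update_of_ne hk, Function.update_of_ne hk] at this
    have hfg : f = g := by
      funext k
      by_cases hkj : k = j
      · rw [hkj, ← hp.2.2, ← hq.2.2]
        exact hk i hij
      · exact hk k hkj
    rw [hst, hfg]

theorem cb1_triple {V : Type*} [DecidableEq V] (S : Finset V) (R : V → V → V → Prop)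
    [DecidablePred fun t : V × V × V => R t.1 t.2.1 t.2.2] (m : ℕ) {i j l : Fin m} (hij : i ≠ j)
    (hil : i ≠ l) (hjl : j ≠ l) :
    S.card ^ 3 * ((Fintype.piFinset fun _ : Fin m => S).filter
      fun f => (fun t : V × V × V => R t.1 t.2.1 t.2.2) (f i, f j, f l)).card ≤
      ((S ×ˢ S ×ˢ S).filter fun t : V × V × V => R t.1 t.2.1 t.2.2).card * S.card ^ m := by
  have h3 : S.card ^ 3 = (S ×ˢ S ×ˢ S).card := by
    rw [card_product, card_product]
    ring
  rw [h3, ← cb1_card, ← card_product, ← card_product]
  refine card_le_card_of_injOn (fun p => ((p.2 i, p.2 j, p.2 l),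
    Function.update (Function.update (Function.update p.2 i p.1.1) j p.1.2.1) l p.1.2.2)) ?_ ?_
  · rintro ⟨⟨a, b, c⟩, f⟩ hp
    rw [mem_coe, mem_product, mem_filter, Fintype.mem_piFinset, mem_product, mem_product] at hp
    simp only at hp
    rw [mem_coe, mem_product, mem_filter, Fintype.mem_piFinset, mem_product, mem_product]
    refine ⟨⟨⟨hp.2.1 i, hp.2.1 j, hp.2.1 l⟩, hp.2.2⟩, fun k => ?_⟩
    simp only
    by_cases hk : k = l
    · rw [hk, Function.update_self]
      exact hp.1.2.2
    rw [Function.update_of_ne hk]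
    by_cases hk : k = j
    · rw [hk, Function.update_self]
      exact hp.1.2.1
    rw [Function.update_of_ne hk]
    by_cases hk : k = i
    · rw [hk, Function.update_self]
      exact hp.1.1
    rw [Function.update_of_ne hk]
    exact hp.2.1 k
  · rintro ⟨⟨a, b, c⟩, f⟩ - ⟨⟨a', b', c'⟩, g⟩ - h
    simp only [Prod.mk.injEq] at h
    obtain ⟨⟨h1, h2, h3⟩, h4⟩ := h
    have hc : c = c' := by
      have := congrFun h4 l
      rwa [Function.update_self, Function.update_self] at this
    have hb : b = b' := by
      have := congrFun h4 j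
      rwa [Function.update_of_ne hjl, Function.update_self, Function.update_of_ne hjl,
        Function.update_self] at this
    have ha : a = a' := by
      have := congrFun h4 i
      rwa [Function.update_of_ne hil, Function.update_of_ne hij, Function.update_self,
        Function.update_of_ne hil, Function.update_of_ne hij, Function.update_self] at this
    have hfg : f = g := by
      funext k
      by_cases hk1 : k = l
      · rw [hk1, h3]
      by_cases hk2 : k = j
      · rw [hk2, h2]
      by_cases hk3 : k = i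
      · rw [hk3, h1]
      have := congrFun h4 k
      rwa [Function.update_of_ne hk1, Function.update_of_ne hk2, Function.update_of_ne hk3,
        Function.update_of_ne hk1, Function.update_of_ne hk2, Function.update_of_ne hk3] at this
    rw [ha, hb, hc, hfg]

/-- (CB1, M) A sparse ternary relation has a free set of size `m`.
PROOF.  Let `N = S.card ≥ m ^ 2 ≥ 1`.  Count the functions `f : Fin m → V` with all values in `S`
(`Fintype.piFinset fun _ => S`, `N ^ m` of them, `Fintype.card_piFinset`).
(i) For `i ≠ j` at most `N ^ (m-1)` of them have `f i = f j`; there are `m (m-1) / 2` pairs `i < j`,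
so the number of non-injective ones is at most `m (m-1) / 2 * N ^ (m-1) < N ^ m / 2`, i.e.
`2 * (number) ≤ m (m-1) N ^ (m-1) < N ^ m`, because `m (m-1) < m ^ 2 ≤ N`.
(ii) For distinct `i, j, l` the number of `f` with `(f i, f j, f l)` in the relation is
`|R| * N ^ (m-3)` (for each triple `(a, b, c)` of the relation fix the three values: a `piFinset`
with three singletons); there are at most `m ^ 3` triples `i, j, l`, so the number of `f` with a
bad triple is at most `m ^ 3 |R| N ^ (m-3) ≤ N ^ m / 2` by `h2`.
Hence some `f` is injective without bad triple; take `W` = its image.  (If `m < 3` part (ii) is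
empty.) -/
theorem cb1_sample {V : Type*} [DecidableEq V] (S : Finset V) (R : V → V → V → Prop)
    [DecidablePred fun t : V × V × V => R t.1 t.2.1 t.2.2] (m : ℕ) (hm : 1 ≤ m)
    (h1 : m ^ 2 ≤ S.card)
    (h2 : 2 * m ^ 3 * ((S ×ˢ S ×ˢ S).filter fun t : V × V × V => R t.1 t.2.1 t.2.2).card ≤
      S.card ^ 3) :
    ∃ W ⊆ S, W.card = m ∧ ∀ x ∈ W, ∀ y ∈ W, ∀ z ∈ W, x ≠ y → x ≠ z → y ≠ z → ¬ R x y z := by
  obtain ⟨F, hF⟩ : ∃ F : Finset (Fin m → V), F = Fintype.piFinset fun _ : Fin m => S := ⟨_, rfl⟩
  obtain ⟨q, hq⟩ : ∃ q : ℕ,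
      q = ((S ×ˢ S ×ˢ S).filter fun t : V × V × V => R t.1 t.2.1 t.2.2).card := ⟨_, rfl⟩
  have hN : 0 < S.card := lt_of_lt_of_le (by positivity) h1
  have hFc : F.card = S.card ^ m := by rw [hF, cb1_card]
  -- the functions which are not injective
  obtain ⟨B1, hB1⟩ : ∃ B1 : Finset (Fin m → V), B1 = univ.biUnion fun j : Fin m =>
      (Iio j).biUnion fun i => F.filter fun f => f i = f j := ⟨_, rfl⟩
  have hc1 : 2 * B1.card < S.card ^ m := by
    have h3 : S.card * B1.card ≤ ∑ j : Fin m, (j : ℕ) * S.card ^ m := by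
      rw [hB1]
      refine (Nat.mul_le_mul_left _ card_biUnion_le).trans ?_
      rw [mul_sum]
      refine sum_le_sum fun j _ => ?_
      refine (Nat.mul_le_mul_left _ card_biUnion_le).trans ?_
      rw [mul_sum]
      refine (sum_le_sum (g := fun _ => S.card ^ m) fun i hi => ?_).trans ?_
      · rw [hF]
        exact cb1_pair S m (ne_of_lt (mem_Iio.1 hi))
      · rw [sum_const, smul_eq_mul, Fin.card_Iio]
    have h4 : (∑ j : Fin m, (j : ℕ)) * 2 = m * (m - 1) := by
      rw [Fin.sum_univ_eq_sum_range (fun j => j), sum_range_id_mul_two]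
    rw [← sum_mul] at h3
    have h5 : m * (m - 1) < m ^ 2 := by
      rw [sq]
      exact Nat.mul_lt_mul_of_pos_left (by omega) (by omega)
    have h6 : 0 < S.card ^ m := by positivity
    have h7 : S.card * (2 * B1.card) < S.card * S.card ^ m := by
      calc S.card * (2 * B1.card) = 2 * (S.card * B1.card) := by ring
        _ ≤ 2 * ((∑ j : Fin m, (j : ℕ)) * S.card ^ m) := Nat.mul_le_mul_left _ h3
        _ = ((∑ j : Fin m, (j : ℕ)) * 2) * S.card ^ m := by ring
        _ = m * (m - 1) * S.card ^ m := by rw [h4]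
        _ < m ^ 2 * S.card ^ m := Nat.mul_lt_mul_of_pos_right h5 h6
        _ ≤ S.card * S.card ^ m := Nat.mul_le_mul_right _ h1
    exact Nat.lt_of_mul_lt_mul_left h7
  -- the functions with a bad triple
  obtain ⟨B2, hB2⟩ : ∃ B2 : Finset (Fin m → V), B2 =
      ((univ : Finset (Fin m × Fin m × Fin m)).filter
        fun t => t.1 ≠ t.2.1 ∧ t.1 ≠ t.2.2 ∧ t.2.1 ≠ t.2.2).biUnion fun t => F.filter
          fun f => (fun t : V × V × V => R t.1 t.2.1 t.2.2) (f t.1, f t.2.1, f t.2.2) := ⟨_, rfl⟩
  have hc2 : 2 * B2.card ≤ S.card ^ m := by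
    have h3 : S.card ^ 3 * B2.card ≤ m ^ 3 * (q * S.card ^ m) := by
      rw [hB2]
      refine (Nat.mul_le_mul_left _ card_biUnion_le).trans ?_
      rw [mul_sum]
      refine (sum_le_sum (g := fun _ => q * S.card ^ m) fun t ht => ?_).trans ?_
      · rw [mem_filter] at ht
        rw [hF, hq]
        exact cb1_triple S R m ht.2.1 ht.2.2.1 ht.2.2.2
      · rw [sum_const, smul_eq_mul]
        refine Nat.mul_le_mul_right _ ((card_le_univ _).trans (le_of_eq ?_))
        rw [Fintype.card_prod, Fintype.card_prod, Fintype.card_fin]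
        ring
    have h4 : S.card ^ 3 * (2 * B2.card) ≤ S.card ^ 3 * S.card ^ m := by
      calc S.card ^ 3 * (2 * B2.card) = 2 * (S.card ^ 3 * B2.card) := by ring
        _ ≤ 2 * (m ^ 3 * (q * S.card ^ m)) := Nat.mul_le_mul_left _ h3
        _ = 2 * m ^ 3 * q * S.card ^ m := by ring
        _ ≤ S.card ^ 3 * S.card ^ m := Nat.mul_le_mul_right _ (by rw [hq]; exact h2)
    exact Nat.le_of_mul_le_mul_left h4 (by positivity)
  have hex : ∃ f ∈ F, f ∉ B1 ∪ B2 := by
    by_contra hc
    push Not at hc
    have h3 : F.card ≤ (B1 ∪ B2).card := card_le_card hc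
    have h4 := card_union_le B1 B2
    omega
  obtain ⟨f, hfF, hfB⟩ := hex
  rw [mem_union, not_or] at hfB
  have hlt : ∀ i j : Fin m, i < j → f i ≠ f j := fun i j hij he => hfB.1 (by
    rw [hB1, mem_biUnion]
    refine ⟨j, mem_univ _, ?_⟩
    rw [mem_biUnion]
    exact ⟨i, mem_Iio.2 hij, mem_filter.2 ⟨hfF, he⟩⟩)
  have hinj : Function.Injective f := by
    intro i j he
    rcases lt_trichotomy i j with h | h | h
    · exact absurd he (hlt i j h)
    · exact h
    · exact absurd he.symm (hlt j i h)
  refine ⟨univ.image f, ?_, ?_, ?_⟩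
  · intro x hx
    rw [mem_image] at hx
    obtain ⟨i, -, rfl⟩ := hx
    rw [hF, Fintype.mem_piFinset] at hfF
    exact hfF i
  · rw [card_image_of_injective _ hinj, card_univ, Fintype.card_fin]
  · intro x hx y hy z hz hxy hxz hyz hR
    rw [mem_image] at hx hy hz
    obtain ⟨i, -, rfl⟩ := hx
    obtain ⟨j, -, rfl⟩ := hy
    obtain ⟨l, -, rfl⟩ := hz
    refine hfB.2 ?_
    rw [hB2, mem_biUnion]
    refine ⟨(i, j, l), mem_filter.2 ⟨mem_univ _, ?_, ?_, ?_⟩, mem_filter.2 ⟨hfF, hR⟩⟩
    · exact fun h => hxy (congrArg f h)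
    · exact fun h => hxz (congrArg f h)
    · exact fun h => hyz (congrArg f h)

end H53P
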