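import Pool.Agent.Lib.H53P.TB

/-! # H53P, topology, file C: continuity in the point `z` -/

open Set

namespace H53P

/-- (TC1, M) `dl A P Q z` is continuous in `z ∉ A`.
PROOF.  Let `z₀ ∉ A`; `A` is compact, hence closed, and `d := infDist z₀ A > 0` (if `A` is empty
there is nothing to do, `P ∈ A`), so `d ≤ ‖w - z₀‖` for `w ∈ A`.  Let `L₀` be a logarithm for `z₀`.
For `‖z - z₀‖ < d` and `w ∈ A` put `q z w = 1 + (z₀ - z) / (w - z₀) = (w - z) / (w - z₀)`; then
`‖q - 1‖ < 1`, so `q ∈ Complex.slitPlane`, and `L_z w = L₀ w + Complex.log (q z w)` is a continuous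
logarithm of `w - z` on `A`.  By `tb2_dl`: `dl A P Q z = L₀ Q - L₀ P + log (q z Q) - log (q z P)`
for all `z` in the ball, and the right hand side is continuous in `z` on this ball.  Hence
continuity at `z₀` (`ContinuousAt` via eventual equality). -/
theorem tc1_cont {A : Set ℂ} (hA : Cell A) {P Q : ℂ} (hP : P ∈ A) (hQ : Q ∈ A) :
    ContinuousOn (fun z => dl A P Q z) Aᶜ := by
  intro z₀ hz₀
  have hz₀' : z₀ ∉ A := hz₀
  have hne : A.Nonempty := ⟨P, hP⟩
  have hcl := hA.compact.isClosed
  have hd : 0 < Metric.infDist z₀ A := (hcl.notMem_iff_infDist_pos hne).1 hz₀'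
  have hdw : ∀ w ∈ A, Metric.infDist z₀ A ≤ ‖w - z₀‖ := by
    intro w hw
    have h := Metric.infDist_le_dist_of_mem (x := z₀) hw
    rwa [dist_comm, dist_eq_norm] at h
  obtain ⟨L₀, hL₀c, hL₀⟩ := hA.log z₀ hz₀'
  have hslit : ∀ z, ‖z - z₀‖ < Metric.infDist z₀ A → ∀ w ∈ A,
      1 + (z₀ - z) / (w - z₀) ∈ Complex.slitPlane := by
    intro z hz w hw
    refine Complex.mem_slitPlane_of_norm_lt_one ?_
    have h1 := hdw w hw
    rw [norm_div, div_lt_one (hd.trans_le h1), norm_sub_rev]
    exact hz.trans_le h1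
  have hw0 : ∀ w ∈ A, w - z₀ ≠ 0 := by
    intro w hw h0
    have h1 := hdw w hw
    rw [h0, norm_zero] at h1
    exact absurd h1 (not_le.2 hd)
  have hform : ∀ z, ‖z - z₀‖ < Metric.infDist z₀ A → dl A P Q z =
      (L₀ Q + Complex.log (1 + (z₀ - z) / (Q - z₀))) - (L₀ P + Complex.log (1 + (z₀ - z) / (P - z₀))) := by
    intro z hz
    refine tb2_dl hA.conn (L := fun w => L₀ w + Complex.log (1 + (z₀ - z) / (w - z₀))) ⟨?_, ?_⟩ hP hQ
    · refine hL₀c.add (ContinuousOn.clog ?_ (hslit z hz))
      exact continuousOn_const.add (continuousOn_const.div (continuousOn_id.sub continuousOn_const) hw0)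
    · intro w hw
      rw [Complex.exp_add, hL₀ w hw, Complex.exp_log (Complex.slitPlane_ne_zero (hslit z hz w hw))]
      have h0 := hw0 w hw
      field_simp
      ring
  have hcont : ContinuousAt (fun z => (L₀ Q + Complex.log (1 + (z₀ - z) / (Q - z₀))) -
      (L₀ P + Complex.log (1 + (z₀ - z) / (P - z₀)))) z₀ := by
    have h0 : ‖z₀ - z₀‖ < Metric.infDist z₀ A := by rw [sub_self, norm_zero]; exact hd
    refine ContinuousAt.sub (continuousAt_const.add (ContinuousAt.clog ?_ (hslit z₀ h0 Q hQ)))
      (continuousAt_const.add (ContinuousAt.clog ?_ (hslit z₀ h0 P hP)))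
    · fun_prop (disch := exact hw0 Q hQ)
    · fun_prop (disch := exact hw0 P hP)
  refine (hcont.congr ?_).continuousWithinAt
  filter_upwards [Metric.ball_mem_nhds z₀ hd] with z hz
  rw [Metric.mem_ball, dist_eq_norm] at hz
  exact (hform z hz).symm

/-- (TC2, S) PROOF.  Induction on the list with `tc1_cont` and `ContinuousOn.add`,
`ContinuousOn.mono`. -/
theorem tc2_cont {P Q : ℂ} {l : Ch} (h : PathCh P Q l) :
    ContinuousOn (fun z => csum l z) (csupp l)ᶜ := by
  induction l generalizing P with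
  | nil =>
    simp only [csum_nil]
    exact continuousOn_const
  | cons c l ih =>
    obtain ⟨A, R, R'⟩ := c
    obtain ⟨hA, hR, hR', rfl, hl⟩ := h
    simp only [csum_cons]
    refine ContinuousOn.add ((tc1_cont hA hR hR').mono ?_) ((ih hl).mono ?_)
    · intro z hz h'
      apply hz
      rw [csupp_cons]
      exact Or.inl h'
    · intro z hz h'
      apply hz
      rw [csupp_cons]
      exact Or.inr h'

/-- (TC3, S) The winding number of a closed chain is constant on preconnected sets which avoid its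
support.  PROOF.  `f z = csum l z` is continuous on `C` and `exp (f z) = 1` (`tb6_closed`); apply
`tb1_const`. -/
theorem tc3_const {P : ℂ} {l : Ch} (h : PathCh P P l) {C : Set ℂ} (hC : IsPreconnected C)
    (hd : Disjoint C (csupp l)) {z z' : ℂ} (hz : z ∈ C) (hz' : z' ∈ C) :
    csum l z = csum l z' := by
  have hsub : C ⊆ (csupp l)ᶜ := fun w hw h' => Set.disjoint_left.1 hd hw h'
  refine tb1_const hC ((tc2_cont h).mono hsub) ?_ hz hz'
  intro w hw
  obtain ⟨k, hk⟩ := tb6_closed h (hsub hw)
  rw [hk]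
  exact Complex.exp_int_mul_two_pi_mul_I k

/-- (TC4, S) The support of a chain is compact (a finite union of compact sets).
PROOF.  Induction on the list (`csupp_cons`, `IsCompact.union`). -/
theorem tc4_compact {P Q : ℂ} {l : Ch} (h : PathCh P Q l) : IsCompact (csupp l) := by
  induction l generalizing P with
  | nil =>
    rw [csupp_nil]
    exact isCompact_empty
  | cons c l ih =>
    obtain ⟨A, R, R'⟩ := c
    obtain ⟨hA, hR, hR', rfl, hl⟩ := h
    rw [csupp_cons]
    exact hA.compact.union (ih hl)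

end H53P
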