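import Pool.Agent.Lib.H53P.TA
import Pool.Agent.Lib.H53P.TC

/-! # H53P, topology, file D: the circle around an interior point of a topological disc

Borsuk's argument: the winding number of `h (∂D)` around `h 0` is odd, for `h` continuous and
injective on the closed unit disc `D`. -/

open Set

namespace H53P

/-- (TD1, M) PROOF.  On the rectangle `R = Icc 0 1 ×ˢ Icc 0 (2π)` (compact and convex in `ℝ × ℝ`)
the function `G (s, t) = h (e^{it}) - h (- s e^{it})` is continuous and non-vanishing (`h` is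
injective and `e^{it} ≠ - s e^{it}` as `s ≥ 0`).  `ta1_star_log` gives a continuous `M` on `R` with
`exp M = G`.  (i) `M (0, t) - L t` is continuous with `exp = 1` on `Icc 0 (2π)`, so constant
(`tb1_const`): `M (0, 2π) - M (0, 0) = L (2π) - L 0`.  (ii) `s ↦ M (s, 2π) - M (s, 0)` is continuous
with `exp = 1` on `[0,1]` (`e^{2πi} = 1`), so constant: `M (0, 2π) - M (0, 0) = M (1, 2π) - M (1, 0)`.
(iii) For `t ∈ [0, π]`: `e^{i(t+π)} = - e^{it}`, so `G (1, t + π) = - G (1, t)`, and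
`E t = M (1, t + π) - M (1, t) - π i` is continuous with `exp = 1`, so `E 0 = E π`, and
`E 0 = m * 2πi` for an integer `m`.  Hence `M (1, 2π) - M (1, 0) = (M (1, 2π) - M (1, π)) +
(M (1, π) - M (1, 0)) = E π + E 0 + 2 π i = (2 m + 1) * 2πi`. -/
theorem td1_borsuk {h : ℂ → ℂ} (hc : ContinuousOn h (Metric.closedBall 0 1))
    (hi : InjOn h (Metric.closedBall 0 1)) {L : ℝ → ℂ}
    (hL : ContinuousOn L (Icc 0 (2 * Real.pi)))
    (hE : ∀ t ∈ Icc (0 : ℝ) (2 * Real.pi),
      Complex.exp (L t) = h (Complex.exp (t * Complex.I)) - h 0) :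
    ∃ m : ℤ, L (2 * Real.pi) - L 0 = (2 * m + 1) * (2 * Real.pi * Complex.I) := by
  have hpi := Real.pi_pos
  have hball : ∀ s ∈ Icc (0 : ℝ) 1, ∀ t : ℝ,
      -(s : ℂ) * Complex.exp (t * Complex.I) ∈ Metric.closedBall (0 : ℂ) 1 := by
    intro s hs t
    rw [mem_closedBall_zero_iff, norm_mul, norm_neg, Complex.norm_exp_ofReal_mul_I, mul_one,
      Complex.norm_real, Real.norm_eq_abs, abs_of_nonneg hs.1]
    exact hs.2
  have hball1 : ∀ t : ℝ, Complex.exp (t * Complex.I) ∈ Metric.closedBall (0 : ℂ) 1 := by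
    intro t
    rw [mem_closedBall_zero_iff, Complex.norm_exp_ofReal_mul_I]
  have hG : ContinuousOn (fun p : ℝ × ℝ => h (Complex.exp (p.2 * Complex.I)) -
      h (-(p.1 : ℂ) * Complex.exp (p.2 * Complex.I))) (Icc (0 : ℝ) 1 ×ˢ Icc (0 : ℝ) (2 * Real.pi)) := by
    refine ContinuousOn.sub (hc.comp (Continuous.continuousOn (by fun_prop)) ?_)
      (hc.comp (Continuous.continuousOn (by fun_prop)) ?_)
    · rintro ⟨s, t⟩ ⟨hs, ht⟩
      exact hball1 t
    · rintro ⟨s, t⟩ ⟨hs, ht⟩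
      exact hball s hs t
  have hne : ∀ p ∈ Icc (0 : ℝ) 1 ×ˢ Icc (0 : ℝ) (2 * Real.pi), h (Complex.exp ((p.2 : ℝ) * Complex.I)) -
      h (-(p.1 : ℂ) * Complex.exp ((p.2 : ℝ) * Complex.I)) ≠ 0 := by
    rintro ⟨s, t⟩ ⟨hs, ht⟩ h0
    have h1 := hi (hball1 t) (hball s hs t) (sub_eq_zero.1 h0)
    have h2 : (1 + (s : ℂ)) * Complex.exp (t * Complex.I) = 0 := by
      try simp only at h1
      linear_combination h1
    rcases mul_eq_zero.1 h2 with h3 | h3
    · have h4 : ((1 + s : ℝ) : ℂ) = 0 := by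
        push_cast
        exact h3
      have h5 : 1 + s = 0 := by exact_mod_cast h4
      linarith [hs.1]
    · exact Complex.exp_ne_zero _ h3
  obtain ⟨M, hM, hM'⟩ := ta1_star_log (isCompact_Icc.prod isCompact_Icc)
    (((convex_Icc (0 : ℝ) 1).prod (convex_Icc (0 : ℝ) (2 * Real.pi))).starConvex
      (x := ((0 : ℝ), (0 : ℝ))) ⟨⟨le_rfl, zero_le_one⟩, ⟨le_rfl, by positivity⟩⟩) hG hne
  have hexp2 : Complex.exp (((2 * Real.pi : ℝ) : ℂ) * Complex.I) = 1 := by
    push_cast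
    exact Complex.exp_two_pi_mul_I
  have hexp0 : Complex.exp (((0 : ℝ) : ℂ) * Complex.I) = 1 := by
    rw [Complex.ofReal_zero, zero_mul, Complex.exp_zero]
  have m0 : (0 : ℝ) ∈ Icc (0 : ℝ) (2 * Real.pi) := ⟨le_rfl, by positivity⟩
  have m2 : (2 * Real.pi) ∈ Icc (0 : ℝ) (2 * Real.pi) := ⟨by positivity, le_rfl⟩
  have z0 : (0 : ℝ) ∈ Icc (0 : ℝ) 1 := ⟨le_rfl, zero_le_one⟩
  have z1 : (1 : ℝ) ∈ Icc (0 : ℝ) 1 := ⟨zero_le_one, le_rfl⟩
  -- step one
  have s1 := tb1_const (A := Icc (0 : ℝ) (2 * Real.pi)) isPreconnected_Icc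
    (f := fun t => M (0, t) - L t) (by
      refine ContinuousOn.sub (hM.comp (Continuous.continuousOn (by fun_prop)) ?_) hL
      intro t ht
      exact ⟨z0, ht⟩) (by
      intro t ht
      rw [Complex.exp_sub, hM' _ ⟨z0, ht⟩, hE t ht]
      simp only
      rw [Complex.ofReal_zero, neg_zero, zero_mul]
      refine div_self ?_
      have h1 := hne (0, t) ⟨z0, ht⟩
      try simp only at h1
      rw [Complex.ofReal_zero, neg_zero, zero_mul] at h1
      exact h1) m0 m2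
  -- step two
  have s2 := tb1_const (A := Icc (0 : ℝ) 1) isPreconnected_Icc
    (f := fun s => M (s, 2 * Real.pi) - M (s, 0)) (by
      refine ContinuousOn.sub (hM.comp (Continuous.continuousOn (by fun_prop)) ?_)
        (hM.comp (Continuous.continuousOn (by fun_prop)) ?_)
      · intro s hs
        exact ⟨hs, m2⟩
      · intro s hs
        exact ⟨hs, m0⟩) (by
      intro s hs
      rw [Complex.exp_sub, hM' _ ⟨hs, m2⟩, hM' _ ⟨hs, m0⟩]
      have h1 := hne (s, 0) ⟨hs, m0⟩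
      simp only at h1 ⊢
      rw [hexp2, hexp0]
      rw [hexp0] at h1
      exact div_self h1) z0 z1
  -- step three
  have hsub : ∀ t ∈ Icc (0 : ℝ) Real.pi, t ∈ Icc (0 : ℝ) (2 * Real.pi) ∧
      t + Real.pi ∈ Icc (0 : ℝ) (2 * Real.pi) := by
    intro t ht
    exact ⟨⟨ht.1, by linarith [ht.2]⟩, ⟨by linarith [ht.1], by linarith [ht.2]⟩⟩
  have hE1 : ∀ t ∈ Icc (0 : ℝ) Real.pi,
      Complex.exp (M (1, t + Real.pi) - M (1, t) - Real.pi * Complex.I) = 1 := by
    intro t ht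
    obtain ⟨t1, t2⟩ := hsub t ht
    rw [Complex.exp_sub, Complex.exp_sub, hM' _ ⟨z1, t2⟩, hM' _ ⟨z1, t1⟩, Complex.exp_pi_mul_I]
    have h1 := hne (1, t) ⟨z1, t1⟩
    simp only at h1 ⊢
    have e1 : Complex.exp (((t + Real.pi : ℝ) : ℂ) * Complex.I) = -Complex.exp ((t : ℂ) * Complex.I) := by
      push_cast
      rw [add_mul, Complex.exp_add, Complex.exp_pi_mul_I]
      ring
    rw [e1]
    rw [Complex.ofReal_one] at h1 ⊢
    have e2 : (-1 : ℂ) * -Complex.exp ((t : ℂ) * Complex.I) = Complex.exp ((t : ℂ) * Complex.I) := by ring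
    have e3 : (-1 : ℂ) * Complex.exp ((t : ℂ) * Complex.I) = -Complex.exp ((t : ℂ) * Complex.I) := by ring
    rw [e2, e3]
    rw [e3] at h1
    generalize h (Complex.exp ((t : ℂ) * Complex.I)) = A at *
    generalize h (-Complex.exp ((t : ℂ) * Complex.I)) = B at *
    have e4 : B - A = -(A - B) := by ring
    rw [e4]
    field_simp
  have p0 : (0 : ℝ) ∈ Icc (0 : ℝ) Real.pi := ⟨le_rfl, hpi.le⟩
  have p1 : Real.pi ∈ Icc (0 : ℝ) Real.pi := ⟨hpi.le, le_rfl⟩
  have s3 := tb1_const (A := Icc (0 : ℝ) Real.pi) isPreconnected_Icc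
    (f := fun t => M (1, t + Real.pi) - M (1, t) - Real.pi * Complex.I) (by
      refine ContinuousOn.sub (ContinuousOn.sub (hM.comp (Continuous.continuousOn (by fun_prop)) ?_)
        (hM.comp (Continuous.continuousOn (by fun_prop)) ?_)) continuousOn_const
      · intro t ht
        exact ⟨z1, (hsub t ht).2⟩
      · intro t ht
        exact ⟨z1, (hsub t ht).1⟩) hE1 p0 p1
  obtain ⟨m, hm⟩ := Complex.exp_eq_one_iff.1 (hE1 0 p0)
  try simp only at s1 s2 s3
  rw [zero_add] at s3 hm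
  have e5 : Real.pi + Real.pi = 2 * Real.pi := by ring
  rw [e5] at s3
  refine ⟨m, ?_⟩
  linear_combination s1 + s2 - s3 + 2 * hm

end H53P
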