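import Mathlib

/-! # H53P, combinatorics: small classes (pure Mathlib) -/

namespace H53P

open Finset

/-- (CB2, S/M) Elements of small classes are few.
PROOF.  The elements `x` with small class are covered by the classes
`{y ∈ S | f y = c}`, `c ∈ C` (the finite type of codes), each small class having fewer than `H`
elements: the set is contained in the union over the small codes `c` of the fibres
(`Finset.card_biUnion_le`, `Finset.sum_le_card_nsmul`). -/
theorem cb2_light {V C : Type*} [DecidableEq V] [Fintype C] [DecidableEq C] (S : Finset V)
    (f : V → C) (H : ℕ) :
    (S.filter fun x => (S.filter fun y => f y = f x).card < H).card ≤ Fintype.card C * H := by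
  have h1 : (S.filter fun x => (S.filter fun y => f y = f x).card < H) ⊆
      (univ.filter fun c => (S.filter fun y => f y = c).card < H).biUnion
        fun c => S.filter fun y => f y = c := by
    intro x hx
    rw [mem_filter] at hx
    rw [mem_biUnion]
    exact ⟨f x, mem_filter.2 ⟨mem_univ _, hx.2⟩, mem_filter.2 ⟨hx.1, rfl⟩⟩
  refine (card_le_card h1).trans (card_biUnion_le.trans ?_)
  refine (sum_le_sum fun c hc => (mem_filter.1 hc).2.le).trans ?_
  rw [sum_const, smul_eq_mul]
  exact Nat.mul_le_mul_right _ (card_le_univ _)

end H53P
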