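import Pool.Agent.Lib.H53P.CC

/-! # H53P, combinatorics: independent sets or cliques -/

namespace H53P

variable {V : Type*} (T : Table V)

/-- (CC4, M) Independent sets or cliques in `G_{uw}`.
PROOF.  With `ρ, σ` from `cc3_perm` let `R x y : ρ x < ρ y ∧ σ x < σ y`, a transitive irreflexive
relation.  `ca2_chain`: a chain with `r + 1` elements is pairwise related (`List.isChain_iff_pairwise`
for a transitive relation), hence has distinct elements, and any two have `adj = false`.  Otherwise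
`Z ⊆ S` with `S.card ≤ r * Z.card` has no related pairs, so for `x ≠ y` in `Z` the equivalence
`ρ x < ρ y ↔ σ x < σ y` fails and `adj = true`. -/
theorem cc4_dich [DecidableEq V] {u w : V} (huw : u ≠ w) (S : Finset V) (hu : u ∉ S) (hw : w ∉ S)
    (r : ℕ) :
    (∃ X ⊆ S, X.card = r + 1 ∧ T.Indep u w X) ∨
    (∃ Y ⊆ S, S.card ≤ r * Y.card ∧ T.Clique u w Y) := by
  obtain ⟨ρ, σ, -, hρ, hσ, -, h⟩ := cc3_perm T huw
  have hSu : ∀ x ∈ S, x ≠ u := fun x hx he => hu (he ▸ hx)
  have hSw : ∀ x ∈ S, x ≠ w := fun x hx he => hw (he ▸ hx)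
  rcases ca2_chain (fun x y => ρ x < ρ y ∧ σ x < σ y) S r with ⟨l, hl, hlS, hch⟩ | ⟨Z, hZ, hc, hn⟩
  · left
    have hp : l.Pairwise fun x y => ρ x < ρ y ∧ σ x < σ y := by
      have : Trans (fun x y : V => ρ x < ρ y ∧ σ x < σ y) (fun x y => ρ x < ρ y ∧ σ x < σ y)
          (fun x y => ρ x < ρ y ∧ σ x < σ y) :=
        ⟨fun h1 h2 => ⟨h1.1.trans h2.1, h1.2.trans h2.2⟩⟩
      exact List.isChain_iff_pairwise.1 hch
    have hnd : l.Nodup := hp.imp fun h1 h2 => by
      rw [h2] at h1
      exact lt_irrefl _ h1.1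
    refine ⟨l.toFinset, fun x hx => hlS x (List.mem_toFinset.1 hx), ?_, ?_⟩
    · rw [List.toFinset_card_of_nodup hnd, hl]
    · have h1 : ∀ x ∈ l, ∀ y ∈ l, x ≠ y → T.adj u w x y = false := by
        have : Std.Symm (fun x y : V => x ≠ y → T.adj u w x y = false) :=
          ⟨fun x y h1 h2 => by rw [(cc1_adj T u w y x).2.1]; exact h1 h2.symm⟩
        have h2 : l.Pairwise (fun x y : V => x ≠ y → T.adj u w x y = false) := by
          refine hp.imp_of_mem fun {x y} hx hy h1 hxy => ?_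
          exact (h x y (hSu x (hlS x hx)) (hSw x (hlS x hx)) (hSu y (hlS y hy))
            (hSw y (hlS y hy)) hxy).2 ⟨fun _ => h1.2, fun _ => h1.1⟩
        intro x hx y hy
        exact List.Pairwise.forall_of_forall (fun x _ h => absurd rfl h) h2 hx hy
      intro x hx y hy hxy
      exact h1 x (List.mem_toFinset.1 hx) y (List.mem_toFinset.1 hy) hxy
  · right
    refine ⟨Z, hZ, hc, fun x hx y hy hxy => ?_⟩
    have hxu := hSu x (hZ hx)
    have hxw := hSw x (hZ hx)
    have hyu := hSu y (hZ hy)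
    have hyw := hSw y (hZ hy)
    by_contra hc1
    rw [Bool.not_eq_true] at hc1
    have h1 := (h x y hxu hxw hyu hyw hxy).1 hc1
    have h2 := hn x hx y hy
    have h3 := hn y hy x hx
    have h4 : ρ x ≠ ρ y := fun he => hxy (hρ x y hxu hyu he)
    have h5 : σ x ≠ σ y := fun he => hxy (hσ x y hxw hyw he)
    rcases lt_or_gt_of_ne h4 with h6 | h6
    · exact h2 ⟨h6, h1.1 h6⟩
    · refine h3 ⟨h6, ?_⟩
      rcases lt_or_gt_of_ne h5 with h7 | h7
      · exact absurd (h1.2 h7) (not_lt.2 h6.le)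
      · exact h7

end H53P
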