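import Pool.Agent.Lib.H53P.C0

/-! # H53P, combinatorics: facts on five points -/

namespace H53P

variable {V : Type*} (T : Table V)

theorem cd_btw {a b c : ℝ} (h : a < c) (h2 : a < b) : btw a b c = decide (c < b) := by
  rw [btw]
  have e1 : decide (b < c ∧ c < a) = false := decide_eq_false fun h3 => absurd h3.2 (not_lt.2 h.le)
  rw [e1, Bool.or_false]
  simp [h]

theorem cd_alt {u a b c d : V} {ρ : V → ℝ} (h0 : ∀ x, x ≠ u → x ≠ a → ρ a < ρ x)
    (hρ : T.alt u a b c d = (btw (ρ a) (ρ b) (ρ c) ^^ btw (ρ a) (ρ b) (ρ d)))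
    (hb : b ≠ u) (hc : c ≠ u) (hd : d ≠ u) (hab : a ≠ b)
    (hac : a ≠ c) (had : a ≠ d) :
    T.alt u a b c d = (decide (ρ c < ρ b) ^^ decide (ρ d < ρ b)) := by
  rw [hρ, cd_btw (h0 c hc hac.symm) (h0 b hb hab.symm), cd_btw (h0 d hd had.symm) (h0 b hb hab.symm)]

/-- (CD1, S/M) Exactly one of the three pairings of four edges at `u` alternates.
PROOF.  `T.rot u a`: `ρ a` is smaller than `ρ b, ρ c, ρ d`, which are distinct, so
`alt u a b c d = [ρ c < ρ b] ^^ [ρ d < ρ b]`, `alt u a c b d = [ρ b < ρ c] ^^ [ρ d < ρ c]`,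
`alt u a d b c = [ρ b < ρ d] ^^ [ρ c < ρ d]`: the first holds iff `b` is the middle one of
`b, c, d`, the second iff `c` is, the third iff `d` is. -/
theorem cd1_one {u a b c d : V} (ha : a ≠ u) (hb : b ≠ u) (hc : c ≠ u) (hd : d ≠ u) (hab : a ≠ b)
    (hac : a ≠ c) (had : a ≠ d) (hbc : b ≠ c) (hbd : b ≠ d) (hcd : c ≠ d) :
    (T.alt u a b c d = true ∧ T.alt u a c b d = false ∧ T.alt u a d b c = false) ∨
    (T.alt u a b c d = false ∧ T.alt u a c b d = true ∧ T.alt u a d b c = false) ∨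
    (T.alt u a b c d = false ∧ T.alt u a c b d = false ∧ T.alt u a d b c = true) := by
  obtain ⟨ρ, h0, hi, hρ⟩ := T.rot u a ha.symm
  have e1 : T.alt u a b c d = (decide (ρ c < ρ b) ^^ decide (ρ d < ρ b)) :=
    cd_alt T h0 (hρ a b c d ha hb hc hd hab hac had hbc hbd hcd) hb hc hd hab hac had
  have e2 : T.alt u a c b d = (decide (ρ b < ρ c) ^^ decide (ρ d < ρ c)) :=
    cd_alt T h0 (hρ a c b d ha hc hb hd hac hab had hbc.symm hcd hbd) hc hb hd hac hab had
  have e3 : T.alt u a d b c = (decide (ρ b < ρ d) ^^ decide (ρ c < ρ d)) :=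
    cd_alt T h0 (hρ a d b c ha hd hb hc had hab hac hbd.symm hcd.symm hbc) hd hb hc had hab hac
  rw [e1, e2, e3]
  have n1 : ρ b ≠ ρ c := fun h => hbc (hi b c hb hc h)
  have n2 : ρ b ≠ ρ d := fun h => hbd (hi b d hb hd h)
  have n3 : ρ c ≠ ρ d := fun h => hcd (hi c d hc hd h)
  rcases lt_or_gt_of_ne n1 with m1 | m1 <;> rcases lt_or_gt_of_ne n2 with m2 | m2 <;>
    rcases lt_or_gt_of_ne n3 with m3 | m3
  · simp [m1, m2, m3, m1.not_gt, m2.not_gt, m3.not_gt]
  · simp [m1, m2, m3, m1.not_gt, m2.not_gt, m3.not_gt]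
  · exact absurd (m1.trans m3) m2.not_gt
  · simp [m1, m2, m3, m1.not_gt, m2.not_gt, m3.not_gt]
  · simp [m1, m2, m3, m1.not_gt, m2.not_gt, m3.not_gt]
  · exact absurd (m2.trans m3) m1.not_gt
  · simp [m1, m2, m3, m1.not_gt, m2.not_gt, m3.not_gt]
  · simp [m1, m2, m3, m1.not_gt, m2.not_gt, m3.not_gt]

theorem cd_symm3 (a b c d : V) : T.X a b c d = T.X a b d c := by
  rw [T.symm2 a b c d, T.symm1 c d a b, T.symm2 d c a b]

/-- (CD2, M) If the arcs `u x w`, `u y w`, `u z w` are pairwise non-crossing then `yz` does not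
cross both `ux` and `wx`.
PROOF.  Suppose `X u x y z = X w x y z = true`.  By `one`: `X u y x z = X u z x y = 0`,
`X w y x z = X w z x y = 0`.  All of `X u x w y`, `X u y w x`, `X u x w z`, `X u z w x`, `X u y w z`,
`X u z w y` are `0`.  Write `c(yz) = X u w y z` etc.  At `x`: `alt x u y w z = 0`,
`alt x u z w y = 0` (all five terms vanish) and `alt x u w y z = 1 ^^ 1 ^^ c(xy) ^^ c(xz) ^^ c(yz)`;
by `cd1_one` at `x` (for `u, w, y, z`) exactly one alternates, so `c(xy) ^^ c(xz) ^^ c(yz) = 1`.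
At `y`: `alt y u w x z = 0 ^^ 0 ^^ c(xy) ^^ c(yz) ^^ c(xz) = 1` and
`alt y u x w z = 0 ^^ 0 ^^ 0 ^^ X u x y z ^^ 0 = 1`, contradicting `cd1_one` at `y`.
(All symmetric forms of `X` must be rewritten to a normal form; `simp` with `symm1`, `symm2`
instances, or define local Booleans for the 15 pairs.) -/
theorem cd2_both {u w x y z : V} (huw : u ≠ w) (hxu : x ≠ u) (hxw : x ≠ w) (hyu : y ≠ u)
    (hyw : y ≠ w) (hzu : z ≠ u) (hzw : z ≠ w) (hxy : x ≠ y) (hxz : x ≠ z) (hyz : y ≠ z)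
    (h1 : T.adj u w x y = false) (h2 : T.adj u w x z = false) (h3 : T.adj u w y z = false) :
    ¬ (T.X u x y z = true ∧ T.X w x y z = true) := by
  rintro ⟨hu, hw⟩
  have a1 : T.X u y x z = false := T.one _ _ _ _ hu
  have a2 : T.X u z x y = false := T.one u x z y (by rw [cd_symm3]; exact hu)
  have b1 : T.X w y x z = false := T.one _ _ _ _ hw
  have b2 : T.X w z x y = false := T.one w x z y (by rw [cd_symm3]; exact hw)
  unfold Table.adj at h1 h2 h3
  simp only [Bool.or_eq_false_iff] at h1 h2 h3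
  obtain ⟨c1, c2⟩ := h1
  obtain ⟨d1, d2⟩ := h2
  obtain ⟨e1, e2⟩ := h3
  have px := cd1_one T (u := x) (a := u) (b := w) (c := y) (d := z) hxu.symm hxw.symm hxy.symm hxz.symm huw hyu.symm hzu.symm
    hyw.symm hzw.symm hyz
  have py := cd1_one T (u := y) (a := u) (b := w) (c := x) (d := z) hyu.symm hyw.symm hxy hyz.symm huw hxu.symm hzu.symm
    hxw.symm hzw.symm hxz
  have f1 : T.alt x u w y z = ((T.X u w x y ^^ T.X u w x z) ^^ T.X u w y z) := by
    change ((((T.X x u y z ^^ T.X x w y z) ^^ T.X u w x y) ^^ T.X u w x z) ^^ T.X u w y z) = _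
    rw [T.symm1 x u y z, hu, T.symm1 x w y z, hw]
    simp
  have f2 : T.alt x u y w z = false := by
    change ((((T.X x u w z ^^ T.X x y w z) ^^ T.X u y x w) ^^ T.X u y x z) ^^ T.X u y w z) = _
    rw [T.symm1 x u w z, d1, T.symm2 x y w z, b2, cd_symm3 T u y x w, c2, a1, e1]
    rfl
  have f3 : T.alt x u z w y = false := by
    change ((((T.X x u w y ^^ T.X x z w y) ^^ T.X u z x w) ^^ T.X u z x y) ^^ T.X u z w y) = _
    rw [T.symm1 x u w y, c1, T.symm2 x z w y, b1, cd_symm3 T u z x w, d2, a2, e2]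
    rfl
  have g1 : T.alt y u w x z = ((T.X u w x y ^^ T.X u w x z) ^^ T.X u w y z) := by
    change ((((T.X y u x z ^^ T.X y w x z) ^^ T.X u w y x) ^^ T.X u w y z) ^^ T.X u w x z) = _
    rw [T.symm1 y u x z, a1, T.symm1 y w x z, b1, cd_symm3 T u w y x]
    generalize T.X u w x y = p
    generalize T.X u w y z = q
    generalize T.X u w x z = r
    revert p q r
    decide
  have g2 : T.alt y u x w z = true := by
    change ((((T.X y u w z ^^ T.X y x w z) ^^ T.X u x y w) ^^ T.X u x y z) ^^ T.X u x w z) = _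
    rw [T.symm1 y u w z, e1, T.symm1 y x w z, T.symm2 x y w z, b2, cd_symm3 T u x y w, c1, hu, d1]
    rfl
  rw [f1, f2, f3] at px
  rw [g1, g2] at py
  generalize ((T.X u w x y ^^ T.X u w x z) ^^ T.X u w y z) = p at px py
  generalize T.alt y u z w x = q at py
  revert p q
  decide

/-- (CD3, S) The sides for non-crossing arcs.
PROOF.  `alt u w x y z = btw (ρ w) (ρ x) (ρ y) ^^ btw (ρ w) (ρ x) (ρ z)
= [ρ y < ρ x] ^^ [ρ z < ρ x]`, and by definition
`alt u w x y z = X u w y z ^^ X u x y z ^^ X w x u y ^^ X w x u z ^^ X w x y z` with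
`X w x u y = X u y w x = 0`, `X w x u z = 0` (non-adjacent). -/
theorem cd3_side {u w x y z : V} {ρ : V → ℝ} (huw : u ≠ w) (hxu : x ≠ u) (hxw : x ≠ w)
    (hyu : y ≠ u) (hyw : y ≠ w) (hzu : z ≠ u) (hzw : z ≠ w) (hxy : x ≠ y) (hxz : x ≠ z)
    (hyz : y ≠ z) (h0 : ∀ x, x ≠ u → x ≠ w → ρ w < ρ x)
    (hρ : T.alt u w x y z = (btw (ρ w) (ρ x) (ρ y) ^^ btw (ρ w) (ρ x) (ρ z)))
    (h1 : T.adj u w x y = false) (h2 : T.adj u w x z = false) :
    (T.X u x y z ^^ T.X w x y z) =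
      ((decide (ρ y < ρ x) ^^ decide (ρ z < ρ x)) ^^ T.X u w y z) := by
  have h := cd_alt T h0 hρ hxu hyu hzu hxw.symm hyw.symm hzw.symm
  unfold Table.adj at h1 h2
  simp only [Bool.or_eq_false_iff] at h1 h2
  have e : T.alt u w x y z = ((T.X u w y z ^^ T.X u x y z) ^^ T.X w x y z) := by
    change ((((T.X u w y z ^^ T.X u x y z) ^^ T.X w x u y) ^^ T.X w x u z) ^^ T.X w x y z) = _
    rw [T.symm2 w x u y, h1.2, T.symm2 w x u z, h2.2]
    simp
  rw [← h, e]
  generalize T.X u w y z = p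
  generalize T.X u x y z = q
  generalize T.X w x y z = r
  revert p q r
  decide

end H53P
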