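import Pool.Agent.Lib.H53P.CD

/-! # H53P, combinatorics: long edges -/

namespace H53P

variable {V : Type*} (T : Table V)

theorem cd4_s (a b c d : V) : T.X a b c d = T.X a b d c := by
  rw [T.symm2, T.symm1, T.symm2]

theorem cd4_sep {v i j k l : V} (nvi : v ≠ i) (nvj : v ≠ j) (nvk : v ≠ k) (nvl : v ≠ l)
    (nij : i ≠ j) (nik : i ≠ k) (nil' : i ≠ l) (njk : j ≠ k) (njl : j ≠ l) (nkl : k ≠ l)
    (h1 : T.X v i j k = false) (h2 : T.X v i j l = false) (h3 : T.X v i k l = true)
    (h4 : T.X v j k l = true) (h5 : T.X v k i j = true) (h6 : T.X i j k l = false) : False := by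
  have hz : ∀ p q r s, (p = r ∨ p = s ∨ q = r ∨ q = s) → T.X p q r s = false := by
    intro p q r s h
    by_contra hc
    rw [Bool.not_eq_false] at hc
    obtain ⟨-, -, h3, h4, h5, h6⟩ := T.ne p q r s hc
    tauto
  have e1 := T.sep j k l njk nkl (Ne.symm njl) i v j k nij nik nil' nvj nvk nvl
    (hz _ _ _ _ (Or.inr (Or.inr (Or.inl rfl)))) h6 (hz _ _ _ _ (Or.inr (Or.inr (Or.inr rfl))))
    (hz _ _ _ _ (Or.inr (Or.inr (Or.inr rfl)))) (hz _ _ _ _ (Or.inr (Or.inr (Or.inl rfl))))
    (by
      have e2 := T.one v j k l h4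
      rw [cd4_s] at e2
      exact e2)
    (by
      unfold crTX
      rw [T.symm1 i v j k, T.symm1 i v k l, T.symm1 i v l j, cd4_s T v i l j, h1, h2, h3]
      rfl)
  rw [T.symm2, h5] at e1
  exact Bool.noConfusion e1

/-- (CD4, M) Long edges: if the arcs through `i, j, k, l` are pairwise non-crossing, in this order,
and all edges between them cross `uw`, then `ik` and `jl` do not cross, and `X u i j l = X u i k l`.
PROOF.  Hypotheses `hb`, `ho` are what `cd2_both` and `cd3_side` give: for `v = u, w` the `v`-edge of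
a middle vertex does not cross (`hb`), and for an outer vertex `x` and a pair `y, z` exactly one of
`X u x y z`, `X w x y z` holds (`ho`).
(1) `X u k i j = !X u i j k` for every triple `i < j < k`: if `X u i j k = 1` then `X u k i j = 0` by
`one`; if `X u i j k = 0` then `X w i j k = 1`, so `X w k i j = 0` by `one` and `X u k i j = 1`.
The same for `w`.
(2) `h13 : alt u i k j l = true` (the order is `i, j, k, l`) reads
`X u i j l ^^ X u k j l ^^ X u j i k ^^ X u l i k ^^ X i k j l = 1` with `X u k j l = X u j i k = 0`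
(middle) and `X u l i k = !X u i k l`, so `X i k j l = X u i j l ^^ X u i k l`.  Hence it suffices to
show `X i k j l = 0`.
(3) Suppose `X i k j l = 1`.  Then `X i j k l = X i l j k = 0` (`one`).  Let `p = X u i j l`, so
`X u i k l = !p`, and `q = X u i j k`.  `h12 : alt u i j k l = false` reads
`X u i k l ^^ X u j k l ^^ X u k i j ^^ X u l i j ^^ X i j k l = 0`, i.e.
`!p ^^ X u j k l ^^ !q ^^ !p ^^ 0 = 0`, so `X u j k l = !q`.
At `i` (`cd1_one` for `u, j, k, l`): `alt i u j k l = X u i k l ^^ X i j k l ^^ X u j i k ^^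
X u j i l ^^ X u j k l = !p ^^ 0 ^^ 0 ^^ 0 ^^ !q = p ^^ q`, `alt i u k j l = X u i j l ^^ X i k j l ^^
X u k i j ^^ X u k i l ^^ X u k j l = p ^^ 1 ^^ !q ^^ 0 ^^ 0 = p ^^ q`; they cannot both be `1`, so
`p = q`.
(4) Let `v = u` if `p = 0` and `v = w` if `p = 1` (for `w` all values are the complements, `ho`).
Then `X v i j k = X v i j l = 0`, `X v i k l = X v j k l = 1`, `X v k i j = X v l i j = 1` (by (1)).
Apply `T.sep` to the triangle `j, k, l` with `x = i`, `x' = j`, `y = v`, `y' = k`:
`X i j j k = 0`, `X i j k l = 0`, `X i j l j = 0` (degenerate terms vanish by `T.ne`),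
`X v k j k = 0`, `X v k k l = 0`, `X v k l j = 0` (`one`, as `X v j k l = 1`), and
`crT j k l i v = X i v j k ^^ X i v k l ^^ X i v l j = 0 ^^ 1 ^^ 0 = 1`.  So `X i j v k = 0`,
contradicting `X v k i j = 1`. -/
theorem cd4_long {u w i j k l : V} (huw : u ≠ w)
    (hn : [u, w, i, j, k, l].Nodup)
    (h12 : T.alt u i j k l = false) (h13 : T.alt u i k j l = true)
    (hb : ∀ v x y z, (v = u ∨ v = w) → ((x = j ∧ y = i ∧ z = k) ∨ (x = j ∧ y = i ∧ z = l) ∨
      (x = k ∧ y = i ∧ z = l) ∨ (x = k ∧ y = j ∧ z = l)) → T.X v x y z = false)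
    (ho : ∀ x y z, ((x = i ∧ y = j ∧ z = k) ∨ (x = k ∧ y = i ∧ z = j) ∨
      (x = i ∧ y = j ∧ z = l) ∨ (x = l ∧ y = i ∧ z = j) ∨ (x = i ∧ y = k ∧ z = l) ∨
      (x = l ∧ y = i ∧ z = k) ∨ (x = j ∧ y = k ∧ z = l) ∨ (x = l ∧ y = j ∧ z = k)) →
      (T.X u x y z ^^ T.X w x y z) = true) :
    T.X i k j l = false ∧ T.X u i j l = T.X u i k l := by
  simp only [List.nodup_cons, List.mem_cons, List.not_mem_nil, or_false, not_or,
    List.nodup_nil, and_true, not_false_eq_true] at hn
  obtain ⟨⟨-, nui, nuj, nuk, nul⟩, ⟨nwi, nwj, nwk, nwl⟩, ⟨nij, nik, nil'⟩, ⟨njk, njl⟩, nkl⟩ := hn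
  -- complementary values
  have o1 := ho i j k (by simp)
  have o2 := ho k i j (by simp)
  have o3 := ho i j l (by simp)
  have o4 := ho l i j (by simp)
  have o5 := ho i k l (by simp)
  have o6 := ho l i k (by simp)
  have o7 := ho j k l (by simp)
  have hK : ∀ x y z : V, (T.X u x y z ^^ T.X w x y z) = true →
      (T.X u z x y ^^ T.X w z x y) = true → T.X u z x y = !T.X u x y z ∧
        T.X w z x y = !T.X w x y z := by
    intro x y z h1 h2
    have e1 : T.X u x y z = true → T.X u z x y = false := fun h => by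
      have h3 := T.one u x z y (by rw [cd4_s T u x z y]; exact h)
      exact h3
    have e2 : T.X w x y z = true → T.X w z x y = false := fun h => by
      have h3 := T.one w x z y (by rw [cd4_s T w x z y]; exact h)
      exact h3
    revert h1 h2 e1 e2
    generalize T.X u x y z = A
    generalize T.X w x y z = B
    generalize T.X u z x y = C
    generalize T.X w z x y = D
    revert A B C D
    decide
  obtain ⟨K1, K1'⟩ := hK i j k o1 o2
  obtain ⟨K2, K2'⟩ := hK i j l o3 o4
  obtain ⟨K3, -⟩ := hK i k l o5 o6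
  have b1 := hb u j i k (Or.inl rfl) (by simp)
  have b2 := hb u j i l (Or.inl rfl) (by simp)
  have b3 := hb u k i l (Or.inl rfl) (by simp)
  have b4 := hb u k j l (Or.inl rfl) (by simp)
  unfold Table.alt altX at h12 h13
  rw [T.symm2 i k u j, T.symm2 i k u l, b1, b4, K3] at h13
  rw [T.symm2 i j u k, T.symm2 i j u l, K1, K2] at h12
  have hM : T.X i k j l = (T.X u i j l ^^ T.X u i k l) := by
    revert h13
    generalize T.X i k j l = A
    generalize T.X u i j l = B
    generalize T.X u i k l = C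
    revert A B C
    decide
  have key : T.X i k j l = false := by
    by_contra hM1
    rw [Bool.not_eq_false] at hM1
    have z1 : T.X i j k l = false := T.one i k j l hM1
    have z2 : T.X i l j k = false := by
      have h3 := T.one i k l j (by rw [cd4_s T i k l j]; exact hM1)
      rw [cd4_s T i l k j] at h3
      exact h3
    have hone := cd1_one T (u := i) (a := u) (b := j) (c := k) (d := l) nui (Ne.symm nij) (Ne.symm nik)
      (Ne.symm nil') nuj nuk nul njk njl nkl
    unfold Table.alt altX at hone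
    rw [T.symm1 i u k l, z1, T.symm2 u j i k, T.symm2 i k u j, b1, T.symm2 u j i l, T.symm2 i l u j, b2,
      T.symm1 i u j l, hM1, T.symm2 u k i j, T.symm2 i j u k, K1, T.symm2 u k i l, T.symm2 i l u k,
      b3, b4] at hone
    rw [z1] at h12
    rw [hM1] at hM
    have hpq : (T.X u i j l = false ∧ T.X u i j k = false ∧ T.X u i k l = true ∧
        T.X u j k l = true) ∨ (T.X w i j l = false ∧ T.X w i j k = false ∧ T.X w i k l = true ∧
        T.X w j k l = true) := by
      clear K1 K1' K2 K2' K3 h13 hK b1 b2 b3 b4 o2 o4 o6 z1 z2 hM1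
      revert hone h12 hM o1 o3 o5 o7
      generalize T.X u i j k = p1
      generalize T.X u i j l = p2
      generalize T.X u i k l = p3
      generalize T.X u j k l = p4
      generalize T.X w i j k = q1
      generalize T.X w i j l = q2
      generalize T.X w i k l = q3
      generalize T.X w j k l = q4
      generalize (T.X i u l j) = r0
      intro o1 o3 o5 o7 h12 hM hone
      revert hone
      cases p1 <;> cases p2 <;> cases p3 <;> cases p4 <;> cases q1 <;> cases q2 <;> cases q3 <;>
        cases q4 <;> simp at o1 o3 o5 o7 h12 hM ⊢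
    rcases hpq with ⟨h1, h2, h3, h4⟩ | ⟨h1, h2, h3, h4⟩
    · rw [h2] at K1
      exact cd4_sep T nui nuj nuk nul nij nik nil' njk njl nkl h2 h1 h3 h4 K1 z1
    · rw [h2] at K1'
      exact cd4_sep T nwi nwj nwk nwl nij nik nil' njk njl nkl h2 h1 h3 h4 K1' z1
  refine ⟨key, ?_⟩
  rw [key] at hM
  revert hM
  generalize T.X u i j l = B
  generalize T.X u i k l = C
  revert B C
  decide

end H53P
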