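import Pool.Agent.Lib.H53P.CD
import Pool.Agent.Lib.H53P.CC

/-! # H53P, combinatorics: twins -/

namespace H53P

variable {V : Type*} (T : Table V)

/-- first kind of scheme (centre `s`): path `u A s B w`, triangle `u w s` -/
def Table.SA (u w s a b : V) : Prop :=
  T.X u a w s = false ∧ T.X w b u s = false ∧ T.crT u w s a b = true

theorem cd5_s (a b c d : V) : T.X a b c d = T.X a b d c := by
  rw [T.symm2, T.symm1, T.symm2]

theorem cd5_aux2 {u w x y z : V} (huw : u ≠ w) (hn : [u, w, x, y, z].Nodup)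
    (h1 : T.adj u w x y = true) (h2 : T.adj u w x z = true) (h3 : T.adj u w y z = true)
    (hs : ∀ s a b, s ∈ [x, y, z] → a ∈ [x, y, z] → b ∈ [x, y, z] → s ≠ a → s ≠ b → a ≠ b →
      ¬ T.SA u w s a b) (h4 : T.X u x y z = true) (h5 : T.X w x y z = false)
    (h6 : T.X w y x z = true) (h7 : T.X w z x y = false) : False := by
  simp only [List.nodup_cons, List.mem_cons, List.not_mem_nil, or_false, not_or,
    List.nodup_nil, and_true, not_false_eq_true] at hn
  obtain ⟨⟨-, nux, nuy, nuz⟩, ⟨nwx, nwy, nwz⟩, ⟨nxy, nxz⟩, nyz⟩ := hn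
  have u1 : T.X u y x z = false := T.one u x y z h4
  have u2 : T.X u z x y = false := T.one u x z y (by rw [cd5_s]; exact h4)
  have c1 := cc2_uw T h1
  have c2 := cc2_uw T h2
  have c3 := cc2_uw T h3
  have a1 := (cc1_adj T u w x y).1
  have a2 := (cc1_adj T u w x z).1
  have a3 := (cc1_adj T u w y z).1
  rw [h1] at a1
  rw [h2] at a2
  rw [h3] at a3
  have s1 := hs x y z (by simp) (by simp) (by simp) nxy nxz nyz
  have s2 := hs x z y (by simp) (by simp) (by simp) nxz nxy (Ne.symm nyz)
  have s3 := hs y x z (by simp) (by simp) (by simp) (Ne.symm nxy) nyz nxz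
  have s4 := hs y z x (by simp) (by simp) (by simp) nyz (Ne.symm nxy) (Ne.symm nxz)
  have hone := cd1_one T (u := u) (a := w) (b := x) (c := y) (d := z) huw.symm (Ne.symm nux) (Ne.symm nuy)
    (Ne.symm nuz) nwx nwy nwz nxy nxz nyz
  unfold Table.SA Table.crT crTX at s1 s2 s3 s4
  unfold Table.alt altX at hone
  rw [T.symm2 y z u w, T.symm2 y z w x, T.symm2 y z x u, T.symm1 x u y z, c3, h5, h4,
    T.symm2 w z u x] at s1
  rw [T.symm2 z y u w, cd5_s T u w z y, T.symm2 z y w x, cd5_s T w x z y, T.symm2 z y x u,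
    T.symm1 x u z y, cd5_s T u x z y, c3, h5, h4, T.symm2 w y u x] at s2
  rw [T.symm2 x z u w, T.symm2 x z w y, T.symm2 x z y u, T.symm1 y u x z, c2, h6, u1,
    T.symm2 w z u y] at s3
  rw [T.symm2 z x u w, cd5_s T u w z x, T.symm2 z x w y, cd5_s T w y z x, T.symm2 z x y u,
    T.symm1 y u z x, cd5_s T u y z x, c2, h6, u1, T.symm2 w x u y] at s4
  rw [c1, c2, c3, h4, h5, h6, h7, u1, u2, T.symm2 w x u y, T.symm2 w x u z, T.symm2 w y u x,
    T.symm2 w y u z, T.symm2 w z u x, T.symm2 w z u y] at hone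
  clear hs c1 c2 c3 u1 u2 h1 h2 h3 h4 h5 h6 h7
  revert s1 s2 s3 s4 hone a1 a2 a3
  generalize T.X u x w y = p1
  generalize T.X u y w x = p2
  generalize T.X u x w z = p3
  generalize T.X u z w x = p4
  generalize T.X u y w z = p5
  generalize T.X u z w y = p6
  cases p1 <;> cases p2 <;> cases p3 <;> cases p4 <;> cases p5 <;> cases p6 <;> simp

theorem cd5_aux {u w x y z : V} (huw : u ≠ w) (hn : [u, w, x, y, z].Nodup)
    (h1 : T.adj u w x y = true) (h2 : T.adj u w x z = true) (h3 : T.adj u w y z = true)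
    (hs : ∀ s a b, s ∈ [x, y, z] → a ∈ [x, y, z] → b ∈ [x, y, z] → s ≠ a → s ≠ b → a ≠ b →
      ¬ T.SA u w s a b) (h4 : T.X u x y z = true) (h5 : T.X w x y z = false) : False := by
  have hn' := hn
  simp only [List.nodup_cons, List.mem_cons, List.not_mem_nil, or_false, not_or,
    List.nodup_nil, and_true, not_false_eq_true] at hn
  obtain ⟨⟨-, nux, nuy, nuz⟩, ⟨nwx, nwy, nwz⟩, ⟨nxy, nxz⟩, nyz⟩ := hn
  have u1 : T.X u y x z = false := T.one u x y z h4
  have u2 : T.X u z x y = false := T.one u x z y (by rw [cd5_s]; exact h4)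
  have c1 := cc2_uw T h1
  have c2 := cc2_uw T h2
  have c3 := cc2_uw T h3
  have a1 := (cc1_adj T u w x y).1
  have a2 := (cc1_adj T u w x z).1
  have a3 := (cc1_adj T u w y z).1
  rw [h1] at a1
  rw [h2] at a2
  rw [h3] at a3
  have hone := cd1_one T (u := u) (a := w) (b := x) (c := y) (d := z) huw.symm (Ne.symm nux) (Ne.symm nuy)
    (Ne.symm nuz) nwx nwy nwz nxy nxz nyz
  unfold Table.alt altX at hone
  rw [c1, c2, c3, h4, h5, u1, u2, T.symm2 w x u y, T.symm2 w x u z, T.symm2 w y u x,
    T.symm2 w y u z, T.symm2 w z u x, T.symm2 w z u y] at hone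
  have hone' : T.X w y x z = true → T.X w z x y = false := fun h => by
    have h8 := T.one w y z x (by rw [cd5_s]; exact h)
    rw [cd5_s] at h8
    exact h8
  have hsum : (T.X w y x z = true ∧ T.X w z x y = false) ∨
      (T.X w y x z = false ∧ T.X w z x y = true) := by
    revert hone a1 a2 a3 hone'
    generalize T.X u x w y = p1
    generalize T.X u y w x = p2
    generalize T.X u x w z = p3
    generalize T.X u z w x = p4
    generalize T.X u y w z = p5
    generalize T.X u z w y = p6
    generalize T.X w y x z = p7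
    generalize T.X w z x y = p8
    cases p1 <;> cases p2 <;> cases p3 <;> cases p4 <;> cases p5 <;> cases p6 <;> cases p7 <;>
      cases p8 <;> simp
  rcases hsum with ⟨h6, h7⟩ | ⟨h7, h6⟩
  · exact cd5_aux2 T huw hn' h1 h2 h3 hs h4 h5 h6 h7
  · refine cd5_aux2 T (x := x) (y := z) (z := y) huw ?_ h2 h1 ?_ ?_ ?_ ?_ h6 h7
    · simp only [List.nodup_cons, List.mem_cons, List.not_mem_nil, or_false, not_or,
        List.nodup_nil, and_true, not_false_eq_true]
      tauto
    · rw [← (cc1_adj T u w y z).2.1]; exact h3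
    · intro s a b g1 g2 g3
      refine hs s a b ?_ ?_ ?_
      · simp only [List.mem_cons] at g1 ⊢
        tauto
      · simp only [List.mem_cons] at g2 ⊢
        tauto
      · simp only [List.mem_cons] at g3 ⊢
        tauto
    · rw [cd5_s]; exact h4
    · rw [cd5_s]; exact h5

/-- (CD5, M) Twins.  If the arcs `u x w`, `u y w`, `u z w` cross pairwise and there is no scheme of
the first kind, then `ux` crosses `yz` iff `wx` does.
PROOF.  Suppose not; the hypotheses are symmetric in `u, w` (`SA w u s b a ↔ SA u w s a b`), so let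
`X u x y z = 1`, `X w x y z = 0`.  By `one` `X u y x z = X u z x y = 0`.
Parity: adding the three alternations at `u` of `cd1_one` (for `w, x, y, z`) gives that the sum of
all 15 values `X` on the five points is `1`; the pairs on `{u, w, x, y}` contribute `1` (`adj = 1`
and `cc2`: `X u w x y = 0`), the same for `{u, w, x, z}`, `{u, w, y, z}`; `{u, x, y, z}` contributes
`1`; so `{w, x, y, z}` contributes `1`, and `X w y x z = 1` or `X w z x y = 1`; by the symmetry
`y ↔ z` let `X w y x z = 1`, `X w z x y = 0`.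
Put `α t = X u t w x` for `t = y, z` and `β t = X u t w y` for `t = x, z`; as exactly one of
`X u t w x`, `X u x w t` holds, `X w t u x = X u x w t = !α t`, etc.
`crT u w x y z = X y z u w ^^ X y z w x ^^ X y z x u = 0 ^^ 0 ^^ 1 = 1`, and there is no scheme
`SA u w x y z`, `SA u w x z y`: `α y ∨ !α z` and `α z ∨ !α y`, so `α y = α z`.
`crT u w y x z = X x z u w ^^ X x z w y ^^ X x z y u = 0 ^^ 1 ^^ 0 = 1`, so `β x = β z`.
`α y = !β x` (exactly one of `X u y w x`, `X u x w y`).  Hence `α z = !β z`.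
Now `alt u w z x y = X u w x y ^^ X u z x y ^^ X w z u x ^^ X w z u y ^^ X w z x y
= 0 ^^ 0 ^^ !α z ^^ !β z ^^ 0 = 1` and `alt u w x y z = X u w y z ^^ X u x y z ^^ X w x u y ^^
X w x u z ^^ X w x y z = 0 ^^ 1 ^^ α y ^^ α z ^^ 0 = 1`.  Both alternate, contradicting `cd1_one`
at `u`. -/
theorem cd5_twin {u w x y z : V} (huw : u ≠ w) (hn : [u, w, x, y, z].Nodup)
    (h1 : T.adj u w x y = true) (h2 : T.adj u w x z = true) (h3 : T.adj u w y z = true)
    (hs : ∀ s a b, s ∈ [x, y, z] → a ∈ [x, y, z] → b ∈ [x, y, z] → s ≠ a → s ≠ b → a ≠ b →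
      ¬ T.SA u w s a b) :
    T.X u x y z = T.X w x y z := by
  have hs' : ∀ s a b, s ∈ [x, y, z] → a ∈ [x, y, z] → b ∈ [x, y, z] → s ≠ a → s ≠ b → a ≠ b →
      ¬ T.SA w u s a b := by
    intro s a b h1 h2 h3 h4 h5 h6 h7
    refine hs s b a h1 h3 h2 h5 h4 h6.symm ⟨h7.2.1, h7.1, ?_⟩
    have h8 := h7.2.2
    unfold Table.crT crTX at h8 ⊢
    rw [T.symm1 b a u w, T.symm1 b a w s, T.symm1 b a s u]
    rw [cd5_s T a b w u, cd5_s T a b u s, cd5_s T a b s w] at h8
    revert h8
    generalize T.X a b u w = A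
    generalize T.X a b s u = B
    generalize T.X a b w s = C
    revert A B C
    decide
  by_contra hne
  rcases Bool.eq_false_or_eq_true (T.X u x y z) with h4 | h4
  · have h5 : T.X w x y z = false := by
      rw [h4] at hne
      cases h6 : T.X w x y z
      · rfl
      · rw [h6] at hne
        exact absurd rfl hne
    exact cd5_aux T huw hn h1 h2 h3 hs h4 h5
  · have h5 : T.X w x y z = true := by
      rw [h4] at hne
      cases h6 : T.X w x y z
      · rw [h6] at hne
        exact absurd rfl hne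
      · rfl
    refine cd5_aux T huw.symm ?_ ?_ ?_ ?_ hs' h5 h4
    · simp only [List.nodup_cons, List.mem_cons, List.not_mem_nil, or_false, not_or,
        List.nodup_nil, and_true, not_false_eq_true] at hn ⊢
      tauto
    · rw [← (cc1_adj T u w x y).2.2.1]; exact h1
    · rw [← (cc1_adj T u w x z).2.2.1]; exact h2
    · rw [← (cc1_adj T u w y z).2.2.1]; exact h3

end H53P
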