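import Pool.Agent.Lib.H53P.C0

/-! # H53P, combinatorics: lists and paths -/

namespace H53P

variable {V : Type*}

/-- (CE1, S) PROOF.  `edges (a :: b :: l) = (a, b) :: edges (b :: l)` by definition. -/
theorem ce1_cons (a b : V) (l : List V) : edges (a :: b :: l) = (a, b) :: edges (b :: l) := rfl

/-- (CE2, S) PROOF.  Induction on `l`, `ce1_cons`. -/
theorem ce2_append (l m : List V) (v : V) :
    edges (l ++ v :: m) = edges (l ++ [v]) ++ edges (v :: m) := by
  induction l with
  | nil => rfl
  | cons a l ih =>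
    cases l with
    | nil => rfl
    | cons b l =>
      simp only [List.cons_append] at ih ⊢
      rw [ce1_cons, ce1_cons, ih, List.cons_append]

/-- (CE3, S) membership in `edges (v :: L ++ [w])` for a non-empty list `L`: the first edge, an
edge inside, or the last edge.  PROOF.  Induction on `L`. -/
theorem ce3_mem {v w : V} {L : List V} (hL : L ≠ []) {e : V × V}
    (he : e ∈ edges (v :: L ++ [w])) :
    (e.1 = v ∧ e.2 ∈ L) ∨ (e.1 ∈ L ∧ e.2 = w) ∨ (e.1 ∈ L ∧ e.2 ∈ L) := by
  induction L generalizing v with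
  | nil => exact absurd rfl hL
  | cons a L ih =>
    cases L with
    | nil =>
      have h1 : e = (v, a) ∨ e = (a, w) := by
        have h2 : edges (v :: [a] ++ [w]) = [(v, a), (a, w)] := rfl
        rw [h2] at he
        simpa using he
      rcases h1 with rfl | rfl
      · exact Or.inl ⟨rfl, by simp⟩
      · exact Or.inr (Or.inl ⟨by simp, rfl⟩)
    | cons b L =>
      have h2 : edges (v :: (a :: b :: L) ++ [w]) = (v, a) :: edges (a :: (b :: L) ++ [w]) := rfl
      rw [h2] at he
      rcases List.mem_cons.1 he with rfl | he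
      · exact Or.inl ⟨rfl, by simp⟩
      · rcases ih (v := a) (by simp) he with ⟨h3, h4⟩ | ⟨h3, h4⟩ | ⟨h3, h4⟩
        · exact Or.inr (Or.inr ⟨by rw [h3]; simp, List.mem_cons_of_mem _ h4⟩)
        · exact Or.inr (Or.inl ⟨List.mem_cons_of_mem _ h3, h4⟩)
        · exact Or.inr (Or.inr ⟨List.mem_cons_of_mem _ h3, List.mem_cons_of_mem _ h4⟩)

/-- (CE4, S) edges of a reversed list are the reversed edges.  PROOF.  Induction, `ce2_append`. -/
theorem ce4_reverse (l : List V) {e : V × V} :
    e ∈ edges l.reverse ↔ (e.2, e.1) ∈ edges l := by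
  induction l with
  | nil => simp [edges]
  | cons a l ih =>
    cases l with
    | nil => simp [edges]
    | cons b l =>
      have h1 : (a :: b :: l).reverse = l.reverse ++ b :: [a] := by simp
      have h2 : l.reverse ++ [b] = (b :: l).reverse := by simp
      have h3 : edges [b, a] = [(b, a)] := rfl
      rw [h1, ce2_append, h2, h3, ce1_cons, List.mem_append, ih]
      simp only [List.mem_cons, List.not_mem_nil, or_false]
      rw [or_comm]
      refine or_congr_left ?_
      rw [Prod.ext_iff, Prod.ext_iff]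
      exact and_comm

variable (T : Table V)

/-- (CE5, S) -/
theorem ce5_plane_append (E F : List (V × V)) (hE : T.Plane E) (hF : T.Plane F)
    (h : ∀ e ∈ E, ∀ f ∈ F, T.X e.1 e.2 f.1 f.2 = false) : T.Plane (E ++ F) := by
  intro e he f hf
  rcases List.mem_append.1 he with he | he <;> rcases List.mem_append.1 hf with hf | hf
  · exact hE e he f hf
  · exact h e he f hf
  · rw [T.symm2]
    exact h f hf e he
  · exact hF e he f hf

/-- (CE6, S) Reversal of paths.  PROOF.  `(u :: L ++ [w]).reverse = w :: L.reverse ++ [u]`;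
`ce4_reverse` and the symmetries of `X`. -/
theorem ce6_reverse {u w : V} {S : Finset V} {L : List V} (h : T.PathIn u w S L) :
    T.PathIn w u S L.reverse := by
  obtain ⟨h1, h2, h3⟩ := h
  refine ⟨List.nodup_reverse.2 h1, fun x hx => h2 x (List.mem_reverse.1 hx), ?_⟩
  have h4 : w :: L.reverse ++ [u] = (u :: L ++ [w]).reverse := by simp
  rw [h4]
  intro e he f hf
  have h5 := h3 _ ((ce4_reverse _).1 he) _ ((ce4_reverse _).1 hf)
  simp only at h5
  rw [T.symm1, T.symm2, T.symm1, T.symm2]
  exact h5

/-- (CE10, S) monotonicity -/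
theorem ce10_mono {k k' : ℕ} (h : k ≤ k') (hc : T.HasCycle k') : T.HasCycle k := by
  obtain ⟨v, t, h1, h2, h3, h4⟩ := hc
  exact ⟨v, t, h1, h.trans h2, h3, h4⟩

end H53P
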