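import Pool.Agent.Lib.H53P.CC
import Pool.Agent.Lib.H53P.CD
import Pool.Agent.Lib.H53P.CE7

/-! # H53P, combinatorics: independent sets of `G_{uw}`, positions and crossings -/

namespace H53P

variable {V : Type*} (T : Table V)

/-- the functions of `cc3_perm` (only the part on `ρ`) -/
structure Table.Rot (u w : V) (ρ : V → ℝ) : Prop where
  min : ∀ x, x ≠ u → x ≠ w → ρ w < ρ x
  inj : ∀ x y, x ≠ u → y ≠ u → ρ x = ρ y → x = y
  rot : ∀ a b x y, a ≠ u → b ≠ u → x ≠ u → y ≠ u → a ≠ b → a ≠ x → a ≠ y → b ≠ x → b ≠ y →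
    x ≠ y → T.alt u a b x y = (btw (ρ a) (ρ b) (ρ x) ^^ btw (ρ a) (ρ b) (ρ y))

/-- (CF1, M) Position and crossings.  In an independent set, for `y ≠ z` and `x` a third element:
if `x` is between `y` and `z` and `yz` crosses `uw`, or `x` is outside and `yz` does not cross `uw`,
then `yz` crosses neither `ux` nor `wx`; in the other two cases it crosses exactly one of them.
PROOF.  `cd3_side` and `cd2_both`. -/
theorem cf1_pos {u w : V} (huw : u ≠ w) {ρ : V → ℝ} (hρ : T.Rot u w ρ) {I : Finset V}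
    (hI : T.Indep u w I) (hu : u ∉ I) (hw : w ∉ I) {x y z : V} (hx : x ∈ I) (hy : y ∈ I)
    (hz : z ∈ I) (hxy : x ≠ y) (hxz : x ≠ z) (hyz : y ≠ z) :
    (((decide (ρ y < ρ x) ^^ decide (ρ z < ρ x)) = T.X u w y z) →
      T.X u x y z = false ∧ T.X w x y z = false) ∧
    (((decide (ρ y < ρ x) ^^ decide (ρ z < ρ x)) ≠ T.X u w y z) →
      (T.X u x y z ^^ T.X w x y z) = true) := by
  have hxu : x ≠ u := fun h => hu (h ▸ hx)
  have hyu : y ≠ u := fun h => hu (h ▸ hy)
  have hzu : z ≠ u := fun h => hu (h ▸ hz)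
  have hxw : x ≠ w := fun h => hw (h ▸ hx)
  have hyw : y ≠ w := fun h => hw (h ▸ hy)
  have hzw : z ≠ w := fun h => hw (h ▸ hz)
  have h1 := hI x hx y hy hxy
  have h2 := hI x hx z hz hxz
  have h3 := hI y hy z hz hyz
  have h4 := cd2_both T huw hxu hxw hyu hyw hzu hzw hxy hxz hyz h1 h2 h3
  have h5 := cd3_side T huw hxu hxw hyu hyw hzu hzw hxy hxz hyz hρ.min
    (hρ.rot w x y z huw.symm hxu hyu hzu hxw.symm hyw.symm hzw.symm hxy hxz hyz) h1 h2
  revert h4 h5
  generalize (decide (ρ y < ρ x) ^^ decide (ρ z < ρ x)) = A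
  generalize T.X u w y z = B
  generalize T.X u x y z = C
  generalize T.X w x y z = E
  revert A B C E
  decide

/-- (CF2, M) Short edges in disjoint intervals do not cross.
PROOF.  Let `ρ a < ρ b ≤ ρ c < ρ d`, `X u w a b = X u w c d = false`.  If `b = c` the edges are
adjacent (`T.ne`).  Otherwise apply `T.sep` to the triangle `u, w, b` with `x = a`, `x' = b`,
`y = c`, `y' = d`: `X a b u w = 0`, the other two terms are degenerate; `X c d u w = 0`,
`X c d w b = X c d b u = 0` by `cf1_pos` (`b` is outside `[c, d]`, short edge); and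
`crT u w b a c = X a c u w ^^ X a c w b ^^ X a c b u = 1` by `cd3_side` for `x = b` between `a, c`
(`(X u b a c ^^ X w b a c) = 1 ^^ X u w a c`). -/
theorem cf2_short {u w : V} (huw : u ≠ w) {ρ : V → ℝ} (hρ : T.Rot u w ρ) {I : Finset V}
    (hI : T.Indep u w I) (hu : u ∉ I) (hw : w ∉ I) {a b c d : V} (ha : a ∈ I) (hb : b ∈ I)
    (hc : c ∈ I) (hd : d ∈ I) (hab : ρ a < ρ b) (hbc : ρ b ≤ ρ c) (hcd : ρ c < ρ d)
    (h1 : T.X u w a b = false) (h2 : T.X u w c d = false) : T.X a b c d = false := by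
  have hau : a ≠ u := fun h => hu (h ▸ ha)
  have hbu : b ≠ u := fun h => hu (h ▸ hb)
  have hcu : c ≠ u := fun h => hu (h ▸ hc)
  have hdu : d ≠ u := fun h => hu (h ▸ hd)
  have haw : a ≠ w := fun h => hw (h ▸ ha)
  have hbw : b ≠ w := fun h => hw (h ▸ hb)
  have hcw : c ≠ w := fun h => hw (h ▸ hc)
  have hdw : d ≠ w := fun h => hw (h ▸ hd)
  have nab : a ≠ b := fun h => by rw [h] at hab; exact lt_irrefl _ hab
  have ncd : c ≠ d := fun h => by rw [h] at hcd; exact lt_irrefl _ hcd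
  have hac' : ρ a < ρ c := hab.trans_le hbc
  have nac : a ≠ c := fun h => by rw [h] at hac'; exact lt_irrefl _ hac'
  have hbd' : ρ b < ρ d := hbc.trans_lt hcd
  have nbd : b ≠ d := fun h => by rw [h] at hbd'; exact lt_irrefl _ hbd'
  have hz : ∀ p q r s, (p = r ∨ p = s ∨ q = r ∨ q = s) → T.X p q r s = false := by
    intro p q r s h
    by_contra hc
    rw [Bool.not_eq_false] at hc
    obtain ⟨-, -, h3, h4, h5, h6⟩ := T.ne p q r s hc
    tauto
  by_cases hbc' : b = c
  · exact hz _ _ _ _ (Or.inr (Or.inr (Or.inl hbc')))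
  have e1 := (cf1_pos T huw hρ hI hu hw hb hc hd hbc' nbd ncd).1 (by
    rw [decide_eq_false (not_lt.2 hbc), decide_eq_false (not_lt.2 hbd'.le), h2]
    rfl)
  have s4 : ∀ p q r s, T.X p q r s = T.X r s q p := by
    intro p q r s
    rw [T.symm1, T.symm2]
  refine T.sep u w b huw hbw.symm hbu a c b d hau haw nab hcu hcw (Ne.symm hbc') ?_ ?_ ?_ ?_ ?_ ?_ ?_
  · rw [T.symm2]
    exact h1
  · exact hz _ _ _ _ (Or.inr (Or.inr (Or.inr rfl)))
  · exact hz _ _ _ _ (Or.inr (Or.inr (Or.inl rfl)))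
  · rw [T.symm2]
    exact h2
  · rw [T.symm2]
    exact e1.2
  · rw [T.symm2, T.symm1]
    exact e1.1
  · have h5 := cd3_side T huw hbu hbw hau haw hcu hcw (Ne.symm nab) hbc' nac hρ.min
      (hρ.rot w b a c huw.symm hbu hau hcu hbw.symm haw.symm hcw.symm (Ne.symm nab) hbc' nac)
      (hI b hb a ha (Ne.symm nab)) (hI b hb c hc hbc')
    rw [decide_eq_true hab, decide_eq_false (not_lt.2 hbc)] at h5
    unfold crTX
    rw [T.symm2 a c u w, T.symm2 a c w b, T.symm2 a c b u, T.symm1 b u a c]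
    revert h5
    generalize T.X u w a c = A
    generalize T.X w b a c = B
    generalize T.X u b a c = C
    revert A B C
    decide

end H53P
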