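import Pool.Agent.Lib.H53P.CF

/-! # H53P, combinatorics: chains of short edges are fans -/

namespace H53P

variable {V : Type*} (T : Table V)

theorem cf3_edges {u w : V} {ρ : V → ℝ} {l : List V}
    (hc : l.IsChain fun x y => ρ x < ρ y ∧ T.X u w x y = false)
    (hp : l.Pairwise fun x y => ρ x < ρ y) : ∀ e ∈ edges l, e.1 ∈ l ∧ e.2 ∈ l ∧ ρ e.1 < ρ e.2 ∧
      T.X u w e.1 e.2 = false ∧ ∀ x ∈ l, ρ x ≤ ρ e.1 ∨ ρ e.2 ≤ ρ x := by
  induction l with
  | nil =>
    intro e he
    simp [edges] at he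
  | cons a l ih =>
    cases l with
    | nil =>
      intro e he
      simp [edges] at he
    | cons b l =>
      intro e he
      rw [List.isChain_cons_cons] at hc
      rw [List.pairwise_cons] at hp
      rw [ce1_cons] at he
      rcases List.mem_cons.1 he with rfl | he
      · refine ⟨by simp, by simp, hc.1.1, hc.1.2, fun x hx => ?_⟩
        rcases List.mem_cons.1 hx with rfl | hx
        · exact Or.inl le_rfl
        · rcases List.mem_cons.1 hx with rfl | hx
          · exact Or.inr le_rfl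
          · exact Or.inr ((List.pairwise_cons.1 hp.2).1 x hx).le
      · obtain ⟨h1, h2, h3, h4, h5⟩ := ih hc.2 hp.2 e he
        refine ⟨List.mem_cons_of_mem _ h1, List.mem_cons_of_mem _ h2, h3, h4, fun x hx => ?_⟩
        rcases List.mem_cons.1 hx with rfl | hx
        · exact Or.inl (hp.1 _ h1).le
        · exact h5 x hx

/-- (CF3, M) A chain of short edges gives a fan.
PROOF.  `l` is strictly increasing for `ρ` (`List.isChain_iff_pairwise`, transitivity), so without
repetition.  Two different edges of `edges l` have their end-points in order `a < b ≤ c < d` (or the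
other way round): `cf2_short` (and `T.symm2`); an edge does not cross itself (`T.ne`).  For `x ∈ l`
and an edge `(a, b)` of `l`: `x = a` or `x = b` (degenerate), or `x` is outside `[a, b]` since `a, b`
are consecutive, and `cf1_pos` gives `X u x a b = 0`.  `ce7_fan`. -/
theorem cf3_fan {u w : V} (huw : u ≠ w) {ρ : V → ℝ} (hρ : T.Rot u w ρ) {I : Finset V}
    (hI : T.Indep u w I) (hu : u ∉ I) (hw : w ∉ I) {l : List V} (hl : ∀ x ∈ l, x ∈ I)
    (hc : l.IsChain fun x y => ρ x < ρ y ∧ T.X u w x y = false) (h2 : 2 ≤ l.length) :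
    T.HasCycle (l.length + 1) := by
  have hlt : l.Pairwise fun x y => ρ x < ρ y := by
    have h1 : l.IsChain fun x y => ρ x < ρ y := hc.imp fun _ _ h => h.1
    exact List.isChain_iff_pairwise (R := fun x y => ρ x < ρ y)
      |>.1 h1
  have hz : ∀ p q r s, (p = r ∨ p = s ∨ q = r ∨ q = s) → T.X p q r s = false := by
    intro p q r s h
    by_contra hc
    rw [Bool.not_eq_false] at hc
    obtain ⟨-, -, h3, h4, h5, h6⟩ := T.ne p q r s hc
    tauto
  have hul : ∀ x ∈ l, x ≠ u := fun x hx h => hu (h ▸ hl x hx)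
  refine ce7_fan T (u := u) ?_ h2 ?_ ?_
  · rw [List.nodup_cons]
    exact ⟨fun h => hul u h rfl, hlt.imp fun {a b} h hab => by
      rw [hab] at h
      exact lt_irrefl _ h⟩
  · intro e he f hf
    obtain ⟨e1, e2, e3, e4, e5⟩ := cf3_edges T hc hlt e he
    obtain ⟨f1, f2, f3, f4, f5⟩ := cf3_edges T hc hlt f hf
    by_cases c1 : ρ e.2 ≤ ρ f.1
    · exact cf2_short T huw hρ hI hu hw (hl _ e1) (hl _ e2) (hl _ f1) (hl _ f2) e3 c1 f3 e4 f4
    by_cases c2 : ρ f.2 ≤ ρ e.1
    · rw [T.symm2]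
      exact cf2_short T huw hρ hI hu hw (hl _ f1) (hl _ f2) (hl _ e1) (hl _ e2) f3 c2 e3 f4 e4
    have h3 : ρ f.1 ≤ ρ e.1 := (e5 f.1 f1).resolve_right c1
    have h4 : ρ e.1 ≤ ρ f.1 := (f5 e.1 e1).resolve_right c2
    exact hz _ _ _ _ (Or.inl (hρ.inj _ _ (hul _ e1) (hul _ f1) (le_antisymm h4 h3)))
  · intro x hx e he
    obtain ⟨e1, e2, e3, e4, e5⟩ := cf3_edges T hc hlt e he
    by_cases c1 : x = e.1
    · exact hz _ _ _ _ (Or.inr (Or.inr (Or.inl c1)))
    by_cases c2 : x = e.2
    · exact hz _ _ _ _ (Or.inr (Or.inr (Or.inr c2)))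
    have n12 : e.1 ≠ e.2 := fun h => by rw [h] at e3; exact lt_irrefl _ e3
    refine ((cf1_pos T huw hρ hI hu hw (hl _ hx) (hl _ e1) (hl _ e2) c1 c2 n12).1 ?_).1
    rw [e4]
    rcases e5 x hx with h3 | h3
    · have h4 : ρ x ≤ ρ e.2 := h3.trans e3.le
      rw [decide_eq_false (not_lt.2 h3), decide_eq_false (not_lt.2 h4)]
      rfl
    · have h4 : ρ e.2 < ρ x := lt_of_le_of_ne h3 fun h =>
        c2 (hρ.inj _ _ (hul _ e2) (hul _ hx) h).symm
      rw [decide_eq_true (e3.trans h4), decide_eq_true h4]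
      rfl

end H53P
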