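import Pool.Agent.Lib.H53P.CF
import Pool.Agent.Lib.H53P.CD4

/-! # H53P, combinatorics: interleaving long edges -/

namespace H53P

variable {V : Type*} (T : Table V)

/-- (CG1, M) Interleaving long edges do not cross, and the crossings of `u i` with `j l` do not
depend on `j`.
PROOF.  `cd4_long`: its hypotheses `hb`, `ho` follow from `cf1_pos` (all edges inside the set cross
`uw`), `h12`, `h13` from `hρ.rot` with the order `ρ i < ρ j < ρ k < ρ l`
(`btw (ρ i) (ρ j) (ρ k) = btw (ρ i) (ρ j) (ρ l) = false`; `btw (ρ i) (ρ k) (ρ j) = true`,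
`btw (ρ i) (ρ k) (ρ l) = false`). -/
theorem cg1_inter {u w : V} (huw : u ≠ w) {ρ : V → ℝ} (hρ : T.Rot u w ρ) {I : Finset V}
    (hI : T.Indep u w I) (hu : u ∉ I) (hw : w ∉ I)
    (hL : ∀ x ∈ I, ∀ y ∈ I, x ≠ y → T.X u w x y = true) {i j k l : V} (hi : i ∈ I) (hj : j ∈ I)
    (hk : k ∈ I) (hl : l ∈ I) (hij : ρ i < ρ j) (hjk : ρ j < ρ k) (hkl : ρ k < ρ l) :
    T.X i k j l = false ∧ T.X u i j l = T.X u i k l := by
  have ne : ∀ {x y : V}, ρ x < ρ y → x ≠ y := by
    rintro x y h rfl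
    exact lt_irrefl _ h
  have neu : ∀ {x : V}, x ∈ I → x ≠ u := by
    rintro x h rfl
    exact hu h
  have new : ∀ {x : V}, x ∈ I → x ≠ w := by
    rintro x h rfl
    exact hw h
  have hik := hij.trans hjk
  have hil := hik.trans hkl
  have hjl := hjk.trans hkl
  have mid : ∀ {x y z : V}, x ∈ I → y ∈ I → z ∈ I → ρ y < ρ x → ρ x < ρ z →
      T.X u x y z = false ∧ T.X w x y z = false := by
    intro x y z hx hy hz h1 h2
    refine (cf1_pos T huw hρ hI hu hw hx hy hz (ne h1).symm (ne h2) (ne (h1.trans h2))).1 ?_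
    rw [hL y hy z hz (ne (h1.trans h2)), decide_eq_true h1, decide_eq_false (not_lt.2 h2.le)]
    rfl
  have out1 : ∀ {x y z : V}, x ∈ I → y ∈ I → z ∈ I → ρ x < ρ y → ρ y < ρ z →
      (T.X u x y z ^^ T.X w x y z) = true := by
    intro x y z hx hy hz h1 h2
    refine (cf1_pos T huw hρ hI hu hw hx hy hz (ne h1) (ne (h1.trans h2)) (ne h2)).2 ?_
    rw [hL y hy z hz (ne h2), decide_eq_false (not_lt.2 h1.le), decide_eq_false (not_lt.2 (h1.trans h2).le)]
    decide
  have out2 : ∀ {x y z : V}, x ∈ I → y ∈ I → z ∈ I → ρ y < ρ z → ρ z < ρ x →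
      (T.X u x y z ^^ T.X w x y z) = true := by
    intro x y z hx hy hz h1 h2
    refine (cf1_pos T huw hρ hI hu hw hx hy hz (ne (h1.trans h2)).symm (ne h2).symm (ne h1)).2 ?_
    rw [hL y hy z hz (ne h1), decide_eq_true (h1.trans h2), decide_eq_true h2]
    decide
  refine cd4_long T huw ?_ ?_ ?_ ?_ ?_
  · simp only [List.nodup_cons, List.mem_cons, List.not_mem_nil, or_false, not_or, not_false_eq_true, List.nodup_nil,
      and_true]
    exact ⟨⟨huw, (neu hi).symm, (neu hj).symm, (neu hk).symm, (neu hl).symm⟩,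
      ⟨(new hi).symm, (new hj).symm, (new hk).symm, (new hl).symm⟩, ⟨ne hij, ne hik, ne hil⟩, ⟨ne hjk, ne hjl⟩, ne hkl⟩
  · rw [hρ.rot i j k l (neu hi) (neu hj) (neu hk) (neu hl) (ne hij) (ne hik) (ne hil) (ne hjk) (ne hjl) (ne hkl)]
    have e1 : btw (ρ i) (ρ j) (ρ k) = false := by
      unfold btw
      rw [decide_eq_false (fun h => absurd h.2 (not_lt.2 hjk.le)), decide_eq_false (fun h => absurd h.2 (not_lt.2 hik.le))]
      rfl
    have e2 : btw (ρ i) (ρ j) (ρ l) = false := by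
      unfold btw
      rw [decide_eq_false (fun h => absurd h.2 (not_lt.2 hjl.le)), decide_eq_false (fun h => absurd h.2 (not_lt.2 hil.le))]
      rfl
    rw [e1, e2]
    rfl
  · rw [hρ.rot i k j l (neu hi) (neu hk) (neu hj) (neu hl) (ne hik) (ne hij) (ne hil) (ne hjk).symm (ne hkl) (ne hjl)]
    have e1 : btw (ρ i) (ρ k) (ρ j) = true := by
      unfold btw
      rw [decide_eq_true ⟨hij, hjk⟩, Bool.true_or]
    have e2 : btw (ρ i) (ρ k) (ρ l) = false := by
      unfold btw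
      rw [decide_eq_false (fun h => absurd h.2 (not_lt.2 hkl.le)), decide_eq_false (fun h => absurd h.2 (not_lt.2 hil.le))]
      rfl
    rw [e1, e2]
    rfl
  · rintro v x y z hv h
    have key : T.X u x y z = false ∧ T.X w x y z = false := by
      rcases h with ⟨rfl, rfl, rfl⟩ | ⟨rfl, rfl, rfl⟩ | ⟨rfl, rfl, rfl⟩ | ⟨rfl, rfl, rfl⟩
      · exact mid hj hi hk hij hjk
      · exact mid hj hi hl hij hjl
      · exact mid hk hi hl hik hkl
      · exact mid hk hj hl hjk hkl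
    rcases hv with rfl | rfl
    · exact key.1
    · exact key.2
  · rintro x y z (⟨rfl, rfl, rfl⟩ | ⟨rfl, rfl, rfl⟩ | ⟨rfl, rfl, rfl⟩ | ⟨rfl, rfl, rfl⟩ | ⟨rfl, rfl, rfl⟩ |
      ⟨rfl, rfl, rfl⟩ | ⟨rfl, rfl, rfl⟩ | ⟨rfl, rfl, rfl⟩)
    · exact out1 hi hj hk hij hjk
    · exact out2 hk hi hj hij hjk
    · exact out1 hi hj hl hij hjl
    · exact out2 hl hi hj hij hjl
    · exact out1 hi hk hl hik hkl
    · exact out2 hl hi hk hik hkl
    · exact out1 hj hk hl hjk hkl
    · exact out2 hl hj hk hjk hkl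

end H53P
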