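import Pool.Agent.Lib.H53P.C0

/-! # H53P, combinatorics: the zigzag path (pure lists) -/

namespace H53P

variable {V : Type*} (T : Table V)

/-- the zigzag path -/
def zig : List V → List V → List V
  | x :: xs, y :: ys => x :: y :: zig xs ys
  | [x], [] => [x]
  | _, _ => []

theorem cg2_min {ρ : V → ℝ} {x : V} {xs : List V} (hx : (x :: xs).Pairwise fun a b => ρ a < ρ b) {a : V}
    (ha : a ∈ x :: xs) : ρ x ≤ ρ a := by
  rcases List.mem_cons.1 ha with rfl | h
  · exact le_rfl
  · exact ((List.pairwise_cons.1 hx).1 a h).le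

/-- (CG2, M) (pure lists) The zigzag path of two increasing lists.
PROOF.  Induction on `xs, ys`.  Nodup: `xs`, `ys` have no repetition and are disjoint.  Length:
`xs.length + ys.length`.  Every edge is `(a, b)` or `(b, a)` with `a ∈ xs`, `b ∈ ys`, and any two
edges are comparable: for the first two edges `(x, y)`, `(y, x')` and a later edge with
`a ∈ xs` (`a` is `x'` or later), `b` later than `y` this is clear from the order. -/
theorem cg2_zig {ρ : V → ℝ} {xs ys : List V} (h : xs.length = ys.length + 1)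
    (hx : xs.Pairwise fun a b => ρ a < ρ b) (hy : ys.Pairwise fun a b => ρ a < ρ b)
    (hxy : ∀ a ∈ xs, ∀ b ∈ ys, ρ a < ρ b) :
    (zig xs ys).Nodup ∧ (zig xs ys).length = xs.length + ys.length ∧
    (zig xs ys).head? = xs.head? ∧ (zig xs ys).getLast? = xs.getLast? ∧
    (∀ v ∈ zig xs ys, v ∈ xs ∨ v ∈ ys) ∧
    ∀ e ∈ edges (zig xs ys), ∀ f ∈ edges (zig xs ys), ∃ a ∈ xs, ∃ b ∈ ys, ∃ c ∈ xs, ∃ d ∈ ys,
      (e = (a, b) ∨ e = (b, a)) ∧ (f = (c, d) ∨ f = (d, c)) ∧
      ((ρ a ≤ ρ c ∧ ρ b ≤ ρ d) ∨ (ρ c ≤ ρ a ∧ ρ d ≤ ρ b)) := by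
  induction ys generalizing xs with
  | nil =>
    match xs, h with
    | [x], _ =>
      refine ⟨by simp [zig], by simp [zig], by simp [zig], by simp [zig], by simp [zig], ?_⟩
      intro e he
      simp [zig, edges] at he
  | cons y ys ih =>
    match xs, h with
    | x :: x' :: xs, h =>
      have h' : (x' :: xs).length = ys.length + 1 := by
        simpa using h
      obtain ⟨hx1, hx2⟩ := List.pairwise_cons.1 hx
      obtain ⟨hy1, hy2⟩ := List.pairwise_cons.1 hy
      obtain ⟨i1, i2, i3, i4, i5, i6⟩ := ih h' hx2 hy2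
        (fun a ha b hb => hxy a (List.mem_cons_of_mem _ ha) b (List.mem_cons_of_mem _ hb))
      obtain ⟨l, hl⟩ : ∃ l, zig (x' :: xs) ys = x' :: l := by
        cases hz : zig (x' :: xs) ys with
        | nil => rw [hz] at i3; simp at i3
        | cons z l =>
          rw [hz] at i3
          simp at i3
          exact ⟨l, by rw [i3]⟩
      have hzig : zig (x :: x' :: xs) (y :: ys) = x :: y :: zig (x' :: xs) ys := rfl
      have hxm : x ∈ x :: x' :: xs := List.mem_cons_self
      have hx'm : x' ∈ x :: x' :: xs := List.mem_cons_of_mem _ List.mem_cons_self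
      have hym : y ∈ y :: ys := List.mem_cons_self
      rw [hzig]
      refine ⟨?_, ?_, ?_, ?_, ?_, ?_⟩
      · refine List.nodup_cons.2 ⟨?_, List.nodup_cons.2 ⟨?_, i1⟩⟩
        · intro h0
          rcases List.mem_cons.1 h0 with h0 | h0
          · have := hxy x hxm y hym
            rw [h0] at this
            exact lt_irrefl _ this
          · rcases i5 x h0 with h1 | h1
            · exact lt_irrefl _ (hx1 x h1)
            · exact lt_irrefl _ (hxy x hxm x (List.mem_cons_of_mem _ h1))
        · intro h0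
          rcases i5 y h0 with h1 | h1
          · exact lt_irrefl _ (hxy y (List.mem_cons_of_mem _ h1) y hym)
          · exact lt_irrefl _ (hy1 y h1)
      · rw [List.length_cons, List.length_cons, i2]
        simp only [List.length_cons]
        omega
      · rfl
      · have e1 : (x :: y :: zig (x' :: xs) ys).getLast? = (zig (x' :: xs) ys).getLast? := by
          rw [hl]
          simp [List.getLast?_cons_cons]
        rw [e1, i4]
        simp [List.getLast?_cons_cons]
      · intro v hv
        rcases List.mem_cons.1 hv with rfl | hv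
        · exact Or.inl hxm
        rcases List.mem_cons.1 hv with rfl | hv
        · exact Or.inr hym
        rcases i5 v hv with h1 | h1
        · exact Or.inl (List.mem_cons_of_mem _ h1)
        · exact Or.inr (List.mem_cons_of_mem _ h1)
      · have hed : edges (x :: y :: zig (x' :: xs) ys) = (x, y) :: (y, x') :: edges (zig (x' :: xs) ys) := by
          rw [hl]
          rfl
        rw [hed]
        -- data of an edge
        have hdat : ∀ f ∈ (x, y) :: (y, x') :: edges (zig (x' :: xs) ys), ∃ c ∈ x :: x' :: xs, ∃ d ∈ y :: ys,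
            (f = (c, d) ∨ f = (d, c)) := by
          intro f hf
          rcases List.mem_cons.1 hf with rfl | hf
          · exact ⟨x, hxm, y, hym, Or.inl rfl⟩
          rcases List.mem_cons.1 hf with rfl | hf
          · exact ⟨x', hx'm, y, hym, Or.inr rfl⟩
          obtain ⟨a, ha, b, hb, c, hc, d, hd, e1, e2, e3⟩ := i6 f hf f hf
          exact ⟨a, List.mem_cons_of_mem _ ha, b, List.mem_cons_of_mem _ hb, e1⟩
        have hdat2 : ∀ f ∈ (y, x') :: edges (zig (x' :: xs) ys), ∃ c ∈ x' :: xs, ∃ d ∈ y :: ys,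
            (f = (c, d) ∨ f = (d, c)) := by
          intro f hf
          rcases List.mem_cons.1 hf with rfl | hf
          · exact ⟨x', List.mem_cons_self, y, hym, Or.inr rfl⟩
          obtain ⟨a, ha, b, hb, c, hc, d, hd, e1, e2, e3⟩ := i6 f hf f hf
          exact ⟨a, ha, b, List.mem_cons_of_mem _ hb, e1⟩
        intro e he f hf
        rcases List.mem_cons.1 he with rfl | he'
        · obtain ⟨c, hc, d, hd, h2⟩ := hdat f hf
          exact ⟨x, hxm, y, hym, c, hc, d, hd, Or.inl rfl, h2, Or.inl ⟨cg2_min hx hc, cg2_min hy hd⟩⟩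
        rcases List.mem_cons.1 hf with rfl | hf'
        · obtain ⟨a, ha, b, hb, h2⟩ := hdat e he
          exact ⟨a, ha, b, hb, x, hxm, y, hym, h2, Or.inl rfl, Or.inr ⟨cg2_min hx ha, cg2_min hy hb⟩⟩
        rcases List.mem_cons.1 he' with rfl | he2
        · obtain ⟨c, hc, d, hd, h2⟩ := hdat2 f hf'
          exact ⟨x', hx'm, y, hym, c, List.mem_cons_of_mem _ hc, d, hd, Or.inr rfl, h2,
            Or.inl ⟨cg2_min hx2 hc, cg2_min hy hd⟩⟩
        rcases List.mem_cons.1 hf' with rfl | hf2
        · obtain ⟨a, ha, b, hb, h2⟩ := hdat2 e he'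
          exact ⟨a, List.mem_cons_of_mem _ ha, b, hb, x', hx'm, y, hym, h2, Or.inr rfl,
            Or.inr ⟨cg2_min hx2 ha, cg2_min hy hb⟩⟩
        obtain ⟨a, ha, b, hb, c, hc, d, hd, e1, e2, e3⟩ := i6 e he2 f hf2
        exact ⟨a, List.mem_cons_of_mem _ ha, b, List.mem_cons_of_mem _ hb, c, List.mem_cons_of_mem _ hc, d,
          List.mem_cons_of_mem _ hd, e1, e2, e3⟩

end H53P
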