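import Pool.Agent.Lib.H53P.CG1
import Pool.Agent.Lib.H53P.CG2

/-! # H53P, combinatorics: independent sets with long edges -/

namespace H53P

variable {V : Type*} (T : Table V)

/-- sorted enumeration -/
theorem cg3_sorted [DecidableEq V] (ρ : V → ℝ) (I : Finset V) (hinj : ∀ x ∈ I, ∀ y ∈ I, ρ x = ρ y → x = y) :
    ∃ l : List V, l.Pairwise (fun a b => ρ a < ρ b) ∧ (∀ x ∈ l, x ∈ I) ∧ l.length = I.card := by
  induction h : I.card generalizing I with
  | zero => exact ⟨[], List.Pairwise.nil, by simp, rfl⟩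
  | succ n ih =>
    have hne : I.Nonempty := by
      rw [← Finset.card_pos, h]
      exact Nat.succ_pos n
    obtain ⟨z, hz, hmin⟩ := Finset.exists_min_image I ρ hne
    have hc : (I.erase z).card = n := by
      rw [Finset.card_erase_of_mem hz, h]
      rfl
    obtain ⟨l, h1, h2, h3⟩ := ih (I.erase z)
      (fun x hx y hy => hinj x (Finset.mem_of_mem_erase hx) y (Finset.mem_of_mem_erase hy)) hc
    refine ⟨z :: l, ?_, ?_, ?_⟩
    · refine List.Pairwise.cons ?_ h1
      intro b hb
      have hb' := h2 b hb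
      have h4 := hmin b (Finset.mem_of_mem_erase hb')
      refine lt_of_le_of_ne h4 ?_
      intro h5
      exact (Finset.ne_of_mem_erase hb') (hinj z hz b (Finset.mem_of_mem_erase hb') h5).symm
    · intro x hx
      rcases List.mem_cons.1 hx with rfl | hx
      · exact hz
      · exact Finset.mem_of_mem_erase (h2 x hx)
    · rw [List.length_cons, h3]

theorem cg3_last {ρ : V → ℝ} {xs : List V} (hx : xs.Pairwise fun a b => ρ a < ρ b) {x : V}
    (hl : xs.getLast? = some x) {a : V} (ha : a ∈ xs) : a = x ∨ ρ a < ρ x := by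
  obtain ⟨ys, rfl⟩ := List.getLast?_eq_some_iff.1 hl
  rcases List.mem_append.1 ha with h | h
  · right
    exact (List.pairwise_append.1 hx).2.2 a h x (List.mem_singleton.2 rfl)
  · left
    exact List.mem_singleton.1 h

/-- the degenerate pairs -/
theorem cg3_deg1 (a b d : V) : T.X a b a d = false := by
  by_contra h
  have h1 := T.ne a b a d (by simpa using h)
  exact h1.2.2.1 rfl

theorem cg3_deg2 (a b c : V) : T.X a b c b = false := by
  by_contra h
  have h1 := T.ne a b c b (by simpa using h)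
  exact h1.2.2.2.2.2 rfl

theorem cg3_deg3 (a b c : V) : T.X a b b c = false := by
  by_contra h
  have h1 := T.ne a b b c (by simpa using h)
  exact h1.2.2.2.2.1 rfl

/-- one value is taken often -/
theorem cg3_pig (g : V → Bool) (B : List V) {h : ℕ} (hB : h ≤ B.length) :
    ∃ γ : Bool, (h + 1) / 2 ≤ (B.filter fun b => g b == γ).length := by
  have h1 : (B.filter fun b => g b == true).length + (B.filter fun b => g b == false).length = B.length := by
    have h2 := List.length_eq_length_filter_add (l := B) (fun b => g b == true)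
    rw [h2]
    congr 2
    refine List.filter_congr fun b _ => ?_
    cases g b <;> rfl
  by_contra hc
  push Not at hc
  have a1 := hc true
  have a2 := hc false
  omega

theorem cg3_main [DecidableEq V] {u w : V} (huw : u ≠ w) {ρ : V → ℝ} (hρ : T.Rot u w ρ)
    {I : Finset V} (hI : T.Indep u w I) (hu : u ∉ I) (hw : w ∉ I)
    (hL : ∀ x ∈ I, ∀ y ∈ I, x ≠ y → T.X u w x y = true)
    {v : V} (hv : v = u ∨ v = w) {xs ys : List V} (h : xs.length = ys.length + 1) (hy2 : 1 ≤ ys.length)
    (hxI : ∀ x ∈ xs, x ∈ I) (hyI : ∀ y ∈ ys, y ∈ I)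
    (hx : xs.Pairwise fun a b => ρ a < ρ b) (hy : ys.Pairwise fun a b => ρ a < ρ b)
    (hxy : ∀ a ∈ xs, ∀ b ∈ ys, ρ a < ρ b) {z : V} (hz : xs.head? = some z)
    (h1 : ∀ a ∈ xs, ∀ b ∈ ys, T.X v z a b = false) : T.HasCycle (xs.length + ys.length + 1) := by
  obtain ⟨g1, g2, g3, g4, g5, g6⟩ := cg2_zig h hx hy hxy
  have hxs : xs ≠ [] := by
    intro h0
    rw [h0] at h
    simp at h
  have hinj : ∀ x ∈ I, ∀ y ∈ I, ρ x = ρ y → x = y := fun x hx y hy h =>
    hρ.inj x y (fun h => hu (h ▸ hx)) (fun h => hu (h ▸ hy)) h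
  have hvI : v ∉ I := by
    rcases hv with rfl | rfl
    · exact hu
    · exact hw
  obtain ⟨x, hlast⟩ : ∃ x, xs.getLast? = some x := ⟨_, List.getLast?_eq_some_getLast hxs⟩
  have hxx : x ∈ xs := List.mem_of_getLast? hlast
  have hpl : T.Plane (edges (zig xs ys)) := by
    intro e he f hf
    obtain ⟨a, ha, b, hb, c, hc, d, hd, e1, e2, e3⟩ := g6 e he f hf
    have key : ∀ a ∈ xs, ∀ b ∈ ys, ∀ c ∈ xs, ∀ d ∈ ys, ρ a ≤ ρ c → ρ b ≤ ρ d → T.X a b c d = false := by
      intro a ha b hb c hc d hd hac hbd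
      rcases hac.eq_or_lt with h0 | hac
      · have := hinj a (hxI a ha) c (hxI c hc) h0
        subst this
        exact cg3_deg1 T a b d
      rcases hbd.eq_or_lt with h0 | hbd
      · have := hinj b (hyI b hb) d (hyI d hd) h0
        subst this
        exact cg3_deg2 T a b c
      exact (cg1_inter T huw hρ hI hu hw hL (hxI a ha) (hxI c hc) (hyI b hb) (hyI d hd) hac (hxy c hc b hb) hbd).1
    have key2 : T.X a b c d = false := by
      rcases e3 with ⟨h2, h3⟩ | ⟨h2, h3⟩
      · exact key a ha b hb c hc d hd h2 h3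
      · rw [T.symm2]
        exact key c hc d hd a ha b hb h2 h3
    rcases e1 with rfl | rfl <;> rcases e2 with rfl | rfl
    · exact key2
    · show T.X a b d c = false
      rw [T.symm2, T.symm1, T.symm2]
      exact key2
    · show T.X b a c d = false
      rw [T.symm1]
      exact key2
    · show T.X b a d c = false
      rw [T.symm1, T.symm2, T.symm1, T.symm2]
      exact key2
  have hed : ∀ p : V, (∀ a ∈ xs, ∀ b ∈ ys, T.X v p a b = false) →
      ∀ e ∈ edges (zig xs ys), T.X v p e.1 e.2 = false := by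
    intro p hp e he
    obtain ⟨a, ha, b, hb, c, hc, d, hd, e1, e2, e3⟩ := g6 e he e he
    rcases e1 with rfl | rfl
    · exact hp a ha b hb
    · show T.X v p b a = false
      rw [T.symm2, T.symm1, T.symm2]
      exact hp a ha b hb
  have h2 : ∀ a ∈ xs, ∀ b ∈ ys, T.X v x a b = false := by
    intro a ha b hb
    rcases cg3_last hx hlast ha with rfl | h3
    · exact cg3_deg3 T v a b
    · have h4 := hxy x hxx b hb
      have hax : x ≠ a := fun h => by rw [h] at h3; exact lt_irrefl _ h3
      have hxb : x ≠ b := fun h => by rw [h] at h4; exact lt_irrefl _ h4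
      have hab : a ≠ b := fun h => by
        have := hxy a ha b hb
        rw [h] at this
        exact lt_irrefl _ this
      have h5 := (cf1_pos T huw hρ hI hu hw (hxI x hxx) (hxI a ha) (hyI b hb) hax hxb hab).1 (by
        rw [hL a (hxI a ha) b (hyI b hb) hab, decide_eq_true h3, decide_eq_false (not_lt.2 h4.le)]
        rfl)
      rcases hv with rfl | rfl
      · exact h5.1
      · exact h5.2
  have hfin := ce8_pole T (v := v) (l := zig xs ys) (a := z) (b := x) (by
      refine List.nodup_cons.2 ⟨?_, g1⟩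
      intro h0
      rcases g5 v h0 with h3 | h3
      · exact hvI (hxI v h3)
      · exact hvI (hyI v h3)) (by
      rw [g2]
      omega) hpl (by rw [g3, hz]) (by rw [g4, hlast]) (hed z h1) (hed x h2)
  rw [g2] at hfin
  exact hfin

/-- (CG3, M/L) A large independent set with long edges gives a cycle.
PROOF.  Let `h ≥ 3` and `2 h` elements of `I`, sorted by `ρ`: `z₁ < ... < z_{2h}`; `A = [z₁..z_h]`,
`B = [z_{h+1}..z_{2h}]`.  For `b ∈ B` let `g b = X u z₁ z₂ b`; by `cg1_inter` (second part, for
`z₁ < z₂ < a < b`) `X u z₁ a b = g b` for all `a ∈ A`, `a ≠ z₁`, `b ∈ B`, and `X w z₁ a b = !g b`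
(`cf1_pos`, `z₁` is outside, long edge).  One value `γ` of `g` is taken by a set `B'` of at least
`h / 2` elements of `B`.  Let `v = u` if `γ = false` and `v = w` if `γ = true`: `X v z₁ a b = false`
for `a ∈ A \ {z₁}`, `b ∈ B'`.  Let `r = (h + 1) / 2 ≤ h - 1`, `ys` = the first `r` elements of `B'`,
`xs` = the first `r + 1` elements of `A`, in increasing order, `l = zig xs ys`.  The path is plane: two
edges `ab`, `cd` with `a ≤ c < b ≤ d` are adjacent or `X a b c d = 0` by `cg1_inter`
(`a < c < b < d`).  The edge from the pole `v` to `z₁` does not cross it (edges containing `z₁`: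
degenerate), nor does the edge from `v` to the last element `x` of `xs`: for an edge `ab` with
`a ≠ x`, `a < x < b` and `cf1_pos` (middle, long).  `ce8_pole` gives a cycle with
`2 r + 2 ≥ h + 2` vertices. -/
theorem cg3_cycle [DecidableEq V] {u w : V} (huw : u ≠ w) {ρ : V → ℝ} (hρ : T.Rot u w ρ)
    {I : Finset V} (hI : T.Indep u w I) (hu : u ∉ I) (hw : w ∉ I)
    (hL : ∀ x ∈ I, ∀ y ∈ I, x ≠ y → T.X u w x y = true) {h : ℕ} (h3 : 3 ≤ h)
    (hc : 2 * h ≤ I.card) : T.HasCycle h := by
  have hinj : ∀ x ∈ I, ∀ y ∈ I, ρ x = ρ y → x = y := fun x hx y hy h =>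
    hρ.inj x y (fun h => hu (h ▸ hx)) (fun h => hu (h ▸ hy)) h
  obtain ⟨l, l1, l2, l3⟩ := cg3_sorted ρ I hinj
  set r := (h + 1) / 2 with hr
  have hr1 : r + 1 ≤ h := by omega
  have hr2 : 2 ≤ r := by omega
  have hlh : 2 * h ≤ l.length := by omega
  set A := l.take h with hA
  set B := l.drop h with hB
  have hAB : l = A ++ B := (List.take_append_drop h l).symm
  have hAl : A.length = h := by
    rw [hA, List.length_take]
    omega
  have hBl : h ≤ B.length := by
    rw [hB, List.length_drop]
    omega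
  rw [hAB] at l1
  obtain ⟨pA, pB, pAB⟩ := List.pairwise_append.1 l1
  have hAI : ∀ a ∈ A, a ∈ I := fun a ha => l2 a (by rw [hAB]; exact List.mem_append_left _ ha)
  have hBI : ∀ a ∈ B, a ∈ I := fun a ha => l2 a (by rw [hAB]; exact List.mem_append_right _ ha)
  obtain ⟨z1, z2, A', hAe⟩ : ∃ z1 z2 A', A = z1 :: z2 :: A' := by
    match hm : A with
    | [] => simp at hAl; omega
    | [_] => simp at hAl; omega
    | z1 :: z2 :: A' => exact ⟨z1, z2, A', rfl⟩
  have hz1A : z1 ∈ A := by rw [hAe]; simp
  have hz2A : z2 ∈ A := by rw [hAe]; simp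
  have hz12 : ρ z1 < ρ z2 := by
    rw [hAe] at pA
    exact (List.pairwise_cons.1 pA).1 z2 (by simp)
  have hz2a : ∀ a ∈ A, a ≠ z1 → a = z2 ∨ ρ z2 < ρ a := by
    intro a ha hne
    rw [hAe] at ha pA
    rcases List.mem_cons.1 ha with h0 | ha
    · exact absurd h0 hne
    rcases List.mem_cons.1 ha with h0 | ha
    · exact Or.inl h0
    · exact Or.inr ((List.pairwise_cons.1 (List.pairwise_cons.1 pA).2).1 a ha)
  have hz1a : ∀ a ∈ A, a ≠ z1 → ρ z1 < ρ a := by
    intro a ha hne
    rcases hz2a a ha hne with h0 | h0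
    · rw [h0]; exact hz12
    · exact hz12.trans h0
  have hg : ∀ a ∈ A, a ≠ z1 → ∀ b ∈ B, T.X u z1 a b = T.X u z1 z2 b := by
    intro a ha hne b hb
    rcases hz2a a ha hne with h0 | h0
    · rw [h0]
    · exact (cg1_inter T huw hρ hI hu hw hL (hAI z1 hz1A) (hAI z2 hz2A) (hAI a ha) (hBI b hb) hz12 h0
        (pAB a ha b hb)).2.symm
  have hgw : ∀ a ∈ A, a ≠ z1 → ∀ b ∈ B, (T.X u z1 a b ^^ T.X w z1 a b) = true := by
    intro a ha hne b hb
    have h1 := hz1a a ha hne
    have h2 := pAB z1 hz1A b hb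
    have h4 := pAB a ha b hb
    have hzb : z1 ≠ b := fun h => by rw [h] at h2; exact lt_irrefl _ h2
    have hab : a ≠ b := fun h => by rw [h] at h4; exact lt_irrefl _ h4
    refine (cf1_pos T huw hρ hI hu hw (hAI z1 hz1A) (hAI a ha) (hBI b hb) hne.symm hzb hab).2 ?_
    rw [hL a (hAI a ha) b (hBI b hb) hab, decide_eq_false (not_lt.2 h1.le), decide_eq_false (not_lt.2 h2.le)]
    decide
  obtain ⟨γ, hγ⟩ := cg3_pig (fun b => T.X u z1 z2 b) B hBl
  set B' := B.filter (fun b => T.X u z1 z2 b == γ) with hB'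
  have hB'B : ∀ b ∈ B', b ∈ B ∧ T.X u z1 z2 b = γ := by
    intro b hb
    have h1 := List.mem_filter.1 hb
    exact ⟨h1.1, by simpa using h1.2⟩
  have hxl : (A.take (r + 1)).length = r + 1 := by
    rw [List.length_take, hAl]
    omega
  have hyl : (B'.take r).length = r := by
    rw [List.length_take]
    exact min_eq_left hγ
  have hfin := cg3_main T huw hρ hI hu hw hL (v := if γ = false then u else w)
    (by cases γ <;> simp) (xs := A.take (r + 1)) (ys := B'.take r) (by
      rw [hxl, hyl]) (by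
      rw [hyl]
      omega) (fun x hx => hAI x (List.mem_of_mem_take hx))
    (fun y hy => hBI y (hB'B y (List.mem_of_mem_take hy)).1)
    (List.Pairwise.sublist (List.take_sublist _ _) pA)
    (List.Pairwise.sublist ((List.take_sublist _ _).trans List.filter_sublist) pB)
    (fun a ha b hb => pAB a (List.mem_of_mem_take ha) b (hB'B b (List.mem_of_mem_take hb)).1)
    (z := z1) (by
      rw [hAe]
      rfl) (by
      intro a ha b hb
      have ha' := List.mem_of_mem_take ha
      obtain ⟨hb1, hb2⟩ := hB'B b (List.mem_of_mem_take hb)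
      by_cases h0 : a = z1
      · rw [h0]
        exact cg3_deg3 T _ _ _
      have h1 := hg a ha' h0 b hb1
      have h2 := hgw a ha' h0 b hb1
      rw [hb2] at h1
      rw [h1] at h2
      cases γ with
      | false => rw [if_pos rfl]; exact h1
      | true =>
        rw [if_neg (by decide)]
        simpa using h2)
  refine ce10_mono T ?_ hfin
  rw [hxl, hyl]
  omega

end H53P
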