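import Pool.Agent.Lib.H53P.CG3
import Pool.Agent.Lib.H53P.CF3

/-! # H53P, combinatorics: large independent sets give cycles -/

namespace H53P

variable {V : Type*} (T : Table V)

/-- (CG4, S/M) Large independent sets give cycles.
PROOF.  `ρ` from `cc3_perm`.  `ca2_chain` with `R x y : ρ x < ρ y ∧ X u w x y = false` and
`r = k - 2`: either a chain with `k - 1 ≥ 2` elements, `cf3_fan`; or `Z ⊆ I` with
`2 k ^ 2 ≤ I.card ≤ (k - 2) * Z.card`, so `2 * k ≤ Z.card`, and `X u w x y = true` for `x ≠ y` in `Z`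
(one of them is smaller; `X u w x y` is symmetric in `x, y`): `cg3_cycle`. -/
theorem cg4_indep [DecidableEq V] {u w : V} (huw : u ≠ w) {I : Finset V} (hI : T.Indep u w I)
    (hu : u ∉ I) (hw : w ∉ I) {k : ℕ} (hk : 3 ≤ k) (hc : 2 * k ^ 2 ≤ I.card) : T.HasCycle k := by
  obtain ⟨ρ, σ, h1, h2, -, h4, -⟩ := cc3_perm T huw
  have hρ : T.Rot u w ρ := ⟨h1, h2, h4⟩
  rcases ca2_chain (fun x y => ρ x < ρ y ∧ T.X u w x y = false) I (k - 2) with ⟨l, hl, hlI, hlc⟩ | ⟨Z, hZ, hZc, hZR⟩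
  · have h5 := cf3_fan T huw hρ hI hu hw hlI hlc (by omega)
    have h6 : l.length + 1 = k := by omega
    rwa [h6] at h5
  · have huZ : u ∉ Z := fun h => hu (hZ h)
    have hwZ : w ∉ Z := fun h => hw (hZ h)
    have hZI : T.Indep u w Z := fun x hx y hy hxy => hI x (hZ hx) y (hZ hy) hxy
    have hcard : 2 * k ≤ Z.card := by
      by_contra hcon
      obtain ⟨m, rfl⟩ : ∃ m, k = m + 2 := ⟨k - 2, by omega⟩
      rw [Nat.add_sub_cancel] at hZc
      have h7 : m * Z.card ≤ m * (2 * (m + 2)) := Nat.mul_le_mul_left m (by omega)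
      nlinarith
    refine cg3_cycle T huw hρ hZI huZ hwZ ?_ hk hcard
    intro x hx y hy hxy
    by_contra hX
    rw [Bool.not_eq_true] at hX
    have hxu : x ≠ u := fun h => huZ (h ▸ hx)
    have hyu : y ≠ u := fun h => huZ (h ▸ hy)
    rcases lt_trichotomy (ρ x) (ρ y) with h | h | h
    · exact hZR x hx y hy ⟨h, hX⟩
    · exact hxy (h2 x y hxu hyu h)
    · refine hZR y hy x hx ⟨h, ?_⟩
      rw [T.symm2, T.symm1, T.symm2]
      exact hX

end H53P
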