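import Pool.Agent.Lib.H53P.CG4
import Pool.Agent.Lib.H53P.CC4

/-! # H53P, combinatorics, file H: thinning to cliques -/

namespace H53P

variable {V : Type*} (T : Table V)

/-- (CH1, S) subsets of cliques are cliques -/
theorem ch1_mono {u w : V} {S S' : Finset V} (h : T.Clique u w S) (hs : S' ⊆ S) :
    T.Clique u w S' := fun x hx y hy hxy => h x (hs hx) y (hs hy) hxy

/-- (CH2, S) PROOF.  `cc4_dich` with `r + 1 = 2 k ^ 2`; the first alternative contradicts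
`cg4_indep`. -/
theorem ch2_clique [DecidableEq V] {k : ℕ} (hk : 3 ≤ k) (hno : ¬ T.HasCycle k) {u w : V}
    (huw : u ≠ w) (S : Finset V) (hu : u ∉ S) (hw : w ∉ S) :
    ∃ Y ⊆ S, T.Clique u w Y ∧ S.card ≤ 2 * k ^ 2 * Y.card := by
  have hpos : 1 ≤ 2 * k ^ 2 := by nlinarith
  rcases cc4_dich T huw S hu hw (2 * k ^ 2 - 1) with ⟨X, hX, hc, hI⟩ | ⟨Y, hY, hc, hC⟩
  · exfalso
    refine hno (cg4_indep T huw hI (fun h => hu (hX h)) (fun h => hw (hX h)) hk ?_)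
    rw [hc]
    omega
  · refine ⟨Y, hY, hC, hc.trans ?_⟩
    exact Nat.mul_le_mul_right _ (Nat.sub_le _ _)

/-- (CH3, S/M) PROOF.  Induction on the list `Ps`, `ch2_clique` and `ch1_mono`. -/
theorem ch3_thin [DecidableEq V] {k : ℕ} (hk : 3 ≤ k) (hno : ¬ T.HasCycle k)
    (Ps : List (V × V)) (S : Finset V)
    (hP : ∀ p ∈ Ps, p.1 ≠ p.2 ∧ p.1 ∉ S ∧ p.2 ∉ S) :
    ∃ Y ⊆ S, (∀ p ∈ Ps, T.Clique p.1 p.2 Y) ∧ S.card ≤ (2 * k ^ 2) ^ Ps.length * Y.card := by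
  induction Ps generalizing S with
  | nil =>
    refine ⟨S, Finset.Subset.refl _, fun p hp => absurd hp (List.not_mem_nil), ?_⟩
    simp
  | cons p Ps ih =>
    obtain ⟨h1, h2, h3⟩ := hP p List.mem_cons_self
    obtain ⟨Y1, hY1, hC1, hc1⟩ := ch2_clique T hk hno h1 S h2 h3
    obtain ⟨Y, hY, hC, hc⟩ := ih Y1 (fun q hq => by
      obtain ⟨g1, g2, g3⟩ := hP q (List.mem_cons_of_mem _ hq)
      exact ⟨g1, fun h => g2 (hY1 h), fun h => g3 (hY1 h)⟩)
    refine ⟨Y, hY.trans hY1, fun q hq => ?_, ?_⟩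
    · rcases List.mem_cons.1 hq with rfl | hq
      · exact ch1_mono T hC1 hY
      · exact hC q hq
    · rw [List.length_cons, pow_succ]
      calc S.card ≤ 2 * k ^ 2 * Y1.card := hc1
        _ ≤ 2 * k ^ 2 * ((2 * k ^ 2) ^ Ps.length * Y.card) := Nat.mul_le_mul_left _ hc
        _ = (2 * k ^ 2) ^ Ps.length * (2 * k ^ 2) * Y.card := by ring

end H53P
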