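import Pool.Agent.Lib.H53P.CE
import Pool.Agent.Lib.H53P.CC4

/-! # H53P, combinatorics: gluing two excursions -/

namespace H53P

variable {V : Type*} (T : Table V)

/-- the edges from `v` to `A` do not cross the triangle `t₁ t₂ t₃` -/
def Table.Off (v : V) (A : Finset V) (t₁ t₂ t₃ : V) : Prop :=
  ∀ a ∈ A, T.X v a t₁ t₂ = false ∧ T.X v a t₂ t₃ = false ∧ T.X v a t₃ t₁ = false

theorem ci_deg {a b c d : V} (h : ¬ (a ≠ b ∧ c ≠ d ∧ a ≠ c ∧ a ≠ d ∧ b ≠ c ∧ b ≠ d)) :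
    T.X a b c d = false := by
  cases hX : T.X a b c d
  · rfl
  · exact absurd (T.ne _ _ _ _ hX) h

theorem ci_s34 (a b c d : V) : T.X a b c d = T.X a b d c := by
  rw [T.symm2, T.symm1, T.symm2]

/-- (CI1, M) Two excursions separated by a triangle do not cross.
PROOF.  By `ce3_mem` every edge `e` of the first path has an end in `A` (the other end is `v`, `v'`
or in `A`) and does not cross the triangle (`hv, hv', hA`); choose `x ∈ A` an end of `e` and `x'` the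
other one; in the same way `y ∈ B` and `y'` for `f`.  `T.sep` for `x, y, x', y'` and the symmetries
of `X`. -/
theorem ci1_sep {t₁ t₂ t₃ : V} (h12 : t₁ ≠ t₂) (h23 : t₂ ≠ t₃) (h31 : t₃ ≠ t₁) {v v' z z' : V}
    {A B : Finset V} {L M : List V} (hL : L ≠ []) (hM : M ≠ []) (hLA : ∀ x ∈ L, x ∈ A)
    (hMB : ∀ x ∈ M, x ∈ B) (hAt : t₁ ∉ A ∧ t₂ ∉ A ∧ t₃ ∉ A) (hBt : t₁ ∉ B ∧ t₂ ∉ B ∧ t₃ ∉ B)
    (hv : T.Off v A t₁ t₂ t₃) (hv' : T.Off v' A t₁ t₂ t₃) (hA : ∀ a ∈ A, T.Off a A t₁ t₂ t₃)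
    (hz : T.Off z B t₁ t₂ t₃) (hz' : T.Off z' B t₁ t₂ t₃) (hB : ∀ b ∈ B, T.Off b B t₁ t₂ t₃)
    (hs : ∀ a ∈ A, ∀ b ∈ B, T.crT t₁ t₂ t₃ a b = true) :
    ∀ e ∈ edges (v :: L ++ [v']), ∀ f ∈ edges (z :: M ++ [z']), T.X e.1 e.2 f.1 f.2 = false := by
  have key : ∀ {v v' : V} {A : Finset V} {L : List V}, L ≠ [] → (∀ x ∈ L, x ∈ A) →
      T.Off v A t₁ t₂ t₃ → T.Off v' A t₁ t₂ t₃ → (∀ a ∈ A, T.Off a A t₁ t₂ t₃) →
      ∀ e ∈ edges (v :: L ++ [v']), ∃ x ∈ A, ∃ x' : V, (∀ c d, T.X e.1 e.2 c d = T.X x x' c d) ∧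
        T.X x x' t₁ t₂ = false ∧ T.X x x' t₂ t₃ = false ∧ T.X x x' t₃ t₁ = false := by
    intro v v' A L hL hLA hv hv' hA e he
    rcases ce3_mem hL he with ⟨h1, h2⟩ | ⟨h1, h2⟩ | ⟨h1, h2⟩
    · obtain ⟨k1, k2, k3⟩ := hv e.2 (hLA _ h2)
      refine ⟨e.2, hLA _ h2, v, fun c d => ?_, ?_, ?_, ?_⟩
      · rw [h1, T.symm1]
      · rw [T.symm1, k1]
      · rw [T.symm1, k2]
      · rw [T.symm1, k3]
    · obtain ⟨k1, k2, k3⟩ := hv' e.1 (hLA _ h1)
      refine ⟨e.1, hLA _ h1, v', fun c d => ?_, ?_, ?_, ?_⟩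
      · rw [h2]
      · rw [T.symm1, k1]
      · rw [T.symm1, k2]
      · rw [T.symm1, k3]
    · obtain ⟨k1, k2, k3⟩ := hA e.1 (hLA _ h1) e.2 (hLA _ h2)
      exact ⟨e.1, hLA _ h1, e.2, fun c d => rfl, k1, k2, k3⟩
  intro e he f hf
  obtain ⟨x, hx, x', ex, x1, x2, x3⟩ := key hL hLA hv hv' hA e he
  obtain ⟨y, hy, y', ey, y1, y2, y3⟩ := key hM hMB hz hz' hB f hf
  have hne : ∀ {C : Finset V} {p q : V}, p ∈ C → q ∉ C → p ≠ q := by
    rintro C p q hp hq rfl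
    exact hq hp
  have h := T.sep t₁ t₂ t₃ h12 h23 h31 x y x' y' (hne hx hAt.1) (hne hx hAt.2.1) (hne hx hAt.2.2)
    (hne hy hBt.1) (hne hy hBt.2.1) (hne hy hBt.2.2) x1 x2 x3 y1 y2 y3 (hs x hx y hy)
  rw [ex, T.symm2, ey, T.symm2]
  exact h

/-- (CI2, S) A direct edge and an excursion.  PROOF.  `ce3_mem`; `T.X s t a a' = false` by
`cc2_uw`. -/
theorem ci2_direct {s t v v' : V} {A : Finset V} {L : List V} (hL : L ≠ [])
    (hLA : ∀ x ∈ L, x ∈ A) (hc : T.Clique s t A) (hv : ∀ a ∈ A, T.X s t v a = false)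
    (hv' : ∀ a ∈ A, T.X s t v' a = false) :
    ∀ e ∈ edges (v :: L ++ [v']), T.X s t e.1 e.2 = false := by
  intro e he
  rcases ce3_mem hL he with ⟨h1, h2⟩ | ⟨h1, h2⟩ | ⟨h1, h2⟩
  · rw [h1]
    exact hv _ (hLA _ h2)
  · rw [h2, ci_s34]
    exact hv' _ (hLA _ h1)
  · by_cases hne : e.1 = e.2
    · exact ci_deg T (fun h => h.2.1 hne)
    · exact cc2_uw T (hc _ (hLA _ h1) _ (hLA _ h2) hne)

/-- (CI3, S) PROOF.  `cc2_uw` for the three sides. -/
theorem ci3_off {t₁ t₂ t₃ : V} {A : Finset V} (h1 : T.Clique t₁ t₂ A) (h2 : T.Clique t₂ t₃ A)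
    (h3 : T.Clique t₃ t₁ A) : ∀ a ∈ A, T.Off a A t₁ t₂ t₃ := by
  have key : ∀ {s t : V}, T.Clique s t A → ∀ a ∈ A, ∀ b ∈ A, T.X a b s t = false := by
    intro s t h a ha b hb
    by_cases hne : a = b
    · exact ci_deg T (fun h => h.1 hne)
    · rw [T.symm2]
      exact cc2_uw T (h a ha b hb hne)
  intro a ha b hb
  exact ⟨key h1 a ha b hb, key h2 a ha b hb, key h3 a ha b hb⟩

/-- (CI4, S) `Clique` is symmetric in the pair -/
theorem ci4_symm {u w : V} {S : Finset V} (h : T.Clique u w S) : T.Clique w u S := by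
  intro x hx y hy hne
  rw [← (cc1_adj T u w x y).2.2.1]
  exact h x hx y hy hne

/-- two large sets of `S` with portals such that excursions through both can be combined to a path
from `u` to `w` -/
def Table.TwoExc (u w : V) (S : Finset V) (N : ℕ) : Prop :=
  ∃ (v v' z z' : V) (A B : Finset V), v ≠ v' ∧ z ≠ z' ∧ v ∉ A ∧ v' ∉ A ∧ z ∉ B ∧ z' ∉ B ∧
    N ≤ A.card ∧ N ≤ B.card ∧
    ∀ L M : List V, L ≠ [] → M ≠ [] → T.PathIn v v' A L → T.PathIn z z' B M →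
      ∃ K : List V, T.PathIn u w S K ∧ L.length + M.length ≤ K.length

/-- (CI5, S) PROOF.  `ce6_reverse`. -/
theorem ci5_symm {u w : V} {S : Finset V} {N : ℕ} (h : T.TwoExc w u S N) : T.TwoExc u w S N := by
  obtain ⟨v, v', z, z', A, B, h1, h2, h3, h4, h5, h6, h7, h8, h9⟩ := h
  refine ⟨v, v', z, z', A, B, h1, h2, h3, h4, h5, h6, h7, h8, fun L M hL hM pL pM => ?_⟩
  obtain ⟨K, hK, hlen⟩ := h9 L M hL hM pL pM
  exact ⟨K.reverse, ce6_reverse T hK, by rw [List.length_reverse]; exact hlen⟩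

/-- (CI6, S) monotonicity in `S` -/
theorem ci6_mono {u w : V} {S S' : Finset V} {N : ℕ} (h : T.TwoExc u w S N) (hS : S ⊆ S') :
    T.TwoExc u w S' N := by
  obtain ⟨v, v', z, z', A, B, h1, h2, h3, h4, h5, h6, h7, h8, h9⟩ := h
  refine ⟨v, v', z, z', A, B, h1, h2, h3, h4, h5, h6, h7, h8, fun L M hL hM pL pM => ?_⟩
  obtain ⟨K, ⟨k1, k2, k3⟩, hlen⟩ := h9 L M hL hM pL pM
  exact ⟨K, ⟨k1, fun x hx => hS (k2 x hx), k3⟩, hlen⟩

/-- `A` is a clique for the six pairs of `u, w, s, t` -/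
def Table.Six (u w s t : V) (A : Finset V) : Prop :=
  T.Clique u w A ∧ T.Clique u s A ∧ T.Clique u t A ∧ T.Clique w s A ∧ T.Clique w t A ∧
    T.Clique s t A

/-- common hypotheses of the gluing lemmas -/
structure Table.Glue (u w s t : V) (S A B : Finset V) : Prop where
  nodup : [u, w, s, t].Nodup
  uS : u ∉ S
  wS : w ∉ S
  sS : s ∈ S
  tS : t ∈ S
  AS : A ⊆ S
  BS : B ⊆ S
  sA : s ∉ A
  tA : t ∉ A
  sB : s ∉ B
  tB : t ∉ B
  sixA : T.Six u w s t A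
  sixB : T.Six u w s t B

/-- scheme of the second kind: path `u A s B w`, triangle `u s t` -/
def Table.SB (u w s t a b : V) : Prop :=
  T.X u a s t = false ∧ T.X a s u t = false ∧ T.X b s u t = false ∧ T.X w b u s = false ∧
    T.X w b u t = false ∧ T.X w b s t = false ∧ T.crT u s t a b = true

/-- scheme of the third kind: path `u A s t B w`, triangle `u s t` -/
def Table.SC (u w s t a b : V) : Prop :=
  T.X u a s t = false ∧ T.X a s u t = false ∧ T.X b t u s = false ∧ T.X w b u s = false ∧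
    T.X w b u t = false ∧ T.X w b s t = false ∧ T.crT u s t a b = true

/-- scheme of the fourth kind: path `u A s B t w`, triangle `u s t` -/
def Table.SD (u w s t a b : V) : Prop :=
  T.X u a s t = false ∧ T.X a s u t = false ∧ T.X b s u t = false ∧ T.X b t u s = false ∧
    T.X t w u a = false ∧ T.X t w a s = false ∧ T.X t w b s = false ∧ T.crT u s t a b = true

end H53P
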