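import Pool.Agent.Lib.H53P.CI
import Pool.Agent.Lib.H53P.CD5

/-! # H53P, combinatorics: gluing lemmas, first and second kind

In all of them `A ∩ B = ∅`, because `crT t₁ t₂ t₃ a a = false` (`T.ne`). -/

namespace H53P

variable {V : Type*} (T : Table V)

/-- degenerate values -/
theorem cj1_deg (a b c : V) : T.X a b a c = false ∧ T.X a b c a = false ∧
    T.X b a a c = false ∧ T.X b a c a = false := by
  refine ⟨?_, ?_, ?_, ?_⟩ <;>
  · by_contra h
    rw [Bool.not_eq_false] at h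
    have := T.ne _ _ _ _ h
    simp at this

theorem cj1_crT (t₁ t₂ t₃ a : V) : T.crT t₁ t₂ t₃ a a = false := by
  have h : ∀ c d, T.X a a c d = false := by
    intro c d
    by_contra h
    rw [Bool.not_eq_false] at h
    exact (T.ne _ _ _ _ h).1 rfl
  simp [Table.crT, crTX, h]

/-- the common part of the gluing lemmas of the first and second kind -/
theorem cj1_glue {u w s : V} {S A B : Finset V} {N : ℕ} (hA : N ≤ A.card) (hB : N ≤ B.card)
    (hus : u ≠ s) (hsw : s ≠ w) (huA : u ∉ A) (hsA : s ∉ A) (hsB : s ∉ B) (hwB : w ∉ B)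
    (hsS : s ∈ S) (hAS : A ⊆ S) (hBS : B ⊆ S) (hd : ∀ a ∈ A, ∀ b ∈ B, a ≠ b)
    (hx : ∀ L M : List V, L ≠ [] → M ≠ [] → (∀ x ∈ L, x ∈ A) → (∀ x ∈ M, x ∈ B) →
      ∀ e ∈ edges (u :: L ++ [s]), ∀ f ∈ edges (s :: M ++ [w]), T.X e.1 e.2 f.1 f.2 = false) :
    T.TwoExc u w S N := by
  refine ⟨u, s, s, w, A, B, hus, hsw, huA, hsA, hsB, hwB, hA, hB, ?_⟩
  intro L M hL hM hPL hPM
  obtain ⟨hL1, hL2, hL3⟩ := hPL
  obtain ⟨hM1, hM2, hM3⟩ := hPM
  refine ⟨L ++ s :: M, ⟨?_, ?_, ?_⟩, ?_⟩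
  · rw [List.nodup_append]
    refine ⟨hL1, ?_, ?_⟩
    · rw [List.nodup_cons]
      exact ⟨fun h => hsB (hM2 s h), hM1⟩
    · intro a ha b hb
      rw [List.mem_cons] at hb
      rcases hb with rfl | hb
      · rintro rfl
        exact hsA (hL2 _ ha)
      · exact hd a (hL2 a ha) b (hM2 b hb)
  · intro x hx'
    rw [List.mem_append, List.mem_cons] at hx'
    rcases hx' with h | rfl | h
    · exact hAS (hL2 x h)
    · exact hsS
    · exact hBS (hM2 x h)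
  · have h1 : u :: (L ++ s :: M) ++ [w] = (u :: L) ++ s :: (M ++ [w]) := by simp
    rw [h1, ce2_append]
    refine ce5_plane_append T _ _ hL3 hM3 ?_
    exact hx L M hL hM hL2 hM2
  · simp

/-- (CJ1, M) First kind.
PROOF.  Portals `u, s` for `A`, `s, w` for `B`.  Given `L, M` take `K = L ++ s :: M`;
`u :: K ++ [w] = (u :: L) ++ s :: (M ++ [w])`, so by `ce2_append` its edges are those of
`u :: L ++ [s]` and of `s :: M ++ [w]`; each part is plane, and the two parts do not cross by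
`ci1_sep` with the triangle `u, w, s`: `Off u A`: `X u a u w`, `X u a s u` are degenerate and
`X u a w s = 0`; `Off s A`: `X s a u w = 0` (`s, a ∈ S`, but is `S` a clique?  no: use the hypothesis
`hsA`), the others are degenerate; `Off w B`: `X w b s u = X w b u s = 0`; `Off s B`: `hsB`;
`Off a A`, `Off b B` by `ci3_off`.  Nodup: `L`, `M` have no repetition, `L ⊆ A`, `M ⊆ B` are
disjoint, `s ∉ A ∪ B`. -/
theorem cj1_A {u w s t : V} {S A B : Finset V} (hg : T.Glue u w s t S A B) {N : ℕ}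
    (hA : N ≤ A.card) (hB : N ≤ B.card) (hsA : ∀ a ∈ A, T.X s a u w = false)
    (hsB : ∀ b ∈ B, T.X s b u w = false) (hs : ∀ a ∈ A, ∀ b ∈ B, T.SA u w s a b) :
    T.TwoExc u w S N := by
  have hn := hg.nodup
  simp only [List.nodup_cons, List.mem_cons, List.not_mem_nil, or_false, not_or,
    List.nodup_nil, and_true, not_false_eq_true] at hn
  obtain ⟨⟨huw, hus, hut⟩, ⟨hws, hwt⟩, hst⟩ := hn
  have huA : u ∉ A := fun h => hg.uS (hg.AS h)
  have huB : u ∉ B := fun h => hg.uS (hg.BS h)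
  have hwA : w ∉ A := fun h => hg.wS (hg.AS h)
  have hwB : w ∉ B := fun h => hg.wS (hg.BS h)
  obtain ⟨a1, a2, a3, a4, a5, a6⟩ := hg.sixA
  obtain ⟨b1, b2, b3, b4, b5, b6⟩ := hg.sixB
  refine cj1_glue T hA hB hus (Ne.symm hws) huA hg.sA hg.sB hwB hg.sS hg.AS hg.BS ?_ ?_
  · rintro a ha b hb rfl
    have h := (hs a ha a hb).2.2
    rw [cj1_crT] at h
    exact absurd h (by simp)
  intro L M hL hM hLA hMB
  obtain ⟨l0, hl0⟩ := List.exists_mem_of_ne_nil L hL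
  obtain ⟨m0, hm0⟩ := List.exists_mem_of_ne_nil M hM
  have hl0' := hLA l0 hl0
  have hm0' := hMB m0 hm0
  refine ci1_sep T (t₁ := u) (t₂ := w) (t₃ := s) huw hws (Ne.symm hus) hL hM hLA hMB
    ⟨huA, hwA, hg.sA⟩ ⟨huB, hwB, hg.sB⟩ ?_ ?_
    (ci3_off T a1 a4 (ci4_symm T a2)) ?_ ?_ (ci3_off T b1 b4 (ci4_symm T b2))
    fun a ha b hb => (hs a ha b hb).2.2
  · intro a ha
    exact ⟨(cj1_deg T u a w).1, (hs a ha m0 hm0').1, (cj1_deg T u a s).2.1⟩
  · intro a ha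
    exact ⟨hsA a ha, (cj1_deg T s a w).2.1, (cj1_deg T s a u).1⟩
  · intro b hb
    exact ⟨hsB b hb, (cj1_deg T s b w).2.1, (cj1_deg T s b u).1⟩
  · intro b hb
    refine ⟨(cj1_deg T w b u).2.1, (cj1_deg T w b s).1, ?_⟩
    rw [T.symm2, T.symm1, T.symm2]
    exact (hs l0 hl0' b hb).2.1

/-- (CJ2, M) Second kind.
PROOF.  As `cj1_A` (portals `u, s` and `s, w`, `K = L ++ s :: M`), with the triangle `u, s, t`:
`Off u A`: only `X u a s t = 0` is not degenerate; `Off s A`: `X s a t u = X a s u t = 0`;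
`Off s B`: `X b s u t = 0`; `Off w B`: the three terms are hypotheses. -/
theorem cj2_B {u w s t : V} {S A B : Finset V} (hg : T.Glue u w s t S A B) {N : ℕ}
    (hA : N ≤ A.card) (hB : N ≤ B.card) (hne : A.Nonempty ∧ B.Nonempty)
    (hs : ∀ a ∈ A, ∀ b ∈ B, T.SB u w s t a b) : T.TwoExc u w S N := by
  have hn := hg.nodup
  simp only [List.nodup_cons, List.mem_cons, List.not_mem_nil, or_false, not_or,
    List.nodup_nil, and_true, not_false_eq_true] at hn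
  obtain ⟨⟨huw, hus, hut⟩, ⟨hws, hwt⟩, hst⟩ := hn
  have huA : u ∉ A := fun h => hg.uS (hg.AS h)
  have huB : u ∉ B := fun h => hg.uS (hg.BS h)
  have hwA : w ∉ A := fun h => hg.wS (hg.AS h)
  have hwB : w ∉ B := fun h => hg.wS (hg.BS h)
  obtain ⟨a1, a2, a3, a4, a5, a6⟩ := hg.sixA
  obtain ⟨b1, b2, b3, b4, b5, b6⟩ := hg.sixB
  refine cj1_glue T hA hB hus (Ne.symm hws) huA hg.sA hg.sB hwB hg.sS hg.AS hg.BS ?_ ?_
  · rintro a ha b hb rfl
    have h := (hs a ha a hb).2.2.2.2.2.2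
    rw [cj1_crT] at h
    exact absurd h (by simp)
  intro L M hL hM hLA hMB
  obtain ⟨l0, hl0'⟩ := hne.1
  obtain ⟨m0, hm0'⟩ := hne.2
  refine ci1_sep T (t₁ := u) (t₂ := s) (t₃ := t) hus hst (Ne.symm hut) hL hM hLA hMB
    ⟨huA, hg.sA, hg.tA⟩ ⟨huB, hg.sB, hg.tB⟩ ?_ ?_
    (ci3_off T a2 a6 (ci4_symm T a3)) ?_ ?_ (ci3_off T b2 b6 (ci4_symm T b3))
    fun a ha b hb => (hs a ha b hb).2.2.2.2.2.2
  · intro a ha
    exact ⟨(cj1_deg T u a s).1, (hs a ha m0 hm0').1, (cj1_deg T u a t).2.1⟩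
  · intro a ha
    refine ⟨(cj1_deg T s a u).2.1, (cj1_deg T s a t).1, ?_⟩
    rw [T.symm1, T.symm2, T.symm1, T.symm2]
    exact (hs a ha m0 hm0').2.1
  · intro b hb
    refine ⟨(cj1_deg T s b u).2.1, (cj1_deg T s b t).1, ?_⟩
    rw [T.symm1, T.symm2, T.symm1, T.symm2]
    exact (hs l0 hl0' b hb).2.2.1
  · intro b hb
    have h := hs l0 hl0' b hb
    refine ⟨h.2.2.2.1, h.2.2.2.2.2.1, ?_⟩
    rw [T.symm2, T.symm1, T.symm2]
    exact h.2.2.2.2.1

end H53P
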