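import Pool.Agent.Lib.H53P.CI

/-! # H53P, combinatorics: gluing lemmas, third and fourth kind

In all of them `A ∩ B = ∅`, because `crT t₁ t₂ t₃ a a = false` (`T.ne`).  See `cj1_A` in CJ1. -/

namespace H53P

variable {V : Type*} (T : Table V)

theorem cj3_crT (a b c x : V) : ¬ T.crT a b c x x = true := by
  have h : ∀ p q : V, T.X x x p q = false := fun p q => ci_deg T (by simp)
  unfold Table.crT crTX
  rw [h, h, h]
  simp

/-- (CJ3, M) Third kind.
PROOF.  Portals `u, s` for `A`, `t, w` for `B`, `K = L ++ s :: t :: M`; the edges of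
`u :: K ++ [w]` are those of `u :: L ++ [s]`, the edge `(s, t)` and those of `t :: M ++ [w]`.
The two excursions do not cross by `ci1_sep` with the triangle `u, s, t` (`Off t B`:
`X t b u s = X b t u s = 0`, the others degenerate).  The edge `st` does not cross them by
`ci2_direct`: `X s t u a = X u a s t = 0`, `X s t s a`, `X s t t b` degenerate,
`X s t w b = X w b s t = 0`, `Clique s t`. -/
theorem cj3_C {u w s t : V} {S A B : Finset V} (hg : T.Glue u w s t S A B) {N : ℕ}
    (hA : N ≤ A.card) (hB : N ≤ B.card) (hne : A.Nonempty ∧ B.Nonempty)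
    (hs : ∀ a ∈ A, ∀ b ∈ B, T.SC u w s t a b) : T.TwoExc u w S N := by
  obtain ⟨a0, ha0⟩ := hne.1
  obtain ⟨b0, hb0⟩ := hne.2
  have hnd := hg.nodup
  simp only [List.nodup_cons, List.mem_cons, List.not_mem_nil, or_false, not_or, List.nodup_nil,
    not_false_eq_true, and_true] at hnd
  obtain ⟨⟨huw, hus, hut⟩, ⟨hws, hwt⟩, hst⟩ := hnd
  have uA : u ∉ A := fun h => hg.uS (hg.AS h)
  have uB : u ∉ B := fun h => hg.uS (hg.BS h)
  have wB : w ∉ B := fun h => hg.wS (hg.BS h)
  obtain ⟨a1, a2, a3, a4, a5, a6⟩ := hg.sixA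
  obtain ⟨b1, b2, b3, b4, b5, b6⟩ := hg.sixB
  have hAB : ∀ x ∈ A, x ∉ B := by
    intro x hx hx'
    exact cj3_crT T u s t x (hs x hx x hx').2.2.2.2.2.2
  refine ⟨u, s, t, w, A, B, hus, fun h => hwt h.symm, uA, hg.sA, hg.tB, wB, hA, hB,
    fun L M hL hM pL pM => ?_⟩
  obtain ⟨l1, l2, l3⟩ := pL
  obtain ⟨m1, m2, m3⟩ := pM
  have e0 : u :: (L ++ s :: t :: M) ++ [w] = (u :: L) ++ s :: (t :: (M ++ [w])) := by simp
  have hsep := ci1_sep T hus hst (fun h => hut h.symm) (v := u) (v' := s) (z := t) (z' := w)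
    hL hM l2 m2 ⟨uA, hg.sA, hg.tA⟩ ⟨uB, hg.sB, hg.tB⟩
    (fun a ha => ⟨ci_deg T (by simp), (hs a ha b0 hb0).1, ci_deg T (by simp)⟩)
    (fun a ha => ⟨ci_deg T (by simp), ci_deg T (by simp), by
      rw [T.symm1, ci_s34]; exact (hs a ha b0 hb0).2.1⟩)
    (ci3_off T a2 a6 (ci4_symm T a3))
    (fun b hb => ⟨by rw [T.symm1]; exact (hs a0 ha0 b hb).2.2.1, ci_deg T (by simp), ci_deg T (by simp)⟩)
    (fun b hb => ⟨(hs a0 ha0 b hb).2.2.2.1, (hs a0 ha0 b hb).2.2.2.2.2.1, by
      rw [ci_s34]; exact (hs a0 ha0 b hb).2.2.2.2.1⟩)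
    (ci3_off T b2 b6 (ci4_symm T b3))
    (fun a ha b hb => (hs a ha b hb).2.2.2.2.2.2)
  have d1 := ci2_direct T (s := s) (t := t) (v := u) (v' := s) hL l2 a6
    (fun a ha => by rw [T.symm2]; exact (hs a ha b0 hb0).1) (fun a ha => ci_deg T (by simp))
  have d2 := ci2_direct T (s := s) (t := t) (v := t) (v' := w) hM m2 b6
    (fun b hb => ci_deg T (by simp)) (fun b hb => by rw [T.symm2]; exact (hs a0 ha0 b hb).2.2.2.2.2.1)
  have p2 : T.Plane ([(s, t)] ++ edges (t :: M ++ [w])) := by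
    refine ce5_plane_append T _ _ ?_ m3 ?_
    · intro e he f hf
      rw [List.mem_singleton] at he hf
      rw [he, hf]
      exact ci_deg T (by simp)
    · intro e he f hf
      rw [List.mem_singleton] at he
      rw [he]
      exact d2 f hf
  refine ⟨L ++ s :: t :: M, ⟨?_, ?_, ?_⟩, ?_⟩
  · rw [List.nodup_append]
    refine ⟨l1, ?_, ?_⟩
    · rw [List.nodup_cons, List.nodup_cons]
      refine ⟨?_, fun h => hg.tB (m2 _ h), m1⟩
      rw [List.mem_cons, not_or]
      exact ⟨hst, fun h => hg.sB (m2 _ h)⟩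
    · intro x hx y hy hxy
      rw [← hxy] at hy
      rw [List.mem_cons, List.mem_cons] at hy
      rcases hy with rfl | rfl | hy
      · exact hg.sA (l2 _ hx)
      · exact hg.tA (l2 _ hx)
      · exact hAB x (l2 _ hx) (m2 _ hy)
  · intro x hx
    rw [List.mem_append, List.mem_cons, List.mem_cons] at hx
    rcases hx with hx | rfl | rfl | hx
    · exact hg.AS (l2 _ hx)
    · exact hg.sS
    · exact hg.tS
    · exact hg.BS (m2 _ hx)
  · rw [e0, ce2_append, ce1_cons]
    refine ce5_plane_append T _ _ l3 p2 ?_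
    intro e he f hf
    rcases List.mem_cons.1 hf with rfl | hf
    · rw [T.symm2]
      exact d1 e he
    · exact hsep e he f hf
  · simp only [List.length_append, List.length_cons, List.length_nil]
    omega

/-- (CJ4, M) Fourth kind.
PROOF.  Portals `u, s` for `A`, `s, t` for `B`, `K = L ++ s :: M ++ [t]`; the edges of
`u :: K ++ [w]` are those of `u :: L ++ [s]`, of `s :: M ++ [t]` and the edge `(t, w)`.
The two excursions do not cross by `ci1_sep` with the triangle `u, s, t`.  The edge `tw` does not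
cross them by `ci2_direct`: `X t w u a = 0`, `X t w s a = X t w a s = 0`, `X t w s b = X t w b s = 0`,
`X t w t b` degenerate, `Clique t w`. -/
theorem cj4_D {u w s t : V} {S A B : Finset V} (hg : T.Glue u w s t S A B) {N : ℕ}
    (hA : N ≤ A.card) (hB : N ≤ B.card) (hne : A.Nonempty ∧ B.Nonempty)
    (hs : ∀ a ∈ A, ∀ b ∈ B, T.SD u w s t a b) : T.TwoExc u w S N := by
  obtain ⟨a0, ha0⟩ := hne.1
  obtain ⟨b0, hb0⟩ := hne.2
  have hnd := hg.nodup
  simp only [List.nodup_cons, List.mem_cons, List.not_mem_nil, or_false, not_or, List.nodup_nil,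
    not_false_eq_true, and_true] at hnd
  obtain ⟨⟨huw, hus, hut⟩, ⟨hws, hwt⟩, hst⟩ := hnd
  have uA : u ∉ A := fun h => hg.uS (hg.AS h)
  have uB : u ∉ B := fun h => hg.uS (hg.BS h)
  obtain ⟨a1, a2, a3, a4, a5, a6⟩ := hg.sixA
  obtain ⟨b1, b2, b3, b4, b5, b6⟩ := hg.sixB
  have hAB : ∀ x ∈ A, x ∉ B := by
    intro x hx hx'
    exact cj3_crT T u s t x (hs x hx x hx').2.2.2.2.2.2.2
  refine ⟨u, s, s, t, A, B, hus, hst, uA, hg.sA, hg.sB, hg.tB, hA, hB,
    fun L M hL hM pL pM => ?_⟩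
  obtain ⟨l1, l2, l3⟩ := pL
  obtain ⟨m1, m2, m3⟩ := pM
  have e0 : u :: (L ++ s :: (M ++ [t])) ++ [w] = (u :: L) ++ s :: (M ++ t :: [w]) := by simp
  have e1 : s :: (M ++ t :: [w]) = (s :: M) ++ t :: [w] := by simp
  have hsep := ci1_sep T hus hst (fun h => hut h.symm) (v := u) (v' := s) (z := s) (z' := t)
    hL hM l2 m2 ⟨uA, hg.sA, hg.tA⟩ ⟨uB, hg.sB, hg.tB⟩
    (fun a ha => ⟨ci_deg T (by simp), (hs a ha b0 hb0).1, ci_deg T (by simp)⟩)
    (fun a ha => ⟨ci_deg T (by simp), ci_deg T (by simp), by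
      rw [T.symm1, ci_s34]; exact (hs a ha b0 hb0).2.1⟩)
    (ci3_off T a2 a6 (ci4_symm T a3))
    (fun b hb => ⟨ci_deg T (by simp), ci_deg T (by simp), by
      rw [T.symm1, ci_s34]; exact (hs a0 ha0 b hb).2.2.1⟩)
    (fun b hb => ⟨by rw [T.symm1]; exact (hs a0 ha0 b hb).2.2.2.1, ci_deg T (by simp), ci_deg T (by simp)⟩)
    (ci3_off T b2 b6 (ci4_symm T b3))
    (fun a ha b hb => (hs a ha b hb).2.2.2.2.2.2.2)
  have d1 := ci2_direct T (s := t) (t := w) (v := u) (v' := s) hL l2 (ci4_symm T a5)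
    (fun a ha => (hs a ha b0 hb0).2.2.2.2.1) (fun a ha => by
      rw [ci_s34]; exact (hs a ha b0 hb0).2.2.2.2.2.1)
  have d2 := ci2_direct T (s := t) (t := w) (v := s) (v' := t) hM m2 (ci4_symm T b5)
    (fun b hb => by rw [ci_s34]; exact (hs a0 ha0 b hb).2.2.2.2.2.2.1) (fun b hb => ci_deg T (by simp))
  have e2 : edges (t :: [w]) = [(t, w)] := rfl
  have p2 : T.Plane (edges (s :: M ++ [t]) ++ [(t, w)]) := by
    refine ce5_plane_append T _ _ m3 ?_ ?_
    · intro e he f hf
      rw [List.mem_singleton] at he hf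
      rw [he, hf]
      exact ci_deg T (by simp)
    · intro e he f hf
      rw [List.mem_singleton] at hf
      rw [hf, T.symm2]
      exact d2 e he
  refine ⟨L ++ s :: (M ++ [t]), ⟨?_, ?_, ?_⟩, ?_⟩
  · rw [List.nodup_append]
    refine ⟨l1, ?_, ?_⟩
    · rw [List.nodup_cons, List.nodup_append]
      refine ⟨?_, m1, List.nodup_singleton t, ?_⟩
      · rw [List.mem_append, List.mem_singleton, not_or]
        exact ⟨fun h => hg.sB (m2 _ h), hst⟩
      · intro x hx y hy hxy
        rw [List.mem_singleton] at hy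
        rw [hxy, hy] at hx
        exact hg.tB (m2 _ hx)
    · intro x hx y hy hxy
      rw [← hxy] at hy
      rw [List.mem_cons, List.mem_append, List.mem_singleton] at hy
      rcases hy with rfl | hy | rfl
      · exact hg.sA (l2 _ hx)
      · exact hAB x (l2 _ hx) (m2 _ hy)
      · exact hg.tA (l2 _ hx)
  · intro x hx
    rw [List.mem_append, List.mem_cons, List.mem_append, List.mem_singleton] at hx
    rcases hx with hx | rfl | hx | rfl
    · exact hg.AS (l2 _ hx)
    · exact hg.sS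
    · exact hg.BS (m2 _ hx)
    · exact hg.tS
  · rw [e0, ce2_append, e1, ce2_append (s :: M), e2]
    refine ce5_plane_append T _ _ l3 p2 ?_
    intro e he f hf
    rcases List.mem_append.1 hf with hf | hf
    · exact hsep e he f hf
    · rw [List.mem_singleton] at hf
      rw [hf, T.symm2]
      exact d1 e he
  · simp only [List.length_append, List.length_cons, List.length_nil]
    omega

end H53P
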