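import Pool.Agent.Lib.H53P.CD5
import Pool.Agent.Lib.H53P.CI

/-! # H53P, combinatorics: cliques without schemes, first facts -/

namespace H53P

variable {V : Type*} (T : Table V)

/-- no scheme on `u, w` and four elements of `W` -/
def Table.NoSch (u w : V) (W : Finset V) : Prop :=
  ∀ s ∈ W, ∀ t ∈ W, ∀ a ∈ W, ∀ b ∈ W, [s, t, a, b].Nodup →
    ¬ T.SA u w s a b ∧ ¬ T.SB u w s t a b ∧ ¬ T.SC u w s t a b ∧ ¬ T.SD u w s t a b

/-- twins -/
def Table.Twins (u w : V) (W : Finset V) : Prop :=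
  ∀ x ∈ W, ∀ y ∈ W, ∀ z ∈ W, x ≠ y → x ≠ z → y ≠ z → T.X u x y z = T.X w x y z

/-- (CK1, S) PROOF.  `cd5_twin`; a fourth element `t ∈ W` exists as `W.card ≥ 4`. -/
theorem ck1_twins [DecidableEq V] {u w : V} (huw : u ≠ w) {W : Finset V} (hu : u ∉ W) (hw : w ∉ W)
    (hc : T.Clique u w W) (h4 : 4 ≤ W.card) (hn : T.NoSch u w W) : T.Twins u w W := by
  intro x hx y hy z hz hxy hxz hyz
  have hne : ∀ {x}, x ∈ W → x ≠ u := fun hx e => hu (e ▸ hx)
  have hnw : ∀ {x}, x ∈ W → x ≠ w := fun hx e => hw (e ▸ hx)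
  -- a fourth element
  obtain ⟨t, htW, ht⟩ : ∃ t ∈ W, t ∉ ({x, y, z} : Finset V) := by
    by_contra hcon
    push Not at hcon
    have h3 : ({x, y, z} : Finset V).card ≤ 3 := Finset.card_le_three
    have := Finset.card_le_card (show W ⊆ {x, y, z} from fun t ht => hcon t ht)
    omega
  simp only [Finset.mem_insert, Finset.mem_singleton, not_or] at ht
  obtain ⟨htx, hty, htz⟩ := ht
  refine cd5_twin T huw ?_ (hc x hx y hy hxy) (hc x hx z hz hxz) (hc y hy z hz hyz) ?_
  · simp only [List.nodup_cons, List.mem_cons, List.not_mem_nil, or_false, not_or, List.nodup_nil,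
      and_true, not_false_eq_true]
    exact ⟨⟨huw, (hne hx).symm, (hne hy).symm, (hne hz).symm⟩, ⟨(hnw hx).symm, (hnw hy).symm, (hnw hz).symm⟩,
      ⟨hxy, hxz⟩, hyz⟩
  · intro s a b hs ha hb hsa hsb hab
    have hm : ∀ {r}, r ∈ [x, y, z] → r ∈ W ∧ r ≠ t := by
      intro r hr
      simp only [List.mem_cons, List.not_mem_nil, or_false] at hr
      rcases hr with rfl | rfl | rfl
      · exact ⟨hx, Ne.symm htx⟩
      · exact ⟨hy, Ne.symm hty⟩
      · exact ⟨hz, Ne.symm htz⟩
    refine (hn s (hm hs).1 t htW a (hm ha).1 b (hm hb).1 ?_).1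
    simp only [List.nodup_cons, List.mem_cons, List.not_mem_nil, or_false, not_or, List.nodup_nil,
      and_true, not_false_eq_true]
    exact ⟨⟨(hm hs).2, hsa, hsb⟩, ⟨Ne.symm (hm ha).2, Ne.symm (hm hb).2⟩, hab⟩

/-- (CK5, S/M) (pure) a finite set sorted by an injective real function -/
theorem ck5_sort [DecidableEq V] (W : Finset V) (ρ : V → ℝ)
    (h : ∀ x ∈ W, ∀ y ∈ W, ρ x = ρ y → x = y) :
    ∃ l : List V, l.length = W.card ∧ (∀ x, x ∈ l ↔ x ∈ W) ∧ l.Pairwise fun a b => ρ a < ρ b := by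
  induction hn : W.card generalizing W with
  | zero =>
    refine ⟨[], rfl, fun x => ?_, List.Pairwise.nil⟩
    rw [Finset.card_eq_zero.1 hn]
    simp
  | succ n ih =>
    have hne : W.Nonempty := Finset.card_pos.1 (by omega)
    obtain ⟨m, hm, hmin⟩ := Finset.exists_min_image W ρ hne
    obtain ⟨l, h1, h2, h3⟩ := ih (W.erase m) (fun x hx y hy hxy =>
      h x (Finset.mem_of_mem_erase hx) y (Finset.mem_of_mem_erase hy) hxy) (by
      rw [Finset.card_erase_of_mem hm, hn]
      rfl)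
    refine ⟨m :: l, by rw [List.length_cons, h1], fun x => ?_, List.Pairwise.cons (fun a ha => ?_) h3⟩
    · rw [List.mem_cons, h2, Finset.mem_erase]
      constructor
      · rintro (rfl | ⟨-, hx⟩)
        · exact hm
        · exact hx
      · intro hx
        by_cases hxm : x = m
        · exact Or.inl hxm
        · exact Or.inr ⟨hxm, hx⟩
    · rw [h2, Finset.mem_erase] at ha
      refine lt_of_le_of_ne (hmin a ha.2) fun he => ha.1 (h a ha.2 m hm he.symm)

end H53P
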