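import Pool.Agent.Lib.H53P.CK1

/-! # H53P, combinatorics: separating triangles -/

namespace H53P

variable {V : Type*} (T : Table V)

theorem ck2_s34 (a b c d : V) : T.X a b c d = T.X a b d c := by
  rw [T.symm2 a b c d, T.symm1 c d a b, T.symm2 d c a b]

/-- the triangle with two vertices exchanged -/
theorem ck2_crT_tri (u p q a b : V) : T.crT u q p a b = T.crT u p q a b := by
  unfold Table.crT crTX
  rw [ck2_s34 T a b u q, ck2_s34 T a b q p, ck2_s34 T a b p u]
  cases T.X a b q u <;> cases T.X a b p q <;> cases T.X a b u p <;> rfl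

/-- the two points exchanged -/
theorem ck2_crT_pts (u p q a b : V) : T.crT u p q b a = T.crT u p q a b := by
  unfold Table.crT crTX
  rw [T.symm1 b a u p, T.symm1 b a p q, T.symm1 b a q u]

/-- at most one of the two crossings of `{x, p, u, q}` with `x p`, `x q` -/
theorem ck2_not_both {x u p q : V} (h : T.X x p u q = true) : T.X x q u p = false := by
  rw [ck2_s34 T x p u q] at h
  have := T.one _ _ _ _ h
  rwa [ck2_s34 T x q u p]

/-- if `ux` crosses `pq` the other pairs do not cross -/
theorem ck2_cross {x u p q : V} (h : T.X u x p q = true) : T.X x p u q = false ∧ T.X x q u p = false := by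
  rw [T.symm1] at h
  refine ⟨T.one _ _ _ _ h, ?_⟩
  rw [ck2_s34 T x u p q] at h
  exact T.one _ _ _ _ h

/-- the values with `w` in the place of `u` -/
theorem ck2_tw {u w : V} {W : Finset V} (ht : T.Twins u w W) {x y z : V} (hx : x ∈ W) (hy : y ∈ W) (hz : z ∈ W)
    (h1 : x ≠ y) (h2 : x ≠ z) (h3 : y ≠ z) : T.X w x y z = T.X u x y z ∧ T.X y z w x = T.X y z u x ∧
    T.X x w y z = T.X x u y z := by
  have h := ht x hx y hy z hz h1 h2 h3
  refine ⟨h.symm, ?_, ?_⟩
  · rw [T.symm2 y z w x, T.symm2 y z u x, h]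
  · rw [T.symm1 x w, T.symm1 x u, h]

/-- the crossings with the triangle, `w` in the place of `u` -/
theorem ck2_crT_tw {u w : V} {W : Finset V} (ht : T.Twins u w W) {s t a b : V} (hs : s ∈ W) (htt : t ∈ W)
    (ha : a ∈ W) (hb : b ∈ W) (hd : [s, t, a, b].Nodup) : T.crT w s t a b = T.crT u s t a b := by
  simp only [List.nodup_cons, List.mem_cons, List.not_mem_nil, or_false, not_or, List.nodup_nil,
    and_true, not_false_eq_true] at hd
  obtain ⟨⟨d1, d2, d3⟩, ⟨d4, d5⟩, d6⟩ := hd
  unfold Table.crT crTX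
  rw [(ck2_tw T ht hs ha hb d2 d3 d6).2.1, ck2_s34 T a b t w, (ck2_tw T ht htt ha hb d4 d5 d6).2.1,
    ← ck2_s34 T a b t u]

/-- case (1) -/
theorem ck2_one {u w : V} {W : Finset V} (hc : T.Clique u w W) (ht : T.Twins u w W) (hn : T.NoSch u w W)
    (hn' : T.NoSch w u W) {s t a b : V} (hs : s ∈ W) (htt : t ∈ W) (ha : a ∈ W) (hb : b ∈ W)
    (hd : [s, t, a, b].Nodup) (h : T.crT u s t a b = true) (k1 : T.X u a s t = false)
    (k2 : T.X a s u t = false) (k3 : T.X b s u t = false) (k4 : T.X b t u s = false) : False := by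
  have hd' := hd
  simp only [List.nodup_cons, List.mem_cons, List.not_mem_nil, or_false, not_or, List.nodup_nil,
    and_true, not_false_eq_true] at hd'
  obtain ⟨⟨d1, d2, d3⟩, ⟨d4, d5⟩, d6⟩ := hd'
  have hadj := hc a ha t htt (Ne.symm d4)
  rw [(cc1_adj T u w a t).1] at hadj
  have m1 : T.X u t a s = false := by rw [T.symm2]; exact k2
  have m2 : T.X u t b s = false := by rw [T.symm2]; exact k3
  by_cases hut : T.X u a w t = false
  · refine (hn s hs t htt a ha b hb hd).2.2.2 ⟨k1, k2, k3, k4, ?_, ?_, ?_, h⟩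
    · rw [T.symm1, T.symm2]
      exact hut
    · rw [T.symm1, (ck2_tw T ht htt ha hs d4 (Ne.symm d1) (Ne.symm d2)).1]
      exact m1
    · rw [T.symm1, (ck2_tw T ht htt hb hs d5 (Ne.symm d1) (Ne.symm d3)).1]
      exact m2
  · rw [Bool.not_eq_false] at hut
    rw [hut, Bool.true_xor, Bool.not_eq_true'] at hadj
    refine (hn' s hs t htt a ha b hb hd).2.2.2 ⟨?_, ?_, ?_, ?_, ?_, ?_, ?_, ?_⟩
    · rw [(ck2_tw T ht ha hs htt (Ne.symm d2) (Ne.symm d4) d1).1]
      exact k1
    · rw [(ck2_tw T ht htt ha hs d4 (Ne.symm d1) (Ne.symm d2)).2.1]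
      exact k2
    · rw [(ck2_tw T ht htt hb hs d5 (Ne.symm d1) (Ne.symm d3)).2.1]
      exact k3
    · rw [(ck2_tw T ht hs hb htt d3 d1 (Ne.symm d5)).2.1]
      exact k4
    · rw [T.symm1]
      exact hadj
    · rw [T.symm1]
      exact m1
    · rw [T.symm1]
      exact m2
    · rw [ck2_crT_tw T ht hs htt ha hb hd]
      exact h

/-- case (3) -/
theorem ck2_three {u w : V} {W : Finset V} (hc : T.Clique u w W) (ht : T.Twins u w W) (hn : T.NoSch u w W)
    (hn' : T.NoSch w u W) {s t a b : V} (hs : s ∈ W) (htt : t ∈ W) (ha : a ∈ W) (hb : b ∈ W)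
    (hd : [s, t, a, b].Nodup) (h : T.crT u s t a b = true) (k1 : T.X u a s t = false)
    (k1' : T.X u b s t = false) (k2 : T.X a s u t = false) (k3 : T.X b s u t = false ∨ T.X b t u s = false)
    (k4 : T.X w b u s = T.X w b u t) : False := by
  have hd' := hd
  simp only [List.nodup_cons, List.mem_cons, List.not_mem_nil, or_false, not_or, List.nodup_nil,
    and_true, not_false_eq_true] at hd'
  obtain ⟨⟨d1, d2, d3⟩, ⟨d4, d5⟩, d6⟩ := hd'
  by_cases hβ : T.X w b u s = false
  · have hβ' : T.X w b u t = false := by rw [← k4]; exact hβ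
    have k5 : T.X w b s t = false := by
      rw [(ck2_tw T ht hb hs htt (Ne.symm d3) (Ne.symm d5) d1).1]
      exact k1'
    rcases k3 with k3 | k3
    · exact (hn s hs t htt a ha b hb hd).2.1 ⟨k1, k2, k3, hβ, hβ', k5, h⟩
    · exact (hn s hs t htt a ha b hb hd).2.2.1 ⟨k1, k2, k3, hβ, hβ', k5, h⟩
  · rw [Bool.not_eq_false] at hβ
    have hβ' : T.X w b u t = true := by rw [← k4]; exact hβ
    have e1 : T.X u b w s = false := by
      have := hc b hb s hs (Ne.symm d3)
      rw [(cc1_adj T u w b s).1, T.symm2 u s w b, hβ] at this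
      cases h1 : T.X u b w s
      · rfl
      · rw [h1] at this
        exact absurd this (by decide)
    have e2 : T.X u b w t = false := by
      have := hc b hb t htt (Ne.symm d5)
      rw [(cc1_adj T u w b t).1, T.symm2 u t w b, hβ'] at this
      cases h1 : T.X u b w t
      · rfl
      · rw [h1] at this
        exact absurd this (by decide)
    have f1 : T.X w a s t = false := by
      rw [(ck2_tw T ht ha hs htt (Ne.symm d2) (Ne.symm d4) d1).1]
      exact k1
    have f2 : T.X a s w t = false := by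
      rw [(ck2_tw T ht htt ha hs d4 (Ne.symm d1) (Ne.symm d2)).2.1]
      exact k2
    have f3 : T.crT w s t a b = true := by
      rw [ck2_crT_tw T ht hs htt ha hb hd]
      exact h
    rcases k3 with k3 | k3
    · refine (hn' s hs t htt a ha b hb hd).2.1 ⟨f1, f2, ?_, e1, e2, k1', f3⟩
      rw [(ck2_tw T ht htt hb hs d5 (Ne.symm d1) (Ne.symm d3)).2.1]
      exact k3
    · refine (hn' s hs t htt a ha b hb hd).2.2.1 ⟨f1, f2, ?_, e1, e2, k1', f3⟩
      rw [(ck2_tw T ht hs hb htt d3 d1 (Ne.symm d5)).2.1]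
      exact k3

/-- case (1) for both orders of `p, q` -/
theorem ck2_mix {u w : V} {W : Finset V} (hc : T.Clique u w W) (ht : T.Twins u w W) (hn : T.NoSch u w W)
    (hn' : T.NoSch w u W) {p q a b : V} (hp : p ∈ W) (hq : q ∈ W) (ha : a ∈ W) (hb : b ∈ W)
    (hd : [p, q, a, b].Nodup) (h : T.crT u p q a b = true) (k1 : T.X u a p q = false)
    (k2 : T.X u b p q = true) : False := by
  obtain ⟨k3, k4⟩ := ck2_cross T k2
  have hd' : [q, p, a, b].Nodup := by
    simp only [List.nodup_cons, List.mem_cons, List.not_mem_nil, or_false, not_or, List.nodup_nil,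
      and_true, not_false_eq_true] at hd ⊢
    obtain ⟨⟨d1, d2, d3⟩, ⟨d4, d5⟩, d6⟩ := hd
    exact ⟨⟨Ne.symm d1, d4, d5⟩, ⟨d2, d3⟩, d6⟩
  by_cases h1 : T.X a p u q = false
  · exact ck2_one T hc ht hn hn' hp hq ha hb hd h k1 h1 k3 k4
  · rw [Bool.not_eq_false] at h1
    refine ck2_one T hc ht hn hn' hq hp ha hb hd' ?_ ?_ (ck2_not_both T h1) k4 k3
    · rw [ck2_crT_tri]
      exact h
    · rw [ck2_s34]
      exact k1

/-- case (3) for both orders of `p, q` -/
theorem ck2_same {u w : V} {W : Finset V} (hc : T.Clique u w W) (ht : T.Twins u w W) (hn : T.NoSch u w W)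
    (hn' : T.NoSch w u W) {p q a b : V} (hp : p ∈ W) (hq : q ∈ W) (ha : a ∈ W) (hb : b ∈ W)
    (hd : [p, q, a, b].Nodup) (h : T.crT u p q a b = true) (k1 : T.X u a p q = false)
    (k2 : T.X u b p q = false) (k4 : T.X w b u p = T.X w b u q) : False := by
  have hd' : [q, p, a, b].Nodup := by
    simp only [List.nodup_cons, List.mem_cons, List.not_mem_nil, or_false, not_or, List.nodup_nil,
      and_true, not_false_eq_true] at hd ⊢
    obtain ⟨⟨d1, d2, d3⟩, ⟨d4, d5⟩, d6⟩ := hd
    exact ⟨⟨Ne.symm d1, d4, d5⟩, ⟨d2, d3⟩, d6⟩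
  have hor : T.X b p u q = false ∨ T.X b q u p = false := by
    by_cases h1 : T.X b p u q = false
    · exact Or.inl h1
    · rw [Bool.not_eq_false] at h1
      exact Or.inr (ck2_not_both T h1)
  by_cases h1 : T.X a p u q = false
  · exact ck2_three T hc ht hn hn' hp hq ha hb hd h k1 k2 h1 hor k4
  · rw [Bool.not_eq_false] at h1
    refine ck2_three T hc ht hn hn' hq hp ha hb hd' ?_ ?_ ?_ (ck2_not_both T h1) hor.symm k4.symm
    · rw [ck2_crT_tri]
      exact h
    · rw [ck2_s34]
      exact k1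
    · rw [ck2_s34]
      exact k2

/-- (CK2, M) If the triangle `u p q` separates `a` and `b` then `ua` and `ub` cross `pq`.
PROOF.  Write `κ x = X u x p q`.
(1) Suppose `κ a = 0`, `κ b = 1`.  By `one`, `X b p u q = X b q u p = 0`, and not both `X a p u q`,
`X a q u p` are `1`: let `{s, t} = {p, q}` with `X a s u t = 0`.  Exactly one of `X u a w t`,
`X u t w a` is `1` (`cc1_adj`, clique).  If `X u a w t = 0` then `SD u w s t a b` holds:
`X u a s t = κ a = 0`; `X a s u t = 0`; `X b s u t = X b t u s = 0`; `X t w u a = X u a w t = 0`;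
`X t w a s = X w t a s = X u t a s = X a s u t = 0` (twins); `X t w b s = X u t b s = X b s u t = 0`;
`crT u s t a b = crT u p q a b = 1` (symmetric in `p, q`).  If `X u t w a = 0` then `SD w u s t a b`
holds: all values with `w` in the place of `u` and conversely agree by the twin property
(`X w a s t = X u a s t`, `X a s w t = X w t a s = X u t a s`, ..., `X t u w a = X u t w a = 0`,
`X t u a s = X a s u t = 0`, `X t u b s = X b s u t = 0`, `crT w s t a b = crT u s t a b`).
(2) `κ a = 1`, `κ b = 0`: exchange `a` and `b` (`crT` is symmetric in `a, b`).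
(3) `κ a = κ b = 0`.  `T.tri` for the triangle `u, p, q` and `a, b, w`:
`crT u p q b w ^^ crT u p q w a = 1`, and `crT u p q x w = X w x u p ^^ X w x u q ^^ X w x p q` with
`X w x p q = X u x p q = 0` for `x = a, b`.  So exactly one `x ∈ {a, b}` has
`X w x u p = X w x u q`; by symmetry let it be `b` and `β` the common value.  As before there are
`s ∈ {p, q}` with `X a s u t = 0` and `s' ∈ {p, q}` with `X b s' u t' = 0`.  If `β = 0`: if `s = s'`
then `SB u w s t a b`, otherwise (`s' = t`) `SC u w s t a b`.  If `β = 1`: exactly one of `X u b w p`,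
`X u p w b = X w b u p` is `1`, so `X u b w p = 0`, in the same way `X u b w q = 0`, and
`SB w u s t a b` or `SC w u s t a b` holds (twins). -/
theorem ck2_sep {u w : V} (huw : u ≠ w) {W : Finset V} (hu : u ∉ W) (hw : w ∉ W)
    (hc : T.Clique u w W) (ht : T.Twins u w W) (hn : T.NoSch u w W) (hn' : T.NoSch w u W)
    {p q a b : V} (hp : p ∈ W) (hq : q ∈ W) (ha : a ∈ W) (hb : b ∈ W)
    (hd : [p, q, a, b].Nodup) (h : T.crT u p q a b = true) :
    T.X u a p q = true ∧ T.X u b p q = true := by
  have hd' := hd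
  simp only [List.nodup_cons, List.mem_cons, List.not_mem_nil, or_false, not_or, List.nodup_nil,
    and_true, not_false_eq_true] at hd'
  obtain ⟨⟨d1, d2, d3⟩, ⟨d4, d5⟩, d6⟩ := hd'
  have hdba : [p, q, b, a].Nodup := by
    simp only [List.nodup_cons, List.mem_cons, List.not_mem_nil, or_false, not_or, List.nodup_nil,
      and_true, not_false_eq_true]
    exact ⟨⟨d1, d3, d2⟩, ⟨d5, d4⟩, Ne.symm d6⟩
  have hba : T.crT u p q b a = true := by
    rw [ck2_crT_pts]
    exact h
  by_cases ka : T.X u a p q = true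
  · by_cases kb : T.X u b p q = true
    · exact ⟨ka, kb⟩
    · rw [Bool.not_eq_true] at kb
      exact (ck2_mix T hc ht hn hn' hp hq hb ha hdba hba kb ka).elim
  · rw [Bool.not_eq_true] at ka
    by_cases kb : T.X u b p q = true
    · exact (ck2_mix T hc ht hn hn' hp hq ha hb hd h ka kb).elim
    · rw [Bool.not_eq_true] at kb
      exfalso
      have hne : ∀ {x}, x ∈ W → x ≠ u := fun hx e => hu (e ▸ hx)
      have hnw : ∀ {x}, x ∈ W → x ≠ w := fun hx e => hw (e ▸ hx)
      have htri := T.tri u p q (hne hp).symm d1 (hne hq) a b w (hne ha) (Ne.symm d2) (Ne.symm d4)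
        (hne hb) (Ne.symm d3) (Ne.symm d5) (Ne.symm huw) (hnw hp).symm (hnw hq).symm
      change ((T.crT u p q a b ^^ T.crT u p q b w) ^^ T.crT u p q w a) = false at htri
      have ea : T.crT u p q w a = (T.X w a u p ^^ T.X w a u q) := by
        unfold Table.crT crTX
        rw [(ck2_tw T ht ha hp hq (Ne.symm d2) (Ne.symm d4) d1).1, ka, ck2_s34 T w a q u, Bool.xor_false]
      have eb : T.crT u p q b w = (T.X w b u p ^^ T.X w b u q) := by
        rw [ck2_crT_pts T u p q w b]
        unfold Table.crT crTX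
        rw [(ck2_tw T ht hb hp hq (Ne.symm d3) (Ne.symm d5) d1).1, kb, ck2_s34 T w b q u, Bool.xor_false]
      rw [h, ea, eb] at htri
      by_cases h1 : T.X w b u p = T.X w b u q
      · exact ck2_same T hc ht hn hn' hp hq ha hb hd h ka kb h1
      · refine ck2_same T hc ht hn hn' hp hq hb ha hdba hba kb ka ?_
        revert h1 htri
        cases T.X w b u p <;> cases T.X w b u q <;> cases T.X w a u p <;> cases T.X w a u q <;> simp

end H53P
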