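import Pool.Agent.Lib.H53P.CK2
import Pool.Agent.Lib.H53P.CF

/-! # H53P, combinatorics: short and long consecutive pairs -/

namespace H53P

variable {V : Type*} (T : Table V)

theorem ck3_alt (u p q a b : V) : T.alt u p q a b = ((T.crT u p q a b ^^ T.X u a p q) ^^ T.X u b p q) := by
  unfold Table.alt altX Table.crT crTX
  rw [T.symm2 a b u p, T.symm2 a b p q, T.symm2 a b q u, T.symm1 q u a b, T.symm2 u a p q, T.symm2 u b p q]
  cases T.X u p a b <;> cases T.X u q a b <;> cases T.X p q u a <;> cases T.X p q u b <;> cases T.X p q a b <;> rfl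

theorem ck3_nd {p q a b : V} (h1 : p ≠ q) (h2 : p ≠ a) (h3 : p ≠ b) (h4 : q ≠ a) (h5 : q ≠ b) (h6 : a ≠ b) :
    [p, q, a, b].Nodup := by
  simp only [List.nodup_cons, List.mem_cons, List.not_mem_nil, or_false, not_or, List.nodup_nil,
    and_true, not_false_eq_true]
  exact ⟨⟨h1, h2, h3⟩, ⟨h4, h5⟩, h6⟩

theorem ck3_btw {a b c : ℝ} (hab : a < b) (h : ¬ (a < c ∧ c < b)) : btw a b c = false := by
  unfold btw
  rw [decide_eq_false h, decide_eq_false (fun h' => absurd (h'.1.trans h'.2) (not_lt.2 hab.le))]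
  rfl

/-- (CK3, M) Short and long consecutive pairs.
PROOF.  (`p < q` consecutive in `W` for `ρ`.)  For `a, b ∈ W \ {p, q}`: by definition
`alt u p q a b = crT u p q a b ^^ X u a p q ^^ X u b p q`, and `alt u p q a b = 0` by `hρ.rot`, since
neither `ρ a` nor `ρ b` is between `ρ p` and `ρ q`.  If `X u a p q ≠ X u b p q` then
`crT u p q a b = 1` and `ck2_sep` gives `X u a p q = X u b p q = 1`, a contradiction. -/
theorem ck3_const {u w : V} (huw : u ≠ w) {W : Finset V} (hu : u ∉ W) (hw : w ∉ W)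
    (hc : T.Clique u w W) (ht : T.Twins u w W) (hn : T.NoSch u w W) (hn' : T.NoSch w u W)
    {ρ : V → ℝ} (hρ : T.Rot u w ρ) {p q : V} (hp : p ∈ W) (hq : q ∈ W) (hpq : ρ p < ρ q)
    (hcon : ∀ x ∈ W, ¬ (ρ p < ρ x ∧ ρ x < ρ q)) :
    (∀ x ∈ W, x ≠ p → x ≠ q → T.X u x p q = false) ∨
    (∀ x ∈ W, x ≠ p → x ≠ q → T.X u x p q = true) := by
  have neu : ∀ {x : V}, x ∈ W → x ≠ u := by
    rintro x h rfl
    exact hu h
  have hpq' : p ≠ q := by
    rintro rfl
    exact lt_irrefl _ hpq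
  have key : ∀ a ∈ W, a ≠ p → a ≠ q → ∀ b ∈ W, b ≠ p → b ≠ q → T.X u a p q = T.X u b p q := by
    intro a ha hap haq b hb hbp hbq
    by_cases hab : a = b
    · rw [hab]
    have h1 := hρ.rot p q a b (neu hp) (neu hq) (neu ha) (neu hb) hpq' hap.symm hbp.symm haq.symm hbq.symm hab
    rw [ck3_btw hpq (hcon a ha), ck3_btw hpq (hcon b hb), ck3_alt] at h1
    cases hcr : T.crT u p q a b with
    | true =>
      obtain ⟨h2, h3⟩ := ck2_sep T huw hu hw hc ht hn hn' hp hq ha hb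
        (ck3_nd hpq' hap.symm hbp.symm haq.symm hbq.symm hab) hcr
      rw [h2, h3]
    | false =>
      rw [hcr] at h1
      revert h1
      cases T.X u a p q <;> cases T.X u b p q <;> decide
  by_cases hex : ∃ x ∈ W, x ≠ p ∧ x ≠ q ∧ T.X u x p q = true
  · obtain ⟨x, hx, hxp, hxq, h1⟩ := hex
    right
    intro y hy hyp hyq
    rw [← h1]
    exact key y hy hyp hyq x hx hxp hxq
  · left
    intro y hy hyp hyq
    cases h1 : T.X u y p q with
    | true => exact absurd ⟨y, hy, hyp, hyq, h1⟩ hex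
    | false => rfl

/-- (CK4, M) At most one consecutive pair is long.
PROOF.  `p < p'` and `q < q'` consecutive, `ρ p < ρ q`, both long.  Then `ρ p' ≤ ρ q`.  If `p' = q`:
`X u q' p p' = 1` and `X u p q q' = X u p p' q' = 1`, contradicting `one` (on `u, p, p', q'`).
If `ρ p' < ρ q`: for the pair `p, q` and `a = p'`, `b = q'`: `X u q p p' = 1`, so `X u p' p q = 0` by
`one`; `X u p q q' = 1`, so `X u q' p q = 0`.  `alt u p q p' q' = 1` by `hρ.rot` (`p'` is between `p`
and `q`, `q'` is not), so `crT u p q p' q' = 1 ^^ 0 ^^ 0 = 1`, and `ck2_sep` gives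
`X u p' p q = 1`, a contradiction. -/
theorem ck4_unique {u w : V} (huw : u ≠ w) {W : Finset V} (hu : u ∉ W) (hw : w ∉ W)
    (hc : T.Clique u w W) (ht : T.Twins u w W) (hn : T.NoSch u w W) (hn' : T.NoSch w u W)
    {ρ : V → ℝ} (hρ : T.Rot u w ρ) {p p' q q' : V} (hp : p ∈ W) (hp' : p' ∈ W) (hq : q ∈ W)
    (hq' : q' ∈ W) (h1 : ρ p < ρ p') (h2 : ρ q < ρ q') (h3 : ρ p < ρ q)
    (c1 : ∀ x ∈ W, ¬ (ρ p < ρ x ∧ ρ x < ρ p')) (c2 : ∀ x ∈ W, ¬ (ρ q < ρ x ∧ ρ x < ρ q'))
    (l1 : ∀ x ∈ W, x ≠ p → x ≠ p' → T.X u x p p' = true)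
    (l2 : ∀ x ∈ W, x ≠ q → x ≠ q' → T.X u x q q' = true) : False := by
  have ne : ∀ {x y : V}, ρ x < ρ y → x ≠ y := by
    rintro x y h rfl
    exact lt_irrefl _ h
  have neu : ∀ {x : V}, x ∈ W → x ≠ u := by
    rintro x h rfl
    exact hu h
  have hle : ρ p' ≤ ρ q := by
    by_contra h
    exact c1 q hq ⟨h3, not_le.1 h⟩
  have e1 : T.X u p q q' = true := l2 p hp (ne h3) (ne (h3.trans h2))
  have e1' : T.X u p q' q = true := by rw [← ck2_s34]; exact e1
  rcases hle.eq_or_lt with h4 | h4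
  · have h5 : p' = q := hρ.inj _ _ (neu hp') (neu hq) h4
    subst h5
    have e2 := l1 q' hq' (ne (h3.trans h2)).symm (ne h2).symm
    have e3 := T.one _ _ _ _ e2
    rw [e1'] at e3
    exact Bool.noConfusion e3
  · have e2 : T.X u q p p' = true := l1 q hq (ne h3).symm (ne h4).symm
    have e2' : T.X u q p' p = true := by rw [← ck2_s34]; exact e2
    have e3 : T.X u p' q p = false := T.one _ _ _ _ e2'
    have e4 : T.X u q' p q = false := T.one _ _ _ _ e1'
    have e5 : T.X u p' p q = false := by rw [← ck2_s34]; exact e3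
    have hpq' := h3.trans h2
    have hp'q' := h4.trans h2
    have h6 := hρ.rot p q p' q' (neu hp) (neu hq) (neu hp') (neu hq') (ne h3) (ne h1) (ne hpq') (ne h4).symm (ne h2)
      (ne hp'q')
    have b1 : btw (ρ p) (ρ q) (ρ p') = true := by
      unfold btw
      rw [decide_eq_true ⟨h1, h4⟩, Bool.true_or]
    rw [b1, ck3_btw h3 (fun h => absurd h.2 (not_lt.2 h2.le)), ck3_alt, e5, e4] at h6
    have h7 : T.crT u p q p' q' = true := by
      revert h6
      cases T.crT u p q p' q' <;> decide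
    have h8 := (ck2_sep T huw hu hw hc ht hn hn' hp hq hp' hq'
      (ck3_nd (ne h3) (ne h1) (ne hpq') (ne h4).symm (ne h2) (ne hp'q')) h7).1
    rw [e5] at h8
    exact Bool.noConfusion h8

end H53P
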