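import Pool.Agent.Lib.H53P.CK3
import Pool.Agent.Lib.H53P.CE7

/-! # H53P, combinatorics: cliques without schemes are fans -/

namespace H53P

variable {V : Type*} (T : Table V)

theorem ck6_aux_edges_getElem (l : List V) (e : V × V) (he : e ∈ edges l) :
    ∃ (i : ℕ) (h : i + 1 < l.length), e = (l[i]'(by omega), l[i+1]) := by
  unfold edges at he
  obtain ⟨i, hi, rfl⟩ := List.mem_iff_getElem.mp he
  have h2 : i + 1 < l.length := by
    simp only [List.length_zip, List.length_tail] at hi
    omega
  refine ⟨i, h2, ?_⟩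
  simp

theorem ck6_aux_deg (a b c d : V) (h : a = c ∨ a = d ∨ b = c ∨ b = d) : T.X a b c d = false := by
  by_contra hne
  have h1 : T.X a b c d = true := by
    cases hX : T.X a b c d
    · exact absurd hX hne
    · rfl
  obtain ⟨_, _, h3, h4, h5, h6⟩ := T.ne a b c d h1
  rcases h with h | h | h | h
  · exact h3 h
  · exact h4 h
  · exact h5 h
  · exact h6 h

/-- (CK6, M) The fan.
PROOF.  Sort `W` by `ρ` (`ck5_sort`): `l = y₁ < ... < y_m`, `m ≥ 2k`.  By `ck3_const` every consecutive
pair is short or long, by `ck4_unique` at most one is long.  Cutting `l` at the long pair (if there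
is one) leaves a block `l'` of consecutive elements with at least `m / 2 ≥ k` elements all of whose
consecutive pairs are short.  Fan: `X u x p q = 0` for every edge `(p, q)` of `l'` and `x ∈ l'`
(short, or degenerate).  Two different edges `(p, q)`, `(p', q')` of `l'`: adjacent or disjoint; if
disjoint, `alt u p q p' q' = 0` (consecutive pairs), so
`crT u p q p' q' = X u p' p q ^^ X u q' p q = 0`, i.e. `X p' q' u p ^^ X p' q' p q ^^ X p' q' q u = 0`
where the outer terms are `0` since `(p', q')` is short; so `X p q p' q' = 0`.  `ce7_fan` with the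
first `k` elements (or all) of `l'`, `ce10_mono`. -/
theorem ck6_fan [DecidableEq V] {u w : V} (huw : u ≠ w) {W : Finset V} (hu : u ∉ W) (hw : w ∉ W)
    (hc : T.Clique u w W) (hn : T.NoSch u w W) (hn' : T.NoSch w u W) {k : ℕ} (hk : 3 ≤ k)
    (hW : 2 * k ≤ W.card) : T.HasCycle k := by
  obtain ⟨ρ, σ, hmin, hinj, -, hrot, -⟩ := cc3_perm T huw
  have hρ : T.Rot u w ρ := ⟨hmin, hinj, hrot⟩
  have hneu : ∀ x ∈ W, x ≠ u := fun x hx h => hu (h ▸ hx)
  have ht : T.Twins u w W := ck1_twins T huw hu hw hc (by omega) hn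
  obtain ⟨l, hlen, hmem, hsort⟩ := ck5_sort W ρ
    (fun x hx y hy h => hinj x y (hneu x hx) (hneu y hy) h)
  have hmono : ∀ i j (hi : i < l.length) (hj : j < l.length), i < j → ρ l[i] < ρ l[j] := by
    intro i j hi hj hij
    exact List.pairwise_iff_getElem.mp hsort i j hi hj hij
  have hlt : ∀ i j (hi : i < l.length) (hj : j < l.length), ρ l[i] < ρ l[j] → i < j := by
    intro i j hi hj h
    by_contra hcon
    rcases Nat.lt_or_ge j i with h1 | h1
    · exact absurd (hmono j i hj hi h1) (not_lt.mpr h.le)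
    · have : i = j := by omega
      subst this
      exact lt_irrefl _ h
  have hin : ∀ i (hi : i < l.length), l[i] ∈ W := fun i hi => (hmem _).mp (List.getElem_mem hi)
  have hcons : ∀ i (hi : i + 1 < l.length), ∀ x ∈ W, ¬ (ρ (l[i]'(by omega)) < ρ x ∧ ρ x < ρ l[i+1]) := by
    intro i hi x hx ⟨h1, h2⟩
    obtain ⟨j, hj, rfl⟩ := List.mem_iff_getElem.mp ((hmem x).mpr hx)
    have := hlt _ _ (by omega) hj h1
    have := hlt _ _ hj (by omega) h2
    omega
  have hnd : ∀ i j (hi : i < l.length) (hj : j < l.length), i ≠ j → l[i] ≠ l[j] := by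
    intro i j hi hj hij h
    rcases Nat.lt_or_gt_of_ne hij with h1 | h1
    · exact absurd (hmono i j hi hj h1) (by rw [h]; exact lt_irrefl _)
    · exact absurd (hmono j i hj hi h1) (by rw [h]; exact lt_irrefl _)
  -- short pairs
  have hsl : ∀ i (hi : i + 1 < l.length),
      (∀ x ∈ W, x ≠ l[i]'(by omega) → x ≠ l[i+1] → T.X u x (l[i]'(by omega)) l[i+1] = false) ∨
      (∀ x ∈ W, x ≠ l[i]'(by omega) → x ≠ l[i+1] → T.X u x (l[i]'(by omega)) l[i+1] = true) := by
    intro i hi
    exact ck3_const T huw hu hw hc ht hn hn' hρ (hin i (by omega)) (hin (i+1) hi)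
      (hmono i (i+1) (by omega) hi (by omega)) (hcons i hi)
  have hblock : ∃ s, s + k ≤ l.length ∧ ∀ i (hi : s ≤ i) (hi2 : i + 1 < s + k) (hi3 : i + 1 < l.length),
      ∀ x ∈ W, x ≠ l[i]'(by omega) → x ≠ l[i+1] → T.X u x (l[i]'(by omega)) l[i+1] = false := by
    by_cases hall : ∀ i (hi : i + 1 < l.length),
      (∀ x ∈ W, x ≠ l[i]'(by omega) → x ≠ l[i+1] → T.X u x (l[i]'(by omega)) l[i+1] = false)
    · exact ⟨0, by omega, fun i _ _ hi3 => hall i hi3⟩
    · push Not at hall
      obtain ⟨i0, hi0, x0, hx0, hx1, hx2, hx3⟩ := hall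
      have hlong : ∀ x ∈ W, x ≠ l[i0]'(by omega) → x ≠ l[i0+1] →
          T.X u x (l[i0]'(by omega)) l[i0+1] = true := by
        rcases hsl i0 hi0 with h | h
        · exact absurd (h x0 hx0 hx1 hx2) hx3
        · exact h
      have hshort : ∀ i (hi : i + 1 < l.length), i ≠ i0 →
        (∀ x ∈ W, x ≠ l[i]'(by omega) → x ≠ l[i+1] → T.X u x (l[i]'(by omega)) l[i+1] = false) := by
        intro i hi hii
        rcases hsl i hi with h | h
        · exact h
        · exfalso
          rcases Nat.lt_or_gt_of_ne hii with h1 | h1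
          · exact ck4_unique T huw hu hw hc ht hn hn' hρ (hin i (by omega)) (hin (i+1) hi)
              (hin i0 (by omega)) (hin (i0+1) hi0) (hmono _ _ _ _ (by omega))
              (hmono _ _ _ _ (by omega)) (hmono _ _ _ _ h1) (hcons i hi) (hcons i0 hi0) h hlong
          · exact ck4_unique T huw hu hw hc ht hn hn' hρ (hin i0 (by omega)) (hin (i0+1) hi0)
              (hin i (by omega)) (hin (i+1) hi) (hmono _ _ _ _ (by omega))
              (hmono _ _ _ _ (by omega)) (hmono _ _ _ _ h1) (hcons i0 hi0) (hcons i hi) hlong h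
      by_cases hk2 : k ≤ i0 + 1
      · exact ⟨0, by omega, fun i _ hi2 hi3 => hshort i hi3 (by omega)⟩
      · exact ⟨i0 + 1, by omega, fun i hi hi2 hi3 => hshort i hi3 (by omega)⟩
  obtain ⟨s, hs, hsh⟩ := hblock
  set l' := (l.drop s).take k with hl'
  have hlen' : l'.length = k := by
    rw [hl', List.length_take, List.length_drop]; omega
  have hget : ∀ i (hi : i < l'.length), l'[i] = l[s + i]'(by omega) := by
    intro i hi
    simp [hl']
  have hmem' : ∀ x ∈ l', x ∈ W := by
    intro x hx
    exact (hmem x).mp (List.mem_of_mem_drop (List.mem_of_mem_take hx))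
  have hkey : ∀ x ∈ W, ∀ i (hi : i + 1 < l'.length),
      T.X u x (l'[i]'(by omega)) l'[i+1] = false := by
    intro x hx i hi
    rw [hget i (by omega), hget (i+1) hi]
    by_cases h1 : x = l[s+i]'(by omega)
    · exact ck6_aux_deg T _ _ _ _ (Or.inr (Or.inr (Or.inl h1)))
    by_cases h2 : x = l[s+(i+1)]'(by omega)
    · exact ck6_aux_deg T _ _ _ _ (Or.inr (Or.inr (Or.inr h2)))
    exact hsh (s+i) (by omega) (by omega) (by omega) x hx h1 h2
  have hplane : T.Plane (edges l') := by
    intro e he f hf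
    obtain ⟨i, hi, rfl⟩ := ck6_aux_edges_getElem l' e he
    obtain ⟨j, hj, rfl⟩ := ck6_aux_edges_getElem l' f hf
    simp only
    by_cases h1 : i = j ∨ i = j + 1 ∨ i + 1 = j
    · rcases h1 with h1 | h1 | h1
      · subst h1; exact ck6_aux_deg T _ _ _ _ (Or.inl rfl)
      · subst h1; exact ck6_aux_deg T _ _ _ _ (Or.inr (Or.inl rfl))
      · subst h1; exact ck6_aux_deg T _ _ _ _ (Or.inr (Or.inr (Or.inl rfl)))
    · push Not at h1
      obtain ⟨h1, h2, h3⟩ := h1
      have hWi : ∀ t (ht : t < l'.length), l'[t] ∈ W := fun t ht => hmem' _ (List.getElem_mem ht)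
      have hneq : ∀ a b (ha : a < l'.length) (hb : b < l'.length), a ≠ b → l'[a] ≠ l'[b] := by
        intro a b ha hb hab
        rw [hget a ha, hget b hb]
        exact hnd _ _ _ _ (by omega)
      have hlt' : ∀ a b (ha : a < l'.length) (hb : b < l'.length), ρ l'[a] < ρ l'[b] → a < b := by
        intro a b ha hb hab
        rw [hget a ha, hget b hb] at hab
        have := hlt _ _ _ _ hab
        omega
      have e1 := hrot (l'[i]'(by omega)) l'[i+1] (l'[j]'(by omega)) l'[j+1]
        (hneu _ (hWi _ _)) (hneu _ (hWi _ _)) (hneu _ (hWi _ _)) (hneu _ (hWi _ _))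
        (hneq _ _ _ _ (by omega)) (hneq _ _ _ _ (by omega)) (hneq _ _ _ _ (by omega))
        (hneq _ _ _ _ (by omega)) (hneq _ _ _ _ (by omega)) (hneq _ _ _ _ (by omega))
      have hb : ∀ t (ht : t < l'.length), t ≠ i → t ≠ i + 1 →
          btw (ρ (l'[i]'(by omega))) (ρ l'[i+1]) (ρ l'[t]) = false := by
        intro t ht ht1 ht2
        unfold btw
        rw [Bool.or_eq_false_iff, decide_eq_false_iff_not, decide_eq_false_iff_not]
        constructor
        · rintro ⟨g1, g2⟩
          have := hlt' _ _ _ _ g1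
          have := hlt' _ _ _ _ g2
          omega
        · rintro ⟨g1, g2⟩
          have := hlt' _ _ _ _ g1
          have := hlt' _ _ _ _ g2
          omega
      rw [hb j (by omega) (by omega) (by omega), hb (j+1) hj (by omega) (by omega)] at e1
      unfold Table.alt altX at e1
      rw [hkey _ (hWi i (by omega)) j hj, hkey _ (hWi (i+1) hi) j hj,
        T.symm2 (l'[i]'(by omega)) l'[i+1] u (l'[j]'(by omega)), hkey _ (hWi j (by omega)) i hi,
        T.symm2 (l'[i]'(by omega)) l'[i+1] u l'[j+1], hkey _ (hWi (j+1) hj) i hi] at e1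
      simpa using e1
  have hnodup : (u :: l').Nodup := by
    rw [List.nodup_cons]
    constructor
    · intro h; exact hu (hmem' u h)
    · rw [List.nodup_iff_pairwise_ne, List.pairwise_iff_getElem]
      intro i j hi hj hij
      rw [hget i hi, hget j hj]
      exact hnd _ _ _ _ (by omega)
  have hfin := ce7_fan T (u := u) (l := l') hnodup (by omega) hplane (by
    intro x hx e he
    obtain ⟨i, hi, rfl⟩ := ck6_aux_edges_getElem l' e he
    exact hkey x (hmem' x hx) i hi)
  exact ce10_mono T (by omega) hfin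

end H53P
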