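import Pool.Agent.Lib.H53P.CK1

/-! # H53P, combinatorics: schemes depend on codes -/

namespace H53P

variable {V : Type*} (T : Table V)

theorem cl1_s34 (a b c d : V) : T.X a b c d = T.X a b d c := by
  rw [T.symm2 a b c d, T.symm1 c d a b, T.symm2 d c a b]

theorem cl1_bool {x x' y z : Bool} (h : ((x ^^ y) ^^ z) = false)
    (h' : ((x' ^^ y) ^^ z) = false) : x' = x := by
  revert h h'
  cases x <;> cases x' <;> cases y <;> cases z <;> decide

/-- the crossings of the edges from `x` to `u, w, s, t` with the other edges on `u, w, s, t` -/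
def Table.code (u w s t x : V) : Fin 12 → Bool :=
  ![T.X x u w s, T.X x u w t, T.X x u s t, T.X x w u s, T.X x w u t, T.X x w s t,
    T.X x s u w, T.X x s u t, T.X x s w t, T.X x t u w, T.X x t u s, T.X x t w s]

/-- (CL1, S) the bits.  PROOF.  `congrFun h i` for the twelve `i`. -/
theorem cl1_bits {u w s t x y : V} (h : T.code u w s t x = T.code u w s t y) :
    T.X x u w s = T.X y u w s ∧ T.X x u w t = T.X y u w t ∧ T.X x u s t = T.X y u s t ∧
    T.X x w u s = T.X y w u s ∧ T.X x w u t = T.X y w u t ∧ T.X x w s t = T.X y w s t ∧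
    T.X x s u w = T.X y s u w ∧ T.X x s u t = T.X y s u t ∧ T.X x s w t = T.X y s w t ∧
    T.X x t u w = T.X y t u w ∧ T.X x t u s = T.X y t u s ∧ T.X x t w s = T.X y t w s := by
  exact ⟨congrFun h 0, congrFun h 1, congrFun h 2, congrFun h 3, congrFun h 4, congrFun h 5,
    congrFun h 6, congrFun h 7, congrFun h 8, congrFun h 9, congrFun h 10, congrFun h 11⟩

/-- (CL2, S) equal codes for `u, w` give equal codes for `w, u` -/
theorem cl2_swap {u w s t x y : V} (h : T.code u w s t x = T.code u w s t y) :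
    T.code w u s t x = T.code w u s t y := by
  obtain ⟨p1, p2, p3, p4, p5, p6, p7, p8, p9, p10, p11, p12⟩ := cl1_bits T h
  have q1 : T.X x s w u = T.X y s w u := by
    rw [cl1_s34 T x s w u, cl1_s34 T y s w u, p7]
  have q2 : T.X x t w u = T.X y t w u := by
    rw [cl1_s34 T x t w u, cl1_s34 T y t w u, p10]
  unfold Table.code
  rw [p1, p2, p3, p4, p5, p6, q1, p8, p9, q2, p11, p12]

/-- (CL3, M) Schemes depend only on the codes.
PROOF.  All conditions except the last one are bits of the codes (up to the symmetries of `X`),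
`cl1_bits`.  For `SB`, `SC`, `SD`: by `T.tri` for the triangle `u, s, t` and the points `a, b, w`:
`crT u s t a b = crT u s t b w ^^ crT u s t w a`, and `crT u s t x w = X x w u s ^^ X x w s t ^^
X x w t u` is determined by the code of `x`; the same for `a', b'`.  For `SA` use the triangle
`u, w, s` and the points `a, b, t`: `crT u w s x t = X x t u w ^^ X x t w s ^^ X x t s u`. -/
theorem cl3_transfer {u w s t a b a' b' : V} (hd : [u, w, s, t].Nodup)
    (ha : a ∉ [u, w, s, t]) (hb : b ∉ [u, w, s, t]) (ha' : a' ∉ [u, w, s, t])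
    (hb' : b' ∉ [u, w, s, t]) (h1 : T.code u w s t a' = T.code u w s t a)
    (h2 : T.code u w s t b' = T.code u w s t b) :
    (T.SA u w s a b → T.SA u w s a' b') ∧ (T.SB u w s t a b → T.SB u w s t a' b') ∧
    (T.SC u w s t a b → T.SC u w s t a' b') ∧ (T.SD u w s t a b → T.SD u w s t a' b') := by
  simp only [List.nodup_cons, List.mem_cons, List.not_mem_nil, or_false, not_or,
    List.nodup_nil, not_false_eq_true, and_true] at hd ha hb ha' hb'
  obtain ⟨⟨huw, hus, hut⟩, ⟨hws, hwt⟩, hst⟩ := hd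
  obtain ⟨a1, a2, a3, a4⟩ := ha
  obtain ⟨b1, b2, b3, b4⟩ := hb
  obtain ⟨c1, c2, c3, c4⟩ := ha'
  obtain ⟨d1, d2, d3, d4⟩ := hb'
  obtain ⟨p1, p2, p3, p4, p5, p6, p7, p8, p9, p10, p11, p12⟩ := cl1_bits T h1
  obtain ⟨q1, q2, q3, q4, q5, q6, q7, q8, q9, q10, q11, q12⟩ := cl1_bits T h2
  have r1 : T.crT u w s a' b' = T.crT u w s a b := by
    have h3 := T.tri u w s huw hws (Ne.symm hus) a b t a1 a2 a3 b1 b2 b3 (Ne.symm hut)
      (Ne.symm hwt) (Ne.symm hst)
    have h4 := T.tri u w s huw hws (Ne.symm hus) a' b' t c1 c2 c3 d1 d2 d3 (Ne.symm hut)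
      (Ne.symm hwt) (Ne.symm hst)
    have e1 : crTX T.X u w s b' t = crTX T.X u w s b t := by
      unfold crTX
      rw [cl1_s34 T b' t s u, cl1_s34 T b t s u, q10, q11, q12]
    have e2 : crTX T.X u w s t a' = crTX T.X u w s t a := by
      unfold crTX
      rw [T.symm1 t a' u w, T.symm1 t a' w s, T.symm1 t a' s u, T.symm1 t a u w, T.symm1 t a w s,
        T.symm1 t a s u, cl1_s34 T a' t s u, cl1_s34 T a t s u, p10, p11, p12]
    rw [e1, e2] at h4
    exact cl1_bool h3 h4
  have r2 : T.crT u s t a' b' = T.crT u s t a b := by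
    have h3 := T.tri u s t hus hst (Ne.symm hut) a b w a1 a3 a4 b1 b3 b4 (Ne.symm huw) hws hwt
    have h4 := T.tri u s t hus hst (Ne.symm hut) a' b' w c1 c3 c4 d1 d3 d4 (Ne.symm huw) hws hwt
    have e1 : crTX T.X u s t b' w = crTX T.X u s t b w := by
      unfold crTX
      rw [cl1_s34 T b' w t u, cl1_s34 T b w t u, q4, q5, q6]
    have e2 : crTX T.X u s t w a' = crTX T.X u s t w a := by
      unfold crTX
      rw [T.symm1 w a' u s, T.symm1 w a' s t, T.symm1 w a' t u, T.symm1 w a u s, T.symm1 w a s t,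
        T.symm1 w a t u, cl1_s34 T a' w t u, cl1_s34 T a w t u, p4, p5, p6]
    rw [e1, e2] at h4
    exact cl1_bool h3 h4
  have k1 : T.X u a' s t = T.X u a s t := by
    rw [T.symm1 u a' s t, T.symm1 u a s t, p3]
  have k2 : T.X w b' u s = T.X w b u s := by
    rw [T.symm1 w b' u s, T.symm1 w b u s, q4]
  have k3 : T.X w b' u t = T.X w b u t := by
    rw [T.symm1 w b' u t, T.symm1 w b u t, q5]
  have k4 : T.X w b' s t = T.X w b s t := by
    rw [T.symm1 w b' s t, T.symm1 w b s t, q6]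
  refine ⟨?_, ?_, ?_, ?_⟩
  · rintro ⟨x1, x2, x3⟩
    refine ⟨?_, ?_, ?_⟩
    · rw [T.symm1 u a' w s, p1, T.symm1 a u w s]
      exact x1
    · rw [k2]
      exact x2
    · rw [r1]
      exact x3
  · rintro ⟨x1, x2, x3, x4, x5, x6, x7⟩
    refine ⟨?_, ?_, ?_, ?_, ?_, ?_, ?_⟩
    · rw [k1]
      exact x1
    · rw [p8]
      exact x2
    · rw [q8]
      exact x3
    · rw [k2]
      exact x4
    · rw [k3]
      exact x5
    · rw [k4]
      exact x6
    · rw [r2]
      exact x7
  · rintro ⟨x1, x2, x3, x4, x5, x6, x7⟩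
    refine ⟨?_, ?_, ?_, ?_, ?_, ?_, ?_⟩
    · rw [k1]
      exact x1
    · rw [p8]
      exact x2
    · rw [q11]
      exact x3
    · rw [k2]
      exact x4
    · rw [k3]
      exact x5
    · rw [k4]
      exact x6
    · rw [r2]
      exact x7
  · rintro ⟨x1, x2, x3, x4, x5, x6, x7, x8⟩
    refine ⟨?_, ?_, ?_, ?_, ?_, ?_, ?_, ?_⟩
    · rw [k1]
      exact x1
    · rw [p8]
      exact x2
    · rw [q8]
      exact x3
    · rw [q11]
      exact x4
    · rw [T.symm2 t w u a', T.symm1 u a' t w, cl1_s34 T a' u t w, p2, cl1_s34 T a u w t,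
        T.symm1 a u t w, T.symm2 u a t w]
      exact x5
    · rw [T.symm2 t w a' s, cl1_s34 T a' s t w, p9, cl1_s34 T a s w t, T.symm2 a s t w]
      exact x6
    · rw [T.symm2 t w b' s, cl1_s34 T b' s t w, q9, cl1_s34 T b s w t, T.symm2 b s t w]
      exact x7
    · rw [r2]
      exact x8

end H53P
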