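import Pool.Agent.Lib.H53P.CL1
import Pool.Agent.Lib.H53P.CH
import Pool.Agent.Lib.H53P.CJ1
import Pool.Agent.Lib.H53P.CJ3

set_option autoImplicit false

/-! # H53P, combinatorics: a scheme with large classes -/

namespace H53P

variable {V : Type*} (T : Table V)

/-- one side of the scheme -/
theorem cl4_side [DecidableEq V] {k : ℕ} (hk : 3 ≤ k) (hno : ¬ T.HasCycle k) {u w : V}
    {S₁ : Finset V} (hu : u ∉ S₁) (hw : w ∉ S₁)
    {N : ℕ} {s t a : V} (hn : [u, w, s, t].Nodup)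
    (hA : (2 * k ^ 2) ^ 6 * N ≤ (((S₁.erase s).erase t).filter fun y =>
      T.code u w s t y = T.code u w s t a).card) :
    ∃ A ⊆ S₁, s ∉ A ∧ t ∉ A ∧ T.Six u w s t A ∧ N ≤ A.card ∧
      ∀ x ∈ A, T.code u w s t x = T.code u w s t a := by
  have hn' : (u ≠ w ∧ u ≠ s ∧ u ≠ t) ∧ (w ≠ s ∧ w ≠ t) ∧ s ≠ t := by
    simpa [List.nodup_cons, not_or] using hn
  obtain ⟨⟨huw, hus, hut⟩, ⟨hws, hwt⟩, hst⟩ := hn'
  set A₀ := ((S₁.erase s).erase t).filter fun y =>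
      T.code u w s t y = T.code u w s t a with hA₀
  have hmem : ∀ x ∈ A₀, x ∈ S₁ ∧ x ≠ s ∧ x ≠ t ∧ T.code u w s t x = T.code u w s t a := by
    intro x hx
    rw [hA₀, Finset.mem_filter, Finset.mem_erase, Finset.mem_erase] at hx
    exact ⟨hx.1.2.2, hx.1.2.1, hx.1.1, hx.2⟩
  have hu0 : u ∉ A₀ := fun h => hu (hmem u h).1
  have hw0 : w ∉ A₀ := fun h => hw (hmem w h).1
  have hs0 : s ∉ A₀ := fun h => (hmem s h).2.1 rfl
  have ht0 : t ∉ A₀ := fun h => (hmem t h).2.2.1 rfl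
  obtain ⟨Y, hY, hYc, hYn⟩ := ch3_thin T hk hno [(u, w), (u, s), (u, t), (w, s), (w, t), (s, t)] A₀
    (by
      intro p hp
      simp only [List.mem_cons, List.not_mem_nil, or_false] at hp
      rcases hp with rfl | rfl | rfl | rfl | rfl | rfl
      · exact ⟨huw, hu0, hw0⟩
      · exact ⟨hus, hu0, hs0⟩
      · exact ⟨hut, hu0, ht0⟩
      · exact ⟨hws, hw0, hs0⟩
      · exact ⟨hwt, hw0, ht0⟩
      · exact ⟨hst, hs0, ht0⟩)
  refine ⟨Y, fun x hx => (hmem x (hY hx)).1, fun h => hs0 (hY h), fun h => ht0 (hY h), ?_, ?_,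
    fun x hx => (hmem x (hY hx)).2.2.2⟩
  · exact ⟨hYc (u, w) (by simp), hYc (u, s) (by simp), hYc (u, t) (by simp),
      hYc (w, s) (by simp), hYc (w, t) (by simp), hYc (s, t) (by simp)⟩
  · have h1 : (2 * k ^ 2) ^ 6 * N ≤ (2 * k ^ 2) ^ 6 * Y.card := by
      refine hA.trans ?_
      simpa using hYn
    have h2 : 0 < (2 * k ^ 2) ^ 6 := by positivity
    exact Nat.le_of_mul_le_mul_left h1 h2

theorem cl4_two [DecidableEq V] {k : ℕ} (hk : 3 ≤ k) (hno : ¬ T.HasCycle k) {u w : V}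
    (huw : u ≠ w) {S₁ : Finset V} (hu : u ∉ S₁) (hw : w ∉ S₁) (hc : T.Clique u w S₁)
    {N : ℕ} (hN : 1 ≤ N) {s t a b : V} (hs : s ∈ S₁) (ht : t ∈ S₁) (ha : a ∈ S₁) (hb : b ∈ S₁)
    (hd : [s, t, a, b].Nodup)
    (hA : (2 * k ^ 2) ^ 6 * N ≤ (((S₁.erase s).erase t).filter fun y =>
      T.code u w s t y = T.code u w s t a).card)
    (hB : (2 * k ^ 2) ^ 6 * N ≤ (((S₁.erase s).erase t).filter fun y =>
      T.code u w s t y = T.code u w s t b).card)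
    (h : T.SA u w s a b ∨ T.SB u w s t a b ∨ T.SC u w s t a b ∨ T.SD u w s t a b) :
    T.TwoExc u w S₁ N := by
  have hd' : (s ≠ t ∧ s ≠ a ∧ s ≠ b) ∧ (t ≠ a ∧ t ≠ b) ∧ a ≠ b := by
    simpa [List.nodup_cons, not_or] using hd
  obtain ⟨⟨hst, hsa, hsb⟩, ⟨hta, htb⟩, hab⟩ := hd'
  have hus : u ≠ s := fun e => hu (e ▸ hs)
  have hut : u ≠ t := fun e => hu (e ▸ ht)
  have hws : w ≠ s := fun e => hw (e ▸ hs)
  have hwt : w ≠ t := fun e => hw (e ▸ ht)
  have hn : [u, w, s, t].Nodup := by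
    simp [List.nodup_cons, huw, hus, hut, hws, hwt, hst]
  have hout : ∀ x, x ∈ S₁ → x ≠ s → x ≠ t → x ∉ [u, w, s, t] := by
    intro x hx h1 h2 h3
    simp only [List.mem_cons, List.not_mem_nil, or_false] at h3
    rcases h3 with rfl | rfl | rfl | rfl
    · exact hu hx
    · exact hw hx
    · exact h1 rfl
    · exact h2 rfl
  obtain ⟨A, hAS, hsA, htA, h6A, hNA, hcA⟩ := cl4_side T hk hno hu hw hn hA
  obtain ⟨B, hBS, hsB, htB, h6B, hNB, hcB⟩ := cl4_side T hk hno hu hw hn hB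
  have hg : T.Glue u w s t S₁ A B :=
    ⟨hn, hu, hw, hs, ht, hAS, hBS, hsA, htA, hsB, htB, h6A, h6B⟩
  have hne : A.Nonempty ∧ B.Nonempty :=
    ⟨Finset.card_pos.mp (lt_of_lt_of_le hN hNA), Finset.card_pos.mp (lt_of_lt_of_le hN hNB)⟩
  have hX : ∀ x ∈ S₁, s ≠ x → T.X s x u w = false := by
    intro x hx hsx
    rw [T.symm2]
    exact cc2_uw T (hc s hs x hx hsx)
  have htr : ∀ a' ∈ A, ∀ b' ∈ B, (T.SA u w s a b → T.SA u w s a' b') ∧
      (T.SB u w s t a b → T.SB u w s t a' b') ∧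
      (T.SC u w s t a b → T.SC u w s t a' b') ∧ (T.SD u w s t a b → T.SD u w s t a' b') := by
    intro a' ha' b' hb'
    exact cl3_transfer T hn (hout a ha hsa.symm hta.symm) (hout b hb hsb.symm htb.symm)
      (hout a' (hAS ha') (fun e => hsA (e ▸ ha')) (fun e => htA (e ▸ ha')))
      (hout b' (hBS hb') (fun e => hsB (e ▸ hb')) (fun e => htB (e ▸ hb')))
      (hcA a' ha') (hcB b' hb')
  rcases h with h | h | h | h
  · exact cj1_A T hg hNA hNB (fun x hx => hX x (hAS hx) (fun e => hsA (e ▸ hx)))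
      (fun x hx => hX x (hBS hx) (fun e => hsB (e ▸ hx)))
      (fun a' ha' b' hb' => (htr a' ha' b' hb').1 h)
  · exact cj2_B T hg hNA hNB hne (fun a' ha' b' hb' => (htr a' ha' b' hb').2.1 h)
  · exact cj3_C T hg hNA hNB hne (fun a' ha' b' hb' => (htr a' ha' b' hb').2.2.1 h)
  · exact cj4_D T hg hNA hNB hne (fun a' ha' b' hb' => (htr a' ha' b' hb').2.2.2 h)

end H53P
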