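import Pool.Agent.Lib.H53P.CB
import Pool.Agent.Lib.H53P.CB2
import Pool.Agent.Lib.H53P.CL4
import Pool.Agent.Lib.H53P.CK6

/-! # H53P, combinatorics: the main step -/

namespace H53P

variable {V : Type*} (T : Table V)

theorem cl5_scheme [DecidableEq V] {k : ℕ} (hk : 3 ≤ k) (hno : ¬ T.HasCycle k) {u w : V}
    (huw : u ≠ w) {S₁ W : Finset V} (hu : u ∉ S₁) (hw : w ∉ S₁) (hc : T.Clique u w S₁) {N : ℕ}
    (hN : 1 ≤ N) (hW : W ⊆ S₁)
    (hR : ∀ x ∈ W, ∀ y ∈ W, ∀ z ∈ W, x ≠ y → x ≠ z → y ≠ z → (2 * k ^ 2) ^ 6 * N ≤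
      (((S₁.erase x).erase y).filter fun c => T.code u w x y c = T.code u w x y z).card)
    (h : ¬ T.NoSch u w W) : T.TwoExc u w S₁ N := by
  unfold Table.NoSch at h
  push Not at h
  obtain ⟨s, hs, t, ht, a, ha, b, hb, hd, h4⟩ := h
  have hd' := hd
  simp only [List.nodup_cons, List.mem_cons, List.not_mem_nil, or_false, not_or, List.nodup_nil,
    and_true, not_false_eq_true] at hd'
  obtain ⟨⟨h1, h2, h3⟩, ⟨h5, h6⟩, h7⟩ := hd'
  refine cl4_two T hk hno huw hu hw hc hN (hW hs) (hW ht) (hW ha) (hW hb) hd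
    (hR s hs t ht a ha h1 h2 h5) (hR s hs t ht b hb h1 h3 h6) ?_
  by_cases c1 : T.SA u w s a b
  · exact Or.inl c1
  by_cases c2 : T.SB u w s t a b
  · exact Or.inr (Or.inl c2)
  by_cases c3 : T.SC u w s t a b
  · exact Or.inr (Or.inr (Or.inl c3))
  exact Or.inr (Or.inr (Or.inr (h4 c1 c2 c3)))

/-- (CL5, M) The main step.
PROOF.  `ch2_clique`: a clique `S₁ ⊆ S` for `u, w` with `S.card ≤ 2 k ^ 2 * S₁.card`, so
`2 ^ 22 * k ^ 15 * N ≤ S₁.card`.  Let `H = (2 k ^ 2) ^ 6 * N`, `m = 2 k` and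
`R s t x : x ≠ s ∧ x ≠ t ∧ (class of x in (S₁.erase s).erase t for code u w s t).card < H`.  For given
`s, t` at most `4096 * H` elements `x ∈ S₁` satisfy `R s t x` (`cb2_light` with `C = Fin 12 → Bool`,
`Fintype.card C = 4096`), so the relation has at most `S₁.card ^ 2 * (4096 * H)` triples in `S₁` and
`2 m ^ 3 * |R| ≤ 2 * 8 k ^ 3 * 4096 * 2 ^ 6 * k ^ 12 * N * S₁.card ^ 2 = 2 ^ 22 k ^ 15 N * S₁.card ^ 2
≤ S₁.card ^ 3`; also `m ^ 2 = 4 k ^ 2 ≤ S₁.card`.  `cb1_sample` gives `W ⊆ S₁` with `2 k` elements and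
no triple of distinct elements in `R`.  If `NoSch u w W` and `NoSch w u W` then `ck6_fan` gives a
cycle, a contradiction.  If `NoSch u w W` fails there are distinct `s, t, a, b ∈ W` with a scheme;
`¬ R s t a`, `¬ R s t b` give the hypotheses of `cl4_two`; `ci6_mono`.  If `NoSch w u W` fails do the
same for `w, u` (`cl2_swap` shows that the classes for `code w u s t` contain those for
`code u w s t`; `Clique w u S₁`: `ci4_symm`) and use `ci5_symm`. -/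
theorem cl5_step [DecidableEq V] {k : ℕ} (hk : 3 ≤ k) (hno : ¬ T.HasCycle k) {u w : V}
    (huw : u ≠ w) {S : Finset V} (hu : u ∉ S) (hw : w ∉ S) {N : ℕ} (hN : 1 ≤ N)
    (hS : 2 ^ 23 * k ^ 17 * N ≤ S.card) : T.TwoExc u w S N := by
  classical
  obtain ⟨S₁, hS₁, hc, hcard⟩ := ch2_clique T hk hno huw S hu hw
  have hu₁ : u ∉ S₁ := fun h => hu (hS₁ h)
  have hw₁ : w ∉ S₁ := fun h => hw (hS₁ h)
  have hk0 : 0 < k := by omega
  have hbig : 2 ^ 22 * k ^ 15 * N ≤ S₁.card := by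
    have h1 : (2 * k ^ 2) * (2 ^ 22 * k ^ 15 * N) ≤ (2 * k ^ 2) * S₁.card := by
      calc (2 * k ^ 2) * (2 ^ 22 * k ^ 15 * N) = 2 ^ 23 * k ^ 17 * N := by ring
        _ ≤ S.card := hS
        _ ≤ _ := hcard
    exact Nat.le_of_mul_le_mul_left h1 (by positivity)
  obtain ⟨H, hH⟩ : ∃ H, H = (2 * k ^ 2) ^ 6 * N := ⟨_, rfl⟩
  let R : V → V → V → Prop := fun s t x => x ≠ s ∧ x ≠ t ∧
    (((S₁.erase s).erase t).filter fun c => T.code u w s t c = T.code u w s t x).card < H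
  have hRcard : ((S₁ ×ˢ S₁ ×ˢ S₁).filter fun t : V × V × V => R t.1 t.2.1 t.2.2).card ≤
      S₁.card * (S₁.card * (4096 * H)) := by
    have hfib : ∀ s ∈ S₁, ∀ t ∈ S₁, (S₁.filter fun x => R s t x).card ≤ 4096 * H := by
      intro s _ t _
      have h1 := cb2_light ((S₁.erase s).erase t) (T.code u w s t) H
      have h2 : Fintype.card (Fin 12 → Bool) = 4096 := by simp
      rw [h2] at h1
      refine (Finset.card_le_card ?_).trans h1
      intro x hx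
      rw [Finset.mem_filter] at hx ⊢
      exact ⟨Finset.mem_erase.2 ⟨hx.2.2.1, Finset.mem_erase.2 ⟨hx.2.1, hx.1⟩⟩, hx.2.2.2⟩
    have h3 : ((S₁ ×ˢ S₁ ×ˢ S₁).filter fun t : V × V × V => R t.1 t.2.1 t.2.2).card =
        ∑ s ∈ S₁, ∑ t ∈ S₁, (S₁.filter fun x => R s t x).card := by
      rw [Finset.card_filter, Finset.sum_product]
      refine Finset.sum_congr rfl fun s _ => ?_
      rw [Finset.sum_product]
      refine Finset.sum_congr rfl fun t _ => ?_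
      rw [Finset.card_filter]
    rw [h3]
    calc ∑ s ∈ S₁, ∑ t ∈ S₁, (S₁.filter fun x => R s t x).card
        ≤ ∑ s ∈ S₁, ∑ t ∈ S₁, 4096 * H :=
          Finset.sum_le_sum fun s hs => Finset.sum_le_sum fun t ht => hfib s hs t ht
      _ = S₁.card * (S₁.card * (4096 * H)) := by
          rw [Finset.sum_const, Finset.sum_const, smul_eq_mul, smul_eq_mul]
  have h2 : 2 * (2 * k) ^ 3 * ((S₁ ×ˢ S₁ ×ˢ S₁).filter fun t : V × V × V =>
      R t.1 t.2.1 t.2.2).card ≤ S₁.card ^ 3 := by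
    calc 2 * (2 * k) ^ 3 * ((S₁ ×ˢ S₁ ×ˢ S₁).filter fun t : V × V × V => R t.1 t.2.1 t.2.2).card
        ≤ 2 * (2 * k) ^ 3 * (S₁.card * (S₁.card * (4096 * H))) := Nat.mul_le_mul_left _ hRcard
      _ = (2 ^ 22 * k ^ 15 * N) * S₁.card ^ 2 := by rw [hH]; ring
      _ ≤ S₁.card * S₁.card ^ 2 := Nat.mul_le_mul_right _ hbig
      _ = S₁.card ^ 3 := by ring
  have h1 : (2 * k) ^ 2 ≤ S₁.card := by
    refine le_trans ?_ hbig
    calc (2 * k) ^ 2 = 2 ^ 2 * k ^ 2 * 1 := by ring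
      _ ≤ 2 ^ 22 * k ^ 15 * N :=
          Nat.mul_le_mul (Nat.mul_le_mul (by norm_num) (Nat.pow_le_pow_right hk0 (by norm_num))) hN
  obtain ⟨W, hWS, hWc, hWR⟩ := cb1_sample S₁ R (2 * k) (by omega) h1 h2
  have hR' : ∀ x ∈ W, ∀ y ∈ W, ∀ z ∈ W, x ≠ y → x ≠ z → y ≠ z → (2 * k ^ 2) ^ 6 * N ≤
      (((S₁.erase x).erase y).filter fun c => T.code u w x y c = T.code u w x y z).card := by
    intro x hx y hy z hz hxy hxz hyz
    by_contra hlt
    rw [not_le, ← hH] at hlt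
    exact hWR x hx y hy z hz hxy hxz hyz ⟨hxz.symm, hyz.symm, hlt⟩
  by_cases n1 : T.NoSch u w W
  · by_cases n2 : T.NoSch w u W
    · exact absurd (ck6_fan T huw (fun h => hu₁ (hWS h)) (fun h => hw₁ (hWS h))
        (ch1_mono T hc hWS) n1 n2 hk hWc.ge) hno
    · refine ci6_mono T (ci5_symm T ?_) hS₁
      refine cl5_scheme T hk hno huw.symm hw₁ hu₁ (ci4_symm T hc) hN hWS ?_ n2
      intro x hx y hy z hz hxy hxz hyz
      refine (hR' x hx y hy z hz hxy hxz hyz).trans (Finset.card_le_card ?_)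
      intro c hc'
      rw [Finset.mem_filter] at hc' ⊢
      exact ⟨hc'.1, cl2_swap T hc'.2⟩
  · exact ci6_mono T (cl5_scheme T hk hno huw hu₁ hw₁ hc hN hWS hR' n1) hS₁

end H53P
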