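import Pool.Agent.Lib.H53P.CL5

/-! # H53P, combinatorics: the recursion -/

namespace H53P

variable {V : Type*} (T : Table V)

/-- (CM1, S/M) PROOF.  Induction on `j`.  `j = 0`: `S` has an element `x`, `L = [x]`; the two edges are
adjacent (`T.ne`).  `j + 1`: `cl5_step` with `N = (2 ^ 23 * k ^ 17) ^ j ≥ 1`, then the induction
hypothesis for `(v, v', A)` and `(z, z', B)` (lists of length `≥ 2 ^ j ≥ 1`, so non-empty). -/
theorem cm1_rec [DecidableEq V] {k : ℕ} (hk : 3 ≤ k) (hno : ¬ T.HasCycle k) (j : ℕ) :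
    ∀ (u w : V) (S : Finset V), u ≠ w → u ∉ S → w ∉ S → (2 ^ 23 * k ^ 17) ^ j ≤ S.card →
      ∃ L : List V, T.PathIn u w S L ∧ 2 ^ j ≤ L.length := by
  induction j with
  | zero =>
    intro u w S huw hu hw hS
    rw [pow_zero] at hS
    obtain ⟨x, hx⟩ := Finset.card_pos.1 (show 0 < S.card by omega)
    refine ⟨[x], ⟨List.nodup_singleton x, ?_, ?_⟩, by simp⟩
    · intro y hy
      rw [List.mem_singleton] at hy
      rw [hy]
      exact hx
    · intro e he f hf
      have hE : edges (u :: [x] ++ [w]) = [(u, x), (x, w)] := rfl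
      rw [hE] at he hf
      simp only [List.mem_cons, List.not_mem_nil, or_false] at he hf
      by_contra hX
      rw [Bool.not_eq_false] at hX
      have h1 := T.ne _ _ _ _ hX
      rcases he with rfl | rfl <;> rcases hf with rfl | rfl <;> simp at h1
  | succ j ih =>
    intro u w S huw hu hw hS
    have hk0 : 0 < 2 ^ 23 * k ^ 17 := by positivity
    have hN : 1 ≤ (2 ^ 23 * k ^ 17) ^ j := Nat.one_le_pow _ _ hk0
    obtain ⟨v, v', z, z', A, B, hvv, hzz, hvA, hvA', hzB, hzB', hA, hB, hglue⟩ :=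
      cl5_step T hk hno huw hu hw hN (by rw [← pow_succ']; exact hS)
    obtain ⟨L, hL, hL2⟩ := ih v v' A hvv hvA hvA' hA
    obtain ⟨M, hM, hM2⟩ := ih z z' B hzz hzB hzB' hB
    have h2j : 1 ≤ 2 ^ j := Nat.one_le_two_pow
    have hLne : L ≠ [] := by
      rintro rfl
      rw [List.length_nil] at hL2
      omega
    have hMne : M ≠ [] := by
      rintro rfl
      rw [List.length_nil] at hM2
      omega
    obtain ⟨K, hK, hK2⟩ := hglue L M hLne hMne hL hM
    refine ⟨K, hK, ?_⟩
    rw [pow_succ]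
    omega

end H53P
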