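import Pool.Agent.Lib.H53P.CM1

/-! # H53P, combinatorics: cycles with `2 ^ j` vertices -/

namespace H53P

variable {V : Type*} (T : Table V)

theorem cm2_tri {a b c : V} (hab : a ≠ b) (hac : a ≠ c) (hbc : b ≠ c) : T.HasCycle 3 := by
  refine ⟨a, [b, c], ?_, le_rfl, le_rfl, ?_⟩
  · simp only [List.nodup_cons, List.mem_cons, List.not_mem_nil, or_false, not_or, List.nodup_nil,
      and_true, not_false_eq_true]
    exact ⟨⟨hab, hac⟩, hbc⟩
  · have e : edges ((a :: [b, c]) ++ [a]) = [(a, b), (b, c), (c, a)] := rfl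
    rw [e]
    intro e he f hf
    cases hX : T.X e.1 e.2 f.1 f.2 with
    | false => rfl
    | true =>
      exfalso
      obtain ⟨h1, h2, h3, h4, h5, h6⟩ := T.ne _ _ _ _ hX
      simp only [List.mem_cons, List.not_mem_nil, or_false] at he hf
      rcases he with rfl | rfl | rfl <;> rcases hf with rfl | rfl | rfl <;> first
        | exact h3 rfl
        | exact h4 rfl
        | exact h5 rfl

/-- (CM2, S/M) PROOF.  For `j ≤ 1` three different vertices form a plane cycle (all edges are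
adjacent).  Let `j ≥ 2`, `k = 2 ^ j ≥ 4`, and suppose there is no plane cycle with `k` vertices.  Take
two vertices `u ≠ w`, `S = univ \ {u, w}` and the clique `Y ⊆ S` of `ch2_clique`:
`card V - 2 ≤ 2 k ^ 2 * Y.card`.  As `card V ≥ 2 ^ (17 j ^ 2 + 25 j + 2)`,
`2 k ^ 2 * (2 ^ 23 k ^ 17) ^ j = 2 ^ (17 j ^ 2 + 25 j + 1) ≤ card V - 2`, so
`(2 ^ 23 k ^ 17) ^ j ≤ Y.card`.  `cm1_rec` gives a plane path with `2 ^ j` interior vertices in `Y`;
the edge `uw` does not cross it (edges at `u`, `w`: degenerate; edges inside `Y`: `cc2_uw`), so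
`ce9_close` gives a cycle with more than `k` vertices. -/
theorem cm2_main [Fintype V] [DecidableEq V] (j : ℕ)
    (h : 2 ^ (17 * j ^ 2 + 25 * j + 2) ≤ Fintype.card V) : T.HasCycle (2 ^ j) := by
  have h4 : 4 ≤ Fintype.card V := by
    refine le_trans ?_ h
    calc 4 = 2 ^ 2 := by norm_num
      _ ≤ 2 ^ (17 * j ^ 2 + 25 * j + 2) := Nat.pow_le_pow_right (by norm_num) (by omega)
  rcases Nat.lt_or_ge j 2 with hj | hj
  · obtain ⟨a, b, c, hab, hac, hbc⟩ := Fintype.two_lt_card_iff.1 (show 2 < Fintype.card V by omega)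
    refine ce10_mono T ?_ (cm2_tri T hab hac hbc)
    interval_cases j <;> norm_num
  · by_contra hno
    have hk : 3 ≤ 2 ^ j := by
      calc 3 ≤ 2 ^ 2 := by norm_num
        _ ≤ 2 ^ j := Nat.pow_le_pow_right (by norm_num) hj
    obtain ⟨u, w, huw⟩ := Fintype.one_lt_card_iff.1 (show 1 < Fintype.card V by omega)
    have hu : u ∉ (Finset.univ.erase u).erase w := fun h' =>
      (Finset.mem_erase.1 (Finset.mem_erase.1 h').2).1 rfl
    have hw : w ∉ (Finset.univ.erase u).erase w := fun h' => (Finset.mem_erase.1 h').1 rfl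
    obtain ⟨Y, hYS, hcl, hcard⟩ := ch2_clique T hk hno huw ((Finset.univ.erase u).erase w) hu hw
    have hSc : ((Finset.univ.erase u).erase w).card = Fintype.card V - 2 := by
      rw [Finset.card_erase_of_mem (Finset.mem_erase.2 ⟨huw.symm, Finset.mem_univ w⟩),
        Finset.card_erase_of_mem (Finset.mem_univ u), Finset.card_univ]
      omega
    have hpow : 2 * (2 ^ j) ^ 2 * (2 ^ 23 * (2 ^ j) ^ 17) ^ j = 2 ^ (17 * j ^ 2 + 25 * j + 1) := by
      rw [← pow_mul, ← pow_mul, ← pow_add, ← pow_mul, ← pow_succ', ← pow_add]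
      congr 1
      ring
    have hpow2 : 2 ^ (17 * j ^ 2 + 25 * j + 2) = 2 * 2 ^ (17 * j ^ 2 + 25 * j + 1) := by
      rw [← pow_succ']
    have hpow3 : 2 ≤ 2 ^ (17 * j ^ 2 + 25 * j + 1) := by
      calc 2 = 2 ^ 1 := by norm_num
        _ ≤ 2 ^ (17 * j ^ 2 + 25 * j + 1) := Nat.pow_le_pow_right (by norm_num) (by omega)
    have hY : (2 ^ 23 * (2 ^ j) ^ 17) ^ j ≤ Y.card := by
      have h5 : 2 * (2 ^ j) ^ 2 * (2 ^ 23 * (2 ^ j) ^ 17) ^ j ≤ 2 * (2 ^ j) ^ 2 * Y.card := by
        rw [hpow]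
        refine le_trans ?_ hcard
        rw [hSc]
        omega
      exact Nat.le_of_mul_le_mul_left h5 (by positivity)
    have hu' : u ∉ Y := fun h' => hu (hYS h')
    have hw' : w ∉ Y := fun h' => hw (hYS h')
    obtain ⟨L, hL, hLl⟩ := cm1_rec T hk hno j u w Y huw hu' hw' hY
    have hLne : L ≠ [] := by
      rintro rfl
      simp only [List.length_nil] at hLl
      omega
    apply hno
    refine ce10_mono T (show 2 ^ j ≤ L.length + 2 by omega) (ce9_close T hL huw hu' hw' hLne ?_)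
    intro e he
    cases hX : T.X u w e.1 e.2 with
    | false => rfl
    | true =>
      exfalso
      obtain ⟨h1, h2, h3, h4', h5, h6⟩ := T.ne _ _ _ _ hX
      rcases ce3_mem hLne he with ⟨e1, _⟩ | ⟨_, e2⟩ | ⟨e1, e2⟩
      · exact h3 e1.symm
      · exact h6 e2.symm
      · have h7 := cc2_uw T (hcl e.1 (hL.2.1 _ e1) e.2 (hL.2.1 _ e2) h2)
        rw [hX] at h7
        exact Bool.noConfusion h7

end H53P
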