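import Mathlib

/-! # H53P, combinatorics: choice of `j` (pure real analysis) -/

namespace H53P

/-- (CM3, M) (pure real analysis) choice of `j`.
PROOF.  `y = √(log n)`, so `log n = y ^ 2`, and `y > 11 * log 3 > 12` (`log 3 > 1.098`).  Let
`j = ⌈y / (11 log 2)⌉₊`: `2 ^ j ≥ exp (y / 11)`, and `j ≤ y / (11 log 2) + 1`.  With
`0.6931 < log 2 < 0.6932`: `1 / (11 log 2) < 0.1312`, so `17 j ^ 2 + 25 j + 2 ≤
17 (0.1312 y + 1) ^ 2 + 25 (0.1312 y + 1) + 2 ≤ 0.2927 y ^ 2 + 7.741 y + 44 ≤ 1.442 y ^ 2 ≤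
y ^ 2 / log 2` for `y ≥ 12`; hence `2 ^ (17 j ^ 2 + 25 j + 2) ≤ exp (y ^ 2) = n`. -/
theorem cm3_num (n : ℕ) (hn : 3 ≤ n) (h : 3 < Real.exp (Real.sqrt (Real.log n) / 11)) :
    ∃ j : ℕ, Real.exp (Real.sqrt (Real.log n) / 11) ≤ 2 ^ j ∧
      2 ^ (17 * j ^ 2 + 25 * j + 2) ≤ n := by
  have hn1 : (1 : ℝ) ≤ n := by
    have : (3 : ℝ) ≤ n := by exact_mod_cast hn
    linarith
  have hn0 : (0 : ℝ) < n := by linarith
  have hlog : 0 ≤ Real.log n := Real.log_nonneg hn1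
  obtain ⟨y, hy⟩ : ∃ y, y = Real.sqrt (Real.log n) := ⟨_, rfl⟩
  have hy2 : y ^ 2 = Real.log n := by rw [hy, Real.sq_sqrt hlog]
  rw [← hy] at h ⊢
  have hy0 : 0 ≤ y := by rw [hy]; exact Real.sqrt_nonneg _
  have hy12 : 12 < y := by
    have e1 : Real.exp (y / 11) ^ 11 = Real.exp y := by
      rw [← Real.exp_nat_mul]
      congr 1
      push_cast
      ring
    have e2 : Real.exp 12 = Real.exp 1 ^ 12 := by
      rw [← Real.exp_nat_mul]
      norm_num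
    have h3 : Real.exp 12 < 3 ^ 11 := by
      rw [e2]
      calc Real.exp 1 ^ 12 < 2.7182818286 ^ 12 :=
            pow_lt_pow_left₀ Real.exp_one_lt_d9 (Real.exp_pos _).le (by norm_num)
        _ < 3 ^ 11 := by norm_num
    have h4 : (3 : ℝ) ^ 11 < Real.exp y := by
      rw [← e1]
      exact pow_lt_pow_left₀ h (by norm_num) (by norm_num)
    exact Real.exp_lt_exp.1 (h3.trans h4)
  have hl1 := Real.log_two_gt_d9
  have hl2 := Real.log_two_lt_d9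
  have hl0 : 0 < Real.log 2 := by linarith
  obtain ⟨j, hj⟩ : ∃ j, j = ⌈y / (11 * Real.log 2)⌉₊ := ⟨_, rfl⟩
  have hj1 : y / (11 * Real.log 2) ≤ j := by rw [hj]; exact Nat.le_ceil _
  have hj2 : (j : ℝ) ≤ y / (11 * Real.log 2) + 1 := by
    rw [hj]
    exact (Nat.ceil_lt_add_one (by positivity)).le
  have hj3 : y / (11 * Real.log 2) ≤ 0.1312 * y := by
    rw [div_le_iff₀ (by positivity)]
    nlinarith
  have hj0 : (0 : ℝ) ≤ j := Nat.cast_nonneg j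
  refine ⟨j, ?_, ?_⟩
  · have e1 : (2 : ℝ) ^ j = Real.exp (j * Real.log 2) := by
      rw [Real.exp_nat_mul, Real.exp_log (by norm_num)]
    rw [e1, Real.exp_le_exp]
    rw [div_le_iff₀ (by positivity)] at hj1
    linarith
  · have hjy : (j : ℝ) ≤ 0.1312 * y + 1 := by linarith
    have h5 : (17 * (j : ℝ) ^ 2 + 25 * j + 2) * Real.log 2 ≤ y ^ 2 := by
      have h6 : 17 * (j : ℝ) ^ 2 + 25 * j + 2 ≤ 17 * (0.1312 * y + 1) ^ 2 + 25 * (0.1312 * y + 1) + 2 := by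
        have : (j : ℝ) ^ 2 ≤ (0.1312 * y + 1) ^ 2 := pow_le_pow_left₀ hj0 hjy 2
        linarith
      have h7 : 17 * (0.1312 * y + 1) ^ 2 + 25 * (0.1312 * y + 1) + 2 ≤ 1.442 * y ^ 2 := by
        nlinarith
      have h8 : 0 ≤ 17 * (j : ℝ) ^ 2 + 25 * j + 2 := by positivity
      calc (17 * (j : ℝ) ^ 2 + 25 * j + 2) * Real.log 2 ≤ (1.442 * y ^ 2) * 0.6931471808 :=
            mul_le_mul (h6.trans h7) hl2.le hl0.le (by positivity)
        _ ≤ y ^ 2 := by nlinarith [sq_nonneg y]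
    have h9 : ((2 ^ (17 * j ^ 2 + 25 * j + 2) : ℕ) : ℝ) ≤ n := by
      have e1 : ((2 ^ (17 * j ^ 2 + 25 * j + 2) : ℕ) : ℝ) =
          Real.exp ((17 * (j : ℝ) ^ 2 + 25 * j + 2) * Real.log 2) := by
        have e2 : (17 * (j : ℝ) ^ 2 + 25 * j + 2) = ((17 * j ^ 2 + 25 * j + 2 : ℕ) : ℝ) := by
          push_cast
          ring
        rw [e2, Real.exp_nat_mul, Real.exp_log (by norm_num)]
        push_cast
        rfl
      rw [e1, ← Real.exp_log hn0, Real.exp_le_exp, ← hy2]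
      exact h5
    exact_mod_cast h9

end H53P
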