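import Pool.Agent.Lib.H53P.CM2
import Pool.Agent.Lib.H53P.CM3

/-! # H53P, combinatorics: the bound `exp (√(log n) / 11)` -/

namespace H53P

variable {V : Type*} (T : Table V)

theorem cm4_three [Fintype V] (hn : 3 ≤ Fintype.card V) : T.HasCycle 3 := by
  obtain ⟨a, b, c, hab, hac, hbc⟩ := Fintype.two_lt_card_iff.1 (show 2 < Fintype.card V by omega)
  refine ⟨a, [b, c], ?_, by simp, by simp, ?_⟩
  · simp [hab, hac, hbc]
  · intro e he f hf
    have hE : edges ((a :: [b, c]) ++ [a]) = [(a, b), (b, c), (c, a)] := rfl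
    rw [hE] at he hf
    simp only [List.mem_cons, List.not_mem_nil, or_false] at he hf
    rw [Bool.eq_false_iff]
    intro hc
    obtain ⟨h1, h2, h3, h4, h5, h6⟩ := T.ne _ _ _ _ hc
    rcases he with rfl | rfl | rfl <;> rcases hf with rfl | rfl | rfl <;>
      first | exact h3 rfl | exact h4 rfl | exact h5 rfl | exact h6 rfl

/-- (CM4, S) PROOF.  If `exp (√(log n) / 11) ≤ 3` three vertices form a plane cycle, otherwise
`cm3_num` and `cm2_main`. -/
theorem cm4_exp [Fintype V] [DecidableEq V] (hn : 3 ≤ Fintype.card V) :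
    ∃ k : ℕ, Real.exp (Real.sqrt (Real.log (Fintype.card V)) / 11) ≤ k ∧ T.HasCycle k := by
  by_cases h : 3 < Real.exp (Real.sqrt (Real.log (Fintype.card V)) / 11)
  · obtain ⟨j, hj1, hj2⟩ := cm3_num (Fintype.card V) hn h
    refine ⟨2 ^ j, ?_, cm2_main T j hj2⟩
    push_cast
    exact hj1
  · rw [not_lt] at h
    refine ⟨3, ?_, cm4_three T hn⟩
    push_cast
    exact h

end H53P
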