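import Pool.Agent.Lib.H53P.CM4
import Pool.Agent.Lib.H53P.FIN1

/-! # H53P, combinatorics: plane cycles in simple drawings, main theorem -/

namespace H53P

open SimpleDraw

/-- the main theorem -/
theorem main {n : ℕ} (hn : 3 ≤ n) (D : SimpleDrawing n) :
    ∃ m : ℕ, Real.exp (Real.sqrt (Real.log n) / 11) ≤ m ∧ HasPlaneCycle D m := by
  have h := cm4_exp (table D) (by simpa using hn)
  obtain ⟨k, hk, hc⟩ := h
  obtain ⟨m, hm, hp⟩ := fin1_cycle D hc
  refine ⟨m, le_trans ?_ (Nat.cast_le.mpr hm), hp⟩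
  simpa using hk

end H53P
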