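import Mathlib

/-! # H53P, topology, file 0: logarithms on sets, chains (definitions)

`IsLog L A z`: `L` is a continuous logarithm of `w - z` on `A`.
`Cell A`: `A` is compact, preconnected, and for every `z ∉ A` there is a continuous logarithm of
`w - z` on `A` (arcs, homeomorphic images of closed discs and of closed half discs are cells).
`dl A P Q z`: the change of `log (w - z)` from `P` to `Q` along `A`.
A chain is a list of triples `(A, P, Q)` with `A` a cell and `P, Q ∈ A`.
-/

open Set

namespace H53P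

/-- `L` is a continuous logarithm of `w - z` on `A` -/
def IsLog (L : ℂ → ℂ) (A : Set ℂ) (z : ℂ) : Prop :=
  ContinuousOn L A ∧ ∀ w ∈ A, Complex.exp (L w) = w - z

/-- there is a continuous logarithm of `w - z` on `A` -/
def HasLog (A : Set ℂ) (z : ℂ) : Prop := ∃ L, IsLog L A z

/-- compact preconnected sets on which `w - z` has a continuous logarithm for all `z` outside -/
structure Cell (A : Set ℂ) : Prop where
  compact : IsCompact A
  conn : IsPreconnected A
  log : ∀ z, z ∉ A → HasLog A z

open Classical in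
/-- change of the logarithm of `w - z` from `P` to `Q` along `A` -/
noncomputable def dl (A : Set ℂ) (P Q z : ℂ) : ℂ :=
  if h : HasLog A z then h.choose Q - h.choose P else 0

/-- chains -/
abbrev Ch := List (Set ℂ × ℂ × ℂ)

/-- the support of a chain -/
def csupp (l : Ch) : Set ℂ := {w | ∃ c ∈ l, w ∈ c.1}

/-- the total change of the logarithm of `w - z` along a chain -/
noncomputable def csum (l : Ch) (z : ℂ) : ℂ := (l.map fun c => dl c.1 c.2.1 c.2.2 z).sum

/-- `l` is a chain from `P` to `Q` -/
def PathCh : ℂ → ℂ → Ch → Prop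
  | P, Q, [] => P = Q
  | P, Q, (A, R, R') :: l => Cell A ∧ R ∈ A ∧ R' ∈ A ∧ R = P ∧ PathCh R' Q l

@[simp] theorem csupp_nil : csupp [] = ∅ := by
  ext; simp [csupp]

@[simp] theorem csupp_cons (c : Set ℂ × ℂ × ℂ) (l : Ch) : csupp (c :: l) = c.1 ∪ csupp l := by
  ext; simp [csupp]

@[simp] theorem csum_nil (z : ℂ) : csum [] z = 0 := by simp [csum]

@[simp] theorem csum_cons (c : Set ℂ × ℂ × ℂ) (l : Ch) (z : ℂ) :
    csum (c :: l) z = dl c.1 c.2.1 c.2.2 z + csum l z := by simp [csum]

theorem csupp_append (l m : Ch) : csupp (l ++ m) = csupp l ∪ csupp m := by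
  ext w
  simp only [csupp, List.mem_append, Set.mem_ofPred_eq, mem_union]
  constructor
  · rintro ⟨c, h | h, hw⟩
    · exact Or.inl ⟨c, h, hw⟩
    · exact Or.inr ⟨c, h, hw⟩
  · rintro (⟨c, h, hw⟩ | ⟨c, h, hw⟩)
    · exact ⟨c, Or.inl h, hw⟩
    · exact ⟨c, Or.inr h, hw⟩

theorem csum_append (l m : Ch) (z : ℂ) : csum (l ++ m) z = csum l z + csum m z := by
  simp [csum]

theorem csum_perm {l m : Ch} (h : l.Perm m) (z : ℂ) : csum l z = csum m z :=
  (h.map _).sum_eq

/-! ### the change of the logarithm -/

theorem dl_self (A : Set ℂ) (P z : ℂ) : dl A P P z = 0 := by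
  unfold dl; split <;> simp

theorem dl_add (A : Set ℂ) (P Q R z : ℂ) : dl A P Q z + dl A Q R z = dl A P R z := by
  unfold dl; split <;> simp

theorem dl_symm (A : Set ℂ) (P Q z : ℂ) : dl A P Q z = - dl A Q P z := by
  unfold dl; split <;> simp

end H53P
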