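import Pool.Agent.Lib.H53P.T0

/-! # H53P, topology, file A: existence of logarithms (pure Mathlib) -/

open Set

namespace H53P

/-- (TA1, S/M) A continuous non-vanishing function on a compact star-convex set has a continuous
logarithm.
PROOF.  We may assume `x₀ = 0` (or carry `x₀`): let `R t x = x₀ + t • (x - x₀)`, `t ∈ [0,1]`; it
maps `[0,1] × K` into `K` (`StarConvex`).  The map `(t, x) ↦ g (R t x)` is continuous on the compact
set `[0,1] ×ˢ K`, so uniformly continuous there (`IsCompact.uniformContinuousOn_of_continuous`), and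
`‖g‖ ≥ m > 0` on `K` (compactness, if `K` is empty take `L = 0`).  Choose `N ≥ 1` such that
`‖g (R t x) - g (R t' x)‖ < m` when `|t - t'| ≤ 1/N`, `x ∈ K`.  Put `q i x = g (R ((i+1)/N) x) /
g (R (i/N) x)`; then `‖q i x - 1‖ < 1`, so `q i x ∈ Complex.slitPlane` and `Complex.log (q i x)` is
continuous in `x ∈ K`.  Choose `c` with `exp c = g x₀` (`Complex.exp_log`) and define
`L x = c + ∑ i ∈ range N, Complex.log (q i x)`.  Then `exp (L x) = g x₀ * ∏ q i x = g (R 1 x) = g x`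
(telescoping product).  Remark: `x₀ ∈ K` when `K` is non-empty (take `t = 0`: for `x ∈ K`,
`StarConvex` gives `x₀ ∈ K`). -/
theorem ta1_star_log {E : Type*} [NormedAddCommGroup E] [NormedSpace ℝ E] {K : Set E} {x₀ : E}
    (hK : IsCompact K) (hs : StarConvex ℝ x₀ K) {g : E → ℂ} (hg : ContinuousOn g K)
    (h0 : ∀ x ∈ K, g x ≠ 0) :
    ∃ L : E → ℂ, ContinuousOn L K ∧ ∀ x ∈ K, Complex.exp (L x) = g x := by
  classical
  rcases K.eq_empty_or_nonempty with rfl | hne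
  · exact ⟨0, continuousOn_empty _, fun x hx => absurd hx (Set.notMem_empty x)⟩
  have hx₀ : x₀ ∈ K := by
    obtain ⟨y, hy⟩ := hne
    have h := hs hy zero_le_one (le_refl (0 : ℝ)) (by norm_num)
    simpa using h
  have hR : ∀ t ∈ Icc (0 : ℝ) 1, ∀ x ∈ K, (1 - t) • x₀ + t • x ∈ K := by
    intro t ht x hx
    exact hs hx (by linarith [ht.2]) ht.1 (by ring)
  have hS : IsCompact (Icc (0 : ℝ) 1 ×ˢ K) := isCompact_Icc.prod hK
  have hG : ContinuousOn (fun p : ℝ × E => g ((1 - p.1) • x₀ + p.1 • p.2)) (Icc (0 : ℝ) 1 ×ˢ K) := by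
    refine hg.comp (Continuous.continuousOn (by fun_prop)) ?_
    rintro ⟨t, x⟩ ⟨ht, hx⟩
    exact hR t ht x hx
  have hU := hS.uniformContinuousOn_of_continuous hG
  obtain ⟨x₁, hx₁, hmin⟩ := hK.exists_isMinOn hne hg.norm
  have hm : 0 < ‖g x₁‖ := norm_pos_iff.2 (h0 x₁ hx₁)
  obtain ⟨δ, hδ, hδ'⟩ := Metric.uniformContinuousOn_iff.1 hU ‖g x₁‖ hm
  obtain ⟨n, hn⟩ := exists_nat_one_div_lt hδ
  have hN : (0 : ℝ) < (n : ℝ) + 1 := by positivity
  have hIcc : ∀ i : ℕ, i ≤ n + 1 → (i : ℝ) / ((n : ℝ) + 1) ∈ Icc (0 : ℝ) 1 := by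
    intro i hi
    refine ⟨by positivity, ?_⟩
    rw [div_le_one hN]
    exact_mod_cast hi
  have hgR : ∀ i : ℕ, i ≤ n + 1 →
      ContinuousOn (fun x => g ((1 - (i : ℝ) / ((n : ℝ) + 1)) • x₀ + ((i : ℝ) / ((n : ℝ) + 1)) • x)) K := by
    intro i hi
    refine hg.comp (Continuous.continuousOn (by fun_prop)) ?_
    intro x hx
    exact hR _ (hIcc i hi) x hx
  have hg0 : ∀ i : ℕ, i ≤ n + 1 → ∀ x ∈ K,
      g ((1 - (i : ℝ) / ((n : ℝ) + 1)) • x₀ + ((i : ℝ) / ((n : ℝ) + 1)) • x) ≠ 0 := by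
    intro i hi x hx
    exact h0 _ (hR _ (hIcc i hi) x hx)
  have hq : ∀ i : ℕ, i < n + 1 → ∀ x ∈ K,
      g ((1 - ((i + 1 : ℕ) : ℝ) / ((n : ℝ) + 1)) • x₀ + (((i + 1 : ℕ) : ℝ) / ((n : ℝ) + 1)) • x) /
      g ((1 - (i : ℝ) / ((n : ℝ) + 1)) • x₀ + ((i : ℝ) / ((n : ℝ) + 1)) • x) ∈ Complex.slitPlane := by
    intro i hi x hx
    have h1 := hδ' (((i + 1 : ℕ) : ℝ) / ((n : ℝ) + 1), x) ⟨hIcc _ hi, hx⟩
      ((i : ℝ) / ((n : ℝ) + 1), x) ⟨hIcc _ hi.le, hx⟩ (by
        rw [Prod.dist_eq]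
        simp only [dist_self]
        rw [max_eq_left dist_nonneg, Real.dist_eq]
        have e : ((i + 1 : ℕ) : ℝ) / ((n : ℝ) + 1) - (i : ℝ) / ((n : ℝ) + 1) = 1 / ((n : ℝ) + 1) := by
          push_cast
          ring
        rw [e, abs_of_pos (by positivity)]
        exact hn)
    rw [dist_eq_norm] at h1
    simp only at h1
    have h2 := hg0 i hi.le x hx
    have h3 : ‖g x₁‖ ≤ ‖g ((1 - (i : ℝ) / ((n : ℝ) + 1)) • x₀ + ((i : ℝ) / ((n : ℝ) + 1)) • x)‖ :=
      hmin (hR _ (hIcc i hi.le) x hx)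
    generalize g ((1 - ((i + 1 : ℕ) : ℝ) / ((n : ℝ) + 1)) • x₀ + (((i + 1 : ℕ) : ℝ) / ((n : ℝ) + 1)) • x) = A at *
    generalize g ((1 - (i : ℝ) / ((n : ℝ) + 1)) • x₀ + ((i : ℝ) / ((n : ℝ) + 1)) • x) = B at *
    have e : A / B = 1 + (A - B) / B := by
      field_simp
      ring
    rw [e]
    refine Complex.mem_slitPlane_of_norm_lt_one ?_
    rw [norm_div, div_lt_one (norm_pos_iff.2 h2)]
    exact h1.trans_le h3
  refine ⟨fun x => Complex.log (g x₀) + ∑ i ∈ Finset.range (n + 1), Complex.log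
    (g ((1 - ((i + 1 : ℕ) : ℝ) / ((n : ℝ) + 1)) • x₀ + (((i + 1 : ℕ) : ℝ) / ((n : ℝ) + 1)) • x) /
      g ((1 - (i : ℝ) / ((n : ℝ) + 1)) • x₀ + ((i : ℝ) / ((n : ℝ) + 1)) • x)), ?_, ?_⟩
  · refine continuousOn_const.add (continuousOn_finset_sum _ fun i hi => ?_)
    have hi' := Finset.mem_range.1 hi
    exact ContinuousOn.clog ((hgR _ hi').div (hgR _ hi'.le) (hg0 _ hi'.le)) (hq i hi')
  · intro x hx
    have key : ∀ k : ℕ, k ≤ n + 1 → g x₀ * ∏ i ∈ Finset.range k,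
        (g ((1 - ((i + 1 : ℕ) : ℝ) / ((n : ℝ) + 1)) • x₀ + (((i + 1 : ℕ) : ℝ) / ((n : ℝ) + 1)) • x) /
        g ((1 - (i : ℝ) / ((n : ℝ) + 1)) • x₀ + ((i : ℝ) / ((n : ℝ) + 1)) • x)) =
        g ((1 - (k : ℝ) / ((n : ℝ) + 1)) • x₀ + ((k : ℝ) / ((n : ℝ) + 1)) • x) := by
      intro k
      induction k with
      | zero =>
        intro _
        simp
      | succ k ih =>
        intro hk
        rw [Finset.prod_range_succ, ← mul_assoc, ih (by omega)]
        exact mul_div_cancel₀ _ (hg0 k (by omega) x hx)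
    rw [Complex.exp_add, Complex.exp_log (h0 x₀ hx₀), Complex.exp_sum]
    have e : ∏ i ∈ Finset.range (n + 1), Complex.exp (Complex.log
        (g ((1 - ((i + 1 : ℕ) : ℝ) / ((n : ℝ) + 1)) • x₀ + (((i + 1 : ℕ) : ℝ) / ((n : ℝ) + 1)) • x) /
        g ((1 - (i : ℝ) / ((n : ℝ) + 1)) • x₀ + ((i : ℝ) / ((n : ℝ) + 1)) • x))) =
        ∏ i ∈ Finset.range (n + 1),
        (g ((1 - ((i + 1 : ℕ) : ℝ) / ((n : ℝ) + 1)) • x₀ + (((i + 1 : ℕ) : ℝ) / ((n : ℝ) + 1)) • x) /
        g ((1 - (i : ℝ) / ((n : ℝ) + 1)) • x₀ + ((i : ℝ) / ((n : ℝ) + 1)) • x)) := by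
      refine Finset.prod_congr rfl fun i hi => ?_
      have hi' := Finset.mem_range.1 hi
      exact Complex.exp_log (div_ne_zero (hg0 _ hi' x hx) (hg0 _ hi'.le x hx))
    rw [e, key (n + 1) le_rfl]
    congr 1
    have e2 : (((n + 1 : ℕ) : ℝ)) / ((n : ℝ) + 1) = 1 := by
      push_cast
      exact div_self hN.ne'
    rw [e2]
    simp

/-- (TA2, S) The inverse of a continuous injective map on a compact set is continuous.
PROOF.  `ψ = Function.invFunOn φ K`.  `ψ (φ x) = x` for `x ∈ K` by injectivity.  Continuity: the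
restriction `K → φ '' K` is a continuous bijection from a compact space onto a Hausdorff space,
hence a homeomorphism (`Continuous.homeoOfEquivCompactToT2`, or: preimages under `ψ` of closed sets
`C` are `φ '' (C ∩ K)`, compact, hence closed: `continuousOn_iff_isClosed`). -/
theorem ta2_inv {E F : Type*} [TopologicalSpace E] [TopologicalSpace F] [T2Space F] [Nonempty E]
    {K : Set E} (hK : IsCompact K) {φ : E → F} (hφ : ContinuousOn φ K) (hi : InjOn φ K) :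
    ∃ ψ : F → E, ContinuousOn ψ (φ '' K) ∧ ∀ x ∈ K, ψ (φ x) = x := by
  refine ⟨Function.invFunOn φ K, ?_, fun x hx => hi.leftInvOn_invFunOn hx⟩
  rw [continuousOn_iff_isClosed]
  intro C hC
  refine ⟨φ '' (K ∩ C), ?_, ?_⟩
  · exact ((hK.inter_right hC).image_of_continuousOn (hφ.mono Set.inter_subset_left)).isClosed
  · ext y
    constructor
    · rintro ⟨h1, x, hx, rfl⟩
      have h2 : Function.invFunOn φ K (φ x) = x := hi.leftInvOn_invFunOn hx
      have h3 : Function.invFunOn φ K (φ x) ∈ C := h1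
      rw [h2] at h3
      exact ⟨⟨x, ⟨hx, h3⟩, rfl⟩, ⟨x, hx, rfl⟩⟩
    · rintro ⟨⟨x, ⟨hx, hxC⟩, rfl⟩, -⟩
      have h2 : Function.invFunOn φ K (φ x) = x := hi.leftInvOn_invFunOn hx
      refine ⟨?_, ⟨x, hx, rfl⟩⟩
      show Function.invFunOn φ K (φ x) ∈ C
      rw [h2]
      exact hxC

/-- (TA3, S) The image of a compact convex set under a continuous injective map is a cell.
PROOF.  compact: `IsCompact.image_of_continuousOn`; preconnected: `Convex.isPreconnected`,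
`IsPreconnected.image`.  If `K` is empty everything is trivial (log: `L = 0`).  Let `z ∉ φ '' K`;
`g x = φ x - z` is continuous and non-vanishing on `K`, `K` is star-convex at any of its points
(`Convex.starConvex`), so `ta1_star_log` gives `L₀`; with `ψ` from `ta2_inv` take `L = L₀ ∘ ψ`. -/
theorem ta3_cell {E : Type*} [NormedAddCommGroup E] [NormedSpace ℝ E] {K : Set E}
    (hK : IsCompact K) (hc : Convex ℝ K) {φ : E → ℂ} (hφ : ContinuousOn φ K) (hi : InjOn φ K) :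
    Cell (φ '' K) := by
  refine ⟨hK.image_of_continuousOn hφ, hc.isPreconnected.image _ hφ, fun z hz => ?_⟩
  rcases K.eq_empty_or_nonempty with rfl | ⟨x₀, hx₀⟩
  · refine ⟨0, ?_, ?_⟩
    · rw [Set.image_empty]
      exact continuousOn_empty _
    · intro w hw
      rw [Set.image_empty] at hw
      exact absurd hw (Set.notMem_empty w)
  · obtain ⟨L₀, hL₀, hL₀'⟩ := ta1_star_log hK (hc.starConvex hx₀) (g := fun x => φ x - z)
      (hφ.sub continuousOn_const) (fun x hx h => hz ⟨x, hx, sub_eq_zero.1 h⟩)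
    obtain ⟨ψ, hψ, hψ'⟩ := ta2_inv hK hφ hi
    refine ⟨L₀ ∘ ψ, hL₀.comp hψ ?_, ?_⟩
    · rintro _ ⟨x, hx, rfl⟩
      rw [hψ' x hx]
      exact hx
    · rintro _ ⟨x, hx, rfl⟩
      rw [Function.comp_apply, hψ' x hx, hL₀' x hx]

end H53P
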