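import Pool.Agent.Lib.H53P.T0

/-! # H53P, topology, file B: uniqueness of logarithms, closed chains -/

open Set

namespace H53P

/-- (TB1, S) A continuous function on a preconnected set with values in `2πiℤ` is constant.
PROOF.  `exp (f w) = 1` on `A`, so `f w = n w * (2 π i)` with `n w : ℤ` (`Complex.exp_eq_one_iff`).
`n w = (f w / (2πi)).re` is continuous on `A` as a real function with integer values; a
preconnected set of reals contained in the integers is a subsingleton (e.g. the image of `A` under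
the real continuous function is preconnected, hence an interval (`IsPreconnected.ordConnected`); if
it contained two integers `a < b` it would contain `a + 1/2`). -/
theorem tb1_const {α : Type*} [TopologicalSpace α] {A : Set α} (hA : IsPreconnected A)
    {f : α → ℂ} (hf : ContinuousOn f A) (h1 : ∀ w ∈ A, Complex.exp (f w) = 1) {P Q : α}
    (hP : P ∈ A) (hQ : Q ∈ A) : f P = f Q := by
  have hc : (2 * Real.pi * Complex.I : ℂ) ≠ 0 := Complex.two_pi_I_ne_zero
  -- the integer valued function
  have hint : ∀ w ∈ A, ∃ n : ℤ, f w = n * (2 * Real.pi * Complex.I) := fun w hw =>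
    Complex.exp_eq_one_iff.1 (h1 w hw)
  have hg : ContinuousOn (fun w => (f w / (2 * Real.pi * Complex.I)).re) A :=
    Complex.continuous_re.comp_continuousOn (hf.div_const _)
  have hgi : ∀ w ∈ A, ∃ n : ℤ, (f w / (2 * Real.pi * Complex.I)).re = n ∧ f w = n * (2 * Real.pi * Complex.I) := by
    intro w hw
    obtain ⟨n, hn⟩ := hint w hw
    refine ⟨n, ?_, hn⟩
    rw [hn, mul_div_cancel_right₀ _ hc]
    simp
  have himg := (hA.image _ hg).ordConnected
  obtain ⟨a, ha, ha'⟩ := hgi P hP
  obtain ⟨b, hb, hb'⟩ := hgi Q hQ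
  have key : ∀ (a b : ℤ) (P Q : α), P ∈ A → Q ∈ A → (f P / (2 * Real.pi * Complex.I)).re = a →
      (f Q / (2 * Real.pi * Complex.I)).re = b → ¬ a < b := by
    intro a b P Q hP hQ ha hb hlt
    have hlt' : (a : ℝ) + 1 ≤ b := by exact_mod_cast hlt
    have hmem : (a : ℝ) + 1 / 2 ∈ (fun w => (f w / (2 * Real.pi * Complex.I)).re) '' A :=
      himg.out ⟨P, hP, ha⟩ ⟨Q, hQ, hb⟩ ⟨by linarith, by linarith⟩
    obtain ⟨w, hw, hwe⟩ := hmem
    obtain ⟨n, hn, -⟩ := hgi w hw
    have h2 : (n : ℝ) = a + 1 / 2 := by rw [← hn]; exact hwe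
    have h3 : ((2 * n : ℤ) : ℝ) = ((2 * a + 1 : ℤ) : ℝ) := by
      push_cast
      linarith
    have h4 : 2 * n = 2 * a + 1 := by exact_mod_cast h3
    omega
  have hab : a = b := by
    rcases lt_trichotomy a b with h | h | h
    · exact absurd h (key a b P Q hP hQ ha hb)
    · exact h
    · exact absurd h (key b a Q P hQ hP hb ha)
  rw [ha', hb', hab]

/-- (TB2, S) `dl` is computed by any continuous logarithm.  PROOF.  `dl` uses the chosen logarithm
`L'`; `f = L' - L` satisfies `exp f = 1` on `A` (both exponentials are `w - z`, which is not `0`,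
as exponentials do not vanish); use `tb1_const`. -/
theorem tb2_dl {A : Set ℂ} (hA : IsPreconnected A) {L : ℂ → ℂ} {z : ℂ} (hL : IsLog L A z)
    {P Q : ℂ} (hP : P ∈ A) (hQ : Q ∈ A) : dl A P Q z = L Q - L P := by
  have hz : HasLog A z := ⟨L, hL⟩
  unfold dl
  rw [dif_pos hz]
  have h := tb1_const hA (f := fun w => hz.choose w - L w) (hz.choose_spec.1.sub hL.1) (by
    intro w hw
    rw [Complex.exp_sub, hz.choose_spec.2 w hw, hL.2 w hw]
    refine div_self ?_
    rw [← hL.2 w hw]
    exact Complex.exp_ne_zero _) hP hQ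
  linear_combination -h

/-- (TB3, S) Monotonicity.  PROOF.  The chosen logarithm `L'` on `A'` is also a logarithm on `A`;
use `tb2_dl` for `A` and the definition of `dl A'`. -/
theorem tb3_mono {A A' : Set ℂ} (hA : IsPreconnected A) (h : A ⊆ A') {z : ℂ} (hz : HasLog A' z)
    {P Q : ℂ} (hP : P ∈ A) (hQ : Q ∈ A) : dl A P Q z = dl A' P Q z := by
  rw [tb2_dl hA (L := hz.choose) ⟨hz.choose_spec.1.mono h, fun w hw => hz.choose_spec.2 w (h hw)⟩ hP hQ]
  unfold dl
  rw [dif_pos hz]

/-- (TB4, S) PROOF.  `exp (L' Q - L' P) (P - z) = (Q - z) / (P - z) * (P - z)`. -/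
theorem tb4_exp {A : Set ℂ} {z : ℂ} (hz : HasLog A z) {P Q : ℂ} (hP : P ∈ A) (hQ : Q ∈ A) :
    Complex.exp (dl A P Q z) * (P - z) = Q - z := by
  unfold dl
  rw [dif_pos hz, ← hz.choose_spec.2 P hP, ← hz.choose_spec.2 Q hQ, ← Complex.exp_add]
  congr 1
  ring

/-- (TB5, S) PROOF.  Induction on the list, `tb4_exp`, `Complex.exp_add`. -/
theorem tb5_chain {P Q : ℂ} {l : Ch} (h : PathCh P Q l) {z : ℂ} (hz : z ∉ csupp l) :
    Complex.exp (csum l z) * (P - z) = Q - z := by
  induction l generalizing P with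
  | nil =>
    have h' : P = Q := h
    rw [csum_nil, Complex.exp_zero, one_mul, h']
  | cons c l ih =>
    obtain ⟨A, R, R'⟩ := c
    obtain ⟨hA, hR, hR', rfl, hl⟩ := h
    rw [csupp_cons] at hz
    have hzA : z ∉ A := fun h' => hz (Or.inl h')
    have hzl : z ∉ csupp l := fun h' => hz (Or.inr h')
    rw [csum_cons, Complex.exp_add]
    have h1 := tb4_exp (hA.log z hzA) hR hR'
    have h2 := ih hl hzl
    simp only
    rw [mul_comm (Complex.exp (dl A R R' z)), mul_assoc, h1, h2]

/-- (TB6, S) For a closed chain `csum` is an integer multiple of `2πi`.  PROOF.  If `l = []` then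
`csum = 0`, `k = 0`.  Otherwise `P ∈ csupp l` (first triple), so `P ≠ z`, and `tb5_chain` gives
`exp (csum l z) = 1`; `Complex.exp_eq_one_iff`. -/
theorem tb6_closed {P : ℂ} {l : Ch} (h : PathCh P P l) {z : ℂ} (hz : z ∉ csupp l) :
    ∃ k : ℤ, csum l z = k * (2 * Real.pi * Complex.I) := by
  cases l with
  | nil => exact ⟨0, by rw [csum_nil]; simp⟩
  | cons c l =>
    have h5 := tb5_chain h hz
    obtain ⟨A, R, R'⟩ := c
    obtain ⟨hA, hR, hR', rfl, hl⟩ := h
    have hne : R - z ≠ 0 := by
      intro h0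
      rw [sub_eq_zero] at h0
      apply hz
      rw [csupp_cons, ← h0]
      exact Or.inl hR
    have h6 : Complex.exp (csum ((A, R, R') :: l) z) = 1 := by
      have h7 : Complex.exp (csum ((A, R, R') :: l) z) * (R - z) = 1 * (R - z) := by rw [h5, one_mul]
      exact mul_right_cancel₀ hne h7
    exact Complex.exp_eq_one_iff.1 h6

/-- (TB7, S) A closed chain inside a cell `B` does not wind around points outside `B`.
PROOF.  Induction on the list for chains from `P` to `Q` with all cells `⊆ B` and `P ∈ B`: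
`csum l z = dl B P Q z` (by `tb3_mono`, `dl_add`, `dl_self`); then `P = Q`. -/
theorem tb7_inside {P : ℂ} {l : Ch} (h : PathCh P P l) {B : Set ℂ} (hB : Cell B)
    (hl : csupp l ⊆ B) {z : ℂ} (hz : z ∉ B) : csum l z = 0 := by
  have key : ∀ (l : Ch) (P Q : ℂ), PathCh P Q l → csupp l ⊆ B → P ∈ B → csum l z = dl B P Q z := by
    intro l
    induction l with
    | nil =>
      intro P Q h _ _
      have h' : P = Q := h
      rw [csum_nil, h', dl_self]
    | cons c l ih =>
      intro P Q h hl hP
      obtain ⟨A, R, R'⟩ := c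
      obtain ⟨hA, hR, hR', rfl, hl'⟩ := h
      rw [csupp_cons] at hl
      have hAB : A ⊆ B := fun w hw => hl (Or.inl hw)
      rw [csum_cons, ih R' Q hl' (fun w hw => hl (Or.inr hw)) (hAB hR')]
      simp only
      rw [tb3_mono hA.conn hAB (hB.log z hz) hR hR', dl_add]
  cases l with
  | nil => exact csum_nil z
  | cons c l =>
    obtain ⟨A, R, R'⟩ := c
    have h' := h
    obtain ⟨hA, hR, hR', rfl, hl'⟩ := h'
    rw [key _ _ _ h hl (hl (by rw [csupp_cons]; exact Or.inl hR)), dl_self]

/-- (TB8, S) Concatenation of chains.  PROOF.  Induction on `l`. -/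
theorem tb8_append {P Q R : ℂ} {l m : Ch} (hl : PathCh P Q l) (hm : PathCh Q R m) :
    PathCh P R (l ++ m) := by
  induction l generalizing P with
  | nil =>
    have h' : P = Q := hl
    rw [h']
    exact hm
  | cons c l ih =>
    obtain ⟨A, R', R''⟩ := c
    obtain ⟨hA, hR, hR', rfl, hl'⟩ := hl
    exact ⟨hA, hR, hR', rfl, ih hl'⟩

end H53P
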