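import Pool.Agent.Lib.H53P.TD

/-! # H53P, topology, file D2: half circles and the jump across the vertical diameter -/

open Set

namespace H53P

/-- right half of the unit circle -/
def CR : Set ℂ := {z | ‖z‖ = 1 ∧ 0 ≤ z.re}

/-- left half of the unit circle -/
def CL : Set ℂ := {z | ‖z‖ = 1 ∧ z.re ≤ 0}

theorem td2_inj {t s : ℝ} (h : Complex.exp (t * Complex.I) = Complex.exp (s * Complex.I))
    (hd : |t - s| ≤ Real.pi) : t = s := by
  rw [Complex.exp_eq_exp_iff_exists_int] at h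
  obtain ⟨n, hn⟩ := h
  have h1 : (t : ℂ) = s + n * (2 * Real.pi) := by
    have h2 : ((t : ℂ) - (s + n * (2 * Real.pi))) * Complex.I = 0 := by linear_combination hn
    rcases mul_eq_zero.1 h2 with h3 | h3
    · exact sub_eq_zero.1 h3
    · exact absurd h3 Complex.I_ne_zero
  have h2 : t = s + n * (2 * Real.pi) := by exact_mod_cast h1
  have h3 : t - s = n * (2 * Real.pi) := by rw [h2]; ring
  rw [h3, abs_mul, abs_of_pos (by positivity : (0 : ℝ) < 2 * Real.pi)] at hd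
  have hn0 : n = 0 := by
    by_contra hne
    have h4 : (1 : ℝ) ≤ |(n : ℝ)| := by exact_mod_cast Int.one_le_abs hne
    nlinarith [Real.pi_pos]
  rw [hn0] at h2
  simpa using h2

theorem td2_CR : CR = (fun t : ℝ => Complex.exp (t * Complex.I)) '' Icc (-(Real.pi / 2)) (Real.pi / 2) := by
  ext z
  constructor
  · rintro ⟨h1, h2⟩
    refine ⟨z.arg, abs_le.1 (Complex.abs_arg_le_pi_div_two_iff.2 h2), ?_⟩
    have h3 := Complex.norm_mul_exp_arg_mul_I z
    rw [h1] at h3
    simpa using h3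
  · rintro ⟨t, ht, rfl⟩
    refine ⟨Complex.norm_exp_ofReal_mul_I t, ?_⟩
    rw [Complex.exp_ofReal_mul_I_re]
    exact Real.cos_nonneg_of_mem_Icc ht

theorem td2_shift (t : ℝ) : Complex.exp (((t + Real.pi : ℝ) : ℂ) * Complex.I) = -Complex.exp (t * Complex.I) := by
  push_cast
  rw [add_mul, Complex.exp_add, Complex.exp_pi_mul_I]
  ring

theorem td2_CL : CL = (fun t : ℝ => Complex.exp (t * Complex.I)) '' Icc (Real.pi / 2) (3 * Real.pi / 2) := by
  ext z
  constructor
  · rintro ⟨h1, h2⟩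
    have h3 : -z ∈ CR := ⟨by rw [norm_neg, h1], by rw [Complex.neg_re]; linarith⟩
    rw [td2_CR] at h3
    obtain ⟨t, ht, e⟩ := h3
    refine ⟨t + Real.pi, ⟨by linarith [ht.1], by linarith [ht.2]⟩, ?_⟩
    show Complex.exp (((t + Real.pi : ℝ) : ℂ) * Complex.I) = z
    rw [td2_shift]
    change Complex.exp (t * Complex.I) = -z at e
    rw [e, neg_neg]
  · rintro ⟨t, ht, rfl⟩
    refine ⟨Complex.norm_exp_ofReal_mul_I t, ?_⟩
    rw [Complex.exp_ofReal_mul_I_re]
    exact Real.cos_nonpos_of_pi_div_two_le_of_le ht.1 (by linarith [ht.2])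

theorem td2_ball (t : ℝ) : Complex.exp (t * Complex.I) ∈ Metric.closedBall (0 : ℂ) 1 := by
  rw [mem_closedBall_zero_iff, Complex.norm_exp_ofReal_mul_I]

theorem td2_aux {h : ℂ → ℂ} (hc : ContinuousOn h (Metric.closedBall 0 1))
    (hi : InjOn h (Metric.closedBall 0 1)) {α β : ℝ} (hαβ : β - α ≤ Real.pi) :
    Cell (h '' ((fun t : ℝ => Complex.exp (t * Complex.I)) '' Icc α β)) := by
  rw [← image_comp]
  refine ta3_cell (E := ℝ) isCompact_Icc (convex_Icc _ _) ?_ ?_
  · exact hc.comp (Continuous.continuousOn (by fun_prop)) fun t _ => td2_ball t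
  · intro t ht s hs hts
    refine td2_inj (hi (td2_ball t) (td2_ball s) hts) ?_
    rw [abs_le]
    exact ⟨by linarith [ht.1, hs.2], by linarith [ht.2, hs.1]⟩

/-- (TD2, S/M) The images of the two half circles are cells.
PROOF.  `CR` is the image of `Icc (-π/2) (π/2)` under `t ↦ e^{it}` and `CL` the image of
`Icc (π/2) (3π/2)`, injective on these intervals (`Complex.arg` or: `e^{it} = e^{is}` iff
`t - s ∈ 2πℤ`).  Then `h '' CR` is the image of a compact interval under a continuous injective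
map; use `ta3_cell` with `E = ℝ`. -/
theorem td2_cells {h : ℂ → ℂ} (hc : ContinuousOn h (Metric.closedBall 0 1))
    (hi : InjOn h (Metric.closedBall 0 1)) : Cell (h '' CR) ∧ Cell (h '' CL) := by
  rw [td2_CR, td2_CL]
  exact ⟨td2_aux hc hi (by linarith), td2_aux hc hi (by linarith)⟩

theorem td3_param (t : ℝ) : -Complex.I * Complex.exp (t * Complex.I) = ⟨Real.sin t, -Real.cos t⟩ := by
  apply Complex.ext
  · rw [Complex.mul_re, Complex.neg_re, Complex.neg_im, Complex.I_re, Complex.I_im, Complex.exp_ofReal_mul_I_im]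
    simp
  · rw [Complex.mul_im, Complex.neg_re, Complex.neg_im, Complex.I_re, Complex.I_im, Complex.exp_ofReal_mul_I_re]
    simp

theorem td3_norm (t : ℝ) : ‖-Complex.I * Complex.exp (t * Complex.I)‖ = 1 := by
  rw [norm_mul, norm_neg, Complex.norm_I, one_mul, Complex.norm_exp_ofReal_mul_I]

theorem td3_half {A : Set ℂ} (hA : Cell A) {z : ℂ} (hz : z ∉ A) {L : ℝ → ℂ} {g : ℝ → ℂ} {α β : ℝ} (hαβ : α ≤ β)
    (hL : ContinuousOn L (Icc α β)) (hg : ContinuousOn g (Icc α β)) (hE : ∀ t ∈ Icc α β, Complex.exp (L t) = g t - z)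
    (hm : ∀ t ∈ Icc α β, g t ∈ A) : dl A (g α) (g β) z = L β - L α := by
  obtain ⟨L', hL'⟩ := hA.log z hz
  have mα : α ∈ Icc α β := ⟨le_rfl, hαβ⟩
  have mβ : β ∈ Icc α β := ⟨hαβ, le_rfl⟩
  rw [tb2_dl hA.conn hL' (hm α mα) (hm β mβ)]
  have h := tb1_const (A := Icc α β) isPreconnected_Icc (f := fun t => L' (g t) - L t)
    ((hL'.1.comp hg hm).sub hL) (by
      intro t ht
      rw [Complex.exp_sub, hL'.2 _ (hm t ht), hE t ht]
      refine div_self ?_
      intro h0
      exact hz (by rw [← sub_eq_zero.1 h0]; exact hm t ht)) mα mβ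
  linear_combination -h

/-- (TD3, M) The circle winds an odd number of times around `h 0`.
PROOF.  Choose (ta1_star_log with `E = ℝ`, `K = Icc 0 (2π)`... or on a longer interval
`Icc (-π/2) (3π/2)`; the statement of `td1_borsuk` is for `Icc 0 (2π)`, apply it to
`h ∘ (· * e^{-iπ/2})`, i.e. `h' z = h (-I * z)`, which is again continuous and injective on the
closed disc with `h' 0 = h 0`): let `L` be continuous on `Icc 0 (2π)` with
`exp (L t) = h (-I * e^{it}) - h 0`.  For `t ∈ [0, π]` the point `-I e^{it}` runs through `CR` from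
`-I` to `I`, for `t ∈ [π, 2π]` through `CL` from `I` to `-I`.  A logarithm of `w - h 0` on `h '' CR`
(it exists, `td2_cells` and `h 0 ∉ h '' CR`) composed with `t ↦ h (-I e^{it})` differs from `L` by a
constant on `[0, π]` (`tb1_const`), so `dl (h '' CR) (h (-I)) (h I) (h 0) = L π - L 0`; similarly
`dl (h '' CL) (h I) (h (-I)) (h 0) = L (2π) - L π`.  Add and use `td1_borsuk`. -/
theorem td3_circle {h : ℂ → ℂ} (hc : ContinuousOn h (Metric.closedBall 0 1))
    (hi : InjOn h (Metric.closedBall 0 1)) :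
    ∃ m : ℤ, dl (h '' CR) (h (-Complex.I)) (h Complex.I) (h 0) +
      dl (h '' CL) (h Complex.I) (h (-Complex.I)) (h 0) = (2 * m + 1) * (2 * Real.pi * Complex.I) := by
  have hpi := Real.pi_pos
  have hrot : MapsTo (fun z : ℂ => -Complex.I * z) (Metric.closedBall 0 1) (Metric.closedBall 0 1) := by
    intro z hz
    rw [mem_closedBall_zero_iff] at hz ⊢
    rwa [norm_mul, norm_neg, Complex.norm_I, one_mul]
  have hc' : ContinuousOn (fun z => h (-Complex.I * z)) (Metric.closedBall 0 1) :=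
    hc.comp (Continuous.continuousOn (by fun_prop)) hrot
  have hi' : InjOn (fun z => h (-Complex.I * z)) (Metric.closedBall 0 1) := by
    intro z hz w hw hzw
    exact mul_right_injective₀ (neg_ne_zero.2 Complex.I_ne_zero) (hi (hrot hz) (hrot hw) hzw)
  have h0mem : (0 : ℂ) ∈ Metric.closedBall (0 : ℂ) 1 := by
    rw [mem_closedBall_zero_iff, norm_zero]
    exact zero_le_one
  have hout : ∀ z : ℂ, ‖z‖ = 1 → z ∈ Metric.closedBall (0 : ℂ) 1 := by
    intro z hz
    rw [mem_closedBall_zero_iff, hz]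
  have hgc : Continuous (fun t : ℝ => -Complex.I * Complex.exp (t * Complex.I)) := by fun_prop
  have hg : ContinuousOn (fun t : ℝ => h (-Complex.I * Complex.exp (t * Complex.I))) univ :=
    hc.comp hgc.continuousOn fun t _ => hout _ (td3_norm t)
  have hne : ∀ t : ℝ, h (-Complex.I * Complex.exp (t * Complex.I)) - h 0 ≠ 0 := by
    intro t h1
    have h2 := hi (hout _ (td3_norm t)) h0mem (sub_eq_zero.1 h1)
    have h3 := td3_norm t
    rw [h2, norm_zero] at h3
    exact zero_ne_one h3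
  obtain ⟨L, hL, hE⟩ := ta1_star_log (E := ℝ) (K := Icc 0 (2 * Real.pi)) (x₀ := 0) isCompact_Icc
    ((convex_Icc (0 : ℝ) (2 * Real.pi)).starConvex ⟨le_rfl, by positivity⟩)
    (g := fun t : ℝ => h (-Complex.I * Complex.exp (t * Complex.I)) - h 0)
    ((hg.mono (subset_univ _)).sub continuousOn_const) (fun t _ => hne t)
  obtain ⟨m, hm⟩ := td1_borsuk hc' hi' (L := L) hL (by
    intro t ht
    rw [hE t ht, mul_zero])
  obtain ⟨cR, cL⟩ := td2_cells hc hi
  have nR : h 0 ∉ h '' CR := by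
    rintro ⟨z, hz, e⟩
    have := hi (hout z hz.1) h0mem e
    rw [this] at hz
    have h3 := hz.1
    rw [norm_zero] at h3
    exact zero_ne_one h3
  have nL : h 0 ∉ h '' CL := by
    rintro ⟨z, hz, e⟩
    have := hi (hout z hz.1) h0mem e
    rw [this] at hz
    have h3 := hz.1
    rw [norm_zero] at h3
    exact zero_ne_one h3
  have s1 : Icc 0 Real.pi ⊆ Icc 0 (2 * Real.pi) := Icc_subset_Icc le_rfl (by linarith)
  have s2 : Icc Real.pi (2 * Real.pi) ⊆ Icc 0 (2 * Real.pi) := Icc_subset_Icc hpi.le le_rfl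
  have e1 := td3_half cR nR hpi.le (hL.mono s1) (hg.mono (subset_univ _)) (fun t ht => hE t (s1 ht)) (by
    intro t ht
    refine ⟨_, ⟨td3_norm t, ?_⟩, rfl⟩
    rw [td3_param]
    exact Real.sin_nonneg_of_mem_Icc ht)
  have e2 := td3_half cL nL (by linarith : Real.pi ≤ 2 * Real.pi) (hL.mono s2) (hg.mono (subset_univ _))
    (fun t ht => hE t (s2 ht)) (by
    intro t ht
    refine ⟨_, ⟨td3_norm t, ?_⟩, rfl⟩
    rw [td3_param]
    show Real.sin t ≤ 0
    have h4 : Real.sin t = -Real.sin (t - Real.pi) := by rw [Real.sin_sub_pi]; ring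
    rw [h4, neg_nonpos]
    exact Real.sin_nonneg_of_mem_Icc ⟨by linarith [ht.1], by linarith [ht.2]⟩)
  have p0 : -Complex.I * Complex.exp (((0 : ℝ) : ℂ) * Complex.I) = -Complex.I := by
    rw [Complex.ofReal_zero, zero_mul, Complex.exp_zero, mul_one]
  have p1 : -Complex.I * Complex.exp ((Real.pi : ℂ) * Complex.I) = Complex.I := by
    rw [Complex.exp_pi_mul_I]
    ring
  have p2 : -Complex.I * Complex.exp (((2 * Real.pi : ℝ) : ℂ) * Complex.I) = -Complex.I := by
    push_cast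
    rw [Complex.exp_two_pi_mul_I, mul_one]
  rw [p0, p1] at e1
  rw [p1, p2] at e2
  refine ⟨m, ?_⟩
  rw [e1, e2, ← hm]
  ring

/-- (TD4, S/M) The same around every interior point.
PROOF.  The chain `[(h '' CR, h (-I), h I), (h '' CL, h I, h (-I))]` is closed, its support is
disjoint from the preconnected set `h '' ball 0 1` (injectivity); `tc3_const` and `td3_circle`. -/
theorem td4_circle {h : ℂ → ℂ} (hc : ContinuousOn h (Metric.closedBall 0 1))
    (hi : InjOn h (Metric.closedBall 0 1)) {ζ : ℂ} (hζ : ‖ζ‖ < 1) :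
    ∃ m : ℤ, dl (h '' CR) (h (-Complex.I)) (h Complex.I) (h ζ) +
      dl (h '' CL) (h Complex.I) (h (-Complex.I)) (h ζ) = (2 * m + 1) * (2 * Real.pi * Complex.I) := by
  obtain ⟨cR, cL⟩ := td2_cells hc hi
  obtain ⟨m, hm⟩ := td3_circle hc hi
  have iR : Complex.I ∈ CR := ⟨Complex.norm_I, by rw [Complex.I_re]⟩
  have iR' : -Complex.I ∈ CR := ⟨by rw [norm_neg, Complex.norm_I], by rw [Complex.neg_re, Complex.I_re, neg_zero]⟩
  have iL : Complex.I ∈ CL := ⟨Complex.norm_I, by rw [Complex.I_re]⟩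
  have iL' : -Complex.I ∈ CL := ⟨by rw [norm_neg, Complex.norm_I], by rw [Complex.neg_re, Complex.I_re, neg_zero]⟩
  have hch : PathCh (h (-Complex.I)) (h (-Complex.I)) [(h '' CR, h (-Complex.I), h Complex.I),
      (h '' CL, h Complex.I, h (-Complex.I))] :=
    ⟨cR, mem_image_of_mem h iR', mem_image_of_mem h iR, rfl, cL, mem_image_of_mem h iL, mem_image_of_mem h iL', rfl,
      rfl⟩
  have hsub : Metric.ball (0 : ℂ) 1 ⊆ Metric.closedBall 0 1 := Metric.ball_subset_closedBall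
  have hpre : IsPreconnected (h '' Metric.ball 0 1) :=
    (convex_ball (0 : ℂ) 1).isPreconnected.image h (hc.mono hsub)
  have hdis : Disjoint (h '' Metric.ball 0 1) (csupp [(h '' CR, h (-Complex.I), h Complex.I),
      (h '' CL, h Complex.I, h (-Complex.I))]) := by
    rw [Set.disjoint_left]
    rintro _ ⟨z, hz, rfl⟩ hw
    have hz' : ‖z‖ < 1 := by rwa [mem_ball_zero_iff] at hz
    have key : ∀ w : ℂ, ‖w‖ = 1 → h w ≠ h z := by
      intro w hw e
      have h1 : w ∈ Metric.closedBall (0 : ℂ) 1 := by rw [mem_closedBall_zero_iff, hw]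
      rw [hi h1 (hsub hz) e] at hw
      linarith
    simp only [csupp_cons, csupp_nil, union_empty] at hw
    rcases hw with ⟨w, hw, e⟩ | ⟨w, hw, e⟩
    · exact key w hw.1 e
    · exact key w hw.1 e
  have h1 := tc3_const hch hpre hdis (z := h ζ) (z' := h 0) (mem_image_of_mem h (by rwa [mem_ball_zero_iff]))
    (mem_image_of_mem h (by rw [mem_ball_zero_iff, norm_zero]; exact zero_lt_one))
  refine ⟨m, ?_⟩
  simp only [csum_cons, csum_nil, add_zero] at h1
  rw [h1, hm]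

/-- the vertical diameter -/
def SD : Set ℂ := {z | ‖z‖ ≤ 1 ∧ z.re = 0}

/-- (TD5, M) The jump across the vertical diameter.
PROOF.  `HR = {‖z‖ ≤ 1, 0 ≤ re}` and `HL = {‖z‖ ≤ 1, re ≤ 0}` are compact and convex, so `h '' HR`,
`h '' HL` are cells (`ta3_cell`), as is `h '' SD`.  `h ζ₁ ∉ h '' HR` and `SD ∪ CR ⊆ HR`, so by
`tb3_mono` both `dl (h '' SD) (h (-I)) (h I) (h ζ₁)` and `dl (h '' CR) (h (-I)) (h I) (h ζ₁)` equal
`dl (h '' HR) ...`, and the first bracket is `0`.  In the same way at `h ζ₂ ∉ h '' HL`: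
`dl (h '' SD) (h (-I)) (h I) (h ζ₂) = dl (h '' CL) (h (-I)) (h I) (h ζ₂)
= - dl (h '' CL) (h I) (h (-I)) (h ζ₂)`, so the second bracket is minus the sum in `td4_circle`. -/
theorem td5_jump {h : ℂ → ℂ} (hc : ContinuousOn h (Metric.closedBall 0 1))
    (hi : InjOn h (Metric.closedBall 0 1)) {ζ₁ ζ₂ : ℂ} (h1 : ‖ζ₁‖ < 1) (h1' : ζ₁.re < 0)
    (h2 : ‖ζ₂‖ < 1) (h2' : 0 < ζ₂.re) :
    Cell (h '' SD) ∧
    dl (h '' SD) (h (-Complex.I)) (h Complex.I) (h ζ₁) -
      dl (h '' CR) (h (-Complex.I)) (h Complex.I) (h ζ₁) = 0 ∧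
    ∃ m : ℤ, dl (h '' SD) (h (-Complex.I)) (h Complex.I) (h ζ₂) -
      dl (h '' CR) (h (-Complex.I)) (h Complex.I) (h ζ₂) =
        (2 * m + 1) * (2 * Real.pi * Complex.I) := by
  have hB : ∀ z : ℂ, ‖z‖ ≤ 1 → z ∈ Metric.closedBall (0 : ℂ) 1 := fun z hz => by rwa [mem_closedBall_zero_iff]
  obtain ⟨cR, cL⟩ := td2_cells hc hi
  have cSD : Cell (h '' SD) := by
    have e : SD = Metric.closedBall (0 : ℂ) 1 ∩ {z | z.re = 0} := by
      ext z
      rw [mem_inter_iff, mem_closedBall_zero_iff]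
      rfl
    have hcl : IsClosed {z : ℂ | z.re = 0} := isClosed_eq Complex.continuous_re continuous_const
    have hcv : Convex ℝ {z : ℂ | z.re = 0} := convex_hyperplane (f := Complex.re)
      ⟨Complex.add_re, fun c x => by rw [Complex.real_smul, Complex.re_ofReal_mul, smul_eq_mul]⟩ 0
    have hsub : SD ⊆ Metric.closedBall (0 : ℂ) 1 := fun z hz => hB z hz.1
    refine ta3_cell (K := SD) ?_ ?_ (hc.mono hsub) (hi.mono hsub)
    · rw [e]
      exact (isCompact_closedBall _ _).inter_right hcl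
    · rw [e]
      exact (convex_closedBall _ _).inter hcv
  have cHR : Cell (h '' {z : ℂ | ‖z‖ ≤ 1 ∧ 0 ≤ z.re}) := by
    have e : {z : ℂ | ‖z‖ ≤ 1 ∧ 0 ≤ z.re} = Metric.closedBall (0 : ℂ) 1 ∩ {z | 0 ≤ z.re} := by
      ext z
      rw [mem_inter_iff, mem_closedBall_zero_iff]
      rfl
    have hcl : IsClosed {z : ℂ | 0 ≤ z.re} := isClosed_le continuous_const Complex.continuous_re
    have hsub : {z : ℂ | ‖z‖ ≤ 1 ∧ 0 ≤ z.re} ⊆ Metric.closedBall (0 : ℂ) 1 := fun z hz => hB z hz.1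
    refine ta3_cell ?_ ?_ (hc.mono hsub) (hi.mono hsub)
    · rw [e]
      exact (isCompact_closedBall _ _).inter_right hcl
    · rw [e]
      exact (convex_closedBall _ _).inter (convex_halfSpace_re_ge 0)
  have cHL : Cell (h '' {z : ℂ | ‖z‖ ≤ 1 ∧ z.re ≤ 0}) := by
    have e : {z : ℂ | ‖z‖ ≤ 1 ∧ z.re ≤ 0} = Metric.closedBall (0 : ℂ) 1 ∩ {z | z.re ≤ 0} := by
      ext z
      rw [mem_inter_iff, mem_closedBall_zero_iff]
      rfl
    have hcl : IsClosed {z : ℂ | z.re ≤ 0} := isClosed_le Complex.continuous_re continuous_const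
    have hsub : {z : ℂ | ‖z‖ ≤ 1 ∧ z.re ≤ 0} ⊆ Metric.closedBall (0 : ℂ) 1 := fun z hz => hB z hz.1
    refine ta3_cell ?_ ?_ (hc.mono hsub) (hi.mono hsub)
    · rw [e]
      exact (isCompact_closedBall _ _).inter_right hcl
    · rw [e]
      exact (convex_closedBall _ _).inter (convex_halfSpace_re_le 0)
  have iR : Complex.I ∈ CR := ⟨Complex.norm_I, by rw [Complex.I_re]⟩
  have iR' : -Complex.I ∈ CR := ⟨by rw [norm_neg, Complex.norm_I], by rw [Complex.neg_re, Complex.I_re, neg_zero]⟩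
  have iL : Complex.I ∈ CL := ⟨Complex.norm_I, by rw [Complex.I_re]⟩
  have iL' : -Complex.I ∈ CL := ⟨by rw [norm_neg, Complex.norm_I], by rw [Complex.neg_re, Complex.I_re, neg_zero]⟩
  have iS : Complex.I ∈ SD := ⟨Complex.norm_I.le, by rw [Complex.I_re]⟩
  have iS' : -Complex.I ∈ SD := ⟨by rw [norm_neg, Complex.norm_I], by rw [Complex.neg_re, Complex.I_re, neg_zero]⟩
  refine ⟨cSD, ?_, ?_⟩
  · have hz : h ζ₁ ∉ h '' {z : ℂ | ‖z‖ ≤ 1 ∧ 0 ≤ z.re} := by
      rintro ⟨w, hw, e⟩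
      rw [hi (hB w hw.1) (hB ζ₁ h1.le) e] at hw
      linarith [hw.2]
    have hl := cHR.log _ hz
    rw [tb3_mono cSD.conn (image_mono (show SD ⊆ {z : ℂ | ‖z‖ ≤ 1 ∧ 0 ≤ z.re} from fun z hz => ⟨hz.1, hz.2.ge⟩)) hl (mem_image_of_mem h iS')
      (mem_image_of_mem h iS),
      tb3_mono cR.conn (image_mono (show CR ⊆ {z : ℂ | ‖z‖ ≤ 1 ∧ 0 ≤ z.re} from fun z hz => ⟨hz.1.le, hz.2⟩)) hl (mem_image_of_mem h iR')
      (mem_image_of_mem h iR), sub_self]
  · have hz : h ζ₂ ∉ h '' {z : ℂ | ‖z‖ ≤ 1 ∧ z.re ≤ 0} := by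
      rintro ⟨w, hw, e⟩
      rw [hi (hB w hw.1) (hB ζ₂ h2.le) e] at hw
      linarith [hw.2]
    have hl := cHL.log _ hz
    obtain ⟨m, hm⟩ := td4_circle hc hi h2
    have e1 := tb3_mono cSD.conn (image_mono (show SD ⊆ {z : ℂ | ‖z‖ ≤ 1 ∧ z.re ≤ 0} from fun z hz => ⟨hz.1, hz.2.le⟩)) hl (mem_image_of_mem h iS')
      (mem_image_of_mem h iS)
    have e2 := tb3_mono cL.conn (image_mono (show CL ⊆ {z : ℂ | ‖z‖ ≤ 1 ∧ z.re ≤ 0} from fun z hz => ⟨hz.1.le, hz.2⟩)) hl (mem_image_of_mem h iL')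
      (mem_image_of_mem h iL)
    have e3 := dl_symm (h '' CL) (h (-Complex.I)) (h Complex.I) (h ζ₂)
    refine ⟨-m - 1, ?_⟩
    rw [e1, ← e2, e3]
    push_cast
    linear_combination -hm

end H53P
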