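import Pool.Agent.Lib.H53P.TD2
import Pool.Agent.SimpleDraw.Defs

/-! # H53P, topology, file E1: parametrised arcs, local form of a chart along an arc -/

open Set

namespace H53P

/-- `γ` parametrises the arc `e` from `a` to `b` -/
structure Par (γ : ℝ → ℂ) (e : Set ℂ) (a b : ℂ) : Prop where
  cont : ContinuousOn γ (Icc 0 1)
  inj : InjOn γ (Icc 0 1)
  zero : γ 0 = a
  one : γ 1 = b
  image : γ '' Icc 0 1 = e

/-- (TE0, S) sub-arcs are cells.  PROOF.  `ta3_cell` with `E = ℝ`, `K = Icc s t` compact convex. -/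
theorem te0_cell {γ : ℝ → ℂ} {e : Set ℂ} {a b : ℂ} (h : Par γ e a b) {s t : ℝ} (hs : 0 ≤ s)
    (ht : t ≤ 1) : Cell (γ '' Icc s t) :=
  ta3_cell isCompact_Icc (convex_Icc s t) (h.cont.mono (Icc_subset_Icc hs ht))
    (h.inj.mono (Icc_subset_Icc hs ht))

/-- (TE1, M) Local form of a chart along an arc.  `γ` runs in the vertical axis of the chart, and
`s ↦ im (H (γ s))` is strictly monotone near `t₀`; choose a small disc.
PROOF.  `γ` is continuous at `t₀ ∈ (0,1)`, `H.source` is open: choose `δ` with `[t₀-δ, t₀+δ] ⊆ (0,1)`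
and `γ` mapping it into `H.source`.  There `φ s = im (H (γ s))` is continuous and injective
(`re (H (γ s)) = 0` by `hf` as `γ s ∈ f`, `H` is injective on its source, `γ` is injective), so
strictly monotone or strictly antitone (`ContinuousOn.strictMonoOn_of_injOn_Icc'`), and
`φ t₀ = 0`.  The set `K = γ '' (Icc 0 (t₀-δ) ∪ Icc (t₀+δ) 1) ∪ C` is compact and does not contain
`P = H.symm 0`; `H.symm` is continuous at `0` on the open set `H.target`.  Choose `ε₀ > 0` with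
`closedBall 0 ε₀ ⊆ H.target`, `H.symm '' closedBall 0 ε₀` disjoint from `K` and
`ε₀ < |φ (t₀ ± δ)|`.  For `0 < ε ≤ ε₀`: the intermediate value theorem gives
`t₁ ∈ (t₀-δ, t₀)` and `t₂ ∈ (t₀, t₀+δ)` with `φ t₁ = - σ ε`, `φ t₂ = σ ε` (`σ = 1` in the monotone
case, `σ = -1` in the antitone case).  Then `γ '' Icc t₁ t₂ = H.symm '' {re = 0, ‖z‖ ≤ ε}`
(`γ s = H.symm (i φ s)` and `φ` maps `[t₁, t₂]` onto `[-ε, ε]`), and for `s ∈ [0,1] \ (t₁, t₂)` the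
point `γ s` is not in `H.symm '' ball 0 ε` (if `s ∉ [t₀-δ,t₀+δ]` by the choice of `ε₀`; otherwise
`|φ s| ≥ ε` and `H (H.symm ζ) = ζ`). -/
theorem te1_local {γ : ℝ → ℂ} {f : Set ℂ} {a b P : ℂ} (h : Par γ f a b) {t₀ : ℝ}
    (ht : t₀ ∈ Ioo (0 : ℝ) 1) (hP : γ t₀ = P) {C : Set ℂ} (hC : IsCompact C) (hPC : P ∉ C)
    (H : OpenPartialHomeomorph ℂ ℂ) (hs : P ∈ H.source) (h0 : H P = 0)
    (hf : ∀ z ∈ H.source, (z ∈ f ↔ (H z).re = 0)) :
    ∃ ε₀ > 0, Metric.closedBall 0 ε₀ ⊆ H.target ∧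
      Disjoint (H.symm '' Metric.closedBall 0 ε₀) C ∧ ∀ ε, 0 < ε → ε ≤ ε₀ →
      ∃ t₁ t₂ σ : ℝ, 0 < t₁ ∧ t₁ < t₀ ∧ t₀ < t₂ ∧ t₂ < 1 ∧ (σ = 1 ∨ σ = -1) ∧
        γ t₁ = H.symm (-(σ * ε * Complex.I)) ∧ γ t₂ = H.symm (σ * ε * Complex.I) ∧
        γ '' Icc t₁ t₂ = H.symm '' {z | ‖z‖ ≤ ε ∧ z.re = 0} ∧
        ∀ s ∈ Icc (0 : ℝ) 1, s ∉ Ioo t₁ t₂ → γ s ∉ H.symm '' Metric.ball 0 ε := by
  -- the interval
  have hγ0 : ContinuousAt γ t₀ := h.cont.continuousAt (Icc_mem_nhds ht.1 ht.2)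
  have hn : γ ⁻¹' H.source ∩ Ioo 0 1 ∈ nhds t₀ := by
    refine Filter.inter_mem (hγ0.preimage_mem_nhds (H.open_source.mem_nhds ?_)) (Ioo_mem_nhds ht.1 ht.2)
    rw [hP]
    exact hs
  obtain ⟨δ', hδ', hball⟩ := Metric.mem_nhds_iff.1 hn
  obtain ⟨s₀, s₁, hs₀, hs₁, hsub⟩ : ∃ s₀ s₁ : ℝ, s₀ < t₀ ∧ t₀ < s₁ ∧
      Icc s₀ s₁ ⊆ γ ⁻¹' H.source ∩ Ioo 0 1 := by
    refine ⟨t₀ - δ' / 2, t₀ + δ' / 2, by linarith, by linarith, fun s hs => hball ?_⟩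
    rw [Metric.mem_ball, Real.dist_eq, abs_lt]
    constructor
    · linarith [hs.1]
    · linarith [hs.2]
  have hs01 : s₀ < s₁ := hs₀.trans hs₁
  have h00 : 0 < s₀ := (hsub ⟨le_refl _, hs01.le⟩).2.1
  have h11 : s₁ < 1 := (hsub ⟨hs01.le, le_refl _⟩).2.2
  have hI : Icc s₀ s₁ ⊆ Icc 0 1 := Icc_subset_Icc h00.le h11.le
  have hsrc : ∀ s ∈ Icc s₀ s₁, γ s ∈ H.source := fun s hs => (hsub hs).1
  have hre : ∀ s ∈ Icc s₀ s₁, (H (γ s)).re = 0 := fun s hs =>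
    (hf _ (hsrc s hs)).1 (h.image ▸ mem_image_of_mem γ (hI hs))
  have hφc : ContinuousOn (fun s => (H (γ s)).im) (Icc s₀ s₁) :=
    Complex.continuous_im.comp_continuousOn (H.continuousOn.comp (h.cont.mono hI) hsrc)
  have hφi : InjOn (fun s => (H (γ s)).im) (Icc s₀ s₁) := by
    intro s hs t ht' he
    refine h.inj (hI hs) (hI ht') (H.injOn (hsrc s hs) (hsrc t ht') ?_)
    exact Complex.ext ((hre s hs).trans (hre t ht').symm) he
  have ht₀ : t₀ ∈ Icc s₀ s₁ := ⟨hs₀.le, hs₁.le⟩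
  obtain ⟨σ, hσ, hmono⟩ : ∃ σ : ℝ, (σ = 1 ∨ σ = -1) ∧
      StrictMonoOn (fun s => σ * (H (γ s)).im) (Icc s₀ s₁) := by
    rcases ContinuousOn.strictMonoOn_of_injOn_Icc' hs01.le hφc hφi with h1 | h1
    · exact ⟨1, Or.inl rfl, by simpa using h1⟩
    · refine ⟨-1, Or.inr rfl, ?_⟩
      intro s hs t ht' hst
      have := h1 hs ht' hst
      simp only [neg_mul, one_mul]
      exact neg_lt_neg this
  have hσσ : σ * σ = 1 := by
    rcases hσ with rfl | rfl <;> norm_num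
  have hσa : |σ| = 1 := by
    rcases hσ with rfl | rfl <;> simp
  set ψ : ℝ → ℝ := fun s => σ * (H (γ s)).im with hψ
  have hψc : ContinuousOn ψ (Icc s₀ s₁) := continuousOn_const.mul hφc
  have hHγ : ∀ s ∈ Icc s₀ s₁, H (γ s) = ((σ * ψ s : ℝ) : ℂ) * Complex.I := by
    intro s hs
    apply Complex.ext
    · rw [hre s hs]
      simp
    · simp only [hψ]
      rw [← mul_assoc, hσσ, one_mul]
      simp
  have hψn : ∀ s ∈ Icc s₀ s₁, ‖H (γ s)‖ = |ψ s| := by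
    intro s hs
    rw [hHγ s hs, norm_mul, Complex.norm_I, mul_one, Complex.norm_real, Real.norm_eq_abs, abs_mul, hσa,
      one_mul]
  have hψ0 : ψ t₀ = 0 := by
    simp only [hψ]
    rw [hP, h0]
    simp
  have hψs₀ : ψ s₀ < 0 := by
    rw [← hψ0]
    exact hmono ⟨le_refl _, hs01.le⟩ ht₀ hs₀
  have hψs₁ : 0 < ψ s₁ := by
    rw [← hψ0]
    exact hmono ht₀ ⟨hs01.le, le_refl _⟩ hs₁
  -- the compact set
  have hKc : IsCompact (γ '' (Icc 0 s₀ ∪ Icc s₁ 1) ∪ C) := by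
    refine IsCompact.union ?_ hC
    refine (isCompact_Icc.union isCompact_Icc).image_of_continuousOn (h.cont.mono ?_)
    rintro s (hs | hs)
    · exact ⟨hs.1, hs.2.trans (hs01.le.trans h11.le)⟩
    · exact ⟨h00.le.trans (hs01.le.trans hs.1), hs.2⟩
  have hPK : P ∉ γ '' (Icc 0 s₀ ∪ Icc s₁ 1) ∪ C := by
    rintro (⟨s, hs, hsP⟩ | hPC')
    · have h01 : s ∈ Icc (0 : ℝ) 1 := by
        rcases hs with hs | hs
        · exact ⟨hs.1, hs.2.trans (hs01.le.trans h11.le)⟩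
        · exact ⟨h00.le.trans (hs01.le.trans hs.1), hs.2⟩
      have : s = t₀ := h.inj h01 (hI ht₀) (hsP.trans hP.symm)
      rcases hs with hs | hs
      · linarith [hs.2]
      · linarith [hs.1]
    · exact hPC hPC'
  have h0t : (0 : ℂ) ∈ H.target := by
    rw [← h0]
    exact H.map_source hs
  have hsymm0 : H.symm 0 = P := by
    rw [← h0]
    exact H.left_inv hs
  have hn2 : H.target ∩ H.symm ⁻¹' (γ '' (Icc 0 s₀ ∪ Icc s₁ 1) ∪ C)ᶜ ∈ nhds (0 : ℂ) := by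
    refine Filter.inter_mem (H.open_target.mem_nhds h0t) ?_
    refine (H.continuousAt_symm h0t).preimage_mem_nhds ?_
    rw [hsymm0]
    exact hKc.isClosed.isOpen_compl.mem_nhds hPK
  obtain ⟨ε', hε', hball2⟩ := Metric.mem_nhds_iff.1 hn2
  set ε₀ : ℝ := min (ε' / 2) (min (-ψ s₀) (ψ s₁) / 2) with hε₀
  have hm0 : 0 < min (-ψ s₀) (ψ s₁) := lt_min (by linarith) hψs₁
  have hε₀0 : 0 < ε₀ := lt_min (by linarith) (by linarith)
  have he1 : ε₀ < ε' := (min_le_left _ _).trans_lt (by linarith)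
  have he2 : ε₀ < -ψ s₀ := by
    have h1 : ε₀ ≤ min (-ψ s₀) (ψ s₁) / 2 := min_le_right _ _
    have h2 : min (-ψ s₀) (ψ s₁) ≤ -ψ s₀ := min_le_left _ _
    linarith
  have he3 : ε₀ < ψ s₁ := by
    have h1 : ε₀ ≤ min (-ψ s₀) (ψ s₁) / 2 := min_le_right _ _
    have h2 : min (-ψ s₀) (ψ s₁) ≤ ψ s₁ := min_le_right _ _
    linarith
  have hcb : Metric.closedBall (0 : ℂ) ε₀ ⊆ H.target ∩ H.symm ⁻¹' (γ '' (Icc 0 s₀ ∪ Icc s₁ 1) ∪ C)ᶜ :=
    (Metric.closedBall_subset_ball he1).trans hball2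
  refine ⟨ε₀, hε₀0, fun z hz => (hcb hz).1, ?_, ?_⟩
  · rw [Set.disjoint_left]
    rintro _ ⟨z, hz, rfl⟩ hC'
    exact (hcb hz).2 (Or.inr hC')
  intro ε hε hεε
  obtain ⟨t₁, ht₁, hψ₁⟩ : ∃ t₁ ∈ Icc s₀ t₀, ψ t₁ = -ε := by
    have := intermediate_value_Icc hs₀.le (hψc.mono (Icc_subset_Icc_right hs₁.le))
    exact this ⟨by linarith, by rw [hψ0]; linarith⟩
  obtain ⟨t₂, ht₂, hψ₂⟩ : ∃ t₂ ∈ Icc t₀ s₁, ψ t₂ = ε := by
    have := intermediate_value_Icc hs₁.le (hψc.mono (Icc_subset_Icc_left hs₀.le))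
    exact this ⟨by rw [hψ0]; linarith, by linarith⟩
  have hI₁ : t₁ ∈ Icc s₀ s₁ := ⟨ht₁.1, ht₁.2.trans hs₁.le⟩
  have hI₂ : t₂ ∈ Icc s₀ s₁ := ⟨hs₀.le.trans ht₂.1, ht₂.2⟩
  have hlt₁ : t₁ < t₀ := by
    refine lt_of_le_of_ne ht₁.2 fun he => ?_
    rw [he, hψ0] at hψ₁
    linarith
  have hlt₂ : t₀ < t₂ := by
    refine lt_of_le_of_ne ht₂.1 fun he => ?_
    rw [← he, hψ0] at hψ₂
    linarith
  have hγs : ∀ s ∈ Icc s₀ s₁, γ s = H.symm (((σ * ψ s : ℝ) : ℂ) * Complex.I) := by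
    intro s hs
    rw [← hHγ s hs, H.left_inv (hsrc s hs)]
  refine ⟨t₁, t₂, σ, h00.trans_le ht₁.1, hlt₁, hlt₂, ht₂.2.trans_lt h11, hσ, ?_, ?_, ?_, ?_⟩
  · rw [hγs t₁ hI₁, hψ₁]
    congr 1
    push_cast
    ring
  · rw [hγs t₂ hI₂, hψ₂]
    congr 1
    push_cast
    ring
  · have hI12 : Icc t₁ t₂ ⊆ Icc s₀ s₁ := Icc_subset_Icc ht₁.1 ht₂.2
    apply Set.Subset.antisymm
    · rintro _ ⟨s, hs, rfl⟩
      refine ⟨H (γ s), ⟨?_, hre s (hI12 hs)⟩, H.left_inv (hsrc s (hI12 hs))⟩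
      rw [hψn s (hI12 hs), abs_le]
      constructor
      · rw [← hψ₁]
        exact hmono.monotoneOn hI₁ (hI12 hs) hs.1
      · rw [← hψ₂]
        exact hmono.monotoneOn (hI12 hs) hI₂ hs.2
    · rintro _ ⟨z, ⟨hz, hz0⟩, rfl⟩
      have hy : |σ * z.im| ≤ ε := by
        rw [abs_mul, hσa, one_mul]
        exact (Complex.abs_im_le_norm z).trans hz
      obtain ⟨s, hs, hψs⟩ : ∃ s ∈ Icc t₁ t₂, ψ s = σ * z.im := by
        have := intermediate_value_Icc (hlt₁.le.trans hlt₂.le) (hψc.mono hI12)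
        rw [hψ₁, hψ₂] at this
        exact this (abs_le.1 hy)
      refine ⟨s, hs, ?_⟩
      rw [hγs s (hI12 hs), hψs, ← mul_assoc, hσσ, one_mul]
      congr 1
      apply Complex.ext
      · rw [hz0]
        simp
      · simp
  · rintro s hs01' hsn ⟨ζ, hζ, hζs⟩
    have hζn : ‖ζ‖ < ε := by
      rwa [Metric.mem_ball, dist_zero_right] at hζ
    have hζb : ζ ∈ Metric.closedBall (0 : ℂ) ε₀ := by
      rw [Metric.mem_closedBall, dist_zero_right]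
      linarith
    obtain ⟨hζt, hζK⟩ := hcb hζb
    by_cases hsI : s ∈ Icc s₀ s₁
    · have h1 : ‖ζ‖ = |ψ s| := by
        rw [← hψn s hsI, ← hζs, H.right_inv hζt]
      rw [h1, abs_lt] at hζn
      rcases le_or_gt s t₁ with h2 | h2
      · have := hmono.monotoneOn hsI hI₁ h2
        have h3 : ψ s ≤ ψ t₁ := this
        linarith [hζn.1]
      · rcases le_or_gt t₂ s with h3 | h3
        · have := hmono.monotoneOn hI₂ hsI h3
          have h4 : ψ t₂ ≤ ψ s := this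
          linarith [hζn.2]
        · exact hsn ⟨h2, h3⟩
    · apply hζK
      left
      rw [Set.mem_preimage] at *
      rw [hζs]
      refine mem_image_of_mem γ ?_
      rcases le_or_gt s s₀ with h2 | h2
      · exact Or.inl ⟨hs01'.1, h2⟩
      · rcases le_or_gt s₁ s with h3 | h3
        · exact Or.inr ⟨h3, hs01'.2⟩
        · exact absurd ⟨h2.le, h3.le⟩ hsI

end H53P
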