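import Pool.Agent.Lib.H53P.TE1

/-! # H53P, topology, file E2: the jump lemma -/

open Set

namespace H53P

/-- (TE2, M) The jump lemma.
PROOF.  Take `ε₀` from `te1_local` with `C = csupp l` (compact, `tc4_compact`) and `ε = ε₀`, with
`t₁, t₂, σ`.  Put `h ζ = H.symm (ε * ζ)`, continuous and injective on the closed unit disc, so
`h '' SD = γ '' Icc t₁ t₂ =: S` and `γ t₂ = h (σ I)`, `γ t₁ = h (-σ I)`.  Let
`f₁ = γ '' Icc 0 t₁`, `f₂ = γ '' Icc t₂ 1` (cells, `te0_cell`).  For `z ∉ f`: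
`dl f a b z = dl f₁ a (γ t₁) z + dl S (γ t₁) (γ t₂) z + dl f₂ (γ t₂) b z` (`dl_add`, `tb3_mono`).
The closed chain `l' = (f₁, a, γ t₁) :: (h '' CR, γ t₁, γ t₂) :: (f₂, γ t₂, b) :: l` avoids the
preconnected set `U = h '' ball 0 1` (`te1_local`; `h '' CR` by injectivity), so `csum l'` is
constant on `U` (`tc3_const`).  For `z ∈ U`, `z ∉ f`:
`csum ((f, a, b) :: l) z - csum l' z = dl S (γ t₁) (γ t₂) z - dl (h '' CR) (γ t₁) (γ t₂) z`, which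
is `±` the bracket of `td5_jump` (`+` for `σ = 1`; for `σ = -1` use `dl_symm`).  A point `z` of
`H.source` with `‖H z‖ < ε` is `h ζ` with `ζ = H z / ε`, and `z ∉ f` when `re (H z) ≠ 0`. -/
theorem te2_jump {γ : ℝ → ℂ} {f : Set ℂ} {a b P : ℂ} (h : Par γ f a b) {t₀ : ℝ}
    (ht : t₀ ∈ Ioo (0 : ℝ) 1) (hP : γ t₀ = P) {l : Ch} (hl : PathCh b a l) (hPl : P ∉ csupp l)
    (H : OpenPartialHomeomorph ℂ ℂ) (hs : P ∈ H.source) (h0 : H P = 0)
    (hf : ∀ z ∈ H.source, (z ∈ f ↔ (H z).re = 0)) :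
    ∃ ε > 0, ∀ z₁ z₂, z₁ ∈ H.source → ‖H z₁‖ < ε → (H z₁).re < 0 →
      z₂ ∈ H.source → ‖H z₂‖ < ε → 0 < (H z₂).re →
      ∃ m : ℤ, csum ((f, a, b) :: l) z₂ - csum ((f, a, b) :: l) z₁ =
        (2 * m + 1) * (2 * Real.pi * Complex.I) := by
  obtain ⟨ε, hε, hT, hdis, hloc⟩ := te1_local h ht hP (tc4_compact hl) hPl H hs h0 hf
  obtain ⟨t₁, t₂, σ, ht1, ht1', ht2', ht2, hσ, hγ1, hγ2, hS, hout⟩ := hloc ε hε le_rfl
  have hεc : (ε : ℂ) ≠ 0 := by exact_mod_cast hε.ne'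
  obtain ⟨g, hg⟩ : ∃ g : ℂ → ℂ, ∀ ζ, g ζ = H.symm (ε * ζ) := ⟨_, fun _ => rfl⟩
  have hnorm : ∀ ζ : ℂ, ‖(ε : ℂ) * ζ‖ = ε * ‖ζ‖ := by
    intro ζ
    rw [norm_mul, Complex.norm_real, Real.norm_of_nonneg hε.le]
  have hmem : ∀ ζ ∈ Metric.closedBall (0 : ℂ) 1, (ε : ℂ) * ζ ∈ Metric.closedBall (0 : ℂ) ε := by
    intro ζ hζ
    rw [mem_closedBall_zero_iff] at hζ ⊢
    rw [hnorm]
    nlinarith
  have hgc : ContinuousOn g (Metric.closedBall 0 1) := by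
    have h1 : ContinuousOn (fun ζ : ℂ => H.symm (ε * ζ)) (Metric.closedBall 0 1) :=
      H.continuousOn_symm.comp (Continuous.continuousOn (by fun_prop))
        (fun ζ hζ => hT (hmem ζ hζ))
    exact h1.congr fun ζ _ => hg ζ
  have hgi : InjOn g (Metric.closedBall 0 1) := by
    intro u hu v hv huv
    rw [hg, hg] at huv
    have h1 := H.symm.injOn (x₁ := (ε : ℂ) * u) (x₂ := (ε : ℂ) * v)
      (hT (hmem u hu)) (hT (hmem v hv)) huv
    exact mul_left_cancel₀ hεc h1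
  have himg : ∀ (K : Set ℂ) (K' : Set ℂ), (∀ ζ, ζ ∈ K' ↔ (ε : ℂ) * ζ ∈ K) →
      H.symm '' K = g '' K' := by
    intro K K' hK
    ext w
    constructor
    · rintro ⟨z, hz, rfl⟩
      refine ⟨z / ε, ?_, ?_⟩
      · rw [hK, mul_div_cancel₀ _ hεc]
        exact hz
      · rw [hg, mul_div_cancel₀ _ hεc]
    · rintro ⟨ζ, hζ, rfl⟩
      exact ⟨ε * ζ, (hK ζ).1 hζ, (hg ζ).symm⟩
  have hSD : H.symm '' {z | ‖z‖ ≤ ε ∧ z.re = 0} = g '' SD := by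
    refine himg _ _ fun ζ => ?_
    simp only [SD, Set.mem_setOf_eq]
    rw [hnorm, Complex.re_ofReal_mul]
    constructor
    · rintro ⟨h1, h2⟩
      exact ⟨by nlinarith, by rw [h2, mul_zero]⟩
    · rintro ⟨h1, h2⟩
      refine ⟨?_, ?_⟩
      · by_contra hc
        rw [not_le] at hc
        nlinarith
      · rcases mul_eq_zero.1 h2 with h3 | h3
        · exact absurd h3 hε.ne'
        · exact h3
  have hball : H.symm '' Metric.ball 0 ε = g '' Metric.ball 0 1 := by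
    refine himg _ _ fun ζ => ?_
    rw [mem_ball_zero_iff, mem_ball_zero_iff, hnorm]
    constructor
    · intro h1
      nlinarith
    · intro h1
      by_contra hc
      rw [not_lt] at hc
      nlinarith
  rw [hSD] at hS
  rw [hball] at hout
  have hcl : H.symm '' Metric.closedBall 0 ε = g '' Metric.closedBall 0 1 := by
    refine himg _ _ fun ζ => ⟨fun h1 => hmem ζ h1, fun h1 => ?_⟩
    rw [mem_closedBall_zero_iff] at h1 ⊢
    rw [hnorm] at h1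
    by_contra hc
    rw [not_le] at hc
    nlinarith
  rw [hcl] at hdis
  -- cells
  have hf₁ : Cell (γ '' Icc 0 t₁) := te0_cell h le_rfl (by linarith)
  have hf₂ : Cell (γ '' Icc t₂ 1) := te0_cell h (by linarith) le_rfl
  have hfS : Cell (γ '' Icc t₁ t₂) := te0_cell h (by linarith) (by linarith)
  have hfc : Cell f := by
    have := te0_cell h (s := 0) (t := 1) le_rfl le_rfl
    rwa [h.image] at this
  have hCR := (td2_cells hgc hgi).1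
  have ha : a = γ 0 := h.zero.symm
  have hb : b = γ 1 := h.one.symm
  have hσI : ∀ τ : ℝ, (τ = 1 ∨ τ = -1) → ((τ : ℂ) * Complex.I) ∈ CR := by
    intro τ hτ
    refine ⟨?_, ?_⟩
    · rw [norm_mul, Complex.norm_I, mul_one, Complex.norm_real]
      rcases hτ with rfl | rfl <;> norm_num
    · rcases hτ with rfl | rfl <;> simp
  have hg1 : γ t₁ = g (-(σ * Complex.I)) := by
    rw [hγ1, hg]
    congr 1
    ring
  have hg2 : γ t₂ = g (σ * Complex.I) := by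
    rw [hγ2, hg]
    congr 1
    ring
  have hm1 : γ t₁ ∈ g '' CR := by
    rw [hg1]
    refine ⟨_, ?_, rfl⟩
    have h1 := hσI (-σ) (by rcases hσ with rfl | rfl <;> norm_num)
    push_cast at h1
    rwa [neg_mul] at h1
  have hm2 : γ t₂ ∈ g '' CR := by
    rw [hg2]
    exact ⟨_, hσI σ hσ, rfl⟩
  have hl' : PathCh a a ((γ '' Icc 0 t₁, a, γ t₁) :: (g '' CR, γ t₁, γ t₂) ::
      (γ '' Icc t₂ 1, γ t₂, b) :: l) := by
    refine ⟨hf₁, ?_, ?_, rfl, hCR, hm1, hm2, rfl, hf₂, ?_, ?_, rfl, hl⟩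
    · rw [ha]
      exact ⟨0, ⟨le_rfl, ht1.le⟩, rfl⟩
    · exact ⟨t₁, ⟨ht1.le, le_rfl⟩, rfl⟩
    · exact ⟨t₂, ⟨le_rfl, ht2.le⟩, rfl⟩
    · rw [hb]
      exact ⟨1, ⟨ht2.le, le_rfl⟩, rfl⟩
  have hU : IsPreconnected (g '' Metric.ball 0 1) :=
    (convex_ball (0 : ℂ) 1).isPreconnected.image _ (hgc.mono Metric.ball_subset_closedBall)
  have hUd : Disjoint (g '' Metric.ball 0 1) (csupp ((γ '' Icc 0 t₁, a, γ t₁) ::
      (g '' CR, γ t₁, γ t₂) :: (γ '' Icc t₂ 1, γ t₂, b) :: l)) := by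
    rw [csupp_cons, csupp_cons, csupp_cons]
    refine Set.disjoint_left.2 ?_
    rintro w hw (hw1 | hw1 | hw1 | hw1)
    · obtain ⟨s, hs', rfl⟩ := hw1
      exact hout s ⟨hs'.1, by linarith [hs'.2]⟩ (fun h1 => by linarith [h1.1, hs'.2]) hw
    · obtain ⟨ζ, hζ, rfl⟩ := hw
      obtain ⟨ξ, hξ, hξ'⟩ := hw1
      have h1 : ξ ∈ Metric.closedBall (0 : ℂ) 1 := by
        rw [mem_closedBall_zero_iff]
        exact hξ.1.le
      have h2 := hgi h1 (Metric.ball_subset_closedBall hζ) hξ'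
      rw [h2] at hξ
      rw [mem_ball_zero_iff] at hζ
      linarith [hξ.1]
    · obtain ⟨s, hs', rfl⟩ := hw1
      exact hout s ⟨by linarith [hs'.1], hs'.2⟩ (fun h1 => by linarith [h1.2, hs'.1]) hw
    · exact Set.disjoint_left.1 hdis (Set.image_mono Metric.ball_subset_closedBall hw) hw1
  refine ⟨ε, hε, ?_⟩
  intro z₁ z₂ hz₁ hn₁ hr₁ hz₂ hn₂ hr₂
  -- the difference of the two chains
  have hdiff : ∀ z, z ∈ H.source → (H z).re ≠ 0 →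
      csum ((f, a, b) :: l) z = csum ((γ '' Icc 0 t₁, a, γ t₁) ::
        (g '' CR, γ t₁, γ t₂) :: (γ '' Icc t₂ 1, γ t₂, b) :: l) z +
        (dl (g '' SD) (γ t₁) (γ t₂) z - dl (g '' CR) (γ t₁) (γ t₂) z) := by
    intro z hz hr
    have hzf : z ∉ f := fun h1 => hr ((hf z hz).1 h1)
    have hlog := hfc.log z hzf
    have hsub : ∀ s t : ℝ, 0 ≤ s → t ≤ 1 → γ '' Icc s t ⊆ f := by
      intro s t h1 h2
      rw [← h.image]
      exact Set.image_mono (Icc_subset_Icc h1 h2)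
    have e1 : dl (γ '' Icc 0 t₁) a (γ t₁) z = dl f a (γ t₁) z :=
      tb3_mono hf₁.conn (hsub 0 t₁ le_rfl (by linarith)) hlog
        (by rw [ha]; exact ⟨0, ⟨le_rfl, ht1.le⟩, rfl⟩) ⟨t₁, ⟨ht1.le, le_rfl⟩, rfl⟩
    have e2 : dl (γ '' Icc t₁ t₂) (γ t₁) (γ t₂) z = dl f (γ t₁) (γ t₂) z :=
      tb3_mono hfS.conn (hsub t₁ t₂ (by linarith) (by linarith)) hlog
        ⟨t₁, ⟨le_rfl, by linarith⟩, rfl⟩ ⟨t₂, ⟨by linarith, le_rfl⟩, rfl⟩
    have e3 : dl (γ '' Icc t₂ 1) (γ t₂) b z = dl f (γ t₂) b z :=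
      tb3_mono hf₂.conn (hsub t₂ 1 (by linarith) le_rfl) hlog
        ⟨t₂, ⟨le_rfl, ht2.le⟩, rfl⟩ (by rw [hb]; exact ⟨1, ⟨ht2.le, le_rfl⟩, rfl⟩)
    rw [hS] at e2
    simp only [csum_cons]
    rw [e1, e2, e3, ← dl_add f a (γ t₁) b z, ← dl_add f (γ t₁) (γ t₂) b z]
    ring
  have hζ : ∀ z, z ∈ H.source → ‖H z‖ < ε → ∃ ζ : ℂ, ‖ζ‖ < 1 ∧ ζ.re = (H z).re / ε ∧ g ζ = z := by
    intro z hz hn
    refine ⟨H z / ε, ?_, ?_, ?_⟩
    · rw [norm_div, Complex.norm_real, Real.norm_of_nonneg hε.le, div_lt_one hε]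
      exact hn
    · rw [Complex.div_ofReal_re]
    · rw [hg, mul_div_cancel₀ _ hεc]
      exact H.left_inv hz
  obtain ⟨ζ₁, hζ1, hζ1', hζ1''⟩ := hζ z₁ hz₁ hn₁
  obtain ⟨ζ₂, hζ2, hζ2', hζ2''⟩ := hζ z₂ hz₂ hn₂
  have hU1 : z₁ ∈ g '' Metric.ball 0 1 := ⟨ζ₁, mem_ball_zero_iff.2 hζ1, hζ1''⟩
  have hU2 : z₂ ∈ g '' Metric.ball 0 1 := ⟨ζ₂, mem_ball_zero_iff.2 hζ2, hζ2''⟩
  have hconst := tc3_const hl' hU hUd hU1 hU2
  obtain ⟨_, hj1, m, hj2⟩ := td5_jump hgc hgi hζ1 (by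
    rw [hζ1']; exact div_neg_of_neg_of_pos hr₁ hε) hζ2 (by rw [hζ2']; exact div_pos hr₂ hε)
  rw [hζ1''] at hj1
  rw [hζ2''] at hj2
  rw [hdiff z₁ hz₁ hr₁.ne, hdiff z₂ hz₂ hr₂.ne', hconst]
  rcases hσ with rfl | rfl
  · rw [Complex.ofReal_one, one_mul] at hg1 hg2
    rw [← hg1, ← hg2] at hj1 hj2
    refine ⟨m, ?_⟩
    rw [hj1, hj2]
    ring
  · have e1 : γ t₁ = g Complex.I := by
      rw [hg1]
      congr 1
      push_cast
      ring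
    have e2 : γ t₂ = g (-Complex.I) := by
      rw [hg2]
      congr 1
      push_cast
      ring
    rw [← e1, ← e2] at hj1 hj2
    refine ⟨-m - 1, ?_⟩
    rw [dl_symm (g '' SD) (γ t₁) (γ t₂) z₂, dl_symm (g '' CR) (γ t₁) (γ t₂) z₂,
      dl_symm (g '' SD) (γ t₁) (γ t₂) z₁, dl_symm (g '' CR) (γ t₁) (γ t₂) z₁]
    push_cast
    linear_combination hj1 - hj2

end H53P
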