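import Pool.Agent.Lib.H53P.TE2

/-! # H53P, topology, file E3: the jump along a crossing arc -/

open Set

namespace H53P

/-- (TE3, M) The jump along a crossing arc.
PROOF.  `ProperCrossing e f P` gives the chart `H` with `e` horizontal and `f` vertical.  Near `t`
the function `s ↦ re (H (γ s))` is continuous and injective (`im (H (γ s)) = 0` as `γ s ∈ e`), so
strictly monotone or antitone, with value `0` at `t`; so for small `δ` it has opposite signs on
`(t-δ, t)` and `(t, t+δ)`, and `‖H (γ s)‖ < ε` there by continuity.  Apply `te2_jump`; if the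
signs are the other way round exchange the two points (`-(2m+1) = 2(-m-1)+1`). -/
theorem te3_cross {γ γ' : ℝ → ℂ} {e f : Set ℂ} {x y a b P : ℂ} (he : Par γ e x y)
    (hf : Par γ' f a b) (hc : SimpleDraw.ProperCrossing e f P) {t t' : ℝ}
    (ht : t ∈ Ioo (0 : ℝ) 1) (hP : γ t = P) (ht' : t' ∈ Ioo (0 : ℝ) 1) (hP' : γ' t' = P)
    {l : Ch} (hl : PathCh b a l) (hPl : P ∉ csupp l) :
    ∃ δ > 0, ∀ s ∈ Ioo (t - δ) t, ∀ s' ∈ Ioo t (t + δ),
      ∃ m : ℤ, csum ((f, a, b) :: l) (γ s') - csum ((f, a, b) :: l) (γ s) =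
        (2 * m + 1) * (2 * Real.pi * Complex.I) := by
  obtain ⟨H, hs, h0, hHe, hHf⟩ := hc
  obtain ⟨ε, hε, hjump⟩ := te2_jump hf ht' hP' hl hPl H hs h0 hHf
  have hγt : ContinuousAt γ t := he.cont.continuousAt (Icc_mem_nhds ht.1 ht.2)
  have hHt : ContinuousAt (fun s => H (γ s)) t := by
    refine ContinuousAt.comp (g := H) (f := γ) ?_ hγt
    rw [hP]
    exact H.continuousAt hs
  have h1 : ∀ᶠ s in nhds t, γ s ∈ H.source := by
    have h2 : ∀ᶠ z in nhds (γ t), z ∈ H.source := by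
      rw [hP]
      exact H.open_source.mem_nhds hs
    exact hγt.eventually h2
  have h2 : ∀ᶠ s in nhds t, ‖H (γ s)‖ < ε := by
    have h3 : ∀ᶠ z in nhds (H (γ t)), ‖z‖ < ε := by
      rw [hP, h0]
      exact (continuous_norm.tendsto' (0 : ℂ) 0 norm_zero).eventually (gt_mem_nhds hε)
    exact hHt.eventually h3
  have h3 : ∀ᶠ s in nhds t, s ∈ Ioo (0 : ℝ) 1 := Ioo_mem_nhds ht.1 ht.2
  obtain ⟨δ, hδ, hδ'⟩ := Metric.eventually_nhds_iff.1 ((h1.and h2).and h3)
  have hloc : ∀ s ∈ Icc (t - δ / 2) (t + δ / 2),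
      γ s ∈ H.source ∧ ‖H (γ s)‖ < ε ∧ s ∈ Ioo (0 : ℝ) 1 := by
    intro s hs'
    obtain ⟨⟨a1, a2⟩, a3⟩ := hδ' (y := s) (by
      rw [Real.dist_eq, abs_lt]
      constructor <;> linarith [hs'.1, hs'.2])
    exact ⟨a1, a2, a3⟩
  have him : ∀ s ∈ Icc (t - δ / 2) (t + δ / 2), (H (γ s)).im = 0 := by
    intro s hs'
    obtain ⟨a1, -, a3⟩ := hloc s hs'
    refine (hHe _ a1).1 ?_
    rw [← he.image]
    exact ⟨s, ⟨a3.1.le, a3.2.le⟩, rfl⟩
  have hcont : ContinuousOn (fun s => (H (γ s)).re) (Icc (t - δ / 2) (t + δ / 2)) := by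
    refine Complex.continuous_re.comp_continuousOn ?_
    refine H.continuousOn.comp (he.cont.mono ?_) ?_
    · intro s hs'
      obtain ⟨-, -, a3⟩ := hloc s hs'
      exact ⟨a3.1.le, a3.2.le⟩
    · intro s hs'
      exact (hloc s hs').1
  have hinj : InjOn (fun s => (H (γ s)).re) (Icc (t - δ / 2) (t + δ / 2)) := by
    intro s hs' s' hs'' hss
    obtain ⟨a1, -, a3⟩ := hloc s hs'
    obtain ⟨b1, -, b3⟩ := hloc s' hs''
    have e1 : H (γ s) = H (γ s') := by
      refine Complex.ext hss ?_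
      rw [him s hs', him s' hs'']
    have e2 := H.injOn a1 b1 e1
    exact he.inj ⟨a3.1.le, a3.2.le⟩ ⟨b3.1.le, b3.2.le⟩ e2
  have htt : t ∈ Icc (t - δ / 2) (t + δ / 2) := ⟨by linarith, by linarith⟩
  have hzero : (H (γ t)).re = 0 := by
    rw [hP, h0, Complex.zero_re]
  refine ⟨δ / 2, by positivity, ?_⟩
  intro s hs' s' hs''
  have ms : s ∈ Icc (t - δ / 2) (t + δ / 2) := ⟨hs'.1.le, by linarith [hs'.2]⟩
  have ms' : s' ∈ Icc (t - δ / 2) (t + δ / 2) := ⟨by linarith [hs''.1], hs''.2.le⟩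
  obtain ⟨a1, a2, -⟩ := hloc s ms
  obtain ⟨b1, b2, -⟩ := hloc s' ms'
  rcases ContinuousOn.strictMonoOn_of_injOn_Icc' (by linarith) hcont hinj with hm | hm
  · have c1 := hm ms htt hs'.2
    have c2 := hm htt ms' hs''.1
    simp only at c1 c2
    rw [hzero] at c1 c2
    exact hjump (γ s) (γ s') a1 a2 c1 b1 b2 c2
  · have c1 := hm ms htt hs'.2
    have c2 := hm htt ms' hs''.1
    simp only at c1 c2
    rw [hzero] at c1 c2
    obtain ⟨m, hm'⟩ := hjump (γ s') (γ s) b1 b2 c2 a1 a2 c1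
    refine ⟨-m - 1, ?_⟩
    push_cast
    linear_combination -hm'

end H53P
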