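import Mathlib

/-! # H53P, topology, file E4: one-dimensional counting (pure Mathlib) -/

open Set

namespace H53P

theorem te4_const {c : ℝ → ℤ} {a b : ℝ} (hab : a ≤ b)
    (h : ∀ t ∈ Icc a b, ∃ δ > 0, ∀ s ∈ Icc a b, |s - t| < δ → c s = c t) : c a = c b := by
  refine (isPreconnected_Icc (a := a) (b := b)).induction₂ (fun x y => c x = c y) (fun x hx => ?_)
    (fun _ _ _ _ _ _ h1 h2 => h1.trans h2) (fun _ _ _ _ h1 => h1.symm) (left_mem_Icc.2 hab)
    (right_mem_Icc.2 hab)
  obtain ⟨δ, hδ, h1⟩ := h x hx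
  have h2 : Metric.ball x δ ∈ nhdsWithin x (Icc a b) := mem_nhdsWithin_of_mem_nhds (Metric.ball_mem_nhds x hδ)
  filter_upwards [h2, self_mem_nhdsWithin] with y hy hyI
  rw [Metric.mem_ball, Real.dist_eq] at hy
  exact (h1 y hyI hy).symm

theorem te4_aux {c : ℝ → ℤ} {s₀ : ℝ} (F : Finset ℝ) : ∀ s₁ : ℝ, s₀ < s₁ →
    (∀ t ∈ F, t ∈ Ioo s₀ s₁) →
    (∀ t ∈ Icc s₀ s₁, t ∉ F → ∃ δ > 0, ∀ s ∈ Icc s₀ s₁, |s - t| < δ → c s = c t) →
    (∀ t ∈ F, ∃ δ > 0, ∀ s ∈ Ioo (t - δ) t, ∀ s' ∈ Ioo t (t + δ), Odd (c s' - c s)) →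
    Even (c s₁ - c s₀ - F.card) := by
  classical
  induction F using Finset.induction_on_max with
  | empty =>
    intro s₁ hs _ h1 _
    have h3 : c s₀ = c s₁ := te4_const hs.le fun t ht => h1 t ht (by simp)
    rw [h3]
    simp
  | insert t F' hlt ih =>
    intro s₁ hs hF h1 h2
    have htI := hF t (Finset.mem_insert_self _ _)
    have htF : t ∉ F' := fun h3 => lt_irrefl _ (hlt t h3)
    obtain ⟨δ, hδ, h3⟩ := h2 t (Finset.mem_insert_self _ _)
    -- the point `s`
    have hne : (insert s₀ (insert (t - δ) F')).Nonempty := ⟨s₀, Finset.mem_insert_self _ _⟩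
    have hM : (insert s₀ (insert (t - δ) F')).max' hne < t := by
      rw [Finset.max'_lt_iff]
      intro y hy
      rw [Finset.mem_insert, Finset.mem_insert] at hy
      rcases hy with rfl | rfl | hy
      · exact htI.1
      · linarith
      · exact hlt y hy
    obtain ⟨s, hs1, hs2⟩ := exists_between hM
    have hall : ∀ y ∈ insert s₀ (insert (t - δ) F'), y < s := fun y hy =>
      lt_of_le_of_lt (Finset.le_max' _ y hy) hs1
    have hss₀ : s₀ < s := hall s₀ (Finset.mem_insert_self _ _)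
    have hsδ : t - δ < s := hall _ (Finset.mem_insert_of_mem (Finset.mem_insert_self _ _))
    have hsF : ∀ y ∈ F', y < s := fun y hy => hall y (Finset.mem_insert_of_mem (Finset.mem_insert_of_mem hy))
    obtain ⟨s', hs1', hs2'⟩ := exists_between (lt_min (lt_add_of_pos_right t hδ) htI.2)
    have hs3' : s' < t + δ := lt_of_lt_of_le hs2' (min_le_left _ _)
    have hs4' : s' < s₁ := lt_of_lt_of_le hs2' (min_le_right _ _)
    have hodd := h3 s ⟨hsδ, hs2⟩ s' ⟨hs1', hs3'⟩
    have hconst : c s' = c s₁ := by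
      refine te4_const hs4'.le fun u hu => ?_
      have hu0 : u ∈ Icc s₀ s₁ := ⟨by linarith [hu.1, htI.1], hu.2⟩
      have huF : u ∉ insert t F' := by
        intro h4
        rw [Finset.mem_insert] at h4
        rcases h4 with rfl | h4
        · linarith [hu.1]
        · linarith [hlt u h4, hu.1]
      obtain ⟨δ', hδ', h5⟩ := h1 u hu0 huF
      exact ⟨δ', hδ', fun v hv hv' => h5 v ⟨by linarith [hv.1, htI.1], hv.2⟩ hv'⟩
    have hih : Even (c s - c s₀ - (F'.card : ℤ)) := by
      refine ih s hss₀ (fun y hy => ⟨(hF y (Finset.mem_insert_of_mem hy)).1, hsF y hy⟩) ?_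
        (fun y hy => h2 y (Finset.mem_insert_of_mem hy))
      intro u hu huF
      have huF' : u ∉ insert t F' := by
        intro h4
        rw [Finset.mem_insert] at h4
        rcases h4 with rfl | h4
        · linarith [hu.2]
        · exact huF h4
      obtain ⟨δ', hδ', h5⟩ := h1 u ⟨hu.1, by linarith [hu.2, htI.2]⟩ huF'
      exact ⟨δ', hδ', fun v hv hv' => h5 v ⟨hv.1, by linarith [hv.2, htI.2]⟩ hv'⟩
    rw [Finset.card_insert_of_notMem htF]
    obtain ⟨a, ha⟩ := hih
    obtain ⟨b, hb⟩ := hodd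
    refine ⟨a + b, ?_⟩
    push_cast
    rw [← hconst]
    linarith

/-- (TE4, S/M) One-dimensional counting.
PROOF.  Induction on the number of elements of `F`.  If `F = ∅`, `c` is locally constant on the
interval `Icc s₀ s₁`, hence constant (e.g. the relation is an equivalence; use
`IsPreconnected.constant_of_...` for the discrete-valued continuous function, or
`isPreconnected_Icc` and the clopen set `{s | c s = c s₀}`).  Otherwise let `t` be the largest
element of `F` and `F' = F \ {t}`; choose `s ∈ (t-δ, t)` larger than all elements of `F'` and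
`> s₀`, and `s' ∈ (t, t+δ)`, `s' < s₁`.  On `[s', s₁]` `c` is locally constant, so `c s' = c s₁`;
`c s' - c s` is odd; the induction hypothesis on `[s₀, s]` with `F'` gives the parity of
`c s - c s₀`. -/
theorem te4_count {c : ℝ → ℤ} {s₀ s₁ : ℝ} (hs : s₀ < s₁) (F : Finset ℝ)
    (hF : ∀ t ∈ F, t ∈ Ioo s₀ s₁)
    (h1 : ∀ t ∈ Icc s₀ s₁, t ∉ F → ∃ δ > 0, ∀ s ∈ Icc s₀ s₁, |s - t| < δ → c s = c t)
    (h2 : ∀ t ∈ F, ∃ δ > 0, ∀ s ∈ Ioo (t - δ) t, ∀ s' ∈ Ioo t (t + δ), Odd (c s' - c s)) :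
    Even (c s₁ - c s₀ - F.card) := by
  exact te4_aux F s₁ hs hF h1 h2

end H53P
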