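import Pool.Agent.Lib.H53P.TC
import Pool.Agent.Lib.H53P.TE4

/-! # H53P, topology, file E5: the parity law along an arc -/

open Set

namespace H53P

/-- parity of the winding number of a closed chain -/
noncomputable def par (l : Ch) (z : ℂ) : Bool :=
  @decide (∃ m : ℤ, csum l z = (2 * m + 1) * (2 * Real.pi * Complex.I)) (Classical.dec _)

/-- (TE5, S) PROOF.  `csum l z = k * 2πi` by `tb6_closed`; `2πi ≠ 0`, so the integer `k` is
determined, and it is odd or even. -/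
theorem te5_par {P : ℂ} {l : Ch} (h : PathCh P P l) {z : ℂ} (hz : z ∉ csupp l) :
    ∃ k : ℤ, csum l z = k * (2 * Real.pi * Complex.I) ∧ (par l z = true ↔ Odd k) := by
  obtain ⟨k, hk⟩ := tb6_closed h hz
  refine ⟨k, hk, ?_⟩
  unfold par
  refine (@decide_eq_true_iff _ (Classical.dec _)).trans ?_
  constructor
  · rintro ⟨m, hm⟩
    refine ⟨m, ?_⟩
    rw [hk] at hm
    have h2 := mul_right_cancel₀ Complex.two_pi_I_ne_zero hm
    exact_mod_cast h2
  · rintro ⟨m, rfl⟩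
    refine ⟨m, ?_⟩
    rw [hk]
    push_cast
    ring

/-- (TE6, S/M) The parity law along an arc.  `Bool.xor` of the parities at the two ends is the
parity of the number of crossings.
PROOF.  Let `c s` be the integer `k` of `te5_par` at `γ s` for `s ∉ F` (`0` for `s ∈ F`).  For
`t ∉ F`: `csum l` is continuous at `γ t` on the open set `(csupp l)ᶜ` (`tc2_cont`, `tc4_compact`) and
takes values in `2πi ℤ` there, so it is constant on a small disc around `γ t` (`tc3_const` on a ball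
contained in the open set `(csupp l)ᶜ`), and `γ` is continuous: (h1) of `te4_count` (use that `F` is
finite, so near `t` there is no element of `F`).  (h2) is `hj`.  `te4_count` gives the result. -/
theorem te6_law {P : ℂ} {l : Ch} (h : PathCh P P l) {γ : ℝ → ℂ} {s₀ s₁ : ℝ} (hs : s₀ < s₁)
    (hγ : ContinuousOn γ (Icc s₀ s₁)) (F : Finset ℝ) (hF : ∀ t ∈ F, t ∈ Ioo s₀ s₁)
    (hsupp : ∀ s ∈ Icc s₀ s₁, (γ s ∈ csupp l ↔ s ∈ F))
    (hj : ∀ t ∈ F, ∃ δ > 0, ∀ s ∈ Ioo (t - δ) t, ∀ s' ∈ Ioo t (t + δ),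
      ∃ m : ℤ, csum l (γ s') - csum l (γ s) = (2 * m + 1) * (2 * Real.pi * Complex.I)) :
    (par l (γ s₀) ^^ par l (γ s₁)) = decide (Odd F.card) := by
  classical
  have hex : ∀ s, ∃ k : ℤ, γ s ∉ csupp l → csum l (γ s) = k * (2 * Real.pi * Complex.I) ∧
      (par l (γ s) = true ↔ Odd k) := by
    intro s
    by_cases hz : γ s ∈ csupp l
    · exact ⟨0, fun h' => absurd hz h'⟩
    · obtain ⟨k, hk⟩ := te5_par h hz
      exact ⟨k, fun _ => hk⟩
  choose c hc using hex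
  have hout : ∀ s ∈ Icc s₀ s₁, s ∉ F → γ s ∉ csupp l := fun s hs' hsF h' => hsF ((hsupp s hs').1 h')
  have hopen : IsOpen (csupp l)ᶜ := (tc4_compact h).isClosed.isOpen_compl
  have h1 : ∀ t ∈ Icc s₀ s₁, t ∉ F → ∃ δ > 0, ∀ s ∈ Icc s₀ s₁, |s - t| < δ → c s = c t := by
    intro t ht htF
    have hγt := hout t ht htF
    obtain ⟨r, hr, hball⟩ := Metric.isOpen_iff.1 hopen (γ t) hγt
    obtain ⟨δ, hδ, hd⟩ := Metric.continuousWithinAt_iff.1 (hγ t ht) r hr
    refine ⟨δ, hδ, fun s hs' hst => ?_⟩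
    have h3 : γ s ∈ Metric.ball (γ t) r := hd hs' (by rw [Real.dist_eq]; exact hst)
    have h4 : csum l (γ s) = csum l (γ t) := tc3_const h (convex_ball (γ t) r).isPreconnected
      (Set.disjoint_left.2 fun w hw => hball hw) h3 (Metric.mem_ball_self hr)
    have h5 : γ s ∉ csupp l := hball h3
    rw [(hc s h5).1, (hc t hγt).1] at h4
    have h6 := mul_right_cancel₀ Complex.two_pi_I_ne_zero h4
    exact_mod_cast h6
  have h2 : ∀ t ∈ F, ∃ δ > 0, ∀ s ∈ Ioo (t - δ) t, ∀ s' ∈ Ioo t (t + δ), Odd (c s' - c s) := by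
    intro t ht
    obtain ⟨δ, hδ, hd⟩ := hj t ht
    have hnb : {s | s ∈ Ioo s₀ s₁ ∧ s ∉ ((F.erase t : Finset ℝ) : Set ℝ)} ∈ nhds t := by
      refine Filter.inter_mem (Ioo_mem_nhds (hF t ht).1 (hF t ht).2) ?_
      have h3 : ((F.erase t : Finset ℝ) : Set ℝ)ᶜ ∈ nhds t :=
        (F.erase t).finite_toSet.isClosed.isOpen_compl.mem_nhds (by simp)
      exact h3
    obtain ⟨η, hη, hb⟩ := Metric.mem_nhds_iff.1 hnb
    have hgood : ∀ s, |s - t| < η → s ≠ t → s ∈ Icc s₀ s₁ ∧ s ∉ F := by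
      intro s hs' hne
      obtain ⟨h3, h4⟩ := hb (by rw [Metric.mem_ball, Real.dist_eq]; exact hs' : s ∈ Metric.ball t η)
      refine ⟨⟨h3.1.le, h3.2.le⟩, fun h5 => h4 ?_⟩
      rw [Finset.mem_coe, Finset.mem_erase]
      exact ⟨hne, h5⟩
    refine ⟨min δ η, lt_min hδ hη, fun s hs' s' hs'' => ?_⟩
    have m1 : min δ η ≤ δ := min_le_left _ _
    have m2 : min δ η ≤ η := min_le_right _ _
    obtain ⟨m, hm⟩ := hd s ⟨by linarith [hs'.1], hs'.2⟩ s' ⟨hs''.1, by linarith [hs''.2]⟩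
    obtain ⟨g1, g2⟩ := hgood s (by rw [abs_lt]; constructor <;> linarith [hs'.1, hs'.2]) hs'.2.ne
    obtain ⟨g3, g4⟩ := hgood s' (by rw [abs_lt]; constructor <;> linarith [hs''.1, hs''.2]) hs''.1.ne'
    rw [(hc s (hout s g1 g2)).1, (hc s' (hout s' g3 g4)).1, ← sub_mul] at hm
    have h6 := mul_right_cancel₀ Complex.two_pi_I_ne_zero hm
    refine ⟨m, ?_⟩
    exact_mod_cast h6
  have hcount := te4_count hs F hF h1 h2
  have hn0 : s₀ ∉ F := fun h' => lt_irrefl _ (hF _ h').1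
  have hn1 : s₁ ∉ F := fun h' => lt_irrefl _ (hF _ h').2
  have e0 := (hc s₀ (hout s₀ ⟨le_rfl, hs.le⟩ hn0)).2
  have e1 := (hc s₁ (hout s₁ ⟨hs.le, le_rfl⟩ hn1)).2
  have b0 : par l (γ s₀) = decide (Odd (c s₀)) := by
    rw [Bool.eq_iff_iff, decide_eq_true_iff]
    exact e0
  have b1 : par l (γ s₁) = decide (Odd (c s₁)) := by
    rw [Bool.eq_iff_iff, decide_eq_true_iff]
    exact e1
  rw [b0, b1]
  rw [Int.even_iff] at hcount
  rcases Bool.eq_false_or_eq_true (decide (Odd (c s₀))) with p0 | p0 <;>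
    rcases Bool.eq_false_or_eq_true (decide (Odd (c s₁))) with p1 | p1 <;>
    rcases Bool.eq_false_or_eq_true (decide (Odd F.card)) with p2 | p2 <;> rw [p0, p1, p2] <;> first
    | rfl
    | (exfalso
       simp only [decide_eq_true_eq, decide_eq_false_iff_not, Int.odd_iff, Nat.odd_iff] at p0 p1 p2
       omega)

end H53P
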