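import Pool.Agent.Lib.H53P.TE3
import Pool.Agent.Lib.H53P.TE5

/-! # H53P, topology, file F: simple drawings, triangles, parity laws -/

open Set

namespace H53P

open SimpleDraw

variable {n : ℕ} (D : SimpleDrawing n)

/-- the independent edges `ab` and `cd` cross -/
noncomputable def X (a b c d : Fin n) : Bool :=
  @decide (a ≠ b ∧ c ≠ d ∧ a ≠ c ∧ a ≠ d ∧ b ≠ c ∧ b ≠ d ∧ (D.curve a b ∩ D.curve c d).Nonempty)
    (Classical.dec _)

/-- (TF1, S) every edge has a parametrisation.  PROOF.  `D.arc`. -/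
theorem tf1_par {a b : Fin n} (h : a ≠ b) : ∃ γ, Par γ (D.curve a b) (D.pt a) (D.pt b) := by
  obtain ⟨γ, h1, h2, h3, h4, h5⟩ := D.arc a b h
  exact ⟨γ, ⟨h1, h2, h3, h4, h5⟩⟩

/-- (TF2, S) PROOF.  `tf1_par`, `te0_cell` with `s = 0`, `t = 1`. -/
theorem tf2_cell {a b : Fin n} (h : a ≠ b) : Cell (D.curve a b) := by
  obtain ⟨γ, hγ⟩ := tf1_par D h
  have h1 := te0_cell hγ le_rfl le_rfl
  rwa [hγ.image] at h1

/-- (TF3, S) the end-vertices lie on the edge -/
theorem tf3_mem {a b : Fin n} (h : a ≠ b) : D.pt a ∈ D.curve a b ∧ D.pt b ∈ D.curve a b := by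
  obtain ⟨γ, hγ⟩ := tf1_par D h
  constructor
  · rw [← hγ.zero, ← hγ.image]
    exact mem_image_of_mem _ ⟨le_rfl, zero_le_one⟩
  · rw [← hγ.one, ← hγ.image]
    exact mem_image_of_mem _ ⟨zero_le_one, le_rfl⟩

/-- (TF4, S) adjacent edges meet only in the common vertex.  PROOF.  `D.inter` (subsingleton) and
`tf3_mem`, `D.curve_symm`. -/
theorem tf4_adj {a b c : Fin n} (hab : a ≠ b) (hac : a ≠ c) (hbc : b ≠ c) :
    D.curve a b ∩ D.curve a c = {D.pt a} := by
  have hne : s(a, b) ≠ s(a, c) := by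
    intro h
    rcases Sym2.eq_iff.1 h with ⟨-, h1⟩ | ⟨h1, -⟩
    · exact hbc h1
    · exact hac h1
  have hsub := D.inter a b a c hab hac hne
  have hmem : D.pt a ∈ D.curve a b ∩ D.curve a c := ⟨(tf3_mem D hab).1, (tf3_mem D hac).1⟩
  exact hsub.eq_singleton_of_mem hmem

/-- (TF5, S) crossing points of independent edges are proper crossings and no vertices.
PROOF.  `D.proper`: the first alternative gives a common vertex, impossible.  `p ≠ D.pt v` for all
`v`: if `v ∉ {a, b}` then `D.pt v ∉ D.curve a b` (`D.vertex`); otherwise `v ∉ {c, d}`. -/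
theorem tf5_cross {a b c d : Fin n} (hab : a ≠ b) (hcd : c ≠ d) (hac : a ≠ c) (had : a ≠ d)
    (hbc : b ≠ c) (hbd : b ≠ d) {p : ℂ} (hp : p ∈ D.curve a b ∩ D.curve c d) :
    ProperCrossing (D.curve a b) (D.curve c d) p ∧ ∀ v, p ≠ D.pt v := by
  have hne : s(a, b) ≠ s(c, d) := by
    intro h
    rcases Sym2.eq_iff.1 h with ⟨h1, -⟩ | ⟨h1, -⟩
    · exact hac h1
    · exact had h1
  constructor
  · rcases D.proper a b c d hab hcd hne p hp with ⟨v, h1, h2, -⟩ | h
    · exfalso
      rcases h1 with rfl | rfl <;> rcases h2 with h2 | h2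
      · exact hac h2
      · exact had h2
      · exact hbc h2
      · exact hbd h2
    · exact h
  · rintro v rfl
    by_cases hva : v = a
    · subst hva
      exact D.vertex c d v hcd hac had hp.2
    · by_cases hvb : v = b
      · subst hvb
        exact D.vertex c d v hcd hbc hbd hp.2
      · exact D.vertex a b v hab hva hvb hp.1

/-- (TF6, S) symmetries of `X` -/
theorem tf6_symm (a b c d : Fin n) : X D a b c d = X D b a c d ∧ X D a b c d = X D c d a b := by
  constructor
  · unfold X
    rw [decide_eq_decide, D.curve_symm a b]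
    tauto
  · unfold X
    rw [decide_eq_decide, inter_comm]
    constructor
    · rintro ⟨h1, h2, h3, h4, h5, h6, h7⟩
      exact ⟨h2, h1, h3.symm, h5.symm, h4.symm, h6.symm, h7⟩
    · rintro ⟨h1, h2, h3, h4, h5, h6, h7⟩
      exact ⟨h2, h1, h3.symm, h5.symm, h4.symm, h6.symm, h7⟩

/-- the closed chain of a triangle -/
def tch (a b c : Fin n) : Ch :=
  [(D.curve a b, D.pt a, D.pt b), (D.curve b c, D.pt b, D.pt c), (D.curve c a, D.pt c, D.pt a)]

/-- (TF7, S) PROOF.  `tf2_cell`, `tf3_mem`, `D.curve_symm`. -/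
theorem tf7_path {a b c : Fin n} (hab : a ≠ b) (hbc : b ≠ c) (hca : c ≠ a) :
    PathCh (D.pt a) (D.pt a) (tch D a b c) := by
  exact ⟨tf2_cell D hab, (tf3_mem D hab).1, (tf3_mem D hab).2, rfl, tf2_cell D hbc, (tf3_mem D hbc).1,
    (tf3_mem D hbc).2, rfl, tf2_cell D hca, (tf3_mem D hca).1, (tf3_mem D hca).2, rfl, rfl⟩

/-- (TF8, S) `par` of the three cyclic rotations of the chain agree and the supports agree.
PROOF.  The lists are permutations of each other: `csum_perm`; unfold `par`. -/
theorem tf8_rot (a b c : Fin n) (z : ℂ) : par (tch D a b c) z = par (tch D b c a) z ∧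
    csupp (tch D a b c) = csupp (tch D b c a) := by
  constructor
  · have h : csum (tch D a b c) z = csum (tch D b c a) z := by
      simp only [tch, csum_cons, csum_nil]
      ring
    unfold par
    rw [decide_eq_decide, h]
  · simp only [tch, csupp_cons, csupp_nil, union_empty]
    rw [union_comm, union_assoc]

/-- parity of the number of crossings of `xy` with the triangle `abc` -/
noncomputable def crT (a b c x y : Fin n) : Bool :=
  (X D x y a b ^^ X D x y b c) ^^ X D x y c a

end H53P
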