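import Pool.Agent.Lib.H53P.TF1

/-! # H53P, topology, file F9: the jump at a crossing with a triangle -/

open Set

namespace H53P

open SimpleDraw

variable {n : ℕ} (D : SimpleDrawing n)

/-- (TF9, M) The jump at a crossing of an edge with a triangle.
`γ` parametrises the edge `xy`, `γ t` lies on the edge `ab` of the triangle `abc`, `x, y, a, b`
distinct.
PROOF.  Let `γ'` parametrise `D.curve a b` and `γ' t' = γ t`.  By `tf5_cross` the point `P = γ t` is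
a proper crossing (of `D.curve x y` and `D.curve a b`, in this order) and not a vertex, so
`t, t' ∈ (0, 1)`.  `P` is not on the other two edges `bc`, `ca` of the triangle, because these meet
`ab` only in `b`, resp. `a` (`tf4_adj`).  Apply `te3_cross` with
`l = [(D.curve b c, _, _), (D.curve c a, _, _)]`, a chain from `D.pt b` to `D.pt a`. -/
theorem tf9_jump {a b c x y : Fin n} (hab : a ≠ b) (hbc : b ≠ c) (hca : c ≠ a) (hxy : x ≠ y)
    (hxa : x ≠ a) (hxb : x ≠ b) (hya : y ≠ a) (hyb : y ≠ b) {γ : ℝ → ℂ}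
    (hγ : Par γ (D.curve x y) (D.pt x) (D.pt y)) {t : ℝ} (ht : t ∈ Icc (0 : ℝ) 1)
    (hc : γ t ∈ D.curve a b) :
    t ∈ Ioo (0 : ℝ) 1 ∧ ∃ δ > 0, ∀ s ∈ Ioo (t - δ) t, ∀ s' ∈ Ioo t (t + δ),
      ∃ m : ℤ, csum (tch D a b c) (γ s') - csum (tch D a b c) (γ s) =
        (2 * m + 1) * (2 * Real.pi * Complex.I) := by
  obtain ⟨γ', hγ'⟩ := tf1_par D hab
  have hp : γ t ∈ D.curve x y ∩ D.curve a b := ⟨by rw [← hγ.image]; exact ⟨t, ht, rfl⟩, hc⟩
  obtain ⟨hpc, hnv⟩ := tf5_cross D hxy hab hxa hxb hya hyb hp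
  obtain ⟨t', ht', htt'⟩ : ∃ t' ∈ Icc (0 : ℝ) 1, γ' t' = γ t := by
    rw [← hγ'.image] at hc
    exact hc
  have ht1 : t ∈ Ioo (0 : ℝ) 1 :=
    ⟨lt_of_le_of_ne ht.1 (fun h0 => hnv x (by rw [← h0, hγ.zero])),
      lt_of_le_of_ne ht.2 (fun h1 => hnv y (by rw [h1, hγ.one]))⟩
  have ht1' : t' ∈ Ioo (0 : ℝ) 1 :=
    ⟨lt_of_le_of_ne ht'.1 (fun h0 => hnv a (by rw [← htt', ← h0, hγ'.zero])),
      lt_of_le_of_ne ht'.2 (fun h1 => hnv b (by rw [← htt', h1, hγ'.one]))⟩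
  have hl : PathCh (D.pt b) (D.pt a)
      [(D.curve b c, D.pt b, D.pt c), (D.curve c a, D.pt c, D.pt a)] :=
    ⟨tf2_cell D hbc, (tf3_mem D hbc).1, (tf3_mem D hbc).2, rfl, tf2_cell D hca,
      (tf3_mem D hca).1, (tf3_mem D hca).2, rfl, rfl⟩
  have hpl : γ t ∉ csupp [(D.curve b c, D.pt b, D.pt c), (D.curve c a, D.pt c, D.pt a)] := by
    rw [csupp_cons, csupp_cons, csupp_nil, union_empty]
    rintro (h1 | h1)
    · have h2 : γ t ∈ D.curve b a ∩ D.curve b c := ⟨by rw [D.curve_symm]; exact hc, h1⟩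
      rw [tf4_adj D hab.symm hbc hca.symm] at h2
      exact hnv b h2
    · have h2 : γ t ∈ D.curve a b ∩ D.curve a c := ⟨hc, by rw [D.curve_symm]; exact h1⟩
      rw [tf4_adj D hab hca.symm hbc] at h2
      exact hnv a h2
  exact ⟨ht1, te3_cross hγ hγ' hpc ht1 rfl ht1' htt' hl hpl⟩

end H53P
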