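import Pool.Agent.Lib.H53P.TF1

/-! # H53P, topology, file G1: quadrants at a crossing -/

open Set

namespace H53P

open SimpleDraw

theorem tg1_ca {γ : ℝ → ℂ} {e : Set ℂ} {x y : ℂ} (he : Par γ e x y) {t : ℝ} (ht : t ∈ Ioo (0 : ℝ) 1) :
    ContinuousAt γ t :=
  he.cont.continuousAt (Icc_mem_nhds ht.1 ht.2)

theorem tg1_pt {γ : ℝ → ℂ} {e : Set ℂ} {x y : ℂ} (he : Par γ e x y) {t : ℝ} (ht : t ∈ Ioo (0 : ℝ) 1)
    (H : OpenPartialHomeomorph ℂ ℂ) (hs : γ t ∈ H.source) (h0 : H (γ t) = 0) {δ ε : ℝ} (hδ : 0 < δ) (hε : 0 < ε) :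
    ∃ s ∈ Ioc t (t + δ), ‖H (γ s)‖ < ε := by
  have h1 : ContinuousAt (fun s => H (γ s)) t := (H.continuousAt hs).comp (tg1_ca he ht)
  have h2 : ∀ᶠ s in nhds t, ‖H (γ s)‖ < ε := by
    have h3 := h1.norm.eventually (gt_mem_nhds (show ‖H (γ t)‖ < ε by rw [h0, norm_zero]; exact hε))
    exact h3
  obtain ⟨η, hη, hb⟩ := Metric.eventually_nhds_iff.1 h2
  refine ⟨t + min δ (η / 2), ⟨?_, ?_⟩, ?_⟩
  · have : 0 < min δ (η / 2) := lt_min hδ (by linarith)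
    linarith
  · have : min δ (η / 2) ≤ δ := min_le_left _ _
    linarith
  · apply hb
    rw [Real.dist_eq, add_sub_cancel_left, abs_of_pos (lt_min hδ (by linarith))]
    have : min δ (η / 2) ≤ η / 2 := min_le_right _ _
    linarith

theorem tg1_curve {γ : ℝ → ℂ} {e : Set ℂ} {x y : ℂ} (he : Par γ e x y) {t : ℝ} (ht : t ∈ Ioo (0 : ℝ) 1)
    (H : OpenPartialHomeomorph ℂ ℂ) (hs : γ t ∈ H.source) (h0 : H (γ t) = 0) (L N : ℂ → ℝ) (hN : Continuous N)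
    (hLN : ∀ z w, L z = L w → N z = N w → z = w) (hN0 : N 0 = 0)
    (hL : ∀ z ∈ H.source, (z ∈ e ↔ L (H z) = 0)) :
    ∃ δ > 0, Icc (t - δ) (t + δ) ⊆ Ioo 0 1 ∧ (∀ r ∈ Icc (t - δ) (t + δ), γ r ∈ H.source ∧ L (H (γ r)) = 0) ∧
      ∃ σ : ℝ, (σ = 1 ∨ σ = -1) ∧ (∀ r ∈ Icc (t - δ) t, σ * N (H (γ r)) ≤ 0) ∧
        ∀ r ∈ Ioc t (t + δ), 0 < σ * N (H (γ r)) := by
  have h1 : {r | γ r ∈ H.source ∧ r ∈ Ioo (0 : ℝ) 1} ∈ nhds t := by
    refine Filter.inter_mem ((tg1_ca he ht).preimage_mem_nhds (H.open_source.mem_nhds hs)) (Ioo_mem_nhds ht.1 ht.2)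
  obtain ⟨η, hη, hb⟩ := Metric.mem_nhds_iff.1 h1
  have hη2 : 0 < η / 2 := by linarith
  have hin : ∀ r ∈ Icc (t - η / 2) (t + η / 2), γ r ∈ H.source ∧ r ∈ Ioo (0 : ℝ) 1 := by
    intro r hr
    apply hb
    rw [Metric.mem_ball, Real.dist_eq, abs_lt]
    constructor
    · linarith [hr.1]
    · linarith [hr.2]
  have hLz : ∀ r ∈ Icc (t - η / 2) (t + η / 2), L (H (γ r)) = 0 := by
    intro r hr
    obtain ⟨h2, h3⟩ := hin r hr
    rw [← hL _ h2, ← he.image]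
    exact ⟨r, ⟨h3.1.le, h3.2.le⟩, rfl⟩
  refine ⟨η / 2, hη2, fun r hr => (hin r hr).2, fun r hr => ⟨(hin r hr).1, hLz r hr⟩, ?_⟩
  have hφc : ContinuousOn (fun r => N (H (γ r))) (Icc (t - η / 2) (t + η / 2)) := by
    refine hN.comp_continuousOn (H.continuousOn.comp (he.cont.mono fun r hr => ?_) fun r hr => (hin r hr).1)
    exact ⟨(hin r hr).2.1.le, (hin r hr).2.2.le⟩
  have hφi : InjOn (fun r => N (H (γ r))) (Icc (t - η / 2) (t + η / 2)) := by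
    intro r hr r' hr' h
    have h2 : H (γ r) = H (γ r') := hLN _ _ (by rw [hLz r hr, hLz r' hr']) h
    have h3 := H.injOn (hin r hr).1 (hin r' hr').1 h2
    exact he.inj ⟨(hin r hr).2.1.le, (hin r hr).2.2.le⟩ ⟨(hin r' hr').2.1.le, (hin r' hr').2.2.le⟩ h3
  have htt : t ∈ Icc (t - η / 2) (t + η / 2) := ⟨by linarith, by linarith⟩
  have hφt : N (H (γ t)) = 0 := by rw [h0, hN0]
  rcases hφc.strictMonoOn_of_injOn_Icc' (by linarith) hφi with hm | hm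
  · refine ⟨1, Or.inl rfl, fun r hr => ?_, fun r hr => ?_⟩
    · rw [one_mul, ← hφt]
      exact hm.monotoneOn ⟨hr.1, by linarith [hr.2]⟩ htt hr.2
    · rw [one_mul, ← hφt]
      exact hm htt ⟨by linarith [hr.1], hr.2⟩ hr.1
  · refine ⟨-1, Or.inr rfl, fun r hr => ?_, fun r hr => ?_⟩
    · have h5 : N (H (γ t)) ≤ N (H (γ r)) := hm.antitoneOn ⟨hr.1, by linarith [hr.2]⟩ htt hr.2
      rw [hφt] at h5
      linarith
    · have h5 : N (H (γ r)) < N (H (γ t)) := hm htt ⟨by linarith [hr.1], hr.2⟩ hr.1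
      rw [hφt] at h5
      linarith

/-- (TG1, M) Local quadrants at a crossing.
`γ` (horizontal in the chart) and `γ'` (vertical) cross in `P = γ t = γ' t'`; after the crossing the
two curves can be joined near `P` without meeting the parts before the crossing.
PROOF.  As in `te1_local`: for small `δ` the function `φ s = re (H (γ s))` is continuous and
injective on `[t-δ, t+δ]`, so strictly monotone (`σ = 1`) or antitone (`σ = -1`), `φ t = 0`, and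
`im (H (γ s)) = 0`; similarly `ψ s = im (H (γ' s))` with a sign `τ`, and `re (H (γ' s)) = 0`.
Choose `ε > 0` with `closedBall 0 ε ⊆ H.target` and `H.symm '' closedBall 0 ε` disjoint from the
compact set `K ∪ γ '' (Icc 0 (t-δ) ∪ Icc (t+δ) 1) ∪ γ' '' (Icc 0 (t'-δ) ∪ Icc (t'+δ) 1)` (it does not
contain `P`).  Let `Q₀ = {z | ‖z‖ < ε ∧ z ≠ 0 ∧ 0 ≤ σ * z.re ∧ 0 ≤ τ * z.im}`: this set is convex
(`0` is an extreme point of the quadrant), so `Q = H.symm '' Q₀` is preconnected.  For `s > t` close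
to `t`: `H (γ s)` is real with sign `σ`, so `γ s ∈ Q`; for `s' > t'` close to `t'`: `γ' s' ∈ Q`.
`Q` is disjoint from `γ '' Icc 0 t`: if `H.symm ζ = γ r` with `ζ ∈ Q₀`, `r ≤ t`, then `r > t - δ` by
the choice of `ε`, `ζ = H (γ r)` is real, `re ζ = φ r` and `σ φ r ≤ 0`, so `ζ = 0`, a
contradiction.  In the same way for `γ'`. -/
theorem tg1_quadrant {γ γ' : ℝ → ℂ} {e f : Set ℂ} {x y a b P : ℂ} (he : Par γ e x y)
    (hf : Par γ' f a b) (hc : ProperCrossing e f P) {t t' : ℝ}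
    (ht : t ∈ Ioo (0 : ℝ) 1) (hP : γ t = P) (ht' : t' ∈ Ioo (0 : ℝ) 1) (hP' : γ' t' = P)
    {K : Set ℂ} (hK : IsCompact K) (hPK : P ∉ K) :
    ∃ s ∈ Ioo t 1, ∃ s' ∈ Ioo t' 1, ∃ Q : Set ℂ, IsPreconnected Q ∧ γ s ∈ Q ∧ γ' s' ∈ Q ∧
      Disjoint Q (γ '' Icc 0 t) ∧ Disjoint Q (γ' '' Icc 0 t') ∧ Disjoint Q K := by
  obtain ⟨H, hs, h0, hce, hcf⟩ := hc
  subst hP
  have hs' : γ' t' ∈ H.source := by
    rw [hP']
    exact hs
  have h0' : H (γ' t') = 0 := by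
    rw [hP']
    exact h0
  obtain ⟨δ, hδ, hIcc, hsrc, σ, hσ, hneg, hpos⟩ := tg1_curve he ht H hs h0 Complex.im Complex.re
    Complex.continuous_re (fun z w h1 h2 => Complex.ext h2 h1) rfl hce
  obtain ⟨δ', hδ', hIcc', hsrc', τ, hτ, hneg', hpos'⟩ := tg1_curve hf ht' H hs' h0' Complex.re Complex.im
    Complex.continuous_im (fun z w h1 h2 => Complex.ext h1 h2) rfl hcf
  have hu0 : (0 : ℝ) ∈ Icc (0 : ℝ) 1 := ⟨le_rfl, zero_le_one⟩
  obtain ⟨C, hC⟩ : ∃ C, C = K ∪ (γ '' Icc 0 (t - δ) ∪ γ' '' Icc 0 (t' - δ')) := ⟨_, rfl⟩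
  have htδ : t - δ < 1 := by linarith [ht.2]
  have htδ' : t' - δ' < 1 := by linarith [ht'.2]
  have hCc : IsCompact C := by
    rw [hC]
    refine hK.union (IsCompact.union ?_ ?_)
    · exact isCompact_Icc.image_of_continuousOn (he.cont.mono (Icc_subset_Icc le_rfl htδ.le))
    · exact isCompact_Icc.image_of_continuousOn (hf.cont.mono (Icc_subset_Icc le_rfl htδ'.le))
  have hPC : γ t ∉ C := by
    rw [hC]
    rintro (h | ⟨r, hr, hrr⟩ | ⟨r, hr, hrr⟩)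
    · exact hPK h
    · have := he.inj ⟨hr.1, hr.2.trans htδ.le⟩ ⟨ht.1.le, ht.2.le⟩ hrr
      linarith [hr.2]
    · rw [← hP'] at hrr
      have := hf.inj ⟨hr.1, hr.2.trans htδ'.le⟩ ⟨ht'.1.le, ht'.2.le⟩ hrr
      linarith [hr.2]
  have h0t : (0 : ℂ) ∈ H.target := by
    rw [← h0]
    exact H.map_source hs
  have hsymm0 : H.symm 0 = γ t := by
    rw [← h0]
    exact H.left_inv hs
  have hnb : {z | z ∈ H.target ∧ H.symm z ∉ C} ∈ nhds (0 : ℂ) := by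
    refine Filter.inter_mem (H.open_target.mem_nhds h0t) ?_
    have hca : ContinuousAt H.symm 0 := H.continuousAt_symm h0t
    have h3 : H.symm ⁻¹' Cᶜ ∈ nhds (0 : ℂ) := hca.preimage_mem_nhds (by
      rw [hsymm0]
      exact hCc.isClosed.isOpen_compl.mem_nhds hPC)
    exact h3
  obtain ⟨ε, hε, hball⟩ := Metric.mem_nhds_iff.1 hnb
  obtain ⟨Q₀, hQ₀⟩ : ∃ Q₀ : Set ℂ, Q₀ = {z | ‖z‖ < ε ∧ 0 < σ * z.re + τ * z.im ∧ 0 ≤ σ * z.re ∧ 0 ≤ τ * z.im} :=
    ⟨_, rfl⟩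
  have hQb : ∀ z ∈ Q₀, z ∈ H.target ∧ H.symm z ∉ C := by
    intro z hz
    rw [hQ₀] at hz
    exact hball (by rw [Metric.mem_ball, dist_zero_right]; exact hz.1)
  have hconv : Convex ℝ Q₀ := by
    rw [hQ₀]
    intro z hz w hw a b ha hb hab
    refine ⟨?_, ?_, ?_, ?_⟩
    · have h1 := convex_ball (0 : ℂ) ε (by rw [Metric.mem_ball, dist_zero_right]; exact hz.1)
        (by rw [Metric.mem_ball, dist_zero_right]; exact hw.1) ha hb hab
      rwa [Metric.mem_ball, dist_zero_right] at h1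
    · have h1 := hz.2.1
      have h2 := hw.2.1
      simp only [Complex.add_re, Complex.add_im, Complex.real_smul, Complex.re_ofReal_mul, Complex.im_ofReal_mul]
      rcases ha.eq_or_lt with rfl | ha'
      · have hb1 : b = 1 := by linarith
        rw [hb1]
        linarith
      · have h3 := mul_pos ha' h1
        have h4 := mul_nonneg hb h2.le
        nlinarith
    · simp only [Complex.add_re, Complex.real_smul, Complex.re_ofReal_mul]
      have h3 := mul_nonneg ha hz.2.2.1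
      have h4 := mul_nonneg hb hw.2.2.1
      nlinarith
    · simp only [Complex.add_im, Complex.real_smul, Complex.im_ofReal_mul]
      have h3 := mul_nonneg ha hz.2.2.2
      have h4 := mul_nonneg hb hw.2.2.2
      nlinarith
  -- the points on the curves
  obtain ⟨s, hst, hsn⟩ := tg1_pt he ht H hs h0 hδ hε
  obtain ⟨s', hst', hsn'⟩ := tg1_pt hf ht' H hs' h0' hδ' hε
  refine ⟨s, ⟨hst.1, ?_⟩, s', ⟨hst'.1, ?_⟩, H.symm '' Q₀, ?_, ?_, ?_, ?_, ?_, ?_⟩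
  · exact (hIcc ⟨by linarith [hst.1], hst.2⟩).2
  · exact (hIcc' ⟨by linarith [hst'.1], hst'.2⟩).2
  · exact hconv.isPreconnected.image _ (H.continuousOn_symm.mono fun z hz => (hQb z hz).1)
  · obtain ⟨h1, h2⟩ := hsrc s ⟨by linarith [hst.1], hst.2⟩
    refine ⟨H (γ s), ?_, H.left_inv h1⟩
    rw [hQ₀]
    have h3 := hpos s hst
    exact ⟨hsn, by rw [h2, mul_zero, add_zero]; exact h3, h3.le, by rw [h2, mul_zero]⟩
  · obtain ⟨h1, h2⟩ := hsrc' s' ⟨by linarith [hst'.1], hst'.2⟩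
    refine ⟨H (γ' s'), ?_, H.left_inv h1⟩
    rw [hQ₀]
    have h3 := hpos' s' hst'
    exact ⟨hsn', by rw [h2, mul_zero, zero_add]; exact h3, by rw [h2, mul_zero], h3.le⟩
  · rw [Set.disjoint_left]
    rintro _ ⟨ζ, hζ, rfl⟩ ⟨r, hr, hrr⟩
    obtain ⟨hζt, hζC⟩ := hQb ζ hζ
    rcases le_or_gt r (t - δ) with h | h
    · apply hζC
      rw [← hrr, hC]
      exact Or.inr (Or.inl ⟨r, ⟨hr.1, h⟩, rfl⟩)
    · obtain ⟨_, h2⟩ := hsrc r ⟨h.le, by linarith [hr.2]⟩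
      have h3 := hneg r ⟨h.le, hr.2⟩
      rw [hrr, H.right_inv hζt] at h2 h3
      rw [hQ₀] at hζ
      have h4 := hζ.2.1
      rw [h2, mul_zero, add_zero] at h4
      exact not_lt.2 h3 h4
  · rw [Set.disjoint_left]
    rintro _ ⟨ζ, hζ, rfl⟩ ⟨r, hr, hrr⟩
    obtain ⟨hζt, hζC⟩ := hQb ζ hζ
    rcases le_or_gt r (t' - δ') with h | h
    · apply hζC
      rw [← hrr, hC]
      exact Or.inr (Or.inr ⟨r, ⟨hr.1, h⟩, rfl⟩)
    · obtain ⟨_, h2⟩ := hsrc' r ⟨h.le, by linarith [hr.2]⟩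
      have h3 := hneg' r ⟨h.le, hr.2⟩
      rw [hrr, H.right_inv hζt] at h2 h3
      rw [hQ₀] at hζ
      have h4 := hζ.2.1
      rw [h2, mul_zero, zero_add] at h4
      exact not_lt.2 h3 h4
  · rw [Set.disjoint_left]
    rintro _ ⟨ζ, hζ, rfl⟩ hK'
    apply (hQb ζ hζ).2
    rw [hC]
    exact Or.inl hK'

end H53P
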