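import Pool.Agent.Lib.H53P.TG1

/-! # H53P, topology, file G2: four vertices span at most one crossing (axiom D1) -/

open Set

namespace H53P

open SimpleDraw

variable {n : ℕ} (D : SimpleDrawing n)

theorem tg2_time {γ : ℝ → ℂ} {e : Set ℂ} {x y P : ℂ} (h : Par γ e x y) (hP : P ∈ e) (hx : P ≠ x) (hy : P ≠ y) :
    ∃ t ∈ Ioo (0 : ℝ) 1, γ t = P := by
  rw [← h.image] at hP
  obtain ⟨t, ht, rfl⟩ := hP
  refine ⟨t, ⟨lt_of_le_of_ne ht.1 ?_, lt_of_le_of_ne ht.2 ?_⟩, rfl⟩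
  · rintro rfl
    exact hx h.zero
  · rintro rfl
    exact hy h.one

theorem tg2_inj {γ : ℝ → ℂ} {e : Set ℂ} {x y : ℂ} (h : Par γ e x y) {r s : ℝ} (hr : r ∈ Icc (0 : ℝ) 1)
    (hs : s ∈ Icc (0 : ℝ) 1) (hne : r ≠ s) : γ r ≠ γ s := fun e => hne (h.inj hr hs e)

theorem tg2_mem {γ : ℝ → ℂ} {e : Set ℂ} {x y : ℂ} (h : Par γ e x y) {r : ℝ} (hr : r ∈ Icc (0 : ℝ) 1) : γ r ∈ e := by
  rw [← h.image]
  exact mem_image_of_mem γ hr

/-- The part after the crossing does not meet the chain. -/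
theorem tg2_dis {γ γ' : ℝ → ℂ} {e f K : Set ℂ} {x y x' y' P : ℂ} (he : Par γ e x y) (hf : Par γ' f x' y')
    {t t' s : ℝ} (ht : t ∈ Ioo (0 : ℝ) 1) (hP : γ t = P) (ht' : t' ∈ Ioo (0 : ℝ) 1) (hs : s ∈ Ioo t 1)
    (hef : ∀ p ∈ e ∩ f, p = P) (heK : ∀ p ∈ e ∩ K, p = x) :
    Disjoint (γ '' Icc s 1) K ∧ Disjoint (γ '' Icc s 1) (γ '' Icc 0 t) ∧ Disjoint (γ '' Icc s 1) (γ' '' Icc 0 t') := by
  have hin : ∀ r ∈ Icc s 1, r ∈ Icc (0 : ℝ) 1 := fun r hr => ⟨by linarith [hr.1, hs.1, ht.1], hr.2⟩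
  refine ⟨?_, ?_, ?_⟩
  · rw [Set.disjoint_left]
    rintro _ ⟨r, hr, rfl⟩ hK
    have h1 := heK _ ⟨tg2_mem he (hin r hr), hK⟩
    rw [← he.zero] at h1
    exact tg2_inj he (hin r hr) ⟨le_rfl, zero_le_one⟩ (by linarith [hr.1, hs.1, ht.1]) h1
  · rw [Set.disjoint_left]
    rintro _ ⟨r, hr, rfl⟩ ⟨r', hr', e1⟩
    exact tg2_inj he ⟨hr'.1, by linarith [hr'.2, ht.2]⟩ (hin r hr) (by
      have := hr'.2
      have := hr.1
      have := hs.1
      linarith) e1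
  · rw [Set.disjoint_left]
    rintro _ ⟨r, hr, rfl⟩ ⟨r', hr', e1⟩
    have h1 : γ r = P := hef _ ⟨tg2_mem he (hin r hr), by
      rw [← e1]
      exact tg2_mem hf ⟨hr'.1, by linarith [hr'.2, ht'.2]⟩⟩
    rw [← hP] at h1
    exact tg2_inj he (hin r hr) ⟨ht.1.le, ht.2.le⟩ (by linarith [hr.1, hs.1]) h1

/-- (TG2, M) (axiom D1) Among four vertices at most one pair of independent edges crosses.
PROOF.  Suppose `P ∈ ab ∩ cd` and `Q ∈ ac ∩ bd` (all four vertices distinct).  Let `γ` parametrise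
`ab` from `a` to `b`, `γ t = P`, and `γ'` parametrise `cd` from `c` to `d`, `γ' t' = P`; by
`tf5_cross` `t, t' ∈ (0,1)` and `P` is a proper crossing of `ab` and `cd`.  Let `C` be the closed
chain from `c`: `[(D.curve c a, c, a), (γ '' Icc 0 t, a, P), (γ' '' Icc 0 t', P, c)]`.
(i) The edge `db` meets the support of `C` exactly in `Q`: it meets `ca` in one point `Q`
(`D.inter`), `ab` only in `b = γ 1`, which is not in `γ '' Icc 0 t`, and `cd` only in `d = γ' 1`, not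
in `γ' '' Icc 0 t'`.  `Q` is a proper crossing of `db` and `ca`, and is not on the other two parts
(`ca ∩ ab = {a}`, `ca ∩ cd = {c}`, `Q` is not a vertex).  By `te3_cross` and `te6_law` (with
`F = {time of Q}`): `par C (D.pt d) ≠ par C (D.pt b)`.
(ii) `tg1_quadrant` with `K = D.curve c a` (`P ∉ ca`: `ab ∩ ca = {a}`): `γ s`, `γ' s'` and `Q₀`.
The set `γ' '' Icc s' 1` is disjoint from the support of `C` (`cd ∩ ab = {P}`, injectivity of `γ'`,
`cd ∩ ca = {c}`) and contains `γ' s'` and `D.pt d`; `γ '' Icc s 1` is disjoint from the support and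
contains `γ s` and `D.pt b`; `Q₀` is disjoint from the support and contains `γ s` and `γ' s'`.  By
`tc3_const` (three times) `csum C (D.pt d) = csum C (D.pt b)`, a contradiction. -/
theorem tg2_one (a b c d : Fin n) (h : X D a b c d = true) : X D a c b d = false := by
  obtain ⟨hab, hcd, hac, had, hbc, hbd, ⟨P, hP⟩⟩ := @of_decide_eq_true _ (Classical.dec _) h
  refine @decide_eq_false _ (Classical.dec _) ?_
  rintro ⟨-, -, -, -, -, -, ⟨Q, hQ⟩⟩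
  have hsub1 : s(a, b) ≠ s(c, d) := by
    intro h
    rcases Sym2.eq_iff.1 h with ⟨h1, _⟩ | ⟨h1, _⟩
    · exact hac h1
    · exact had h1
  obtain ⟨hPc, hPv⟩ := tf5_cross D hab hcd hac had hbc hbd hP
  have hQ' : Q ∈ D.curve d b ∩ D.curve c a := ⟨by rw [D.curve_symm]; exact hQ.2, by rw [D.curve_symm]; exact hQ.1⟩
  obtain ⟨hQc, hQv⟩ := tf5_cross D hbd.symm hac.symm hcd.symm had.symm hbc hab.symm hQ'
  have hsub2 : s(d, b) ≠ s(c, a) := by
    intro h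
    rcases Sym2.eq_iff.1 h with ⟨h1, _⟩ | ⟨h1, _⟩
    · exact hcd h1.symm
    · exact had h1.symm
  obtain ⟨γ, hγ⟩ := tf1_par D hab
  obtain ⟨γ', hγ'⟩ := tf1_par D hcd
  obtain ⟨γ₂, hγ₂⟩ := tf1_par D hbd.symm
  obtain ⟨γ₃, hγ₃⟩ := tf1_par D hac.symm
  obtain ⟨t, ht, htP⟩ := tg2_time hγ hP.1 (hPv _) (hPv _)
  obtain ⟨t', ht', htP'⟩ := tg2_time hγ' hP.2 (hPv _) (hPv _)
  obtain ⟨τ, hτ, hτQ⟩ := tg2_time hγ₂ hQ'.1 (hQv _) (hQv _)
  obtain ⟨τ', hτ', hτQ'⟩ := tg2_time hγ₃ hQ'.2 (hQv _) (hQv _)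
  -- intersections
  have iab_ac : D.curve a b ∩ D.curve c a = {D.pt a} := by
    rw [D.curve_symm c a]
    exact tf4_adj D hab hac hbc
  have icd_ca : D.curve c d ∩ D.curve c a = {D.pt c} := tf4_adj D hcd hac.symm had.symm
  have idb_ab : D.curve d b ∩ D.curve a b = {D.pt b} := by
    rw [D.curve_symm d b, D.curve_symm a b]
    exact tf4_adj D hbd hab.symm had.symm
  have idb_cd : D.curve d b ∩ D.curve c d = {D.pt d} := by
    rw [D.curve_symm c d]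
    exact tf4_adj D hbd.symm hcd.symm hbc
  have iP : ∀ p ∈ D.curve a b ∩ D.curve c d, p = P := fun p hp => D.inter a b c d hab hcd hsub1 hp hP
  have iQ : ∀ p ∈ D.curve d b ∩ D.curve c a, p = Q := fun p hp => D.inter d b c a hbd.symm hac.symm hsub2 hp hQ'
  have hA : γ '' Icc 0 t ⊆ D.curve a b := by
    rintro _ ⟨r, hr, rfl⟩
    exact tg2_mem hγ ⟨hr.1, hr.2.trans ht.2.le⟩
  have hB : γ' '' Icc 0 t' ⊆ D.curve c d := by
    rintro _ ⟨r, hr, rfl⟩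
    exact tg2_mem hγ' ⟨hr.1, hr.2.trans ht'.2.le⟩
  have hbA : D.pt b ∉ γ '' Icc 0 t := by
    rintro ⟨r, hr, e⟩
    rw [← hγ.one] at e
    exact tg2_inj hγ ⟨hr.1, hr.2.trans ht.2.le⟩ ⟨zero_le_one, le_rfl⟩ (by linarith [hr.2, ht.2]) e
  have hdB : D.pt d ∉ γ' '' Icc 0 t' := by
    rintro ⟨r, hr, e⟩
    rw [← hγ'.one] at e
    exact tg2_inj hγ' ⟨hr.1, hr.2.trans ht'.2.le⟩ ⟨zero_le_one, le_rfl⟩ (by linarith [hr.2, ht'.2]) e
  have cK : Cell (D.curve c a) := tf2_cell D hac.symm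
  have mK := tf3_mem D hac.symm
  have pl : PathCh (D.pt a) (D.pt c) [(γ '' Icc 0 t, D.pt a, P), (γ' '' Icc 0 t', P, D.pt c)] := by
    refine ⟨te0_cell hγ le_rfl ht.2.le, ?_, ?_, rfl, te0_cell hγ' le_rfl ht'.2.le, ?_, ?_, rfl, rfl⟩
    · exact ⟨0, ⟨le_rfl, ht.1.le⟩, hγ.zero⟩
    · exact ⟨t, ⟨ht.1.le, le_rfl⟩, htP⟩
    · exact ⟨t', ⟨ht'.1.le, le_rfl⟩, htP'⟩
    · exact ⟨0, ⟨le_rfl, ht'.1.le⟩, hγ'.zero⟩
  have pC : PathCh (D.pt c) (D.pt c) ((D.curve c a, D.pt c, D.pt a) ::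
      [(γ '' Icc 0 t, D.pt a, P), (γ' '' Icc 0 t', P, D.pt c)]) := ⟨cK, mK.1, mK.2, rfl, pl⟩
  obtain ⟨C, hC⟩ : ∃ C : Ch, C = (D.curve c a, D.pt c, D.pt a) ::
      [(γ '' Icc 0 t, D.pt a, P), (γ' '' Icc 0 t', P, D.pt c)] := ⟨_, rfl⟩
  have hsupp : csupp C = D.curve c a ∪ (γ '' Icc 0 t ∪ γ' '' Icc 0 t') := by
    rw [hC]
    simp only [csupp_cons, csupp_nil, union_empty]
  have hQl : Q ∉ csupp [(γ '' Icc 0 t, D.pt a, P), (γ' '' Icc 0 t', P, D.pt c)] := by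
    simp only [csupp_cons, csupp_nil, union_empty]
    rintro (h1 | h1)
    · have h2 : Q ∈ D.curve a b ∩ D.curve c a := ⟨hA h1, hQ'.2⟩
      rw [iab_ac] at h2
      exact hQv _ h2
    · have h2 : Q ∈ D.curve c d ∩ D.curve c a := ⟨hB h1, hQ'.2⟩
      rw [icd_ca] at h2
      exact hQv _ h2
  -- the parity law
  have hlaw := te6_law (l := C) (by rw [hC]; exact pC) (γ := γ₂) (s₀ := 0) (s₁ := 1) zero_lt_one hγ₂.cont {τ} (by
      intro r hr
      rw [Finset.mem_singleton] at hr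
      rw [hr]
      exact hτ) (by
      intro r hr
      rw [Finset.mem_singleton, hsupp]
      constructor
      · rintro (h1 | h1 | h1)
        · have h2 := iQ _ ⟨tg2_mem hγ₂ hr, h1⟩
          rw [← hτQ] at h2
          exact hγ₂.inj hr ⟨hτ.1.le, hτ.2.le⟩ h2
        · exfalso
          have h2 : γ₂ r ∈ D.curve d b ∩ D.curve a b := ⟨tg2_mem hγ₂ hr, hA h1⟩
          rw [idb_ab] at h2
          rw [mem_singleton_iff.1 h2] at h1
          exact hbA h1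
        · exfalso
          have h2 : γ₂ r ∈ D.curve d b ∩ D.curve c d := ⟨tg2_mem hγ₂ hr, hB h1⟩
          rw [idb_cd] at h2
          rw [mem_singleton_iff.1 h2] at h1
          exact hdB h1
      · rintro rfl
        rw [hτQ]
        exact Or.inl hQ'.2) (by
      intro r hr
      rw [Finset.mem_singleton] at hr
      rw [hr, hC]
      exact te3_cross hγ₂ hγ₃ hQc hτ hτQ hτ' hτQ' pl hQl)
  rw [hγ₂.zero, hγ₂.one, Finset.card_singleton, decide_eq_true (odd_one)] at hlaw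
  -- the quadrant
  have hPK : P ∉ D.curve c a := by
    intro h1
    have h2 : P ∈ D.curve a b ∩ D.curve c a := ⟨hP.1, h1⟩
    rw [iab_ac] at h2
    exact hPv _ h2
  obtain ⟨s, hs, s', hs', Q₀, q1, q2, q3, q4, q5, q6⟩ := tg1_quadrant hγ hγ' hPc ht htP ht' htP' cK.compact hPK
  obtain ⟨u1, u2, u3⟩ := tg2_dis hγ hγ' ht htP ht' hs iP (K := D.curve c a) (fun p hp => by
    rw [iab_ac] at hp
    exact hp)
  obtain ⟨w1, w2, w3⟩ := tg2_dis hγ' hγ ht' htP' ht hs' (fun p hp => iP p ⟨hp.2, hp.1⟩) (K := D.curve c a)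
    (fun p hp => by
      rw [icd_ca] at hp
      exact hp)
  have pC' : PathCh (D.pt c) (D.pt c) C := by rw [hC]; exact pC
  have e1 : csum C (γ s) = csum C (D.pt b) := by
    refine tc3_const pC' (C := γ '' Icc s 1) (isPreconnected_Icc.image _ (hγ.cont.mono
      (Icc_subset_Icc (by linarith [hs.1, ht.1]) le_rfl))) ?_ ⟨s, ⟨le_rfl, hs.2.le⟩, rfl⟩ ⟨1, ⟨hs.2.le, le_rfl⟩, hγ.one⟩
    rw [hsupp]
    exact u1.union_right (u2.union_right u3)
  have e2 : csum C (γ' s') = csum C (D.pt d) := by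
    refine tc3_const pC' (C := γ' '' Icc s' 1) (isPreconnected_Icc.image _ (hγ'.cont.mono
      (Icc_subset_Icc (by linarith [hs'.1, ht'.1]) le_rfl))) ?_ ⟨s', ⟨le_rfl, hs'.2.le⟩, rfl⟩
      ⟨1, ⟨hs'.2.le, le_rfl⟩, hγ'.one⟩
    rw [hsupp]
    exact w1.union_right (w3.union_right w2)
  have e3 : csum C (γ s) = csum C (γ' s') := by
    refine tc3_const pC' q1 ?_ q2 q3
    rw [hsupp]
    exact q6.union_right (q4.union_right q5)
  have e4 : par C (D.pt d) = par C (D.pt b) := by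
    unfold par
    rw [← e1, ← e2, e3]
  rw [e4, Bool.xor_self] at hlaw
  exact Bool.noConfusion hlaw

end H53P
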