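import Pool.Agent.Lib.H53P.TE1

/-! # H53P, topology, file H1: circle arcs, exit from a ball

The edges at `u` leave a small disc around `D.pt u` for the first time in points of its boundary
circle; the cyclic order of these points is the rotation at `u`. -/

open Set

namespace H53P

open SimpleDraw

/-- the arc of the circle with centre `c` and radius `r` between the angles `α` and `β` -/
noncomputable def arcS (c : ℂ) (r α β : ℝ) : Set ℂ :=
  (fun t : ℝ => c + r * Complex.exp (t * Complex.I)) '' Icc α β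

/-- the point of the circle with angle `α` -/
noncomputable def cpt (c : ℂ) (r α : ℝ) : ℂ := c + r * Complex.exp (α * Complex.I)

theorem th1_aux_cont (c : ℂ) (r : ℝ) : Continuous (fun t : ℝ => c + r * Complex.exp (t * Complex.I)) := by
  fun_prop

theorem th1_aux_inj (c : ℂ) {r α β : ℝ} (hr : 0 < r) (hab : β - α < 2 * Real.pi) :
    InjOn (fun t : ℝ => c + r * Complex.exp (t * Complex.I)) (Icc α β) := by
  intro t ht t' ht' h
  have hr' : (r : ℂ) ≠ 0 := by exact_mod_cast hr.ne'
  have h1 : Complex.exp (t * Complex.I) = Complex.exp (t' * Complex.I) :=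
    mul_left_cancel₀ hr' (add_left_cancel h)
  obtain ⟨n, hn⟩ := Complex.exp_eq_exp_iff_exists_int.1 h1
  have h2 : ((t : ℂ) - t') * Complex.I = (n * (2 * Real.pi)) * Complex.I := by
    rw [sub_mul, hn]
    ring
  have h3 : (t : ℂ) - t' = n * (2 * Real.pi) := mul_right_cancel₀ Complex.I_ne_zero h2
  have h4 : t - t' = n * (2 * Real.pi) := by exact_mod_cast h3
  have hpi := Real.pi_pos
  have h5 : n = 0 := by
    by_contra hne
    rcases lt_or_gt_of_ne hne with h6 | h6
    · have h7 : (n : ℝ) ≤ -1 := by exact_mod_cast Int.le_sub_one_of_lt h6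
      nlinarith [ht.1, ht.2, ht'.1, ht'.2]
    · have h7 : (1 : ℝ) ≤ n := by exact_mod_cast h6
      nlinarith [ht.1, ht.2, ht'.1, ht'.2]
  rw [h5] at h4
  simp at h4
  linarith

theorem th1_aux_dl (c : ℂ) {r α β : ℝ} (hr : 0 < r) (hα : α ≤ β) (hab : β - α < 2 * Real.pi) :
    dl (arcS c r α β) (cpt c r α) (cpt c r β) c = (β - α : ℝ) * Complex.I := by
  obtain ⟨ψ, hψ, hψ'⟩ := ta2_inv (isCompact_Icc (a := α) (b := β)) (th1_aux_cont c r).continuousOn
    (th1_aux_inj c hr hab)
  have hcell : Cell (arcS c r α β) := ta3_cell isCompact_Icc (convex_Icc α β) (th1_aux_cont c r).continuousOn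
    (th1_aux_inj c hr hab)
  have hL : IsLog (fun w => (Real.log r : ℂ) + (ψ w : ℂ) * Complex.I) (arcS c r α β) c := by
    constructor
    · refine continuousOn_const.add (ContinuousOn.mul ?_ continuousOn_const)
      exact Complex.continuous_ofReal.comp_continuousOn hψ
    · rintro _ ⟨t, ht, rfl⟩
      simp only
      rw [hψ' t ht, Complex.exp_add, ← Complex.ofReal_exp, Real.exp_log hr]
      ring
  have hα' : cpt c r α ∈ arcS c r α β := ⟨α, ⟨le_rfl, hα⟩, rfl⟩
  have hβ' : cpt c r β ∈ arcS c r α β := ⟨β, ⟨hα, le_rfl⟩, rfl⟩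
  rw [tb2_dl hcell.conn hL hα' hβ']
  have e1 : ψ (cpt c r α) = α := hψ' α ⟨le_rfl, hα⟩
  have e2 : ψ (cpt c r β) = β := hψ' β ⟨hα, le_rfl⟩
  rw [e1, e2]
  push_cast
  ring

theorem th1_aux_per (c : ℂ) (r α : ℝ) : cpt c r (α + 2 * Real.pi) = cpt c r α := by
  unfold cpt
  have h : (((α + 2 * Real.pi : ℝ) : ℂ) * Complex.I) = (α : ℂ) * Complex.I + 2 * Real.pi * Complex.I := by
    push_cast
    ring
  rw [h, Complex.exp_add, Complex.exp_two_pi_mul_I, mul_one]

theorem th1_aux_norm (c : ℂ) {r : ℝ} (hr : 0 < r) (α β : ℝ) {w : ℂ} (hw : w ∈ arcS c r α β) : ‖w - c‖ = r := by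
  obtain ⟨t, -, rfl⟩ := hw
  simp only [add_sub_cancel_left]
  rw [norm_mul, Complex.norm_exp_ofReal_mul_I, mul_one, Complex.norm_real, Real.norm_eq_abs, abs_of_pos hr]

/-- (TH1, S/M) PROOF.  `t ↦ cpt c r t` is injective on `Icc α β` when `β - α < 2π`
(`Complex.exp_eq_exp_iff_exists_int`); `ta3_cell` with `E = ℝ`. -/
theorem th1_cell (c : ℂ) {r α β : ℝ} (hr : 0 < r) (hab : β - α < 2 * Real.pi) :
    Cell (arcS c r α β) := by
  exact ta3_cell isCompact_Icc (convex_Icc α β) (th1_aux_cont c r).continuousOn (th1_aux_inj c hr hab)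

/-- (TH2, M) A complementary pair of arcs winds once around every point inside the circle.
PROOF.  The chain `[(arcS α β, α, β), (arcS β (α+2π), β, α + 2π = α)]` is closed (`e^{2πi} = 1`) and
its support lies on the circle, so by `tc3_const` on the preconnected open ball it suffices to treat
`z = c`.  There `L (cpt c r t) = log r + i t` is a continuous logarithm on `arcS c r α β`
(continuity: compose with the continuous inverse of the injective parametrisation, `ta2_inv`), so
`dl (arcS c r α β) (cpt c r α) (cpt c r β) c = i (β - α)` by `tb2_dl`, and the second term is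
`i (α + 2π - β)`. -/
theorem th2_circle (c : ℂ) {r α β : ℝ} (hr : 0 < r) (hab : α < β) (hba : β < α + 2 * Real.pi)
    {z : ℂ} (hz : ‖z - c‖ < r) :
    dl (arcS c r α β) (cpt c r α) (cpt c r β) z +
      dl (arcS c r β (α + 2 * Real.pi)) (cpt c r β) (cpt c r α) z = 2 * Real.pi * Complex.I := by
  have hpi := Real.pi_pos
  have c1 := th1_cell c hr (α := α) (β := β) (by linarith)
  have c2 := th1_cell c hr (α := β) (β := α + 2 * Real.pi) (by linarith)
  have m1 : cpt c r α ∈ arcS c r α β := ⟨α, ⟨le_rfl, hab.le⟩, rfl⟩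
  have m2 : cpt c r β ∈ arcS c r α β := ⟨β, ⟨hab.le, le_rfl⟩, rfl⟩
  have m3 : cpt c r β ∈ arcS c r β (α + 2 * Real.pi) := ⟨β, ⟨le_rfl, hba.le⟩, rfl⟩
  have m4 : cpt c r α ∈ arcS c r β (α + 2 * Real.pi) := by
    rw [← th1_aux_per c r α]
    exact ⟨α + 2 * Real.pi, ⟨hba.le, le_rfl⟩, rfl⟩
  have hP : PathCh (cpt c r α) (cpt c r α) [(arcS c r α β, cpt c r α, cpt c r β),
      (arcS c r β (α + 2 * Real.pi), cpt c r β, cpt c r α)] :=
    ⟨c1, m1, m2, rfl, c2, m3, m4, rfl, rfl⟩
  have hd : Disjoint (Metric.ball c r) (csupp [(arcS c r α β, cpt c r α, cpt c r β),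
      (arcS c r β (α + 2 * Real.pi), cpt c r β, cpt c r α)]) := by
    rw [Set.disjoint_left]
    intro w hw h
    rw [csupp_cons, csupp_cons, csupp_nil, union_empty] at h
    rw [Metric.mem_ball, dist_eq_norm] at hw
    rcases h with h | h
    · exact absurd (th1_aux_norm c hr _ _ h) hw.ne
    · exact absurd (th1_aux_norm c hr _ _ h) hw.ne
  have h1 := tc3_const hP (convex_ball c r).isPreconnected hd (z := z) (z' := c)
    (by rw [Metric.mem_ball, dist_eq_norm]; exact hz) (Metric.mem_ball_self hr)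
  rw [csum_cons, csum_cons, csum_nil, csum_cons, csum_cons, csum_nil, add_zero, add_zero] at h1
  simp only at h1
  rw [h1, th1_aux_dl c hr hab.le (by linarith)]
  have h2 := th1_aux_dl c hr (α := β) (β := α + 2 * Real.pi) hba.le (by linarith)
  rw [th1_aux_per] at h2
  rw [h2]
  push_cast
  ring

/-- (TH3, S) closed balls are cells.  PROOF.  `ta3_cell` with `E = ℂ`, `φ = id`. -/
theorem th3_ball (c : ℂ) (r : ℝ) : Cell (Metric.closedBall c r) := by
  have h := ta3_cell (isCompact_closedBall c r) (convex_closedBall c r) (φ := fun z : ℂ => z)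
    continuousOn_id (fun x _ y _ h => h)
  rwa [image_id'] at h

/-- (TH4, S) First exit from a ball.  PROOF.  `t = sInf {s ∈ [0,1] | r ≤ ‖γ s - c‖}` (a non-empty
closed set, it contains `1`, not `0`); continuity and the intermediate value theorem give equality
at `t`; `t < 1` since `r < ‖γ 1 - c‖`. -/
theorem th4_exit {γ : ℝ → ℂ} {e : Set ℂ} {c y : ℂ} {r : ℝ} (h : Par γ e c y) (hr : 0 < r)
    (hy : r < ‖y - c‖) :
    ∃ t ∈ Ioo (0 : ℝ) 1, ‖γ t - c‖ = r ∧ ∀ s ∈ Ico (0 : ℝ) t, ‖γ s - c‖ < r := by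
  have hg : ContinuousOn (fun s => ‖γ s - c‖) (Icc 0 1) := (h.cont.sub continuousOn_const).norm
  set S : Set ℝ := {s | s ∈ Icc (0 : ℝ) 1 ∧ r ≤ ‖γ s - c‖} with hS
  have hSc : IsCompact S := by
    have h1 : S = Icc (0 : ℝ) 1 ∩ (fun s => ‖γ s - c‖) ⁻¹' Ici r := rfl
    rw [h1]
    exact isCompact_Icc.of_isClosed_subset (hg.preimage_isClosed_of_isClosed isClosed_Icc isClosed_Ici)
      inter_subset_left
  have hne : S.Nonempty := ⟨1, ⟨zero_le_one, le_rfl⟩, by rw [h.one]; exact hy.le⟩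
  have htS : sInf S ∈ S := hSc.sInf_mem hne
  set t := sInf S with ht
  have hlt : ∀ s ∈ Icc (0 : ℝ) 1, s < t → ‖γ s - c‖ < r := by
    intro s hs hst
    by_contra hcon
    exact absurd (csInf_le hSc.bddBelow ⟨hs, not_lt.1 hcon⟩) (not_le.2 hst)
  have h0 : ‖γ 0 - c‖ = 0 := by rw [h.zero]; simp
  have ht0 : 0 < t := by
    rcases eq_or_lt_of_le htS.1.1 with h1 | h1
    · exfalso
      have := htS.2
      rw [← h1, h0] at this
      linarith
    · exact h1
  have hgt : ‖γ t - c‖ = r := by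
    have hsub : Icc 0 t ⊆ Icc (0 : ℝ) 1 := Icc_subset_Icc_right htS.1.2
    have hiv := intermediate_value_Icc ht0.le (hg.mono hsub)
    obtain ⟨s, hs, hsr⟩ := hiv ⟨by rw [h0]; exact hr.le, htS.2⟩
    simp only at hsr
    rcases eq_or_lt_of_le hs.2 with h1 | h1
    · rw [← h1]; exact hsr
    · exact absurd hsr (hlt s (hsub hs) h1).ne
  have ht1 : t < 1 := by
    rcases eq_or_lt_of_le htS.1.2 with h1 | h1
    · exfalso
      rw [h1, h.one] at hgt
      linarith
    · exact h1
  exact ⟨t, ⟨ht0, ht1⟩, hgt, fun s hs => hlt s ⟨hs.1, by linarith [hs.2]⟩ hs.2⟩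

end H53P
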