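import Pool.Agent.Lib.H53P.TH1
import Pool.Agent.Lib.H53P.TE5

/-! # H53P, topology, file H5: loops near a vertex -/

open Set

namespace H53P

/-- an arc `e` from `c` parametrised by `γ` which leaves the ball of radius `r` for the first time
at the time `t` in the point with angle `θ` -/
structure Leaves (γ : ℝ → ℂ) (e : Set ℂ) (c y : ℂ) (r t θ : ℝ) : Prop where
  isPar : Par γ e c y
  time : t ∈ Ioo (0 : ℝ) 1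
  exit : γ t = cpt c r θ
  before : ∀ s ∈ Ico (0 : ℝ) t, ‖γ s - c‖ < r

/-- the closed chain: out along `γ₁`, along the circle, back along `γ₂` -/
noncomputable def loop (γ₁ γ₂ : ℝ → ℂ) (c : ℂ) (r t₁ t₂ θ₁ θ₂ : ℝ) : Ch :=
  [(γ₁ '' Icc 0 t₁, c, γ₁ t₁), (arcS c r θ₁ θ₂, γ₁ t₁, γ₂ t₂), (γ₂ '' Icc 0 t₂, γ₂ t₂, c)]

theorem th5_cpt_norm (c : ℂ) {r : ℝ} (hr : 0 < r) (θ : ℝ) : ‖cpt c r θ - c‖ = r := by
  unfold cpt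
  rw [add_sub_cancel_left, norm_mul, Complex.norm_exp_ofReal_mul_I, mul_one, Complex.norm_real, Real.norm_eq_abs,
    abs_of_pos hr]

theorem th5_cpt_inj {c : ℂ} {r a b : ℝ} (hr : 0 < r) (h : cpt c r a = cpt c r b) (hd : |a - b| < 2 * Real.pi) :
    a = b := by
  unfold cpt at h
  have h1 : Complex.exp (a * Complex.I) = Complex.exp (b * Complex.I) := by
    have hr' : (r : ℂ) ≠ 0 := Complex.ofReal_ne_zero.2 hr.ne'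
    exact mul_left_cancel₀ hr' (add_left_cancel h)
  rw [Complex.exp_eq_exp_iff_exists_int] at h1
  obtain ⟨n, hn⟩ := h1
  have h1 : (a : ℂ) = b + n * (2 * Real.pi) := by
    have h2 : ((a : ℂ) - (b + n * (2 * Real.pi))) * Complex.I = 0 := by linear_combination hn
    rcases mul_eq_zero.1 h2 with h3 | h3
    · exact sub_eq_zero.1 h3
    · exact absurd h3 Complex.I_ne_zero
  have h2 : a = b + n * (2 * Real.pi) := by exact_mod_cast h1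
  have h3 : a - b = n * (2 * Real.pi) := by rw [h2]; ring
  rw [h3, abs_mul, abs_of_pos (by positivity : (0 : ℝ) < 2 * Real.pi)] at hd
  have hn0 : n = 0 := by
    by_contra hne
    have h4 : (1 : ℝ) ≤ |(n : ℝ)| := by exact_mod_cast Int.one_le_abs hne
    nlinarith [Real.pi_pos]
  rw [hn0] at h2
  simpa using h2

theorem th5_arc_norm {c : ℂ} {r α β : ℝ} (hr : 0 < r) {w : ℂ} (hw : w ∈ arcS c r α β) : ‖w - c‖ = r := by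
  obtain ⟨t, _, rfl⟩ := hw
  exact th5_cpt_norm c hr t

theorem th5_le {γ : ℝ → ℂ} {e : Set ℂ} {c y : ℂ} {r t θ : ℝ} (hr : 0 < r) (h : Leaves γ e c y r t θ) {w : ℂ}
    (hw : w ∈ γ '' Icc 0 t) : ‖w - c‖ ≤ r := by
  obtain ⟨s, hs, rfl⟩ := hw
  rcases hs.2.eq_or_lt with h1 | h1
  · rw [h1, h.exit, th5_cpt_norm c hr]
  · exact (h.before s ⟨hs.1, h1⟩).le

theorem th5_not {γ γ₃ : ℝ → ℂ} {e e₃ : Set ℂ} {c y y₃ : ℂ} {r t θ t₃ θ₃ : ℝ} (h : Leaves γ e c y r t θ)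
    (h₃ : Leaves γ₃ e₃ c y₃ r t₃ θ₃) (hi : e ∩ e₃ = {c}) {s : ℝ} (hs : s ∈ Ioc 0 t₃) : γ₃ s ∉ γ '' Icc 0 t := by
  rintro ⟨u, hu, hus⟩
  have m1 : γ₃ s ∈ e₃ := by
    rw [← h₃.isPar.image]
    exact ⟨s, ⟨hs.1.le, hs.2.trans h₃.time.2.le⟩, rfl⟩
  have m2 : γ₃ s ∈ e := by
    rw [← hus, ← h.isPar.image]
    exact ⟨u, ⟨hu.1, hu.2.trans h.time.2.le⟩, rfl⟩
  have m3 : γ₃ s ∈ e ∩ e₃ := ⟨m2, m1⟩
  rw [hi] at m3
  have m4 : γ₃ s = γ₃ 0 := by rw [h₃.isPar.zero]; exact m3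
  have m5 := h₃.isPar.inj ⟨hs.1.le, hs.2.trans h₃.time.2.le⟩ ⟨le_rfl, zero_le_one⟩ m4
  exact hs.1.ne' m5

/-- A loop with a piece `S` of the circle which does not contain the exit of the third arc. -/
theorem th5_gen {γ₁ γ₂ γ₃ : ℝ → ℂ} {e₁ e₂ e₃ : Set ℂ} {c y₁ y₂ y₃ : ℂ}
    {r t₁ t₂ t₃ θ₁ θ₂ θ₃ : ℝ} (hr : 0 < r) (h₁ : Leaves γ₁ e₁ c y₁ r t₁ θ₁)
    (h₂ : Leaves γ₂ e₂ c y₂ r t₂ θ₂) (h₃ : Leaves γ₃ e₃ c y₃ r t₃ θ₃)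
    (h13 : e₁ ∩ e₃ = {c}) (h23 : e₂ ∩ e₃ = {c}) {S : Set ℂ} (hS : Cell S) (hSr : ∀ w ∈ S, ‖w - c‖ = r)
    (hS1 : γ₁ t₁ ∈ S) (hS2 : γ₂ t₂ ∈ S) {s : ℝ} (hs : s ∈ Ioo 0 t₃) :
    PathCh c c [(γ₁ '' Icc 0 t₁, c, γ₁ t₁), (S, γ₁ t₁, γ₂ t₂), (γ₂ '' Icc 0 t₂, γ₂ t₂, c)] ∧
    γ₃ s ∉ csupp [(γ₁ '' Icc 0 t₁, c, γ₁ t₁), (S, γ₁ t₁, γ₂ t₂), (γ₂ '' Icc 0 t₂, γ₂ t₂, c)] ∧
    (cpt c r θ₃ ∉ S →
      csum [(γ₁ '' Icc 0 t₁, c, γ₁ t₁), (S, γ₁ t₁, γ₂ t₂), (γ₂ '' Icc 0 t₂, γ₂ t₂, c)] (γ₃ s) = 0) := by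
  have hp : PathCh c c [(γ₁ '' Icc 0 t₁, c, γ₁ t₁), (S, γ₁ t₁, γ₂ t₂), (γ₂ '' Icc 0 t₂, γ₂ t₂, c)] := by
    refine ⟨te0_cell h₁.isPar le_rfl h₁.time.2.le, ?_, ?_, rfl, hS, hS1, hS2, rfl,
      te0_cell h₂.isPar le_rfl h₂.time.2.le, ?_, ?_, rfl, rfl⟩
    · exact ⟨0, ⟨le_rfl, h₁.time.1.le⟩, h₁.isPar.zero⟩
    · exact ⟨t₁, ⟨h₁.time.1.le, le_rfl⟩, rfl⟩
    · exact ⟨t₂, ⟨h₂.time.1.le, le_rfl⟩, rfl⟩
    · exact ⟨0, ⟨le_rfl, h₂.time.1.le⟩, h₂.isPar.zero⟩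
  have hsupp : csupp [(γ₁ '' Icc 0 t₁, c, γ₁ t₁), (S, γ₁ t₁, γ₂ t₂), (γ₂ '' Icc 0 t₂, γ₂ t₂, c)] =
      γ₁ '' Icc 0 t₁ ∪ (S ∪ γ₂ '' Icc 0 t₂) := by
    simp only [csupp_cons, csupp_nil, union_empty]
  refine ⟨hp, ?_, ?_⟩
  · rw [hsupp]
    rintro (h | h | h)
    · exact th5_not h₁ h₃ h13 ⟨hs.1, hs.2.le⟩ h
    · have h5 := hSr _ h
      have h6 := h₃.before s ⟨hs.1.le, hs.2⟩
      linarith
    · exact th5_not h₂ h₃ h23 ⟨hs.1, hs.2.le⟩ h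
  · intro hθ
    have hle : ∀ w ∈ γ₁ '' Icc 0 t₁ ∪ (S ∪ γ₂ '' Icc 0 t₂), ‖w - c‖ ≤ r := by
      rintro w (h | h | h)
      · exact th5_le hr h₁ h
      · exact (hSr _ h).le
      · exact th5_le hr h₂ h
    have hγ₃ : ∀ u ∈ Ioc 0 t₃, γ₃ u ∉ γ₁ '' Icc 0 t₁ ∪ (S ∪ γ₂ '' Icc 0 t₂) := by
      intro u hu
      rintro (h | h | h)
      · exact th5_not h₁ h₃ h13 hu h
      · rcases hu.2.eq_or_lt with h5 | h5
        · rw [h5, h₃.exit] at h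
          exact hθ h
        · have h5' := hSr _ h
          have h6 := h₃.before u ⟨hu.1.le, h5⟩
          linarith
      · exact th5_not h₂ h₃ h23 hu h
    have hray : ∀ ρ : ℝ, r ≤ ρ → c + ρ * Complex.exp (θ₃ * Complex.I) ∉ γ₁ '' Icc 0 t₁ ∪ (S ∪ γ₂ '' Icc 0 t₂) := by
      intro ρ hρ h
      rcases hρ.eq_or_lt with h5 | h5
      · rw [← h5] at h
        have h6 := hγ₃ t₃ ⟨h₃.time.1, le_rfl⟩
        rw [h₃.exit] at h6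
        exact h6 h
      · have h6 := hle _ h
        rw [add_sub_cancel_left, norm_mul, Complex.norm_exp_ofReal_mul_I, mul_one, Complex.norm_real,
          Real.norm_eq_abs, abs_of_pos (hr.trans h5)] at h6
        linarith
    have hpre : IsPreconnected (γ₃ '' Ioc 0 t₃ ∪ (fun ρ : ℝ => c + ρ * Complex.exp (θ₃ * Complex.I)) '' Ici r) := by
      refine IsPreconnected.union (γ₃ t₃) ⟨t₃, ⟨h₃.time.1, le_rfl⟩, rfl⟩ ⟨r, mem_Ici.2 le_rfl, ?_⟩ ?_ ?_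
      · rw [h₃.exit]
        rfl
      · exact isPreconnected_Ioc.image _ (h₃.isPar.cont.mono fun u hu => ⟨hu.1.le, hu.2.trans h₃.time.2.le⟩)
      · exact isPreconnected_Ici.image _ (Continuous.continuousOn (by fun_prop))
    have hdis : Disjoint (γ₃ '' Ioc 0 t₃ ∪ (fun ρ : ℝ => c + ρ * Complex.exp (θ₃ * Complex.I)) '' Ici r)
        (csupp [(γ₁ '' Icc 0 t₁, c, γ₁ t₁), (S, γ₁ t₁, γ₂ t₂), (γ₂ '' Icc 0 t₂, γ₂ t₂, c)]) := by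
      rw [hsupp, Set.disjoint_left]
      rintro w (⟨u, hu, rfl⟩ | ⟨ρ, hρ, rfl⟩)
      · exact hγ₃ u hu
      · exact hray ρ hρ
    have hcon := tc3_const hp hpre hdis (z := γ₃ s) (z' := c + ((2 * r : ℝ) : ℂ) * Complex.exp (θ₃ * Complex.I))
      (Or.inl ⟨s, ⟨hs.1, hs.2.le⟩, rfl⟩) (Or.inr ⟨2 * r, by rw [mem_Ici]; linarith, rfl⟩)
    rw [hcon]
    refine tb7_inside hp (th3_ball c r) ?_ ?_
    · rw [hsupp]
      intro w hw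
      rw [mem_closedBall_iff_norm]
      exact hle w hw
    · rw [mem_closedBall_iff_norm, add_sub_cancel_left, norm_mul, Complex.norm_exp_ofReal_mul_I, mul_one,
        Complex.norm_real, Real.norm_eq_abs, abs_of_pos (by linarith)]
      linarith

/-- (TH5, M) The parity of the loop along a third arc is given by the angles.
PROOF.  The loop is a closed chain (`te0_cell`, `th1_cell`), its support lies in
`closedBall c r`, and meets the circle only in the arc `arcS c r θ₁ θ₂` (the parts of `γ₁, γ₂` are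
inside, `Leaves.before`).
(a) `θ₃ ∉ [θ₁, θ₂]`: the point `γ₃ t₃ = cpt c r θ₃` is not on `arcS c r θ₁ θ₂` (all angles in
`[θ₀, θ₀ + 2π)`, so the angle determines the point), and the set `γ₃ '' Ioc 0 t₃ ∪
{c + ρ e^{iθ₃} | r ≤ ρ}` is preconnected and disjoint from the support (`γ₃` meets `γ₁, γ₂` only
in `c`).  At the far point `c + 2 r e^{iθ₃}`, outside the cell `closedBall c r`, `csum = 0`
(`tb7_inside`, `th3_ball`).  So `csum = 0` at `γ₃ s` (`tc3_const`), and `par = false`.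
(b) `θ₁ < θ₃ < θ₂`: compare with the loop which uses the complementary arc
`arcS c r θ₂ (θ₁ + 2π)` from `cpt θ₁` to `cpt θ₂` (i.e. `dl ... (γ₁ t₁) (γ₂ t₂)` along that arc); its
`csum` at `γ₃ s` is `0` by the argument of (a).  The difference of the two `csum`s is
`dl (arcS θ₁ θ₂) (cpt θ₁) (cpt θ₂) z - dl (arcS θ₂ (θ₁+2π)) (cpt θ₁) (cpt θ₂) z = 2πi`
(`th2_circle`, `dl_symm`; `‖γ₃ s - c‖ < r`).  So `csum = 2πi`, `par = true`. -/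
theorem th5_loop {γ₁ γ₂ γ₃ : ℝ → ℂ} {e₁ e₂ e₃ : Set ℂ} {c y₁ y₂ y₃ : ℂ}
    {r t₁ t₂ t₃ θ₁ θ₂ θ₃ θ₀ : ℝ} (hr : 0 < r) (h₁ : Leaves γ₁ e₁ c y₁ r t₁ θ₁)
    (h₂ : Leaves γ₂ e₂ c y₂ r t₂ θ₂) (h₃ : Leaves γ₃ e₃ c y₃ r t₃ θ₃)
    (h12 : e₁ ∩ e₂ = {c}) (h13 : e₁ ∩ e₃ = {c}) (h23 : e₂ ∩ e₃ = {c})
    (a₁ : θ₁ ∈ Ico θ₀ (θ₀ + 2 * Real.pi)) (a₂ : θ₂ ∈ Ico θ₀ (θ₀ + 2 * Real.pi))
    (a₃ : θ₃ ∈ Ico θ₀ (θ₀ + 2 * Real.pi)) (hlt : θ₁ < θ₂) (hn1 : θ₃ ≠ θ₁) (hn2 : θ₃ ≠ θ₂)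
    {s : ℝ} (hs : s ∈ Ioo 0 t₃) :
    PathCh c c (loop γ₁ γ₂ c r t₁ t₂ θ₁ θ₂) ∧
    γ₃ s ∉ csupp (loop γ₁ γ₂ c r t₁ t₂ θ₁ θ₂) ∧
    par (loop γ₁ γ₂ c r t₁ t₂ θ₁ θ₂) (γ₃ s) = decide (θ₁ < θ₃ ∧ θ₃ < θ₂) := by
  have hpi := Real.pi_pos
  have c1 : Cell (arcS c r θ₁ θ₂) := th1_cell c hr (by linarith [a₁.1, a₂.2])
  have c2 : Cell (arcS c r θ₂ (θ₁ + 2 * Real.pi)) := th1_cell c hr (by linarith)
  have m1 : γ₁ t₁ ∈ arcS c r θ₁ θ₂ := ⟨θ₁, ⟨le_rfl, hlt.le⟩, by rw [h₁.exit]; rfl⟩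
  have m2 : γ₂ t₂ ∈ arcS c r θ₁ θ₂ := ⟨θ₂, ⟨hlt.le, le_rfl⟩, by rw [h₂.exit]; rfl⟩
  have m3 : γ₂ t₂ ∈ arcS c r θ₂ (θ₁ + 2 * Real.pi) := ⟨θ₂, ⟨le_rfl, by linarith [a₁.1, a₂.2]⟩, by rw [h₂.exit]; rfl⟩
  have hper : cpt c r (θ₁ + 2 * Real.pi) = cpt c r θ₁ := by
    unfold cpt
    push_cast
    rw [add_mul, Complex.exp_add, Complex.exp_two_pi_mul_I, mul_one]
  have m4 : γ₁ t₁ ∈ arcS c r θ₂ (θ₁ + 2 * Real.pi) :=
    ⟨θ₁ + 2 * Real.pi, ⟨by linarith [a₁.1, a₂.2], le_rfl⟩, by rw [h₁.exit, ← hper]; rfl⟩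
  obtain ⟨g1, g2, g3⟩ := th5_gen hr h₁ h₂ h₃ h13 h23 c1 (fun w hw => th5_arc_norm hr hw) m1 m2 hs
  refine ⟨g1, g2, ?_⟩
  have h2pi : (2 * Real.pi * Complex.I : ℂ) ≠ 0 := Complex.two_pi_I_ne_zero
  by_cases hb : θ₁ < θ₃ ∧ θ₃ < θ₂
  · rw [decide_eq_true hb]
    obtain ⟨k1, k2, k3⟩ := th5_gen hr h₁ h₂ h₃ h13 h23 c2 (fun w hw => th5_arc_norm hr hw) m4 m3 hs
    have hθ : cpt c r θ₃ ∉ arcS c r θ₂ (θ₁ + 2 * Real.pi) := by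
      rintro ⟨t, ht, e⟩
      have h5 : cpt c r t = cpt c r θ₃ := e
      have h6 := th5_cpt_inj hr h5 (by
        rw [abs_lt]
        exact ⟨by linarith [ht.1, hb.2], by linarith [ht.2, hb.1]⟩)
      linarith [ht.1, hb.2]
    have k4 := k3 hθ
    have k5 := th2_circle c hr hlt (by linarith [a₁.1, a₂.2]) (z := γ₃ s) (h₃.before s ⟨hs.1.le, hs.2⟩)
    rw [← h₁.exit, ← h₂.exit] at k5
    have k6 := dl_symm (arcS c r θ₂ (θ₁ + 2 * Real.pi)) (γ₂ t₂) (γ₁ t₁) (γ₃ s)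
    refine @decide_eq_true _ (Classical.dec _) ⟨0, ?_⟩
    simp only [csum_cons, csum_nil, add_zero] at k4
    unfold loop
    simp only [csum_cons, csum_nil, add_zero]
    push_cast
    linear_combination k4 + k5 - k6
  · rw [decide_eq_false hb]
    have hθ : cpt c r θ₃ ∉ arcS c r θ₁ θ₂ := by
      rintro ⟨t, ht, e⟩
      have h5 : cpt c r t = cpt c r θ₃ := e
      have h6 := th5_cpt_inj hr h5 (by
        rw [abs_lt]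
        exact ⟨by linarith [ht.1, a₁.1, a₃.2], by linarith [ht.2, a₂.2, a₃.1]⟩)
      rw [h6] at ht
      exact hb ⟨lt_of_le_of_ne ht.1 hn1.symm, lt_of_le_of_ne ht.2 hn2⟩
    have g4 := g3 hθ
    refine @decide_eq_false _ (Classical.dec _) ?_
    rintro ⟨m, hm⟩
    unfold loop at hm
    rw [g4] at hm
    have h5 : ((2 * m + 1 : ℤ) : ℂ) = 0 := by
      rcases mul_eq_zero.1 hm.symm with h6 | h6
      · push_cast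
        exact h6
      · exact absurd h6 h2pi
    have h6 : 2 * m + 1 = 0 := by exact_mod_cast h5
    omega

end H53P
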