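import Pool.Agent.Lib.H53P.TH5
import Pool.Agent.Lib.H53P.TF1

/-! # H53P, topology, file H7: a triangle near its vertex -/

open Set Topology

namespace H53P

open SimpleDraw

variable {n : ℕ} (D : SimpleDrawing n)

theorem th7_norm {c : ℂ} {r : ℝ} (hr : 0 < r) (θ : ℝ) : ‖cpt c r θ - c‖ = r := by
  rw [cpt, add_sub_cancel_left, norm_mul, Complex.norm_exp_ofReal_mul_I, mul_one,
    Complex.norm_real, Real.norm_eq_abs, abs_of_pos hr]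

/-- (TH6, S) a good radius.  PROOF.  Finitely many compact sets `D.curve a b` (`a, b ≠ u`,
`a ≠ b`) not containing `D.pt u` (`D.vertex`), and finitely many points `D.pt x ≠ D.pt u`. -/
theorem th6_radius (u : Fin n) : ∃ r > 0, (∀ a b, a ≠ b → a ≠ u → b ≠ u →
    Disjoint (Metric.closedBall (D.pt u) r) (D.curve a b)) ∧
    ∀ x, x ≠ u → r < ‖D.pt x - D.pt u‖ := by
  have h1 : ∀ᶠ r in 𝓝[>] (0 : ℝ), ∀ a b, a ≠ b → a ≠ u → b ≠ u →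
      Disjoint (Metric.closedBall (D.pt u) r) (D.curve a b) := by
    refine Filter.eventually_all.2 fun a => Filter.eventually_all.2 fun b => ?_
    by_cases hab : a ≠ b ∧ a ≠ u ∧ b ≠ u
    · obtain ⟨hab, hau, hbu⟩ := hab
      have hn : D.pt u ∉ D.curve a b := D.vertex a b u hab hau.symm hbu.symm
      obtain ⟨ρ, hρ, hρs⟩ := Metric.isOpen_iff.1 (tf2_cell D hab).compact.isClosed.isOpen_compl
        (D.pt u) hn
      filter_upwards [Ioo_mem_nhdsGT hρ] with r hr _ _ _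
      rw [disjoint_left]
      intro z hz hz'
      refine hρs ?_ hz'
      rw [Metric.mem_closedBall] at hz
      rw [Metric.mem_ball]
      exact hz.trans_lt hr.2
    · exact Filter.Eventually.of_forall fun r h1 h2 h3 => absurd ⟨h1, h2, h3⟩ hab
  have h2 : ∀ᶠ r in 𝓝[>] (0 : ℝ), ∀ x, x ≠ u → r < ‖D.pt x - D.pt u‖ := by
    refine Filter.eventually_all.2 fun x => ?_
    by_cases hx : x = u
    · exact Filter.Eventually.of_forall fun r h1 => absurd hx h1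
    · have hpos : 0 < ‖D.pt x - D.pt u‖ :=
        norm_pos_iff.2 (sub_ne_zero.2 fun h => hx (D.pt_inj h))
      filter_upwards [Ioo_mem_nhdsGT hpos] with r hr _
      exact hr.2
  obtain ⟨r, ⟨h3, h4⟩, h5⟩ := ((h1.and h2).and self_mem_nhdsWithin).exists
  exact ⟨r, h5, h3, h4⟩

/-- (TH7, M) The triangle `u a b` near `u`.
PROOF.  Let `P₁ = γ₁ t₁`, `P₂ = γ₂ t₂`.  For `z` off `D.curve u a`, `D.curve a b`, `D.curve b u` and
the circle arc: `csum (tch D u a b) z = csum (loop ...) z + csum C₂ z` where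
`C₂ = [(γ₁ '' Icc t₁ 1, P₁, D.pt a), (D.curve a b, D.pt a, D.pt b), (γ₂ '' Icc t₂ 1, D.pt b, P₂),
(arcS, P₂, P₁)]` is a closed chain (split `dl (D.curve u a) (D.pt u) (D.pt a) z` with `dl_add` and
restrict to the sub-arcs with `tb3_mono`; `dl_symm` for the circle arc and for the orientation of
`D.curve b u`).  The support of `C₂` is compact and does not contain `D.pt u`
(`γ₁, γ₂` injective), so it is disjoint from a ball `ball (D.pt u) ρ₀`, on which `csum C₂` is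
constant (`tc3_const`), equal to `k₀ * 2πi`; let `κ` be the parity of `k₀`.  For
`z = γ₃ s ∈ ball (D.pt u) ρ₀`, `0 < s < t₃`, use `th5_loop`. -/
theorem th7_near {u a b : Fin n} (hua : u ≠ a) (hub : u ≠ b) (hab : a ≠ b) {γ₁ γ₂ : ℝ → ℂ}
    {r t₁ t₂ θ₁ θ₂ θ₀ : ℝ} (hr : 0 < r)
    (h₁ : Leaves γ₁ (D.curve u a) (D.pt u) (D.pt a) r t₁ θ₁)
    (h₂ : Leaves γ₂ (D.curve u b) (D.pt u) (D.pt b) r t₂ θ₂)
    (a₁ : θ₁ ∈ Ico θ₀ (θ₀ + 2 * Real.pi)) (a₂ : θ₂ ∈ Ico θ₀ (θ₀ + 2 * Real.pi)) (hlt : θ₁ < θ₂)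
    (hd : Disjoint (Metric.closedBall (D.pt u) r) (D.curve a b)) :
    ∃ κ : Bool, ∃ ρ₀ > 0, ∀ (y : Fin n) (γ₃ : ℝ → ℂ) (t₃ θ₃ : ℝ), y ≠ u → y ≠ a → y ≠ b →
      Leaves γ₃ (D.curve u y) (D.pt u) (D.pt y) r t₃ θ₃ → θ₃ ∈ Ico θ₀ (θ₀ + 2 * Real.pi) →
      θ₃ ≠ θ₁ → θ₃ ≠ θ₂ → ∀ s ∈ Ioo 0 t₃, ‖γ₃ s - D.pt u‖ < ρ₀ →
      par (tch D u a b) (γ₃ s) = (decide (θ₁ < θ₃ ∧ θ₃ < θ₂) ^^ κ) := by
  have hπ := Real.pi_pos
  have ht₁ := h₁.time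
  have ht₂ := h₂.time
  have hPc : ‖γ₁ t₁ - D.pt u‖ = r := by
    rw [h₁.exit]
    exact th7_norm hr θ₁
  have hlen : θ₂ - θ₁ < 2 * Real.pi := by
    have := a₁.1
    have := a₂.2
    linarith
  set P₁ := γ₁ t₁ with hP₁
  set P₂ := γ₂ t₂ with hP₂
  set C₂ : Ch := [(γ₁ '' Icc t₁ 1, P₁, D.pt a), (D.curve a b, D.pt a, D.pt b),
    (γ₂ '' Icc t₂ 1, D.pt b, P₂), (arcS (D.pt u) r θ₁ θ₂, P₂, P₁)] with hC₂
  have hm₁ : P₁ ∈ arcS (D.pt u) r θ₁ θ₂ := ⟨θ₁, ⟨le_rfl, hlt.le⟩, h₁.exit.symm⟩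
  have hm₂ : P₂ ∈ arcS (D.pt u) r θ₁ θ₂ := ⟨θ₂, ⟨hlt.le, le_rfl⟩, h₂.exit.symm⟩
  have hpath : PathCh P₁ P₁ C₂ :=
    ⟨te0_cell h₁.isPar ht₁.1.le le_rfl, ⟨t₁, ⟨le_rfl, ht₁.2.le⟩, rfl⟩,
      ⟨1, ⟨ht₁.2.le, le_rfl⟩, h₁.isPar.one⟩, rfl,
      tf2_cell D hab, (tf3_mem D hab).1, (tf3_mem D hab).2, rfl,
      te0_cell h₂.isPar ht₂.1.le le_rfl, ⟨1, ⟨ht₂.2.le, le_rfl⟩, h₂.isPar.one⟩,
      ⟨t₂, ⟨le_rfl, ht₂.2.le⟩, rfl⟩, rfl,
      th1_cell _ hr hlen, hm₂, hm₁, rfl, rfl⟩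
  have hsupp : csupp C₂ = γ₁ '' Icc t₁ 1 ∪ (D.curve a b ∪ (γ₂ '' Icc t₂ 1 ∪
      arcS (D.pt u) r θ₁ θ₂)) := by
    rw [hC₂, csupp_cons, csupp_cons, csupp_cons, csupp_cons, csupp_nil, union_empty]
  have hu : D.pt u ∉ csupp C₂ := by
    rw [hsupp]
    rintro (h | h | h | h)
    · obtain ⟨s, hs, hs'⟩ := h
      rw [← h₁.isPar.zero] at hs'
      have h3 := h₁.isPar.inj ⟨ht₁.1.le.trans hs.1, hs.2⟩ ⟨le_rfl, zero_le_one⟩ hs'
      linarith [ht₁.1, hs.1]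
    · exact disjoint_left.1 hd (Metric.mem_closedBall_self hr.le) h
    · obtain ⟨s, hs, hs'⟩ := h
      rw [← h₂.isPar.zero] at hs'
      have h3 := h₂.isPar.inj ⟨ht₂.1.le.trans hs.1, hs.2⟩ ⟨le_rfl, zero_le_one⟩ hs'
      linarith [ht₂.1, hs.1]
    · obtain ⟨s, hs, hs'⟩ := h
      have h3 := th7_norm (c := D.pt u) hr s
      have h4 : cpt (D.pt u) r s = D.pt u := hs'
      rw [h4, sub_self, norm_zero] at h3
      exact hr.ne h3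
  obtain ⟨ρ₀, hρ₀, hball⟩ := Metric.isOpen_iff.1 (tc4_compact hpath).isClosed.isOpen_compl
    (D.pt u) hu
  obtain ⟨k₀, hk₀⟩ := tb6_closed hpath hu
  refine ⟨decide (Odd k₀), ρ₀, hρ₀, ?_⟩
  intro y γ₃ t₃ θ₃ hyu hya hyb h₃ a₃ hn1 hn2 s hs hsρ
  have hzb : γ₃ s ∈ Metric.ball (D.pt u) ρ₀ := by
    rw [Metric.mem_ball, dist_eq_norm]
    exact hsρ
  have hz2 : γ₃ s ∉ csupp C₂ := hball hzb
  have hcs : csum C₂ (γ₃ s) = k₀ * (2 * Real.pi * Complex.I) := by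
    rw [← hk₀]
    exact tc3_const hpath (convex_ball (D.pt u) ρ₀).isPreconnected
      (disjoint_left.2 fun z hz hz' => hball hz hz') hzb (Metric.mem_ball_self hρ₀)
  have hI₁ := tf4_adj D hua hub hab
  have hI₁₃ := tf4_adj D hua hyu.symm hya.symm
  have hI₂₃ := tf4_adj D hub hyu.symm hyb.symm
  obtain ⟨hLp, hzL, hLpar⟩ := th5_loop hr h₁ h₂ h₃ hI₁ hI₁₃ hI₂₃ a₁ a₂ a₃ hlt hn1 hn2 hs
  have hs1 : s ∈ Icc (0 : ℝ) 1 := ⟨hs.1.le, hs.2.le.trans h₃.time.2.le⟩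
  have hz3 : γ₃ s ∈ D.curve u y := by
    rw [← h₃.isPar.image]
    exact ⟨s, hs1, rfl⟩
  have hzu : γ₃ s ≠ D.pt u := fun h => by
    rw [← h₃.isPar.zero] at h
    have h3 := h₃.isPar.inj hs1 ⟨le_rfl, zero_le_one⟩ h
    exact hs.1.ne' h3
  have hzua : γ₃ s ∉ D.curve u a := fun h => by
    have h2 : γ₃ s ∈ D.curve u a ∩ D.curve u y := ⟨h, hz3⟩
    rw [hI₁₃] at h2
    exact hzu h2
  have hzub : γ₃ s ∉ D.curve u b := fun h => by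
    have h2 : γ₃ s ∈ D.curve u b ∩ D.curve u y := ⟨h, hz3⟩
    rw [hI₂₃] at h2
    exact hzu h2
  have hzab : γ₃ s ∉ D.curve a b := fun h => hz2 (by
    rw [hsupp]
    exact Or.inr (Or.inl h))
  have hlog₁ := (tf2_cell D hua).log _ hzua
  have hlog₂ := (tf2_cell D hub).log _ hzub
  have hsub₁ : ∀ {s t : ℝ}, 0 ≤ s → t ≤ 1 → γ₁ '' Icc s t ⊆ D.curve u a := by
    intro s t hs ht
    rw [← h₁.isPar.image]
    exact image_mono (Icc_subset_Icc hs ht)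
  have hsub₂ : ∀ {s t : ℝ}, 0 ≤ s → t ≤ 1 → γ₂ '' Icc s t ⊆ D.curve u b := by
    intro s t hs ht
    rw [← h₂.isPar.image]
    exact image_mono (Icc_subset_Icc hs ht)
  have e1 : dl (γ₁ '' Icc 0 t₁) (D.pt u) P₁ (γ₃ s) = dl (D.curve u a) (D.pt u) P₁ (γ₃ s) :=
    tb3_mono (te0_cell h₁.isPar le_rfl ht₁.2.le).conn (hsub₁ le_rfl ht₁.2.le) hlog₁
      ⟨0, ⟨le_rfl, ht₁.1.le⟩, h₁.isPar.zero⟩ ⟨t₁, ⟨ht₁.1.le, le_rfl⟩, rfl⟩
  have e2 : dl (γ₁ '' Icc t₁ 1) P₁ (D.pt a) (γ₃ s) = dl (D.curve u a) P₁ (D.pt a) (γ₃ s) :=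
    tb3_mono (te0_cell h₁.isPar ht₁.1.le le_rfl).conn (hsub₁ ht₁.1.le le_rfl) hlog₁
      ⟨t₁, ⟨le_rfl, ht₁.2.le⟩, rfl⟩ ⟨1, ⟨ht₁.2.le, le_rfl⟩, h₁.isPar.one⟩
  have e3 : dl (γ₂ '' Icc 0 t₂) P₂ (D.pt u) (γ₃ s) = dl (D.curve u b) P₂ (D.pt u) (γ₃ s) :=
    tb3_mono (te0_cell h₂.isPar le_rfl ht₂.2.le).conn (hsub₂ le_rfl ht₂.2.le) hlog₂
      ⟨t₂, ⟨ht₂.1.le, le_rfl⟩, rfl⟩ ⟨0, ⟨le_rfl, ht₂.1.le⟩, h₂.isPar.zero⟩
  have e4 : dl (γ₂ '' Icc t₂ 1) (D.pt b) P₂ (γ₃ s) = dl (D.curve u b) (D.pt b) P₂ (γ₃ s) :=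
    tb3_mono (te0_cell h₂.isPar ht₂.1.le le_rfl).conn (hsub₂ ht₂.1.le le_rfl) hlog₂
      ⟨1, ⟨ht₂.2.le, le_rfl⟩, h₂.isPar.one⟩ ⟨t₂, ⟨le_rfl, ht₂.2.le⟩, rfl⟩
  have e5 := dl_add (D.curve u a) (D.pt u) P₁ (D.pt a) (γ₃ s)
  have e6 := dl_add (D.curve u b) (D.pt b) P₂ (D.pt u) (γ₃ s)
  have e7 := dl_symm (arcS (D.pt u) r θ₁ θ₂) P₂ P₁ (γ₃ s)
  have hsum : csum (tch D u a b) (γ₃ s) =
      csum (loop γ₁ γ₂ (D.pt u) r t₁ t₂ θ₁ θ₂) (γ₃ s) + csum C₂ (γ₃ s) := by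
    rw [hC₂, loop, tch]
    simp only [csum_cons, csum_nil, add_zero]
    rw [← hP₁, ← hP₂, e1, e2, e3, e4, e7, D.curve_symm b u, ← e5, ← e6]
    ring
  obtain ⟨k, hk, hkp⟩ := te5_par hLp hzL
  have hTp := tf7_path D hua hab hub.symm
  have hzT : γ₃ s ∉ csupp (tch D u a b) := by
    rw [tch, csupp_cons, csupp_cons, csupp_cons, csupp_nil, union_empty]
    rintro (h | h | h)
    · exact hzua h
    · exact hzab h
    · rw [D.curve_symm] at h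
      exact hzub h
  obtain ⟨k', hk', hkp'⟩ := te5_par hTp hzT
  have hkk : k' = k + k₀ := by
    rw [hk, hcs, hk', ← add_mul] at hsum
    have h5 := mul_right_cancel₀ Complex.two_pi_I_ne_zero hsum
    exact_mod_cast h5
  rw [← hLpar]
  rw [hkk, Int.odd_add] at hkp'
  rw [Bool.eq_iff_iff, hkp', Bool.xor_comm]
  by_cases ho : Odd k₀
  · rw [decide_eq_true ho, Bool.true_xor, Bool.not_eq_true', ← Bool.not_eq_true, hkp]
    rw [← Int.not_odd_iff_even]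
    tauto
  · rw [decide_eq_false ho, Bool.false_xor, hkp]
    rw [← Int.not_odd_iff_even]
    tauto

/-- (TH8, S) orientation reversal.  PROOF.  `csum (tch D u b a) z = - csum (tch D u a b) z`
(`dl_symm`, `D.curve_symm`, permutation of the list), and `-(2m+1) = 2(-m-1)+1`. -/
theorem th8_rev (u a b : Fin n) (z : ℂ) : par (tch D u b a) z = par (tch D u a b) z := by
  have h1 : csum (tch D u b a) z = -csum (tch D u a b) z := by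
    rw [tch, tch]
    simp only [csum_cons, csum_nil, add_zero]
    rw [D.curve_symm b a, D.curve_symm a u, D.curve_symm b u, dl_symm (D.curve a b) (D.pt b),
      dl_symm (D.curve u a) (D.pt a), dl_symm (D.curve u b) (D.pt b)]
    ring
  unfold par
  rw [Bool.eq_iff_iff, @decide_eq_true_iff _ (Classical.dec _),
    @decide_eq_true_iff _ (Classical.dec _), h1]
  constructor
  · rintro ⟨m, hm⟩
    refine ⟨-m - 1, ?_⟩
    push_cast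
    linear_combination -hm
  · rintro ⟨m, hm⟩
    refine ⟨-m - 1, ?_⟩
    push_cast
    linear_combination -hm

end H53P
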